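import Pool.Agent.Run7.h90.AU.Ext

/-!
# The singular series and Euler's function
-/

set_option autoImplicit false
set_option linter.all false

namespace Pool.Agent.Run7.h90.AU

open Finset Filter Topology
open Pool.Agent.H560R3.GB (C₂ sing)
open scoped Classical

theorem C₂_le (S : Finset ℕ) (hS : ∀ l ∈ S, l.Prime ∧ 2 < l) :
    C₂ ≤ ∏ l ∈ S, (1 - 1 / ((l : ℝ) - 1) ^ 2) := by
  obtain ⟨z, hz⟩ : ∃ z, ∀ l ∈ S, l ≤ z := ⟨S.sup id, fun l hl => le_sup (f := id) hl⟩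
  have h1 : C₂ ≤ Ct z := ciInf_le ⟨0, by rintro _ ⟨w, rfl⟩; exact Ct_nonneg w⟩ z
  refine h1.trans ?_
  unfold Ct
  refine prod_le_prod_of_subset_of_le_one ?_ (fun l hl => ?_) (fun l hl _ => ?_)
  · intro l hl
    have := (hS l hl).2
    exact mem_filter.2 ⟨mem_Icc.2 ⟨by omega, hz l hl⟩, (hS l hl).1⟩
  · exact (fac01 (mem_Icc.1 (mem_filter.1 hl).1).1).1.le
  · exact (fac01 (mem_Icc.1 (mem_filter.1 hl).1).1).2

theorem sing_totient {E : ℕ} (hE : E ≠ 0) (hE2 : 2 ∣ E) :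
    C₂ * ((E : ℝ) / E.totient) ≤ sing E ∧ sing E ≤ (E : ℝ) / E.totient := by
  obtain ⟨S, hS⟩ : ∃ S, S = E.primeFactors.filter (fun p => 2 < p) := ⟨_, rfl⟩
  have hSp : ∀ l ∈ S, l.Prime ∧ 2 < l := by
    intro l hl
    rw [hS, mem_filter] at hl
    exact ⟨Nat.prime_of_mem_primeFactors hl.1, hl.2⟩
  have hset : E.primeFactors = insert 2 S := by
    ext l
    rw [mem_insert, hS, mem_filter, Nat.mem_primeFactors]
    constructor
    · rintro ⟨h1, h2, h3⟩
      rcases eq_or_ne l 2 with h | h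
      · exact Or.inl h
      · have := h1.two_le
        exact Or.inr ⟨⟨h1, h2, h3⟩, by omega⟩
    · rintro (h | h)
      · rw [h]
        exact ⟨Nat.prime_two, hE2, hE⟩
      · exact h.1
  have h2S : 2 ∉ S := by
    intro h
    exact absurd (hSp 2 h).2 (lt_irrefl 2)
  have hφ : (0 : ℝ) < E.totient := by exact_mod_cast Nat.totient_pos.2 (Nat.pos_of_ne_zero hE)
  have htot : (E : ℝ) / E.totient = 2 * ∏ l ∈ S, ((l : ℝ) / ((l : ℝ) - 1)) := by
    have h1 : ((E.totient : ℚ) : ℝ) = ((E * ∏ p ∈ E.primeFactors, (1 - (p : ℚ)⁻¹) : ℚ) : ℝ) := by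
      rw [Nat.totient_eq_mul_prod_factors]
    push_cast at h1
    rw [hset, prod_insert h2S] at h1
    have hE0 : (E : ℝ) ≠ 0 := by exact_mod_cast hE
    have h3 : (∏ l ∈ S, (1 - (l : ℝ)⁻¹)) * ∏ l ∈ S, ((l : ℝ) / ((l : ℝ) - 1)) = 1 := by
      rw [← prod_mul_distrib]
      apply prod_eq_one
      intro l hl
      have h4 : (2 : ℝ) < l := by exact_mod_cast (hSp l hl).2
      have h5 : (l : ℝ) ≠ 0 := by linarith
      have h6 : (l : ℝ) - 1 ≠ 0 := by linarith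
      field_simp
    rw [div_eq_iff hφ.ne', h1]
    calc (E : ℝ) = E * 1 := (mul_one _).symm
      _ = E * ((∏ l ∈ S, (1 - (l : ℝ)⁻¹)) * ∏ l ∈ S, ((l : ℝ) / ((l : ℝ) - 1))) := by rw [h3]
      _ = _ := by push_cast; ring
  have hquot : (∏ l ∈ S, (1 - 1 / ((l : ℝ) - 1) ^ 2)) * (∏ l ∈ S, (((l : ℝ) - 1) / ((l : ℝ) - 2))) =
      ∏ l ∈ S, ((l : ℝ) / ((l : ℝ) - 1)) := by
    rw [← prod_mul_distrib]
    apply prod_congr rfl
    intro l hl
    have h4 : (2 : ℝ) < l := by exact_mod_cast (hSp l hl).2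
    have h5 : (l : ℝ) - 2 ≠ 0 := by linarith
    have h6 : (l : ℝ) - 1 ≠ 0 := by linarith
    field_simp
    ring
  have hP0 : 0 ≤ ∏ l ∈ S, (((l : ℝ) - 1) / ((l : ℝ) - 2)) := by
    apply prod_nonneg
    intro l hl
    have h4 : (2 : ℝ) < l := by exact_mod_cast (hSp l hl).2
    exact div_nonneg (by linarith) (by linarith)
  have hC := C₂_pos
  have hsing : sing E = 2 * C₂ * ∏ l ∈ S, (((l : ℝ) - 1) / ((l : ℝ) - 2)) := by
    unfold sing
    rw [hS]
  constructor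
  · rw [htot, hsing]
    have h1 : ∏ l ∈ S, ((l : ℝ) / ((l : ℝ) - 1)) ≤ ∏ l ∈ S, (((l : ℝ) - 1) / ((l : ℝ) - 2)) := by
      rw [← hquot]
      apply mul_le_of_le_one_left hP0
      apply prod_le_one
      · intro l hl
        exact (fac01 (hSp l hl).2).1.le
      · intro l hl
        exact (fac01 (hSp l hl).2).2
    nlinarith
  · rw [htot, hsing, ← hquot]
    have h1 := mul_le_mul_of_nonneg_right (C₂_le S hSp) hP0
    linarith

end Pool.Agent.Run7.h90.AU
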