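import Pool.Agent.Run7.h90.AU.Form

/-!
# Patterns with alternatives
-/

set_option autoImplicit false
set_option linter.all false

namespace Pool.Agent.Run7.h90.AU

open Finset Filter Topology
open scoped Classical

theorem number_add (p : ℕ) {ι : Type} (s : Finset ι) (v : ι → ZMod p) (M L : ℕ) (P Q R : ℕ → Prop)
    (h : ∀ n : ℕ, M < n → ((R n ↔ P n ∨ Q n) ∧ ¬ (P n ∧ Q n))) :
    number p s v M L R = number p s v M L P + number p s v M L Q := by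
  unfold number
  rw [← card_union_of_disjoint]
  · congr 1
    ext x
    simp only [mem_filter, mem_union, mem_product, mem_Ioc]
    constructor
    · rintro ⟨h1, h2, h3⟩
      rcases (h x.2 h1.2.1).1.1 h3 with h4 | h4
      · exact Or.inl ⟨h1, h2, h4⟩
      · exact Or.inr ⟨h1, h2, h4⟩
    · rintro (⟨h1, h2, h3⟩ | ⟨h1, h2, h3⟩)
      · exact ⟨h1, h2, (h x.2 h1.2.1).1.2 (Or.inl h3)⟩
      · exact ⟨h1, h2, (h x.2 h1.2.1).1.2 (Or.inr h3)⟩
  · rw [disjoint_left]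
    intro x
    simp only [mem_filter, mem_product, mem_Ioc]
    rintro ⟨h1, h2, h3⟩ ⟨h4, h5, h6⟩
    exact (h x.2 h1.2.1).2 ⟨h3, h6⟩

theorem formula_congr {m : ℕ} {Q Q' : (ℕ → Prop) → ℕ → Prop} {D : ℝ} (h : Formula m Q D) (z₀ : ℕ)
    (hQ : ∀ z : ℕ, z₀ ≤ z → ∀ n : ℕ, 1 ≤ n → (Q (Rough z) n ↔ Q' (Rough z) n)) : Formula m Q' D := by
  intro ε hε
  obtain ⟨δ, hδ, H⟩ := h ε hε
  refine ⟨δ, hδ, fun b hb => ?_⟩
  obtain ⟨P₀, H⟩ := H b hb
  refine ⟨max P₀ (Real.exp z₀), ?_⟩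
  intro p hp hpP ι s v hv M L z hL hz1 hz2
  have h1 := H p ((le_max_left _ _).trans hpP) ι s v hv M L z hL hz1 hz2
  have hz : z₀ ≤ z := by
    have h2 : (z₀ : ℝ) ≤ Real.log p := by
      rw [← Real.log_exp (z₀ : ℝ)]
      exact Real.log_le_log (Real.exp_pos _) ((le_max_right _ _).trans hpP)
    exact_mod_cast h2.trans hz1
  rw [number_congr p s v M L _ (Q' (Rough z)) (fun n hn => hQ z hz n (by omega))] at h1
  exact h1

theorem formula_or {m : ℕ} {Q₁ Q₂ Q : (ℕ → Prop) → ℕ → Prop} {D₁ D₂ : ℝ} (h1 : Formula m Q₁ D₁)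
    (h2 : Formula m Q₂ D₂) (z₀ : ℕ) (hQ : ∀ z : ℕ, z₀ ≤ z → ∀ n : ℕ, 1 ≤ n →
      ((Q (Rough z) n ↔ Q₁ (Rough z) n ∨ Q₂ (Rough z) n) ∧ ¬ (Q₁ (Rough z) n ∧ Q₂ (Rough z) n))) :
    Formula m Q (D₁ + D₂) := by
  intro ε hε
  obtain ⟨δ₁, hδ₁, H₁⟩ := h1 ε hε
  obtain ⟨δ₂, hδ₂, H₂⟩ := h2 ε hε
  refine ⟨min δ₁ δ₂, lt_min hδ₁ hδ₂, fun b hb => ?_⟩
  obtain ⟨P₁, H₁⟩ := H₁ b hb
  obtain ⟨P₂, H₂⟩ := H₂ b hb
  refine ⟨max (max P₁ P₂) (max (Real.exp z₀) 1), ?_⟩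
  intro p hp hpP ι s v hv M L z hL hz1 hz2
  have hp1 : (1 : ℝ) ≤ p := (le_max_right _ _).trans ((le_max_right _ _).trans hpP)
  have hb0 : (0 : ℝ) < b := by exact_mod_cast hb
  have a1 := H₁ p ((le_max_left _ _).trans ((le_max_left _ _).trans hpP)) ι s v hv M L z
    ((Real.rpow_le_rpow_of_exponent_le hp1 (by linarith [min_le_left δ₁ δ₂])).trans hL) hz1
    (hz2.trans (Real.rpow_le_rpow_of_exponent_le hp1
      (by gcongr; exact min_le_left _ _)))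
  have a2 := H₂ p ((le_max_right _ _).trans ((le_max_left _ _).trans hpP)) ι s v hv M L z
    ((Real.rpow_le_rpow_of_exponent_le hp1 (by linarith [min_le_right δ₁ δ₂])).trans hL) hz1
    (hz2.trans (Real.rpow_le_rpow_of_exponent_le hp1
      (by gcongr; exact min_le_right _ _)))
  have hz : z₀ ≤ z := by
    have h2 : (z₀ : ℝ) ≤ Real.log p := by
      rw [← Real.log_exp (z₀ : ℝ)]
      exact Real.log_le_log (Real.exp_pos _) ((le_max_left _ _).trans ((le_max_right _ _).trans hpP))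
    exact_mod_cast h2.trans hz1
  rw [number_add p s v M L (Q₁ (Rough z)) (Q₂ (Rough z)) (Q (Rough z)) (fun n hn => hQ z hz n (by omega))]
  rw [abs_le] at a1 a2 ⊢
  push_cast
  set E := Real.exp (-(m * Real.eulerMascheroniConstant)) with hE
  set Y := (s.card : ℝ) * ((L : ℝ) / p) with hY
  set W := Real.log z ^ m with hW
  have e : E * ((D₁ + D₂) * Y / W) = E * (D₁ * Y / W) + E * (D₂ * Y / W) := by ring
  rw [e]
  constructor
  · nlinarith [a1.1, a2.1]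
  · nlinarith [a1.2, a2.2]

theorem orders_congr {m : ℕ} {Q Q' : (ℕ → Prop) → ℕ → Prop} (h : Orders m Q) (y₀ : ℝ)
    (h1 : ∀ (r : ℕ) (y : ℝ), y₀ ≤ y → ∀ n : ℕ, 1 ≤ n → Q (Almost r y) n → Q' (Almost r y) n)
    (h2 : ∀ n : ℕ, 1 ≤ n → Q' Nat.Prime n → Q Nat.Prime n) : Orders m Q' := by
  intro ε A hε hA
  obtain ⟨r, δ, K, hδ, hK, P₀, H⟩ := h ε A hε hA
  obtain ⟨P₁, hP₁⟩ := (tendsto_atTop.1 (tendsto_rpow_atTop hδ) y₀).exists_forall_of_atTop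
  refine ⟨r, δ, K, hδ, hK, max P₀ P₁, ?_⟩
  intro p hp hpP ι s v hv M L hM hL
  obtain ⟨a1, a2⟩ := H p ((le_max_left _ _).trans hpP) ι s v hv M L hM hL
  have hy := hP₁ p ((le_max_right _ _).trans hpP)
  refine ⟨a1.trans ?_, le_trans ?_ a2⟩
  · have : number p s v M L (Q (Almost r ((p : ℝ) ^ δ))) ≤ number p s v M L (Q' (Almost r ((p : ℝ) ^ δ))) :=
      number_mono p s v M L _ _ (fun n hn => h1 r _ hy n (by omega))
    have h3 : (number p s v M L (Q (Almost r ((p : ℝ) ^ δ))) : ℝ) ≤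
      (number p s v M L (Q' (Almost r ((p : ℝ) ^ δ))) : ℝ) := by exact_mod_cast this
    exact mul_le_mul_of_nonneg_left h3 hK.le
  · exact_mod_cast number_mono p s v M L _ _ (fun n hn => h2 n (by omega))

theorem orders_or {m : ℕ} {Q₁ Q₂ Q : (ℕ → Prop) → ℕ → Prop} (h : Orders m Q₁) (h' : Orders m Q₂) (y₀ : ℝ)
    (h1 : ∀ (r : ℕ) (y y' : ℝ), y₀ ≤ y' → y' ≤ y → ∀ n : ℕ, 1 ≤ n → Q₁ (Almost r y) n → Q (Almost r y') n)
    (h2 : ∀ n : ℕ, 1 ≤ n → Q Nat.Prime n → Q₁ Nat.Prime n ∨ Q₂ Nat.Prime n) : Orders m Q := by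
  intro ε A hε hA
  obtain ⟨r, δ₁, K₁, hδ₁, hK₁, P₁, H₁⟩ := h ε A hε hA
  obtain ⟨r₂, δ₂, K₂, hδ₂, hK₂, P₂, H₂⟩ := h' ε A hε hA
  have hδ : 0 < min δ₁ δ₂ := lt_min hδ₁ hδ₂
  obtain ⟨P₃, hP₃⟩ := (tendsto_atTop.1 (tendsto_rpow_atTop hδ) y₀).exists_forall_of_atTop
  refine ⟨r, min δ₁ δ₂, K₁ + K₂, hδ, by positivity, max (max P₁ P₂) (max P₃ 1), ?_⟩
  intro p hp hpP ι s v hv M L hM hL
  have hp1 : (1 : ℝ) ≤ p := (le_max_right _ _).trans ((le_max_right _ _).trans hpP)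
  obtain ⟨a1, a2⟩ := H₁ p ((le_max_left _ _).trans ((le_max_left _ _).trans hpP)) ι s v hv M L hM
    ((Real.rpow_le_rpow_of_exponent_le hp1 (by linarith [min_le_left δ₁ δ₂])).trans hL)
  obtain ⟨b1, b2⟩ := H₂ p ((le_max_right _ _).trans ((le_max_left _ _).trans hpP)) ι s v hv M L hM
    ((Real.rpow_le_rpow_of_exponent_le hp1 (by linarith [min_le_right δ₁ δ₂])).trans hL)
  have hy := hP₃ p ((le_max_left _ _).trans ((le_max_right _ _).trans hpP))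
  constructor
  · have h3 : number p s v M L (Q₁ (Almost r ((p : ℝ) ^ δ₁))) ≤
        number p s v M L (Q (Almost r ((p : ℝ) ^ min δ₁ δ₂))) :=
      number_mono p s v M L _ _ (fun n hn => h1 r _ _ hy
        (Real.rpow_le_rpow_of_exponent_le hp1 (min_le_left _ _)) n (by omega))
    have h4 : (number p s v M L (Q₁ (Almost r ((p : ℝ) ^ δ₁))) : ℝ) ≤
      (number p s v M L (Q (Almost r ((p : ℝ) ^ min δ₁ δ₂))) : ℝ) := by exact_mod_cast h3
    refine a1.trans ?_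
    have h5 : (0 : ℝ) ≤ (number p s v M L (Q (Almost r ((p : ℝ) ^ min δ₁ δ₂))) : ℝ) := by positivity
    nlinarith
  · have h3 : number p s v M L (Q Nat.Prime) ≤
        number p s v M L (Q₁ Nat.Prime) + number p s v M L (Q₂ Nat.Prime) :=
      (number_mono p s v M L _ _ (fun n hn => h2 n (by omega))).trans (number_or p s v M L _ _)
    have h4 : (number p s v M L (Q Nat.Prime) : ℝ) ≤
        (number p s v M L (Q₁ Nat.Prime) : ℝ) + (number p s v M L (Q₂ Nat.Prime) : ℝ) := by exact_mod_cast h3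
    rw [add_mul]
    linarith

end Pool.Agent.Run7.h90.AU
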