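import Pool.Agent.Run7.h90.AU.Exact

/-!
# Cunningham chains
-/

set_option autoImplicit false
set_option linter.all false

namespace Pool.Agent.Run7.h90.AU

open Finset Filter Topology
open scoped Classical

theorem card_pow_image (l : ℕ) [Fact l.Prime] (hl : l ≠ 2) (k : ℕ) :
    ((range k).image fun j => ((2 : ZMod l)⁻¹) ^ j).card = min k (orderOf (2 : ZMod l)) := by
  have h2 : (2 : ZMod l) ≠ 0 := by
    intro h2
    have h3 : ((2 : ℕ) : ZMod l) = 0 := by exact_mod_cast h2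
    rw [ZMod.natCast_eq_zero_iff] at h3
    exact hl ((Nat.prime_dvd_prime_iff_eq (Fact.out : l.Prime) Nat.prime_two).1 h3)
  obtain ⟨u, hu⟩ : ∃ u : (ZMod l)ˣ, (u : ZMod l) = 2 := ⟨Units.mk0 2 h2, rfl⟩
  have e1 : orderOf (2 : ZMod l) = orderOf u⁻¹ := by
    rw [orderOf_inv, ← orderOf_units, hu]
  have e2 : ((range k).image fun j => ((2 : ZMod l)⁻¹) ^ j) =
      ((range k).image fun j => (u⁻¹) ^ j).image (fun x : (ZMod l)ˣ => (x : ZMod l)) := by
    rw [image_image]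
    refine image_congr ?_
    intro j _
    simp only [Function.comp]
    push_cast
    rw [hu]
  rw [e2, card_image_of_injective _ (Units.val_injective), e1]
  have hpos : 0 < orderOf u⁻¹ := orderOf_pos _
  rcases le_total k (orderOf u⁻¹) with h | h
  · rw [min_eq_left h, card_image_of_injOn, card_range]
    intro i hi j hj hij
    rw [mem_coe, mem_range] at hi hj
    exact pow_injOn_Iio_orderOf (by simpa using lt_of_lt_of_le hi h) (by simpa using lt_of_lt_of_le hj h) hij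
  · rw [min_eq_right h]
    have e3 : ((range k).image fun j => (u⁻¹) ^ j) = ((range (orderOf u⁻¹)).image fun j => (u⁻¹) ^ j) := by
      ext x
      simp only [mem_image, mem_range]
      constructor
      · rintro ⟨j, -, rfl⟩
        exact ⟨j % orderOf u⁻¹, Nat.mod_lt _ hpos, pow_mod_orderOf _ _⟩
      · rintro ⟨j, hj, rfl⟩
        exact ⟨j, by omega, rfl⟩
    rw [e3, card_image_of_injOn, card_range]
    intro i hi j hj hij
    rw [mem_coe, mem_range] at hi hj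
    exact pow_injOn_Iio_orderOf (by simpa using hi) (by simpa using hj) hij

/-- the forms of the first kind -/
def c1a (k : ℕ) : Fin k → ℤ := fun i => 2 ^ (i : ℕ) - 1
/-- the forms of the second kind -/
def c2a (k : ℕ) : Fin k → ℤ := fun i => -(2 ^ (i : ℕ) - 1)
/-- the leading coefficients -/
def cd (k : ℕ) : Fin k → ℤ := fun i => 2 ^ (i : ℕ)

/-- The numbers `n`, `2 n + 1`, `4 n + 3`, ..., `2 ^ (k - 1) (n + 1) - 1` have the property `P`. -/
def ChainOne (k : ℕ) (P : ℕ → Prop) (n : ℕ) : Prop := ∀ i < k, P (2 ^ i * (n + 1) - 1)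

/-- The numbers `n`, `2 n - 1`, `4 n - 3`, ..., `2 ^ (k - 1) (n - 1) + 1` have the property `P`. -/
def ChainTwo (k : ℕ) (P : ℕ → Prop) (n : ℕ) : Prop := ∀ i < k, P (2 ^ i * (n - 1) + 1)

/-- The partial products of the constant of the chains of `k` numbers. -/
noncomputable def chainConstant (k z : ℕ) : ℝ :=
  2 ^ (k - 1) * ∏ q ∈ (Icc 3 z).filter Nat.Prime,
    ((1 - ((min k (orderOf (2 : ZMod q)) : ℕ) : ℝ) / q) / (1 - 1 / (q : ℝ)) ^ k)

theorem c1nd (k : ℕ) : ND (c1a k) (cd k) := by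
  refine ⟨fun j => by unfold cd; positivity, fun i j hij h => ?_, fun l hl => ⟨-1, ?_⟩⟩
  · unfold c1a cd at h
    have h1 : (2 : ℤ) ^ (i : ℕ) = 2 ^ (j : ℕ) := by ring_nf at h ⊢; linarith
    have h2 : (i : ℕ) = j := by
      have h3 : (2 : ℕ) ^ (i : ℕ) = 2 ^ (j : ℕ) := by exact_mod_cast h1
      exact Nat.pow_right_injective le_rfl h3
    exact hij (Fin.ext h2)
  · intro h
    have e : ∏ j, (c1a k j + cd k j * (-1)) = (-1) ^ k := by
      rw [prod_congr rfl (fun j _ => show c1a k j + cd k j * (-1) = -1 by unfold c1a cd; ring)]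
      simp
    rw [e] at h
    have h1 : (l : ℤ) ∣ 1 := by
      have := h.mul_left ((-1) ^ k)
      rwa [← mul_pow, neg_one_mul, neg_neg, one_pow] at this
    have h2 : l ∣ 1 := by exact_mod_cast h1
    exact hl.one_lt.ne' (Nat.dvd_one.1 h2)

theorem c2nd (k : ℕ) : ND (c2a k) (cd k) := by
  refine ⟨fun j => by unfold cd; positivity, fun i j hij h => ?_, fun l hl => ⟨1, ?_⟩⟩
  · unfold c2a cd at h
    have h1 : (2 : ℤ) ^ (i : ℕ) = 2 ^ (j : ℕ) := by ring_nf at h ⊢; linarith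
    have h2 : (i : ℕ) = j := by
      have h3 : (2 : ℕ) ^ (i : ℕ) = 2 ^ (j : ℕ) := by exact_mod_cast h1
      exact Nat.pow_right_injective le_rfl h3
    exact hij (Fin.ext h2)
  · intro h
    have e : ∏ j, (c2a k j + cd k j * 1) = 1 := by
      rw [prod_congr rfl (fun j _ => show c2a k j + cd k j * 1 = 1 by unfold c2a cd; ring)]
      simp
    rw [e] at h
    have h2 : l ∣ 1 := by exact_mod_cast h
    exact hl.one_lt.ne' (Nat.dvd_one.1 h2)

theorem c1pat (k : ℕ) (P : ℕ → Prop) (n : ℕ) (hn : 1 ≤ n) :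
    (∀ j, P (c1a k j + cd k j * (n : ℤ)).natAbs) ↔ ChainOne k P n := by
  have key : ∀ i : ℕ, ((2 ^ i - 1 : ℤ) + 2 ^ i * (n : ℤ)).natAbs = 2 ^ i * (n + 1) - 1 := by
    intro i
    have h1 : 1 ≤ 2 ^ i * (n + 1) := Nat.mul_pos (pow_pos (by norm_num) _) (by omega)
    have h2 : ((2 ^ i - 1 : ℤ) + 2 ^ i * (n : ℤ)) = ((2 ^ i * (n + 1) - 1 : ℕ) : ℤ) := by
      rw [Nat.cast_sub h1]
      push_cast
      ring
    rw [h2, Int.natAbs_natCast]
  unfold c1a cd ChainOne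
  constructor
  · intro h i hi
    have := h ⟨i, hi⟩
    rwa [key] at this
  · intro h j
    rw [key]
    exact h j j.2

theorem c2pat (k : ℕ) (P : ℕ → Prop) (n : ℕ) (hn : 1 ≤ n) :
    (∀ j, P (c2a k j + cd k j * (n : ℤ)).natAbs) ↔ ChainTwo k P n := by
  have key : ∀ i : ℕ, (-(2 ^ i - 1 : ℤ) + 2 ^ i * (n : ℤ)).natAbs = 2 ^ i * (n - 1) + 1 := by
    intro i
    have h2 : (-(2 ^ i - 1 : ℤ) + 2 ^ i * (n : ℤ)) = ((2 ^ i * (n - 1) + 1 : ℕ) : ℤ) := by
      push_cast [Nat.cast_sub hn]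
      ring
    rw [h2, Int.natAbs_natCast]
  unfold c2a cd ChainTwo
  constructor
  · intro h i hi
    have := h ⟨i, hi⟩
    rwa [key] at this
  · intro h j
    rw [key]
    exact h j j.2

theorem om_eq_image {k : ℕ} (a d : Fin k → ℤ) (l : ℕ) [Fact l.Prime] (φ : ZMod l → ZMod l)
    (hφ : Function.Bijective φ) (S : Finset (ZMod l))
    (h : ∀ n : ℕ, (l : ℤ) ∣ ∏ j, (a j + d j * (n : ℤ)) ↔ φ (n : ZMod l) ∈ S) : om a d l = S.card := by
  unfold om
  have hl := (Fact.out : l.Prime).pos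
  apply card_nbij (fun n : ℕ => φ (n : ZMod l))
  · intro n hn
    rw [mem_coe, mem_filter] at hn
    exact (h n).1 hn.2
  · intro n hn m hm hnm
    rw [mem_coe, mem_filter, mem_range] at hn hm
    have h1 := hφ.1 hnm
    rw [ZMod.natCast_eq_natCast_iff'] at h1
    rwa [Nat.mod_eq_of_lt hn.1, Nat.mod_eq_of_lt hm.1] at h1
  · intro y hy
    obtain ⟨x, hx⟩ := hφ.2 y
    refine ⟨x.val, ?_, ?_⟩
    · rw [mem_coe, mem_filter, mem_range]
      refine ⟨ZMod.val_lt x, ?_⟩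
      rw [h, ZMod.natCast_val, ZMod.cast_id, hx]
      exact hy
    · simp only
      rw [ZMod.natCast_val, ZMod.cast_id, hx]

theorem dvd_prod_iff {k : ℕ} (a d : Fin k → ℤ) (l : ℕ) [Fact l.Prime] (n : ℕ) :
    (l : ℤ) ∣ ∏ j, (a j + d j * (n : ℤ)) ↔ ∃ j, ((a j : ℤ) : ZMod l) + (d j : ℤ) * (n : ZMod l) = 0 := by
  rw [Prime.dvd_finset_prod_iff (Nat.prime_iff_prime_int.1 (Fact.out : l.Prime))]
  constructor
  · rintro ⟨j, -, h⟩
    refine ⟨j, ?_⟩
    have := (ZMod.intCast_zmod_eq_zero_iff_dvd _ _).2 h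
    push_cast at this
    exact this
  · rintro ⟨j, h⟩
    refine ⟨j, mem_univ _, ?_⟩
    apply (ZMod.intCast_zmod_eq_zero_iff_dvd _ _).1
    push_cast
    exact h

theorem two_ne (l : ℕ) [Fact l.Prime] (hl : l ≠ 2) : (2 : ZMod l) ≠ 0 := by
  intro h2
  have h3 : ((2 : ℕ) : ZMod l) = 0 := by exact_mod_cast h2
  rw [ZMod.natCast_eq_zero_iff] at h3
  exact hl ((Nat.prime_dvd_prime_iff_eq (Fact.out : l.Prime) Nat.prime_two).1 h3)

theorem c1om (k l : ℕ) [Fact l.Prime] (hl : l ≠ 2) : om (c1a k) (cd k) l = min k (orderOf (2 : ZMod l)) := by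
  have h2 := two_ne l hl
  rw [← card_pow_image l hl k]
  refine om_eq_image _ _ l (fun x => x + 1) (Equiv.addRight (1 : ZMod l)).bijective _ ?_
  intro n
  rw [dvd_prod_iff, mem_image]
  constructor
  · rintro ⟨j, hj⟩
    refine ⟨j, mem_range.2 j.2, ?_⟩
    unfold c1a cd at hj
    push_cast at hj
    have h3 : (2 : ZMod l) ^ (j : ℕ) * ((n : ZMod l) + 1) = 1 := by
      have h4 : (2 : ZMod l) ^ (j : ℕ) * ((n : ZMod l) + 1) = ((2 : ZMod l) ^ (j : ℕ) - 1 + 2 ^ (j : ℕ) * n) + 1 := by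
        ring
      rw [h4, hj, zero_add]
    rw [inv_pow]
    exact inv_eq_of_mul_eq_one_right h3
  · rintro ⟨j, hj, h⟩
    refine ⟨⟨j, mem_range.1 hj⟩, ?_⟩
    unfold c1a cd
    push_cast
    have h3 : (2 : ZMod l) ^ j * ((n : ZMod l) + 1) = 1 := by
      rw [← h, inv_pow, mul_inv_cancel₀ (pow_ne_zero _ h2)]
    have h4 : ((2 : ZMod l) ^ j - 1 + 2 ^ j * n) = (2 : ZMod l) ^ j * ((n : ZMod l) + 1) - 1 := by ring
    rw [h4, h3, sub_self]

theorem c2om (k l : ℕ) [Fact l.Prime] (hl : l ≠ 2) : om (c2a k) (cd k) l = min k (orderOf (2 : ZMod l)) := by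
  have h2 := two_ne l hl
  rw [← card_pow_image l hl k]
  refine om_eq_image _ _ l (fun x => 1 - x) (Equiv.subLeft (1 : ZMod l)).bijective _ ?_
  intro n
  rw [dvd_prod_iff, mem_image]
  constructor
  · rintro ⟨j, hj⟩
    refine ⟨j, mem_range.2 j.2, ?_⟩
    unfold c2a cd at hj
    push_cast at hj
    have h3 : (2 : ZMod l) ^ (j : ℕ) * (1 - (n : ZMod l)) = 1 := by
      have h4 : (2 : ZMod l) ^ (j : ℕ) * (1 - (n : ZMod l)) =
          1 - (-((2 : ZMod l) ^ (j : ℕ) - 1) + 2 ^ (j : ℕ) * n) := by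
        ring
      rw [h4, hj, sub_zero]
    rw [inv_pow]
    exact inv_eq_of_mul_eq_one_right h3
  · rintro ⟨j, hj, h⟩
    refine ⟨⟨j, mem_range.1 hj⟩, ?_⟩
    unfold c2a cd
    push_cast
    have h3 : (2 : ZMod l) ^ j * (1 - (n : ZMod l)) = 1 := by
      rw [← h, inv_pow, mul_inv_cancel₀ (pow_ne_zero _ h2)]
    have h4 : (-((2 : ZMod l) ^ j - 1) + 2 ^ j * n) = 1 - (2 : ZMod l) ^ j * (1 - (n : ZMod l)) := by ring
    rw [h4, h3, sub_self]

theorem om_two_of {k : ℕ} (hk : 1 ≤ k) (a d : Fin k → ℤ) (h0 : ∀ n : ℤ, (2 : ℤ) ∣ a ⟨0, hk⟩ + d ⟨0, hk⟩ * n ↔ 2 ∣ n)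
    (hj : ∀ j : Fin k, (j : ℕ) ≠ 0 → ∀ n : ℤ, ¬ (2 : ℤ) ∣ a j + d j * n) : om a d 2 = 1 := by
  have h1 : ∀ n : ℤ, (2 : ℤ) ∣ ∏ j, (a j + d j * n) ↔ 2 ∣ n := by
    intro n
    rw [Prime.dvd_finset_prod_iff Int.prime_two]
    constructor
    · rintro ⟨j, -, h⟩
      by_cases hj0 : (j : ℕ) = 0
      · have : j = ⟨0, hk⟩ := Fin.ext hj0
        rw [this] at h
        exact (h0 n).1 h
      · exact absurd h (hj j hj0 n)
    · intro h
      exact ⟨⟨0, hk⟩, mem_univ _, (h0 n).2 h⟩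
  unfold om
  have e : ((range 2).filter fun n : ℕ => ((2 : ℕ) : ℤ) ∣ ∏ j, (a j + d j * (n : ℤ))) = {0} := by
    ext n
    rw [mem_filter, mem_singleton, mem_range]
    have := h1 n
    push_cast at this ⊢
    rw [this]
    constructor
    · rintro ⟨h2, h3⟩
      omega
    · rintro rfl
      norm_num
  rw [e, card_singleton]

theorem psing_chain {k : ℕ} (hk : 1 ≤ k) (a d : Fin k → ℤ) (h2 : om a d 2 = 1)
    (ho : ∀ l : ℕ, [Fact l.Prime] → l ≠ 2 → om a d l = min k (orderOf (2 : ZMod l))) {z : ℕ} (hz : 2 ≤ z) :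
    chainConstant k z = psing a d z := by
  unfold chainConstant psing
  have e : (range (z + 1)).filter Nat.Prime = insert 2 ((Icc 3 z).filter Nat.Prime) := by
    ext l
    simp only [mem_filter, mem_range, mem_insert, mem_Icc]
    constructor
    · rintro ⟨h3, h4⟩
      have := h4.two_le
      rcases Nat.lt_or_ge 2 l with h5 | h5
      · exact Or.inr ⟨⟨by omega, by omega⟩, h4⟩
      · exact Or.inl (by omega)
    · rintro (rfl | ⟨⟨h3, h4⟩, h5⟩)
      · exact ⟨by omega, Nat.prime_two⟩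
      · exact ⟨by omega, h5⟩
  rw [e, prod_insert (by simp), h2]
  congr 1
  · obtain ⟨j, rfl⟩ : ∃ j, k = j + 1 := ⟨k - 1, by omega⟩
    rw [Nat.add_sub_cancel, pow_succ]
    norm_num
    rw [one_div, inv_pow]
    field_simp
  · refine prod_congr rfl fun q hq => ?_
    rw [mem_filter, mem_Icc] at hq
    have : Fact q.Prime := ⟨hq.2⟩
    rw [ho q (by omega)]

theorem c1psing {k : ℕ} (hk : 1 ≤ k) {z : ℕ} (hz : 2 ≤ z) : chainConstant k z = psing (c1a k) (cd k) z := by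
  refine psing_chain hk _ _ ?_ (fun l _ hl => c1om k l hl) hz
  refine om_two_of hk _ _ (fun n => ?_) (fun j hj n => ?_)
  · unfold c1a cd
    simp
  · unfold c1a cd
    obtain ⟨i, hi⟩ : ∃ i, (j : ℕ) = i + 1 := ⟨(j : ℕ) - 1, by omega⟩
    rw [hi]
    have e : (2 : ℤ) ^ (i + 1) - 1 + 2 ^ (i + 1) * n = 2 * (2 ^ i * (n + 1)) - 1 := by ring
    rw [e]
    omega

theorem c2psing {k : ℕ} (hk : 1 ≤ k) {z : ℕ} (hz : 2 ≤ z) : chainConstant k z = psing (c2a k) (cd k) z := by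
  refine psing_chain hk _ _ ?_ (fun l _ hl => c2om k l hl) hz
  refine om_two_of hk _ _ (fun n => ?_) (fun j hj n => ?_)
  · unfold c2a cd
    simp
  · unfold c2a cd
    obtain ⟨i, hi⟩ : ∃ i, (j : ℕ) = i + 1 := ⟨(j : ℕ) - 1, by omega⟩
    rw [hi]
    have e : -((2 : ℤ) ^ (i + 1) - 1) + 2 ^ (i + 1) * n = 2 * (2 ^ i * (n - 1)) + 1 := by ring
    rw [e]
    omega

theorem chainOne_all {k : ℕ} (hk : 1 ≤ k) : ∃ D : ℝ, 0 < D ∧ Tendsto (chainConstant k) atTop (𝓝 D) ∧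
    Formula k (ChainOne k) D ∧ Orders k (ChainOne k) := by
  obtain ⟨D, hD, hl⟩ := lim_of (c1nd k)
  refine ⟨D, hD, hl.congr' ?_, formula_of (c1nd k) (c1pat k) hD hl, orders_of (c1nd k) (c1pat k) hD hl⟩
  filter_upwards [eventually_ge_atTop 2] with z hz
  exact (c1psing hk hz).symm

theorem chainTwo_all {k : ℕ} (hk : 1 ≤ k) : ∃ D : ℝ, 0 < D ∧ Tendsto (chainConstant k) atTop (𝓝 D) ∧
    Formula k (ChainTwo k) D ∧ Orders k (ChainTwo k) := by
  obtain ⟨D, hD, hl⟩ := lim_of (c2nd k)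
  refine ⟨D, hD, hl.congr' ?_, formula_of (c2nd k) (c2pat k) hD hl, orders_of (c2nd k) (c2pat k) hD hl⟩
  filter_upwards [eventually_ge_atTop 2] with z hz
  exact (c2psing hk hz).symm

end Pool.Agent.Run7.h90.AU
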