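import Pool.Agent.Run7.h90.AU.Slow

/-!
# Linear forms at the members of families of residues with small exponential sums

Definitions used in the hand-ins, and the general theorems.
-/

set_option autoImplicit false
set_option linter.all false

namespace Pool.Agent.Run7.h90.AU

open Finset Filter Topology
open Run7.h870.LI
open Pool.Agent.Run7.h90.AP
open scoped Classical

/-- The family `(v i)`, `i ∈ s`, of residues modulo `p` has small exponential sums: the absolute value of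
`∑ e(ξ v_i / p)` is at most `p ^ (-ε) |s|` for all `ξ ≠ 0`. -/
def SmallSums (p : ℕ) [Fact p.Prime] (ε : ℝ) {ι : Type} (s : Finset ι) (v : ι → ZMod p) : Prop :=
  ∀ ξ : ZMod p, ξ ≠ 0 → ‖∑ i ∈ s, (ZMod.stdAddChar (ξ * v i) : ℂ)‖ ≤ (p : ℝ) ^ (-ε) * s.card

/-- The number of the pairs `(i, n)` with `i ∈ s`, `M < n ≤ M + L`, `n ≡ v i` modulo `p` and the property `P n`. -/
noncomputable def number (p : ℕ) {ι : Type} (s : Finset ι) (v : ι → ZMod p) (M L : ℕ) (P : ℕ → Prop) : ℕ :=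
  ((s ×ˢ Ioc M (M + L)).filter fun x => ((x.2 : ℕ) : ZMod p) = v x.1 ∧ P x.2).card

/-- The integer `n ≠ 0` has at most `r` prime factors (with multiplicity), all at least `y`. -/
def Almost (r : ℕ) (y : ℝ) (n : ℕ) : Prop :=
  n ≠ 0 ∧ n.primeFactorsList.length ≤ r ∧ ∀ l : ℕ, l ∈ n.primeFactorsList → y ≤ l

/-- No prime `l ≤ z` divides `n`. -/
def Free (z : ℕ) (n : ℤ) : Prop := ∀ l : ℕ, l.Prime → l ≤ z → ¬ (l : ℤ) ∣ n

theorem number_eq (p : ℕ) {ι : Type} (s : Finset ι) (v : ι → ZMod p) (M L : ℕ) (P : ℕ → Prop)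
    (Q : ι × ℕ → Prop) [DecidablePred Q] (h : ∀ x : ι × ℕ, P x.2 ↔ Q x) :
    number p s v M L P = ((prs p s v M L).filter Q).card := by
  unfold number prs
  congr 1
  ext x
  simp only [mem_filter, h, and_assoc]

theorem number_congr (p : ℕ) {ι : Type} (s : Finset ι) (v : ι → ZMod p) (M L : ℕ) (P Q : ℕ → Prop)
    (h : ∀ n : ℕ, M < n → (P n ↔ Q n)) : number p s v M L P = number p s v M L Q := by
  unfold number
  congr 1
  ext x
  simp only [mem_filter, mem_product, mem_Ioc]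
  constructor
  · rintro ⟨h1, h2, h3⟩
    exact ⟨h1, h2, (h x.2 h1.2.1).1 h3⟩
  · rintro ⟨h1, h2, h3⟩
    exact ⟨h1, h2, (h x.2 h1.2.1).2 h3⟩

theorem number_mono (p : ℕ) {ι : Type} (s : Finset ι) (v : ι → ZMod p) (M L : ℕ) (P Q : ℕ → Prop)
    (h : ∀ n : ℕ, M < n → P n → Q n) : number p s v M L P ≤ number p s v M L Q := by
  unfold number
  apply card_le_card
  intro x
  simp only [mem_filter, mem_product, mem_Ioc]
  rintro ⟨h1, h2, h3⟩
  exact ⟨h1, h2, h x.2 h1.2.1 h3⟩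

theorem number_or (p : ℕ) {ι : Type} (s : Finset ι) (v : ι → ZMod p) (M L : ℕ) (P Q : ℕ → Prop) :
    number p s v M L (fun n => P n ∨ Q n) ≤ number p s v M L P + number p s v M L Q := by
  unfold number
  refine le_trans (card_le_card ?_) (card_union_le _ _)
  intro x
  simp only [mem_filter, mem_union]
  rintro ⟨h1, h2, h3 | h3⟩
  · exact Or.inl ⟨h1, h2, h3⟩
  · exact Or.inr ⟨h1, h2, h3⟩

/-- the fundamental lemma for all tuples -/
theorem cls_count (m : ℕ) (ε A : ℝ) (hε : 0 < ε) (hA : 1 ≤ A) : ∃ δ : ℝ, 0 < δ ∧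
    ∀ b : ℕ, 1 ≤ b → ∃ P₀ : ℝ, ∀ (p : ℕ) [Fact p.Prime], P₀ ≤ p →
      ∀ (ι : Type) (s : Finset ι) (v : ι → ZMod p), SmallSums p ε s v →
      ∀ a d : Fin m → ℤ, TS ((p : ℝ) ^ A) a d → ∀ S : ℝ, 0 < S → Tendsto (psing a d) atTop (𝓝 S) →
      ∀ M L z : ℕ, (p : ℝ) ^ (1 - δ) ≤ L → Real.log p ≤ z → (z : ℝ) ≤ (p : ℝ) ^ (δ / b) →
      |(number p s v M L (fun n => Free z (∏ j, (a j + d j * (n : ℤ)))) : ℝ) -
        Real.exp (-(m * Real.eulerMascheroniConstant)) * (S * (s.card * ((L : ℝ) / p)) / Real.log z ^ m)| ≤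
      (1 / 2) ^ b * (Real.exp (-(m * Real.eulerMascheroniConstant)) *
        (S * (s.card * ((L : ℝ) / p)) / Real.log z ^ m)) := by
  obtain ⟨δ, hδ, -, -, H⟩ := tuple_count m ε (A * ((m + 3 * m ^ 2 : ℕ) : ℝ)) hε (by positivity)
  refine ⟨δ, hδ, fun b hb => ?_⟩
  obtain ⟨P₂, H⟩ := H b hb
  refine ⟨max P₂ 2, ?_⟩
  intro p hp hpP ι s v hv a d hT S hS0 hS1 M L z hL hz1 hz2
  obtain ⟨t1, t2, t3, t4, t5⟩ := hT
  have hp2 : (2 : ℝ) ≤ p := (le_max_right _ _).trans hpP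
  have hp0 : (0 : ℝ) < p := by linarith
  have hpA : (p : ℝ) ≤ (p : ℝ) ^ A := by
    calc (p : ℝ) = (p : ℝ) ^ (1 : ℝ) := (Real.rpow_one _).symm
      _ ≤ _ := Real.rpow_le_rpow_of_exponent_le (by linarith) hA
  have hadm : ∀ l : ℕ, l.Prime → ∃ n : ℤ, ¬ (l : ℤ) ∣ (∏ j, lf a d j).eval n := fun l hl => by
    obtain ⟨n, hn⟩ := t3 l hl
    exact ⟨n, by rwa [prod_lf_eval]⟩
  have hE : (((Res a d).natAbs : ℕ) : ℝ) ≤ (p : ℝ) ^ (A * ((m + 3 * m ^ 2 : ℕ) : ℝ)) := by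
    have h1 := Res_le (Q := (p : ℝ) ^ A) (by linarith) t4 t5
    refine h1.trans (le_of_eq ?_)
    rw [Real.rpow_mul hp0.le, Real.rpow_natCast]
  have h := H p ((le_max_left _ _).trans hpP) _ _ (Hyp_lf t1 t2 hadm)
    (lf_prod_deg t1).le hE S hS0 (by rw [← psing_eq]; exact hS1) ι s v hv M L z hL hz1 hz2
  unfold Xk at h
  rw [number_eq p s v M L _ (fun x => ∀ l : ℕ, l.Prime → l ≤ z → ¬ QF (∏ j, lf a d j) l x.2)]
  · exact h
  · intro x
    unfold Free QF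
    simp only [prod_lf_eval]

/-- the orders of magnitude for all tuples -/
theorem cls_orders (m : ℕ) (ε A : ℝ) (hε : 0 < ε) (hA : 1 ≤ A) : ∃ (r : ℕ) (δ K : ℝ), 0 < δ ∧
    0 < K ∧ ∃ P₀ : ℝ, ∀ (p : ℕ) [Fact p.Prime], P₀ ≤ p →
      ∀ (ι : Type) (s : Finset ι) (v : ι → ZMod p), SmallSums p ε s v →
      ∀ a d : Fin m → ℤ, TS ((p : ℝ) ^ A) a d → ∀ S : ℝ, 0 < S → Tendsto (psing a d) atTop (𝓝 S) →
      ∀ M L : ℕ, (M + L : ℝ) ≤ (p : ℝ) ^ A → (p : ℝ) ^ (1 - δ) ≤ L →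
      S * (s.card * ((L : ℝ) / p)) / Real.log p ^ m ≤ K * (number p s v M L
        (fun n => ∀ j, Almost r ((p : ℝ) ^ δ) (a j + d j * (n : ℤ)).natAbs) : ℝ) ∧
      (number p s v M L (fun n => ∀ j, (a j + d j * (n : ℤ)).natAbs.Prime) : ℝ) ≤
        K * (S * (s.card * ((L : ℝ) / p)) / Real.log p ^ m) := by
  obtain ⟨r, δ, K, hδ, hK, P₂, H⟩ := tuple_orders m ε A hε hA
  refine ⟨r, δ, K, hδ, hK, P₂, ?_⟩
  intro p hp hpP ι s v hv a d hT S hS0 hS1 M L hM hL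
  obtain ⟨t1, t2, t3, t4, t5⟩ := hT
  have hadm : ∀ l : ℕ, l.Prime → ∃ n : ℤ, ¬ (l : ℤ) ∣ (∏ j, lf a d j).eval n := fun l hl => by
    obtain ⟨n, hn⟩ := t3 l hl
    exact ⟨n, by rwa [prod_lf_eval]⟩
  have h := H p hpP a d t1 t2 hadm t4 t5 S hS0 (by rw [← psing_eq]; exact hS1) ι s v hv M L hM hL
  simp only [lf_eval] at h
  unfold Xk at h
  rw [number_eq p s v M L _ (fun x => ∀ j, Alm r ((p : ℝ) ^ δ) (a j + d j * (x.2 : ℤ)).natAbs),
    number_eq p s v M L (fun n => ∀ j, (a j + d j * (n : ℤ)).natAbs.Prime)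
      (fun x => ∀ j, (a j + d j * (x.2 : ℤ)).natAbs.Prime)]
  · exact h
  · intro x
    exact Iff.rfl
  · intro x
    exact Iff.rfl

/-- **Example**: linear recurrences `c_1 g_1 ^ n + ... + c_k g_k ^ n`, `n < N`. -/
theorem cls_rec (k : ℕ) (η : ℝ) (hη : 0 < η) : ∃ ε : ℝ, 0 < ε ∧ ∃ P₀ : ℕ,
    ∀ (p : ℕ) [Fact p.Prime], P₀ ≤ p → ∀ (c : Fin k → ZMod p) (g : Fin k → (ZMod p)ˣ) (N : ℕ),
      c ≠ 0 → (∀ j, (p : ℝ) ^ η ≤ orderOf (g j)) →
      (∀ i j, i ≠ j → (p : ℝ) ^ η ≤ orderOf (g i / g j)) → (p : ℝ) ^ η ≤ N →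
      SmallSums p ε (range N) (fun n => ∑ i, c i * (g i : ZMod p) ^ n) :=
  lrec_small k η hη

/-- **Example**: sparse polynomials `c_1 h ^ e_1 + ... + c_k h ^ e_k` on the subgroups `H` of order at least
`p ^ η gcd(e_i, |H|)`, `p ^ η gcd(e_i - e_j, |H|)`. -/
theorem cls_sparse (k : ℕ) (η : ℝ) (hη : 0 < η) : ∃ ε : ℝ, 0 < ε ∧ ∃ P₀ : ℕ,
    ∀ (p : ℕ) [Fact p.Prime], P₀ ≤ p → ∀ (H : Subgroup (ZMod p)ˣ) (c : Fin k → ZMod p) (e : Fin k → ℤ),
      c ≠ 0 → (∀ j, (p : ℝ) ^ η * Int.gcd (e j) (Nat.card H) ≤ Nat.card H) →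
      (∀ i j, i ≠ j → (p : ℝ) ^ η * Int.gcd (e i - e j) (Nat.card H) ≤ Nat.card H) →
      SmallSums p ε ((univ : Finset (ZMod p)ˣ).filter fun h => h ∈ H)
        (fun h => ∑ i, c i * ((h ^ e i : (ZMod p)ˣ) : ZMod p)) := by
  obtain ⟨ε, hε, P₀, h⟩ := Pool.Agent.Run7.h823.BK.monomials k hη
  refine ⟨ε, hε, P₀, ?_⟩
  intro p hp hpP H c e hc he hee ξ hξ
  have hcard : ((univ : Finset (ZMod p)ˣ).filter fun h => h ∈ H).card = Nat.card H := by
    rw [Nat.card_eq_fintype_card, Fintype.card_subtype]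
  have h1 := h p hpP H ((univ : Finset (ZMod p)ˣ).filter fun h => h ∈ H) (fun u => by simp)
    (fun _ => 1) e (by rw [hcard]; exact he) (by rw [hcard]; exact hee) (fun j => ξ * c j) (by
      intro h0
      apply hc
      funext j
      have := congrFun h0 j
      simp only [Pi.zero_apply] at this ⊢
      rcases mul_eq_zero.1 this with h2 | h2
      · exact absurd h2 hξ
      · exact h2)
  rw [mul_comm ((p : ℝ) ^ (-ε))]
  refine le_trans (le_of_eq ?_) h1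
  congr 1
  refine sum_congr rfl fun u _ => ?_
  congr 1
  rw [mul_sum]
  refine sum_congr rfl fun j _ => ?_
  simp only [Units.val_one, one_mul]
  ring

end Pool.Agent.Run7.h90.AU
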