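import Pool.Agent.Run7.h90.AU.LeastA

/-!
# Almost primes in almost all classes of thin families
-/

set_option autoImplicit false
set_option linter.all false

namespace Pool.Agent.Run7.h90.AU

open Finset Filter Topology
open scoped Classical

/-- the pair pattern -/
def PairPat (d : ℕ) (P : ℕ → Prop) (n : ℕ) : Prop := P (n + d) ∧ P n

theorem pair_uniform : UniformFormula 2 PairPat pairSeries (fun d => (d : ℝ) + 1) (fun d => 0 < d ∧ 2 ∣ d) := by
  refine (shiftPat 2).formula.comap (fun d => {0, d}) (fun d h => adm_pair h.1 h.2) (fun d h => ?_)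
    (fun d h P n hn => ?_) (fun d h => pairSeries_eq h.1 h.2)
  · unfold height
    have h1 : ({0, d} : Finset ℕ).sup id ≤ d := by
      apply Finset.sup_le
      intro e he
      simp only [mem_insert, mem_singleton] at he
      simp only [id]
      omega
    have h2 : ((({0, d} : Finset ℕ).sup id : ℕ) : ℝ) ≤ d := by exact_mod_cast h1
    linarith
  · unfold Shifts PairPat
    simp only [mem_insert, mem_singleton, forall_eq_or_imp, forall_eq, add_zero]
    tauto

theorem single_all : Formula 1 (fun P n => P n) 1 ∧ Orders 1 (fun P n => P n) := by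
  have hadm : Admissible 1 {0} := by
    refine ⟨card_singleton _, fun q hq => ?_⟩
    unfold classes
    rw [image_singleton, card_singleton]
    exact hq.one_lt
  obtain ⟨D, hD, hl, F, O⟩ := shifts_all hadm
  have e : Shifts {0} = fun P n => P n := by
    funext P n
    unfold Shifts
    simp
  rw [e] at F O
  have h1 : singularSeries 1 {0} = fun _ => 1 := by
    funext z
    unfold singularSeries
    apply prod_eq_one
    intro q hq
    rw [mem_filter] at hq
    unfold classes
    rw [image_singleton, card_singleton]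
    have h1 : (2 : ℝ) ≤ q := by exact_mod_cast hq.2.two_le
    have h4 : (1 : ℝ) - 1 / q ≠ 0 := by
      have : (1 : ℝ) / q ≤ 1 / 2 := one_div_le_one_div_of_le (by norm_num) h1
      linarith
    push_cast
    rw [pow_one, div_self h4]
  rw [h1] at hl
  have hD1 : D = 1 := tendsto_nhds_unique hl tendsto_const_nhds
  rw [hD1] at F
  exact ⟨F, O⟩

/-- members of an interval in a class -/
noncomputable def mem' (p : ℕ) (a : ZMod p) (M L : ℕ) (P : ℕ → Prop) : Finset ℕ :=
  (Ioc M (M + L)).filter fun n => (n : ZMod p) = a ∧ P n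

theorem mem_mem' (p : ℕ) (a : ZMod p) (M L : ℕ) (P : ℕ → Prop) (n : ℕ) :
    n ∈ mem' p a M L P ↔ (M < n ∧ n ≤ M + L) ∧ (n : ZMod p) = a ∧ P n := by
  unfold mem'
  rw [mem_filter, mem_Ioc]

theorem number_sum (p : ℕ) {ι : Type} (s : Finset ι) (v : ι → ZMod p) (M L : ℕ) (P : ℕ → Prop) :
    number p s v M L P = ∑ i ∈ s, (mem' p (v i) M L P).card := by
  unfold number mem'
  rw [card_filter, sum_product]
  refine sum_congr rfl fun i _ => ?_
  rw [card_filter]

/-- the number of the ordered pairs -/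
theorem sq_card (p : ℕ) (hp : 1 ≤ p) (a : ZMod p) (M K : ℕ) (P : ℕ → Prop) :
    (mem' p a M (K * p) P).card ^ 2 ≤ (mem' p a M (K * p) P).card +
      2 * ∑ k ∈ Ico 1 K, (mem' p a M ((K - k) * p) (fun n => P (n + k * p) ∧ P n)).card := by
  set S := mem' p a M (K * p) P with hS
  have key : ∀ x ∈ S, ∀ y ∈ S, x < y → ∃ k, 1 ≤ k ∧ k < K ∧ y = x + k * p ∧
      x ∈ mem' p a M ((K - k) * p) (fun n => P (n + k * p) ∧ P n) := by
    intro x hx y hy hxy
    rw [hS] at hx hy
    unfold mem' at hx hy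
    rw [mem_filter, mem_Ioc] at hx hy
    have h1 : (x : ZMod p) = (y : ZMod p) := by rw [hx.2.1, hy.2.1]
    rw [ZMod.natCast_eq_natCast_iff] at h1
    obtain ⟨k, hk⟩ := (Nat.modEq_iff_dvd' hxy.le).1 h1
    have hyx : y = x + k * p := by rw [mul_comm k p, ← hk]; omega
    have hk1 : 1 ≤ k := by
      rcases Nat.eq_zero_or_pos k with h0 | h0
      · rw [h0] at hyx
        omega
      · exact h0
    have hkK : k < K := by
      by_contra hcon
      have h2 : K * p ≤ k * p := Nat.mul_le_mul_right p (by omega)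
      omega
    have h3 : (K - k) * p = K * p - k * p := Nat.sub_mul K k p
    have h4 : k * p ≤ K * p := Nat.mul_le_mul_right p hkK.le
    have h5 : P (x + k * p) := by rw [← hyx]; exact hy.2.2
    exact ⟨k, hk1, hkK, hyx, (mem_mem' p a M _ (fun n => P (n + k * p) ∧ P n) x).2
      ⟨⟨hx.1.1, by omega⟩, hx.2.1, h5, hx.2.2⟩⟩
  have hU : ((S ×ˢ S).filter fun z => z.1 < z.2).card ≤
      ∑ k ∈ Ico 1 K, (mem' p a M ((K - k) * p) (fun n => P (n + k * p) ∧ P n)).card := by
    rw [← card_sigma]
    apply card_le_card_of_injOn (fun z : ℕ × ℕ => (⟨(z.2 - z.1) / p, z.1⟩ : (_ : ℕ) × ℕ))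
    · intro z hz
      rw [mem_coe, mem_filter, mem_product] at hz
      obtain ⟨k, h1, h2, h3, h4⟩ := key z.1 hz.1.1 z.2 hz.1.2 hz.2
      have h5 : (z.2 - z.1) / p = k := by
        rw [h3, Nat.add_sub_cancel_left, Nat.mul_div_cancel _ (by omega)]
      rw [mem_coe, mem_sigma]
      simp only [h5]
      exact ⟨mem_Ico.2 ⟨h1, h2⟩, h4⟩
    · intro z hz w hw hzw
      rw [mem_coe, mem_filter, mem_product] at hz hw
      obtain ⟨k, h1, h2, h3, h4⟩ := key z.1 hz.1.1 z.2 hz.1.2 hz.2
      obtain ⟨k', h1', h2', h3', h4'⟩ := key w.1 hw.1.1 w.2 hw.1.2 hw.2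
      have h5 : (z.2 - z.1) / p = k := by
        rw [h3, Nat.add_sub_cancel_left, Nat.mul_div_cancel _ (by omega)]
      have h5' : (w.2 - w.1) / p = k' := by
        rw [h3', Nat.add_sub_cancel_left, Nat.mul_div_cancel _ (by omega)]
      simp only [h5, h5', Sigma.mk.injEq, heq_eq_eq] at hzw
      obtain ⟨e1, e2⟩ := hzw
      refine Prod.ext e2 ?_
      rw [h3, h3', e1, e2]
  have hsym : ((S ×ˢ S).filter fun z => z.2 < z.1).card = ((S ×ˢ S).filter fun z => z.1 < z.2).card := by
    refine card_bij' (fun z _ => (z.2, z.1)) (fun z _ => (z.2, z.1)) (fun z hz => ?_) (fun z hz => ?_)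
      (fun z _ => rfl) (fun z _ => rfl)
    · rw [mem_filter, mem_product] at hz ⊢
      exact ⟨⟨hz.1.2, hz.1.1⟩, hz.2⟩
    · rw [mem_filter, mem_product] at hz ⊢
      exact ⟨⟨hz.1.2, hz.1.1⟩, hz.2⟩
  have hdiag : ((S ×ˢ S).filter fun z => z.1 = z.2).card ≤ S.card := by
    apply card_le_card_of_injOn (fun z : ℕ × ℕ => z.1)
    · intro z hz
      rw [mem_coe, mem_filter, mem_product] at hz
      exact hz.1.1
    · intro z hz w hw hzw
      rw [mem_coe, mem_filter] at hz hw
      refine Prod.ext hzw ?_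
      rw [← hz.2, ← hw.2]
      exact hzw
  have htot : (S ×ˢ S).card ≤ ((S ×ˢ S).filter fun z => z.1 = z.2).card +
      (((S ×ˢ S).filter fun z => z.1 < z.2).card + ((S ×ˢ S).filter fun z => z.2 < z.1).card) := by
    have hsub : S ×ˢ S ⊆ ((S ×ˢ S).filter fun z => z.1 = z.2) ∪
        (((S ×ˢ S).filter fun z => z.1 < z.2) ∪ ((S ×ˢ S).filter fun z => z.2 < z.1)) := by
      intro z hz
      rw [mem_union, mem_union, mem_filter, mem_filter, mem_filter]
      rcases lt_trichotomy z.1 z.2 with h | h | h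
      · exact Or.inr (Or.inl ⟨hz, h⟩)
      · exact Or.inl ⟨hz, h⟩
      · exact Or.inr (Or.inr ⟨hz, h⟩)
    refine (card_le_card hsub).trans ((card_union_le _ _).trans ?_)
    exact Nat.add_le_add_left (card_union_le _ _) _
  rw [card_product, hsym] at htot
  rw [pow_two]
  omega

theorem almost_of_rough {A κ y : ℝ} (hκ : 0 < κ) {p z n : ℕ} (hp : 2 ≤ p) (hz : (p : ℝ) ^ κ ≤ z + 1)
    (h : Rough z n) (hn : 0 < n) (hnA : (n : ℝ) ≤ (p : ℝ) ^ A) : Almost ⌈A / κ⌉₊ ((p : ℝ) ^ κ) n := by
  have hp1 : (1 : ℝ) < p := by exact_mod_cast (by omega : 1 < p)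
  have hbig : ∀ l : ℕ, l ∈ n.primeFactorsList → (p : ℝ) ^ κ ≤ l := by
    intro l hl
    rw [Nat.mem_primeFactorsList (by omega)] at hl
    have h1 : z < l := by
      by_contra hcon
      exact h l hl.1 (by omega) hl.2
    have h2 : (z : ℝ) + 1 ≤ l := by exact_mod_cast h1
    linarith
  refine ⟨by omega, ?_, hbig⟩
  have h3 : ((p : ℝ) ^ κ) ^ n.primeFactorsList.length ≤ n := by
    have h4 : (z + 1) ^ n.primeFactorsList.length ≤ n := by
      have := List.pow_card_le_prod n.primeFactorsList (z + 1) (fun l hl => by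
        rw [Nat.mem_primeFactorsList (by omega)] at hl
        by_contra hcon
        exact h l hl.1 (by omega) hl.2)
      rwa [Nat.prod_primeFactorsList (by omega)] at this
    have h5 : (((z + 1) ^ n.primeFactorsList.length : ℕ) : ℝ) ≤ n := by exact_mod_cast h4
    push_cast at h5
    exact (pow_le_pow_left₀ (by positivity) hz _).trans h5
  have h6 : (p : ℝ) ^ (κ * n.primeFactorsList.length) ≤ (p : ℝ) ^ A := by
    rw [Real.rpow_mul (by linarith), Real.rpow_natCast]
    exact h3.trans hnA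
  have h7 : κ * n.primeFactorsList.length ≤ A := (Real.rpow_le_rpow_left_iff hp1).1 h6
  have h8 : (n.primeFactorsList.length : ℝ) ≤ A / κ := by
    rw [le_div_iff₀ hκ]
    linarith
  exact_mod_cast h8.trans (Nat.le_ceil _)

end Pool.Agent.Run7.h90.AU
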