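import Pool.Agent.Run7.h90.AU.Shift

/-!
# Reflection of sets of shifts
-/

set_option autoImplicit false
set_option linter.all false

namespace Pool.Agent.Run7.h90.AU

open Finset Filter Topology
open scoped Classical

theorem classes_cast (E : Finset ℕ) (q : ℕ) : classes E q = (E.image fun e => ((e : ℕ) : ZMod q)).card := by
  unfold classes
  have e2 : (E.image fun e => ((e : ℕ) : ZMod q)) = (E.image fun e => e % q).image (fun x : ℕ => (x : ZMod q)) := by
    rw [image_image]
    refine image_congr ?_
    intro e _
    simp only [Function.comp]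
    exact (ZMod.natCast_mod e q).symm
  rw [e2]
  symm
  apply card_image_of_injOn
  intro x hx y hy hxy
  rw [mem_coe, mem_image] at hx hy
  obtain ⟨a, -, rfl⟩ := hx
  obtain ⟨b, -, rfl⟩ := hy
  simp only at hxy
  rw [ZMod.natCast_eq_natCast_iff', Nat.mod_mod, Nat.mod_mod] at hxy
  exact hxy

theorem classes_reflect (E : Finset ℕ) (d : ℕ) (h : ∀ e ∈ E, e ≤ d) (q : ℕ) (hq : q.Prime) :
    classes (E.image fun e => d - e) q = classes E q := by
  have : Fact q.Prime := ⟨hq⟩
  rw [classes_cast, classes_cast, image_image]
  have e1 : (E.image ((fun e => ((e : ℕ) : ZMod q)) ∘ fun e => d - e)) =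
      (E.image fun e => ((e : ℕ) : ZMod q)).image (fun x => (d : ZMod q) - x) := by
    rw [image_image]
    refine image_congr ?_
    intro e he
    simp only [Function.comp]
    rw [Nat.cast_sub (h e he)]
  rw [e1, card_image_of_injective]
  exact (Equiv.subLeft (d : ZMod q)).injective

end Pool.Agent.Run7.h90.AU
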