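import Pool.Agent.Run7.h90.AU.FundW
import Pool.Agent.Run7.h90.AU.LeastB
import Pool.Agent.Run7.h90.AU.ShiftB

/-!
# Numbers free of small prime factors in the residue classes of thin families: all tuples, uniformly in the quality
-/

set_option autoImplicit false
set_option linter.all false

namespace Pool.Agent.Run7.h90.AU

open Finset Filter
open Run7.h870.LI
open Pool.Agent.N825.FC (rep rep_gt rep_le rep_cast rep_unique eqd)
open Pool.Agent.Run7.h90.AP
open scoped Classical
open Polynomial (eval natDegree)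

/-- the member of the class `a` in the interval `(M, M + p]` -/
noncomputable def base (p : ℕ) (M : ℕ) (a : ZMod p) : ℕ := (rep (M : ℤ) a).toNat

theorem base_coe (p : ℕ) [NeZero p] (M : ℕ) (a : ZMod p) : ((base p M a : ℕ) : ℤ) = rep (M : ℤ) a := by
  unfold base
  exact Int.toNat_of_nonneg (by have := rep_gt (M : ℤ) a; omega)

theorem base_gt (p : ℕ) [NeZero p] (M : ℕ) (a : ZMod p) : M < base p M a := by
  have h1 := rep_gt (M : ℤ) a
  have h2 := base_coe p M a
  omega

theorem base_le (p : ℕ) [NeZero p] (M : ℕ) (a : ZMod p) : base p M a ≤ M + p := by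
  have h1 := rep_le (M : ℤ) a
  have h2 := base_coe p M a
  omega

theorem base_cast (p : ℕ) [NeZero p] (M : ℕ) (a : ZMod p) : ((base p M a : ℕ) : ZMod p) = a := by
  have h1 := rep_cast (M : ℤ) a
  rw [← base_coe p M a, Int.cast_natCast] at h1
  exact h1

/-- the polynomial of the shifts by multiples of `p` -/
noncomputable def SP (p : ℕ) (H : Finset ℕ) : Polynomial ℤ :=
  ∏ h ∈ H, (Polynomial.X + Polynomial.C ((p * h : ℕ) : ℤ))

theorem SP_eval (p : ℕ) (H : Finset ℕ) (n : ℤ) : (SP p H).eval n = ∏ h ∈ H, (n + ((p * h : ℕ) : ℤ)) := by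
  unfold SP
  rw [Polynomial.eval_prod]
  refine prod_congr rfl fun h _ => ?_
  simp

theorem SP_deg (p : ℕ) (H : Finset ℕ) : (SP p H).natDegree ≤ H.card := by
  unfold SP
  refine (Polynomial.natDegree_prod_le _ _).trans ?_
  refine (sum_le_sum fun h _ => (Polynomial.natDegree_X_add_C _).le).trans ?_
  simp

theorem SP_QF (p : ℕ) (H : Finset ℕ) {l : ℕ} (hl : l.Prime) (n : ℕ) :
    QF (SP p H) l n ↔ ∃ h ∈ H, l ∣ n + p * h := by
  unfold QF
  rw [SP_eval, (Nat.prime_iff_prime_int.1 hl).dvd_finset_prod_iff]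
  constructor
  · rintro ⟨h, hh, hd⟩
    exact ⟨h, hh, by exact_mod_cast hd⟩
  · rintro ⟨h, hh, hd⟩
    exact ⟨h, hh, by exact_mod_cast hd⟩

theorem rr_eq (Q : ℕ → ℕ → Prop) (l : ℕ) [NeZero l] (S : Finset (ZMod l))
    (h : ∀ n : ℕ, Q l n ↔ (n : ZMod l) ∈ S) : rr Q l = S.card := by
  unfold rr
  refine card_bij (t := S) (fun (n : ℕ) _ => (n : ZMod l)) ?_ ?_ ?_
  · intro n hn
    rw [mem_filter] at hn
    exact (h n).1 hn.2
  · intro a ha b hb hab
    rw [mem_filter, mem_range] at ha hb
    rw [ZMod.natCast_eq_natCast_iff'] at hab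
    rwa [Nat.mod_eq_of_lt ha.1, Nat.mod_eq_of_lt hb.1] at hab
  · intro x hx
    refine ⟨x.val, ?_, ZMod.natCast_zmod_val x⟩
    rw [mem_filter, mem_range]
    exact ⟨ZMod.val_lt x, (h _).2 (by rwa [ZMod.natCast_zmod_val])⟩

theorem rr_SP (p : ℕ) (H : Finset ℕ) {l : ℕ} (hl : l.Prime) (hlp : ¬ l ∣ p) :
    rr (QF (SP p H)) l = classes H l := by
  have : Fact l.Prime := ⟨hl⟩
  have hp : (p : ZMod l) ≠ 0 := by rwa [Ne, ZMod.natCast_eq_zero_iff]
  rw [classes_cast, rr_eq (QF (SP p H)) l ((H.image fun e => ((e : ℕ) : ZMod l)).image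
    fun x => -((p : ZMod l) * x)) ?_]
  · apply card_image_of_injective
    intro x y hxy
    exact mul_left_cancel₀ hp (neg_injective hxy)
  · intro n
    rw [SP_QF p H hl]
    simp only [mem_image, exists_exists_and_eq_and]
    constructor
    · rintro ⟨h, hh, hd⟩
      refine ⟨h, hh, ?_⟩
      rw [← ZMod.natCast_eq_zero_iff] at hd
      push_cast at hd
      exact (eq_neg_of_add_eq_zero_left hd).symm
    · rintro ⟨h, hh, hd⟩
      refine ⟨h, hh, ?_⟩
      rw [← ZMod.natCast_eq_zero_iff]
      push_cast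
      rw [← hd]
      ring

/-- the density of the numbers `n` with `n + h` free of primes `≤ z` for all `h ∈ H` -/
noncomputable def dens (H : Finset ℕ) (z : ℕ) : ℝ :=
  ∏ l ∈ (range (z + 1)).filter Nat.Prime, (1 - (classes H l : ℝ) / l)

theorem classes_le_card (H : Finset ℕ) (l : ℕ) : classes H l ≤ H.card := card_image_le

theorem classes_le (H : Finset ℕ) {l : ℕ} (hl : 0 < l) : classes H l ≤ l := by
  unfold classes
  calc (H.image fun e => e % l).card ≤ (range l).card := by
        apply card_le_card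
        intro x hx
        rw [mem_image] at hx
        obtain ⟨a, -, rfl⟩ := hx
        exact mem_range.2 (Nat.mod_lt _ hl)
    _ = l := card_range l

theorem dens_nonneg (H : Finset ℕ) (z : ℕ) : 0 ≤ dens H z := by
  refine prod_nonneg fun l hl => ?_
  have hl' := (mem_filter.1 hl).2.pos
  have h1 : (classes H l : ℝ) ≤ l := by exact_mod_cast classes_le H hl'
  have h2 : (0 : ℝ) < l := by exact_mod_cast hl'
  rw [sub_nonneg, div_le_one h2]
  exact h1

theorem V_SP {p : ℕ} (hp : p.Prime) (H : Finset ℕ) {z : ℕ} (hz : z < p) : V (SP p H) z = dens H z := by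
  unfold V dens
  refine prod_congr rfl fun l hl => ?_
  rw [mem_filter, mem_range] at hl
  rw [rr_SP p H hl.2 fun h => ?_]
  rcases (Nat.dvd_prime hp).1 h with h1 | h1
  · exact hl.2.one_lt.ne' h1
  · omega

theorem card_fc {α : Type} (s t : Finset α) (P Q : α → Prop) (i1 : DecidablePred P) (i2 : DecidablePred Q)
    (h : ∀ a, (a ∈ s ∧ P a) ↔ (a ∈ t ∧ Q a)) : (@Finset.filter α P i1 s).card = (@Finset.filter α Q i2 t).card := by
  congr 1
  ext a
  rw [Finset.mem_filter, Finset.mem_filter]
  exact h a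

/-- all tuples at once -/
theorem tuple_W (κ : ℕ) (ε : ℝ) (hε : 0 < ε) : ∃ δ : ℝ, 0 < δ ∧ δ ≤ 1 / 8 ∧ ∃ P₀ : ℝ,
    ∀ (p : ℕ) [Fact p.Prime], P₀ ≤ p → ∀ b : ℕ, 1 ≤ b → ∀ (ι : Type) (s : Finset ι) (v : ι → ZMod p),
    SmallSums p ε s v → ∀ M z : ℕ, 2 ≤ z → κ ≤ z → (z : ℝ) ≤ (p : ℝ) ^ (δ / b) →
    ∀ H : Finset ℕ, H.card ≤ κ →
    |(((s.filter fun i => ∀ h ∈ H, Rough z (base p M (v i) + p * h)).card : ℕ) : ℝ) -
      s.card * dens H z| ≤ (1 / 2) ^ b * (s.card * dens H z) := by
  obtain ⟨δ, hδ0, -, hδ8, P₁, HF⟩ := fundW κ ε hε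
  refine ⟨δ, hδ0, hδ8, max P₁ 2, ?_⟩
  intro p hp hpP b hb ι s v hv M z hz2 hκz hzp H hH
  have hpr : p.Prime := hp.out
  have hp2 : (2 : ℝ) ≤ p := (le_max_right _ _).trans hpP
  have hp0 : (0 : ℝ) < p := by linarith
  have hb0 : (1 : ℝ) ≤ b := by exact_mod_cast hb
  have hzlt : z < p := by
    have h1 : (z : ℝ) < p := by
      refine lt_of_le_of_lt hzp ?_
      calc (p : ℝ) ^ (δ / b) ≤ (p : ℝ) ^ (1 / 2 : ℝ) := by
            apply Real.rpow_le_rpow_of_exponent_le (by linarith)
            have : δ / b ≤ δ := div_le_self hδ0.le hb0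
            linarith
        _ < (p : ℝ) ^ (1 : ℝ) := Real.rpow_lt_rpow_of_exponent_lt (by linarith) (by norm_num)
        _ = p := Real.rpow_one _
    exact_mod_cast h1
  have hnd : ∀ l : ℕ, l.Prime → l ≤ z → ¬ l ∣ p := fun l hl hlz h => by
    rcases (Nat.dvd_prime hpr).1 h with h1 | h1
    · exact hl.one_lt.ne' h1
    · omega
  by_cases hadm : ∀ l : ℕ, l.Prime → classes H l < l
  · have hF : ∀ l : ℕ, l.Prime → ∃ n : ℤ, ¬ (l : ℤ) ∣ (SP p H).eval n := by
      intro l hl
      by_cases hlp : l ∣ p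
      · have hle : l = p := by
          rcases (Nat.dvd_prime hpr).1 hlp with h1 | h1
          · exact absurd h1 hl.one_lt.ne'
          · exact h1
        refine ⟨1, fun hd => ?_⟩
        have h1 : QF (SP p H) l 1 := by
          unfold QF
          exact_mod_cast hd
        rw [SP_QF p H hl] at h1
        obtain ⟨h, -, h2⟩ := h1
        rw [hle] at h2
        have h3 : p ∣ 1 := (Nat.dvd_add_left (Dvd.intro h rfl)).1 h2
        exact hpr.one_lt.ne' (Nat.dvd_one.1 h3)
      · have h1 : rr (QF (SP p H)) l < l := by rw [rr_SP p H hl hlp]; exact hadm l hl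
        by_contra hcon
        push Not at hcon
        have h2 : rr (QF (SP p H)) l = l := by
          unfold rr
          have h3 : ∀ n ∈ range l, QF (SP p H) l n := fun n _ => hcon n
          rw [filter_true_of_mem h3, card_range]
        omega
    have h := HF p ((le_max_left _ _).trans hpP) b hb (SP p H) ((SP_deg p H).trans hH) hF ι s v hv M p z
      (by
        calc (p : ℝ) ^ (1 - δ) ≤ (p : ℝ) ^ (1 : ℝ) :=
              Real.rpow_le_rpow_of_exponent_le (by linarith) (by linarith)
          _ = p := Real.rpow_one _) le_rfl hz2 hzp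
    rw [V_SP hpr H hzlt, div_self hp0.ne', mul_one] at h
    convert h using 4
    norm_cast
    refine card_fc _ _ _ _ _ _ fun i => ?_
    rw [mem_filter]
    constructor
    · rintro ⟨h1, h3⟩
      refine ⟨⟨h1, rep_le _ _⟩, fun l hl hq => ?_⟩
      rw [mem_filter, mem_range] at hl
      obtain ⟨h, hh, hd⟩ := (SP_QF p H hl.2 _).1 hq
      exact h3 h hh l hl.2 (by omega) hd
    · rintro ⟨⟨h1, -⟩, h3⟩
      refine ⟨h1, fun h hh l hl hlz hd => ?_⟩
      exact h3 l (mem_filter.2 ⟨mem_range.2 (by omega), hl⟩) ((SP_QF p H hl _).2 ⟨h, hh, hd⟩)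
  · push Not at hadm
    obtain ⟨l, hl, hle⟩ := hadm
    have hlz : l ≤ z := by
      have := classes_le_card H l
      omega
    have hcl : classes H l = l := le_antisymm (classes_le H hl.pos) hle
    have hd0 : dens H z = 0 := by
      unfold dens
      apply prod_eq_zero (mem_filter.2 ⟨mem_range.2 (by omega : l < z + 1), hl⟩)
      have : (l : ℝ) ≠ 0 := by exact_mod_cast hl.ne_zero
      rw [hcl, div_self this, sub_self]
    have hemp : (s.filter fun i => ∀ h ∈ H, Rough z (base p M (v i) + p * h)) = ∅ := by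
      rw [filter_eq_empty_iff]
      intro i _ h3
      have hrr : rr (QF (SP p H)) l = l := by rw [rr_SP p H hl (hnd l hl hlz), hcl]
      have hall : (range l).filter (fun n => QF (SP p H) l n) = range l := by
        apply eq_of_subset_of_card_le (filter_subset _ _)
        rw [card_range]
        exact hrr.ge
      have hmod : QF (SP p H) l (base p M (v i) % l) := by
        have : base p M (v i) % l ∈ (range l).filter (fun n => QF (SP p H) l n) := by
          rw [hall]
          exact mem_range.2 (Nat.mod_lt _ hl.pos)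
        exact (mem_filter.1 this).2
      rw [SP_QF p H hl] at hmod
      obtain ⟨h, hh, hd⟩ := hmod
      refine h3 h hh l hl hlz ?_
      have e : base p M (v i) + p * h = l * (base p M (v i) / l) + (base p M (v i) % l + p * h) := by
        have := Nat.div_add_mod (base p M (v i)) l
        omega
      rw [e]
      exact dvd_add (Dvd.intro _ rfl) hd
    rw [hemp, hd0]
    simp

/-- the number of the `z`-rough numbers among the first `T` members of the class after `M` -/
noncomputable def Wd (p M z T : ℕ) (a : ZMod p) : ℕ :=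
  ((range T).filter fun h => Rough z (base p M a + p * h)).card

theorem Wd_eq (p : ℕ) [Fact p.Prime] (M z T : ℕ) (a : ZMod p) : Wd p M z T a = (mem' p a M (T * p) (Rough z)).card := by
  have hpp : 0 < p := (Fact.out : p.Prime).pos
  unfold Wd
  apply card_bij (fun h _ => base p M a + p * h)
  · intro h hh
    rw [mem_filter, mem_range] at hh
    rw [mem_mem']
    have h1 := base_gt p M a
    have h2 := base_le p M a
    refine ⟨⟨by omega, ?_⟩, ?_, hh.2⟩
    · have h3 : p * (h + 1) ≤ p * T := Nat.mul_le_mul_left p (by omega)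
      have h4 : p * T = T * p := mul_comm _ _
      have h5 : p * (h + 1) = p * h + p := by ring
      omega
    · push_cast
      rw [base_cast, ZMod.natCast_self, zero_mul, add_zero]
  · intro x _ y _ hxy
    exact Nat.eq_of_mul_eq_mul_left hpp (by omega : p * x = p * y)
  · intro n hn
    rw [mem_mem'] at hn
    obtain ⟨⟨h1, h2⟩, h3, h4⟩ := hn
    have h5 : (n : ZMod p) = ((base p M a : ℕ) : ZMod p) := by rw [h3, base_cast]
    have hge : base p M a ≤ n := by
      by_contra hlt
      push Not at hlt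
      have hb := base_le p M a
      have hu : (n : ℤ) = rep (M : ℤ) a := by
        apply rep_unique
        · exact_mod_cast h1
        · have : n ≤ M + p := by omega
          exact_mod_cast this
        · rw [Int.cast_natCast]
          exact h3
      have := base_coe p M a
      omega
    have h6 := (ZMod.natCast_eq_natCast_iff _ _ _).1 h5.symm
    obtain ⟨k, hk⟩ := (Nat.modEq_iff_dvd' hge).1 h6
    refine ⟨k, ?_, by omega⟩
    rw [mem_filter, mem_range]
    have hnk : n = base p M a + p * k := by omega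
    refine ⟨?_, by rw [← hnk]; exact h4⟩
    have hb := base_gt p M a
    by_contra hTk
    push Not at hTk
    have h7 : p * T ≤ p * k := Nat.mul_le_mul_left p hTk
    have h8 : p * T = T * p := mul_comm _ _
    omega

/-- binomial moments -/
theorem Wd_choose (p M z T k : ℕ) {ι : Type} (s : Finset ι) (v : ι → ZMod p) :
    ∑ i ∈ s, ((Wd p M z T (v i)).choose k : ℝ) = ∑ H ∈ powersetCard k (range T),
      (((s.filter fun i => ∀ h ∈ H, Rough z (base p M (v i) + p * h)).card : ℕ) : ℝ) := by
  have h1 : ∀ i, ((Wd p M z T (v i)).choose k) =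
      ∑ H ∈ powersetCard k (range T), if ∀ h ∈ H, Rough z (base p M (v i) + p * h) then 1 else 0 := by
    intro i
    unfold Wd
    rw [← card_powersetCard, ← card_filter]
    congr 1
    ext H
    rw [mem_powersetCard, mem_filter, mem_powersetCard]
    constructor
    · rintro ⟨h1, h2⟩
      exact ⟨⟨h1.trans (filter_subset _ _), h2⟩, fun h hh => (mem_filter.1 (h1 hh)).2⟩
    · rintro ⟨⟨h1, h2⟩, h3⟩
      exact ⟨fun h hh => mem_filter.2 ⟨h1 hh, h3 h hh⟩, h2⟩
  have h2 : ∑ i ∈ s, ((Wd p M z T (v i)).choose k) = ∑ H ∈ powersetCard k (range T),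
      (s.filter fun i => ∀ h ∈ H, Rough z (base p M (v i) + p * h)).card := by
    rw [sum_congr rfl fun i _ => h1 i, sum_comm]
    refine sum_congr rfl fun H _ => ?_
    rw [card_filter]
  have h3 := congrArg (fun n : ℕ => (n : ℝ)) h2
  simpa using h3

end Pool.Agent.Run7.h90.AU
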