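import Pool.Agent.Run7.h90.AU.Fix

/-!
# Examples of families with small exponential sums
-/

set_option autoImplicit false
set_option linter.all false

namespace Pool.Agent.Run7.h90.AU

open Finset Filter Topology
open scoped Classical

/-- The elements of the subgroup `H` of the multiplicative group modulo `p`. -/
noncomputable def elts (p : ℕ) [Fact p.Prime] (H : Subgroup (ZMod p)ˣ) : Finset (ZMod p)ˣ :=
  univ.filter fun h => h ∈ H

/-- The values `c_1 h ^ e_1 + ... + c_k h ^ e_k`, `h ∈ H`, of a sparse polynomial of any degree on a subgroup `H` with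
`|H| ≥ p ^ η gcd(e_i, |H|)`, `|H| ≥ p ^ η gcd(e_i - e_j, |H|)`, `i ≠ j`, have small exponential sums. -/
def SparseSmall : Prop :=
  ∀ (k : ℕ) (η : ℝ), 0 < η → ∃ ε : ℝ, 0 < ε ∧ ∃ P₀ : ℕ, ∀ (p : ℕ) [Fact p.Prime], P₀ ≤ p →
    ∀ (H : Subgroup (ZMod p)ˣ) (c : Fin k → ZMod p) (e : Fin k → ℤ), c ≠ 0 →
    (∀ j, (p : ℝ) ^ η * Int.gcd (e j) (Nat.card H) ≤ Nat.card H) →
    (∀ i j, i ≠ j → (p : ℝ) ^ η * Int.gcd (e i - e j) (Nat.card H) ≤ Nat.card H) →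
    SmallSums p ε (elts p H) (fun h => ∑ i, c i * ((h ^ e i : (ZMod p)ˣ) : ZMod p))

/-- The values `c_1 g_1 ^ n + ... + c_k g_k ^ n`, `n < N`, where `c ≠ 0` and `N` and the orders of the `g_i` and of the
quotients `g_i / g_j`, `i ≠ j`, are at least `p ^ η`, have small exponential sums. -/
def RecurrencesSmall : Prop :=
  ∀ (k : ℕ) (η : ℝ), 0 < η → ∃ ε : ℝ, 0 < ε ∧ ∃ P₀ : ℕ, ∀ (p : ℕ) [Fact p.Prime], P₀ ≤ p →
    ∀ (c : Fin k → ZMod p) (g : Fin k → (ZMod p)ˣ) (N : ℕ), c ≠ 0 →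
    (∀ j, (p : ℝ) ^ η ≤ orderOf (g j)) → (∀ i j, i ≠ j → (p : ℝ) ^ η ≤ orderOf (g i / g j)) →
    (p : ℝ) ^ η ≤ N → SmallSums p ε (range N) (fun n => ∑ i, c i * (g i : ZMod p) ^ n)

theorem sparse_small : SparseSmall := by
  intro k η hη
  obtain ⟨ε, hε, P₀, h⟩ := cls_sparse k η hη
  exact ⟨ε, hε, P₀, fun p hp hpP H c e hc he hee => h p hpP H c e hc he hee⟩

theorem rec_small : RecurrencesSmall := cls_rec

theorem almost_mono {r r' : ℕ} {y y' : ℝ} (h1 : r ≤ r') (h2 : y' ≤ y) {n : ℕ} (h : Almost r y n) :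
    Almost r' y' n := ⟨h.1, h.2.1.trans h1, fun l hl => h2.trans (h.2.2 l hl)⟩

end Pool.Agent.Run7.h90.AU
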