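import Pool.Agent.Run7.h90.AU.Uni

/-!
# Exact patterns: removing longer patterns
-/

set_option autoImplicit false
set_option linter.all false

namespace Pool.Agent.Run7.h90.AU

open Finset Filter Topology
open scoped Classical

/-- upper bound of the order `(log z) ^ (-m)` for a pattern -/
def Upper (m : ℕ) (Q : (ℕ → Prop) → ℕ → Prop) : Prop :=
  ∀ ε : ℝ, 0 < ε → ∃ δ K : ℝ, 0 < δ ∧ 0 < K ∧ ∃ P₀ : ℝ, ∀ (p : ℕ) [Fact p.Prime], P₀ ≤ p →
    ∀ (ι : Type) (s : Finset ι) (v : ι → ZMod p), SmallSums p ε s v →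
    ∀ M L z : ℕ, (p : ℝ) ^ (1 - δ) ≤ L → Real.log p ≤ z → (z : ℝ) ≤ (p : ℝ) ^ δ →
    (number p s v M L (Q (Rough z)) : ℝ) ≤ K * (s.card * ((L : ℝ) / p) / Real.log z ^ m)

theorem formula_upper {m : ℕ} {Q : (ℕ → Prop) → ℕ → Prop} {D : ℝ} (hD : 0 < D) (h : Formula m Q D) :
    Upper m Q := by
  intro ε hε
  obtain ⟨δ, hδ, H⟩ := h ε hε
  obtain ⟨P₀, H⟩ := H 1 le_rfl
  refine ⟨δ, 2 * (Real.exp (-(m * Real.eulerMascheroniConstant)) * D), hδ, by positivity, P₀, ?_⟩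
  intro p hp hpP ι s v hv M L z hL hz1 hz2
  have h1 := H p hpP ι s v hv M L z hL hz1 (by simpa using hz2)
  rw [abs_le] at h1
  have h2 := h1.2
  have hlz : (0 : ℝ) ≤ Real.log z := Real.log_natCast_nonneg z
  have h3 : (0 : ℝ) ≤ Real.exp (-(m * Real.eulerMascheroniConstant)) *
      (D * (s.card * ((L : ℝ) / p)) / Real.log z ^ m) := by positivity
  have e : 2 * (Real.exp (-(m * Real.eulerMascheroniConstant)) * D) * (s.card * ((L : ℝ) / p) / Real.log z ^ m) =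
    2 * (Real.exp (-(m * Real.eulerMascheroniConstant)) *
      (D * (s.card * ((L : ℝ) / p)) / Real.log z ^ m)) := by ring
  rw [e]
  norm_num at h2
  linarith

theorem card_le_of_map {p : ℕ} {ι : Type} (s : Finset ι) (v w : ι → ZMod p) (M L M' L' : ℕ) (P R : ℕ → Prop)
    (f : ℕ → ℕ) (hf : ∀ i ∈ s, ∀ n : ℕ, M < n → n ≤ M + L → (n : ZMod p) = v i → P n →
      M' < f n ∧ f n ≤ M' + L' ∧ ((f n : ℕ) : ZMod p) = w i ∧ R (f n))
    (hi : ∀ n m : ℕ, P n → P m → f n = f m → n = m) :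
    number p s v M L P ≤ number p s w M' L' R := by
  unfold number
  apply card_le_card_of_injOn (fun x : ι × ℕ => (x.1, f x.2))
  · intro x hx
    rw [mem_coe, mem_filter, mem_product, mem_Ioc] at hx ⊢
    obtain ⟨⟨h1, h2, h3⟩, h4, h5⟩ := hx
    obtain ⟨k1, k2, k3, k4⟩ := hf x.1 h1 x.2 h2 h3 h4 h5
    exact ⟨⟨h1, k1, k2⟩, k3, k4⟩
  · intro x hx y hy hxy
    rw [mem_coe, mem_filter] at hx hy
    simp only [Prod.mk.injEq] at hxy
    exact Prod.ext hxy.1 (hi _ _ hx.2.2 hy.2.2 hxy.2)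

theorem upper_half {m : ℕ} {Q : (ℕ → Prop) → ℕ → Prop} (h : Upper m Q)
    (h0 : ∀ z : ℕ, 2 ≤ z → ¬ Q (Rough z) 0) :
    Upper m (fun P n => n % 2 = 1 ∧ Q P ((n - 1) / 2)) := by
  intro ε hε
  obtain ⟨δ, K, hδ, hK, P₀, H⟩ := h ε hε
  refine ⟨δ, K, hδ, hK, max P₀ 3, ?_⟩
  intro p hp hpP ι s v hv M L z hL hz1 hz2
  have hp3 : (3 : ℝ) ≤ p := (le_max_right _ _).trans hpP
  have hp3' : 3 ≤ p := by exact_mod_cast hp3
  have h2 : (2 : ZMod p) ≠ 0 := by
    intro h2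
    have h3 : ((2 : ℕ) : ZMod p) = 0 := by exact_mod_cast h2
    rw [ZMod.natCast_eq_zero_iff] at h3
    have := Nat.le_of_dvd (by norm_num) h3
    omega
  have hz : 2 ≤ z := by
    have h3 : (1 : ℝ) < Real.log p := by
      rw [Real.lt_log_iff_exp_lt (by linarith)]
      have := Real.exp_one_lt_d9
      linarith
    have h4 : (1 : ℝ) < z := lt_of_lt_of_le h3 hz1
    exact_mod_cast h4
  have h1 := H p ((le_max_left _ _).trans hpP) ι s (fun i => (2 : ZMod p)⁻¹ * v i + -(2 : ZMod p)⁻¹)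
    (small_affine hv (inv_ne_zero h2) _) ((M - 1) / 2) L z hL hz1 hz2
  refine le_trans ?_ h1
  have h3 : number p s v M L (fun n => n % 2 = 1 ∧ Q (Rough z) ((n - 1) / 2)) ≤
      number p s (fun i => (2 : ZMod p)⁻¹ * v i + -(2 : ZMod p)⁻¹) ((M - 1) / 2) L (Q (Rough z)) := by
    refine card_le_of_map s v _ M L _ L _ _ (fun n => (n - 1) / 2) ?_ ?_
    · intro i _ n hn1 hn2 hn3 hn4
      have hne : (n - 1) / 2 ≠ 0 := by
        intro h5
        rw [h5] at hn4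
        exact h0 z hz hn4.2
      have e1 : 2 * ((n - 1) / 2) + 1 = n := by omega
      refine ⟨by omega, by omega, ?_, hn4.2⟩
      have e2 : (2 : ZMod p) * (((n - 1) / 2 : ℕ) : ZMod p) + 1 = v i := by
        rw [← hn3]
        exact_mod_cast congrArg (fun x : ℕ => (x : ZMod p)) e1
      rw [← e2]
      field_simp
      ring
    · intro n m hn hm hnm
      omega
  exact_mod_cast h3

theorem upper_half' {m : ℕ} {Q : (ℕ → Prop) → ℕ → Prop} (h : Upper m Q) :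
    Upper m (fun P n => n % 2 = 1 ∧ Q P ((n + 1) / 2)) := by
  intro ε hε
  obtain ⟨δ, K, hδ, hK, P₀, H⟩ := h ε hε
  refine ⟨δ, K, hδ, hK, max P₀ 3, ?_⟩
  intro p hp hpP ι s v hv M L z hL hz1 hz2
  have hp3 : (3 : ℝ) ≤ p := (le_max_right _ _).trans hpP
  have hp3' : 3 ≤ p := by exact_mod_cast hp3
  have h2 : (2 : ZMod p) ≠ 0 := by
    intro h2
    have h3 : ((2 : ℕ) : ZMod p) = 0 := by exact_mod_cast h2
    rw [ZMod.natCast_eq_zero_iff] at h3
    have := Nat.le_of_dvd (by norm_num) h3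
    omega
  have h1 := H p ((le_max_left _ _).trans hpP) ι s (fun i => (2 : ZMod p)⁻¹ * v i + (2 : ZMod p)⁻¹)
    (small_affine hv (inv_ne_zero h2) _) ((M + 1) / 2) L z hL hz1 hz2
  refine le_trans ?_ h1
  have h3 : number p s v M L (fun n => n % 2 = 1 ∧ Q (Rough z) ((n + 1) / 2)) ≤
      number p s (fun i => (2 : ZMod p)⁻¹ * v i + (2 : ZMod p)⁻¹) ((M + 1) / 2) L (Q (Rough z)) := by
    refine card_le_of_map s v _ M L _ L _ _ (fun n => (n + 1) / 2) ?_ ?_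
    · intro i _ n hn1 hn2 hn3 hn4
      have e1 : 2 * ((n + 1) / 2) = n + 1 := by omega
      refine ⟨by omega, by omega, ?_, hn4.2⟩
      have e2 : (2 : ZMod p) * (((n + 1) / 2 : ℕ) : ZMod p) = v i + 1 := by
        rw [← hn3]
        exact_mod_cast congrArg (fun x : ℕ => (x : ZMod p)) e1
      have e3 : v i = (2 : ZMod p) * (((n + 1) / 2 : ℕ) : ZMod p) - 1 := by rw [e2]; ring
      rw [e3]
      field_simp
      ring
    · intro n m hn hm hnm
      omega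
  exact_mod_cast h3

theorem upper_or {m : ℕ} {Q₁ Q₂ : (ℕ → Prop) → ℕ → Prop} (h1 : Upper m Q₁) (h2 : Upper m Q₂) :
    Upper m (fun P n => Q₁ P n ∨ Q₂ P n) := by
  intro ε hε
  obtain ⟨δ₁, K₁, hδ₁, hK₁, P₁, H₁⟩ := h1 ε hε
  obtain ⟨δ₂, K₂, hδ₂, hK₂, P₂, H₂⟩ := h2 ε hε
  refine ⟨min δ₁ δ₂, K₁ + K₂, lt_min hδ₁ hδ₂, by positivity, max (max P₁ P₂) 1, ?_⟩
  intro p hp hpP ι s v hv M L z hL hz1 hz2
  have hp1 : (1 : ℝ) ≤ p := (le_max_right _ _).trans hpP
  have a1 := H₁ p ((le_max_left _ _).trans ((le_max_left _ _).trans hpP)) ι s v hv M L z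
    ((Real.rpow_le_rpow_of_exponent_le hp1 (by linarith [min_le_left δ₁ δ₂])).trans hL) hz1
    (hz2.trans (Real.rpow_le_rpow_of_exponent_le hp1 (min_le_left _ _)))
  have a2 := H₂ p ((le_max_right _ _).trans ((le_max_left _ _).trans hpP)) ι s v hv M L z
    ((Real.rpow_le_rpow_of_exponent_le hp1 (by linarith [min_le_right δ₁ δ₂])).trans hL) hz1
    (hz2.trans (Real.rpow_le_rpow_of_exponent_le hp1 (min_le_right _ _)))
  have h3 : (number p s v M L (fun n => Q₁ (Rough z) n ∨ Q₂ (Rough z) n) : ℝ) ≤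
      (number p s v M L (Q₁ (Rough z)) : ℝ) + (number p s v M L (Q₂ (Rough z)) : ℝ) := by
    exact_mod_cast number_or p s v M L _ _
  refine h3.trans ?_
  rw [add_mul]
  exact add_le_add a1 a2

/-- removing a pattern of larger dimension -/
theorem formula_except {m : ℕ} {Q Q₁ Q' : (ℕ → Prop) → ℕ → Prop} {D : ℝ} (hD : 0 < D) (h : Formula m Q D)
    (h₁ : Upper (m + 1) Q₁) (z₀ : ℕ) (hQ : ∀ z : ℕ, z₀ ≤ z → ∀ n : ℕ, 1 ≤ n →
      (Q' (Rough z) n → Q (Rough z) n) ∧ (Q (Rough z) n → Q' (Rough z) n ∨ Q₁ (Rough z) n)) :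
    Formula m Q' D := by
  intro ε hε
  obtain ⟨δ₁, hδ₁, H₁⟩ := h ε hε
  obtain ⟨δ₂, K, hδ₂, hK, P₂, H₂⟩ := h₁ ε hε
  refine ⟨min (δ₁ / 2) δ₂, lt_min (by positivity) hδ₂, fun b hb => ?_⟩
  obtain ⟨P₁, H₁⟩ := H₁ (b + 1) (by omega)
  obtain ⟨E, hE⟩ : ∃ E : ℝ, E = Real.exp (-(m * Real.eulerMascheroniConstant)) := ⟨_, rfl⟩
  have hE0 : 0 < E := by rw [hE]; exact Real.exp_pos _
  obtain ⟨T, hT⟩ : ∃ T : ℝ, T = K * 2 ^ (b + 1) / (E * D) := ⟨_, rfl⟩
  refine ⟨max (max P₁ P₂) (max (Real.exp z₀) (max 1 (Real.exp (Real.exp (T + 1))))), ?_⟩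
  intro p hp hpP ι s v hv M L z hL hz1 hz2
  have hpP1 : P₁ ≤ p := (le_max_left _ _).trans ((le_max_left _ _).trans hpP)
  have hpP2 : P₂ ≤ p := (le_max_right _ _).trans ((le_max_left _ _).trans hpP)
  have hp1 : (1 : ℝ) ≤ p := (le_max_left _ _).trans ((le_max_right _ _).trans ((le_max_right _ _).trans hpP))
  have hpE : Real.exp (Real.exp (T + 1)) ≤ p :=
    (le_max_right _ _).trans ((le_max_right _ _).trans ((le_max_right _ _).trans hpP))
  have hb1 : (1 : ℝ) ≤ b := by exact_mod_cast hb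
  have hb0 : (0 : ℝ) < b := by linarith
  have hmin : 0 < min (δ₁ / 2) δ₂ := lt_min (by positivity) hδ₂
  have a1 := H₁ p hpP1 ι s v hv M L z
    ((Real.rpow_le_rpow_of_exponent_le hp1 (by linarith [min_le_left (δ₁ / 2) δ₂])).trans hL) hz1
    (hz2.trans (Real.rpow_le_rpow_of_exponent_le hp1 (by
      push_cast
      rw [div_le_div_iff₀ hb0 (by linarith)]
      have := min_le_left (δ₁ / 2) δ₂
      nlinarith)))
  have a2 := H₂ p hpP2 ι s v hv M L z
    ((Real.rpow_le_rpow_of_exponent_le hp1 (by linarith [min_le_right (δ₁ / 2) δ₂])).trans hL) hz1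
    (hz2.trans (Real.rpow_le_rpow_of_exponent_le hp1 (by
      rw [div_le_iff₀ hb0]
      have := min_le_right (δ₁ / 2) δ₂
      nlinarith)))
  have hz : z₀ ≤ z := by
    have h2 : (z₀ : ℝ) ≤ Real.log p := by
      rw [← Real.log_exp (z₀ : ℝ)]
      exact Real.log_le_log (Real.exp_pos _) ((le_max_left _ _).trans ((le_max_right _ _).trans hpP))
    exact_mod_cast h2.trans hz1
  have hlp : Real.exp (T + 1) ≤ Real.log p := by
    rw [← Real.log_exp (Real.exp (T + 1))]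
    exact Real.log_le_log (Real.exp_pos _) hpE
  have hlz : T + 1 ≤ Real.log z := by
    rw [← Real.log_exp (T + 1)]
    exact Real.log_le_log (Real.exp_pos _) (hlp.trans hz1)
  have hT0 : 0 ≤ T := by rw [hT]; positivity
  have hlz0 : 0 < Real.log z := by linarith
  have b1 : (number p s v M L (Q' (Rough z)) : ℝ) ≤ (number p s v M L (Q (Rough z)) : ℝ) := by
    exact_mod_cast number_mono p s v M L _ _ (fun n hn => (hQ z hz n (by omega)).1)
  have b2 : (number p s v M L (Q (Rough z)) : ℝ) ≤ (number p s v M L (Q' (Rough z)) : ℝ) +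
      (number p s v M L (Q₁ (Rough z)) : ℝ) := by
    exact_mod_cast (number_mono p s v M L _ _ (fun n hn => (hQ z hz n (by omega)).2)).trans
      (number_or p s v M L _ _)
  rw [← hE] at a1 ⊢
  obtain ⟨X, hX⟩ : ∃ X : ℝ, X = (s.card : ℝ) * ((L : ℝ) / p) := ⟨_, rfl⟩
  have hX0 : 0 ≤ X := by rw [hX]; positivity
  rw [← hX] at a1 a2 ⊢
  obtain ⟨W, hW⟩ : ∃ W : ℝ, W = E * (D * X / Real.log z ^ m) := ⟨_, rfl⟩
  rw [← hW] at a1 ⊢
  have hW0 : 0 ≤ W := by rw [hW]; positivity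
  have c1 : K * (X / Real.log z ^ (m + 1)) ≤ (1 / 2) ^ (b + 1) * W := by
    have e : K * (X / Real.log z ^ (m + 1)) = (T / Real.log z) * ((1 / 2) ^ (b + 1) * W) := by
      rw [hT, hW, pow_succ (Real.log z) m, div_pow, one_pow]
      field_simp
    rw [e]
    have h3 : T / Real.log z ≤ 1 := by
      rw [div_le_one hlz0]
      linarith
    have h4 : 0 ≤ (1 / 2 : ℝ) ^ (b + 1) * W := by positivity
    nlinarith
  have e2 : (1 / 2 : ℝ) ^ b * W = (1 / 2) ^ (b + 1) * W + (1 / 2) ^ (b + 1) * W := by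
    rw [pow_succ]
    ring
  rw [e2]
  rw [abs_le] at a1 ⊢
  constructor
  · linarith [a1.1]
  · have h4 : 0 ≤ (1 / 2 : ℝ) ^ (b + 1) * W := by positivity
    linarith [a1.2]

end Pool.Agent.Run7.h90.AU
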