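import Pool.Agent.Run7.h90.AU.Chain

/-!
# Exact patterns for almost primes; exact lengths of Cunningham chains
-/

set_option autoImplicit false
set_option linter.all false

namespace Pool.Agent.Run7.h90.AU

open Finset Filter Topology
open scoped Classical

theorem ev_pow (δ : ℝ) (hδ : 0 < δ) (T : ℝ) : ∀ᶠ x : ℝ in atTop,
    Real.log x ≤ (⌊x ^ δ / 2⌋₊ : ℝ) ∧ (δ / 2) * Real.log x ≤ Real.log (⌊x ^ δ / 2⌋₊ : ℝ) ∧ T ≤ Real.log x := by
  have h1 : ∀ᶠ x : ℝ in atTop, Real.log x ≤ (1 / 8) * x ^ δ := by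
    have := (isLittleO_log_rpow_atTop hδ).bound (show (0 : ℝ) < 1 / 8 by norm_num)
    filter_upwards [this, eventually_ge_atTop (1 : ℝ)] with x hx hx1
    rw [Real.norm_of_nonneg (Real.log_nonneg hx1), Real.norm_of_nonneg (by positivity)] at hx
    exact hx
  have h2 : ∀ᶠ x : ℝ in atTop, (8 : ℝ) ≤ x ^ (δ / 2) :=
    (tendsto_rpow_atTop (show 0 < δ / 2 by positivity)).eventually_ge_atTop 8
  filter_upwards [h1, h2, eventually_ge_atTop (1 : ℝ), Real.tendsto_log_atTop.eventually_ge_atTop T] with x h1 h2 hx1 h3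
  have hx0 : 0 < x := by linarith
  have e : x ^ δ = x ^ (δ / 2) * x ^ (δ / 2) := by rw [← Real.rpow_add hx0]; ring_nf
  have hp : 0 < x ^ (δ / 2) := by positivity
  have h4 : x ^ δ / 2 - 1 < (⌊x ^ δ / 2⌋₊ : ℝ) := Nat.sub_one_lt_floor _
  have h5 : 64 ≤ x ^ δ := by rw [e]; nlinarith
  have h6 : x ^ (δ / 2) ≤ (⌊x ^ δ / 2⌋₊ : ℝ) := by
    have : x ^ (δ / 2) ≤ x ^ δ / 2 - 1 := by rw [e]; nlinarith
    linarith
  refine ⟨by linarith, ?_, h3⟩
  rw [← Real.log_rpow hx0]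
  exact Real.log_le_log hp h6

theorem orders_except {m : ℕ} {Q Q₁ Q' : (ℕ → Prop) → ℕ → Prop} (h : Orders m Q) (h₁ : Upper (m + 1) Q₁)
    (hQ : ∀ (r : ℕ) (y y' : ℝ) (z : ℕ), y' ≤ y → (z : ℝ) < y' → ∀ n : ℕ, 1 ≤ n →
      Q (Almost r y) n → Q' (Almost r y') n ∨ Q₁ (Rough z) n)
    (hP : ∀ n : ℕ, 1 ≤ n → Q' Nat.Prime n → Q Nat.Prime n) : Orders m Q' := by
  intro ε A hε hA
  obtain ⟨r, δ₁, K₁, hδ₁, hK₁, P₁, H₁⟩ := h ε A hε hA
  obtain ⟨δ₂, K₂, hδ₂, hK₂, P₂, H₂⟩ := h₁ ε hε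
  obtain ⟨δ, hδ⟩ : ∃ δ : ℝ, δ = min δ₁ δ₂ := ⟨_, rfl⟩
  have hδ0 : 0 < δ := by rw [hδ]; exact lt_min hδ₁ hδ₂
  have hδ1 : δ ≤ δ₁ := by rw [hδ]; exact min_le_left _ _
  have hδ2 : δ ≤ δ₂ := by rw [hδ]; exact min_le_right _ _
  obtain ⟨T, hT⟩ : ∃ T : ℝ, T = 2 * K₁ * K₂ * (2 / δ) ^ (m + 1) := ⟨_, rfl⟩
  have hT0 : 0 ≤ T := by rw [hT]; positivity
  obtain ⟨P₃, hP₃⟩ := (ev_pow δ hδ0 (T + 1)).exists_forall_of_atTop
  refine ⟨r, δ, 2 * K₁, hδ0, by positivity, max (max P₁ P₂) (max P₃ 1), ?_⟩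
  intro p hp hpP ι s v hv M L hM hL
  have hp1 : (1 : ℝ) ≤ p := (le_max_right _ _).trans ((le_max_right _ _).trans hpP)
  have hp0 : (0 : ℝ) < p := by linarith
  have hL1 : (p : ℝ) ^ (1 - δ₁) ≤ L := (Real.rpow_le_rpow_of_exponent_le hp1 (by linarith)).trans hL
  have hL2 : (p : ℝ) ^ (1 - δ₂) ≤ L := (Real.rpow_le_rpow_of_exponent_le hp1 (by linarith)).trans hL
  obtain ⟨a1, a2⟩ := H₁ p ((le_max_left _ _).trans ((le_max_left _ _).trans hpP)) ι s v hv M L hM hL1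
  obtain ⟨e1, e2, e3⟩ := hP₃ p ((le_max_left _ _).trans ((le_max_right _ _).trans hpP))
  obtain ⟨z, hz⟩ : ∃ z : ℕ, z = ⌊(p : ℝ) ^ δ / 2⌋₊ := ⟨_, rfl⟩
  rw [← hz] at e1 e2
  have hpδ : 0 < (p : ℝ) ^ δ := by positivity
  have hzle : (z : ℝ) ≤ (p : ℝ) ^ δ / 2 := by rw [hz]; exact Nat.floor_le (by positivity)
  have hzlt : (z : ℝ) < (p : ℝ) ^ δ := by linarith
  have b1 := H₂ p ((le_max_right _ _).trans ((le_max_left _ _).trans hpP)) ι s v hv M L z hL2 e1
    (hzlt.le.trans (Real.rpow_le_rpow_of_exponent_le hp1 hδ2))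
  have hlp : 0 < Real.log p := by linarith
  have hlz : 0 < Real.log z := lt_of_lt_of_le (by positivity) e2
  have c1 : (number p s v M L (Q (Almost r ((p : ℝ) ^ δ₁))) : ℝ) ≤
      (number p s v M L (Q' (Almost r ((p : ℝ) ^ δ))) : ℝ) + (number p s v M L (Q₁ (Rough z)) : ℝ) := by
    exact_mod_cast (number_mono p s v M L _ _ (fun n hn => hQ r _ _ z
      (Real.rpow_le_rpow_of_exponent_le hp1 hδ1) hzlt n (by omega))).trans (number_or p s v M L _ _)
  obtain ⟨X, hX⟩ : ∃ X : ℝ, X = (s.card : ℝ) * ((L : ℝ) / p) := ⟨_, rfl⟩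
  have hX0 : 0 ≤ X := by rw [hX]; positivity
  rw [← hX] at a1 a2 b1 ⊢
  refine ⟨?_, ?_⟩
  · have d1 : K₂ * (X / Real.log z ^ (m + 1)) ≤ K₂ * (X / ((δ / 2) * Real.log p) ^ (m + 1)) := by
      gcongr
    have d2 : K₁ * (K₂ * (X / ((δ / 2) * Real.log p) ^ (m + 1))) = (T / Real.log p) * (X / Real.log p ^ m) / 2 := by
      rw [hT, mul_pow, div_pow, div_pow, pow_succ (Real.log p) m]
      field_simp
    have d3 : T / Real.log p ≤ 1 := by
      rw [div_le_one hlp]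
      linarith
    have d4 : 0 ≤ X / Real.log p ^ m := by positivity
    have d5 : (T / Real.log p) * (X / Real.log p ^ m) / 2 ≤ X / Real.log p ^ m / 2 := by nlinarith
    have d6 : X / Real.log p ^ m ≤ K₁ * ((number p s v M L (Q' (Almost r ((p : ℝ) ^ δ))) : ℝ) +
        K₂ * (X / ((δ / 2) * Real.log p) ^ (m + 1))) := by
      refine a1.trans ?_
      apply mul_le_mul_of_nonneg_left _ hK₁.le
      linarith
    rw [mul_add, d2] at d6
    linarith
  · have d1 : (number p s v M L (Q' Nat.Prime) : ℝ) ≤ (number p s v M L (Q Nat.Prime) : ℝ) := by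
      exact_mod_cast number_mono p s v M L _ _ (fun n hn => hP n (by omega))
    refine d1.trans (a2.trans ?_)
    have d2 : 0 ≤ K₁ * (X / Real.log p ^ m) := by positivity
    rw [mul_assoc]
    linarith

theorem almost_rough {r : ℕ} {y : ℝ} {z n : ℕ} (hz : (z : ℝ) < y) (h : Almost r y n) : Rough z n := by
  intro l hl hlz hd
  have h1 := h.2.2 l ((Nat.mem_primeFactorsList h.1).2 ⟨hl, hd⟩)
  have h2 : (l : ℝ) ≤ z := by exact_mod_cast hlz
  linarith

/-- The chain of the first kind starting at `n` has exact length `k`, the members being the numbers with the property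
`P`: `n, 2 n + 1, ..., 2 ^ (k - 1) (n + 1) - 1` have the property `P` and `2 ^ k (n + 1) - 1` does not have it. -/
def ExactOne (k : ℕ) (P : ℕ → Prop) (n : ℕ) : Prop := ChainOne k P n ∧ ¬ P (2 ^ k * (n + 1) - 1)

/-- Moreover the chain does not extend to the left: `(n - 1) / 2` is not an integer with the property `P`. -/
def CompleteOne (k : ℕ) (P : ℕ → Prop) (n : ℕ) : Prop := ExactOne k P n ∧ ¬ (n % 2 = 1 ∧ P ((n - 1) / 2))

/-- The chain of the second kind starting at `n` has exact length `k`, the members being the numbers with the property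
`P`: `n, 2 n - 1, ..., 2 ^ (k - 1) (n - 1) + 1` have the property `P` and `2 ^ k (n - 1) + 1` does not have it. -/
def ExactTwo (k : ℕ) (P : ℕ → Prop) (n : ℕ) : Prop := ChainTwo k P n ∧ ¬ P (2 ^ k * (n - 1) + 1)

/-- Moreover the chain does not extend to the left: `(n + 1) / 2` is not an integer with the property `P`. -/
def CompleteTwo (k : ℕ) (P : ℕ → Prop) (n : ℕ) : Prop := ExactTwo k P n ∧ ¬ (n % 2 = 1 ∧ P ((n + 1) / 2))

theorem chainOne_succ {k : ℕ} {P : ℕ → Prop} {n : ℕ} (h : ChainOne k P n) (h1 : P (2 ^ k * (n + 1) - 1)) :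
    ChainOne (k + 1) P n := by
  intro i hi
  rcases Nat.lt_succ_iff_lt_or_eq.1 hi with h2 | h2
  · exact h i h2
  · rw [h2]; exact h1

theorem chainTwo_succ {k : ℕ} {P : ℕ → Prop} {n : ℕ} (h : ChainTwo k P n) (h1 : P (2 ^ k * (n - 1) + 1)) :
    ChainTwo (k + 1) P n := by
  intro i hi
  rcases Nat.lt_succ_iff_lt_or_eq.1 hi with h2 | h2
  · exact h i h2
  · rw [h2]; exact h1

theorem chainOne_left {k : ℕ} {P : ℕ → Prop} {n : ℕ} (h : ChainOne k P n) (hn : n % 2 = 1) (h1 : P ((n - 1) / 2)) :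
    ChainOne (k + 1) P ((n - 1) / 2) := by
  intro i hi
  rcases Nat.eq_zero_or_pos i with h2 | h2
  · rw [h2, pow_zero, one_mul, Nat.add_sub_cancel]; exact h1
  · obtain ⟨j, rfl⟩ : ∃ j, i = j + 1 := ⟨i - 1, by omega⟩
    have h3 := h j (by omega)
    have e : 2 ^ (j + 1) * ((n - 1) / 2 + 1) = 2 ^ j * (n + 1) := by
      rw [pow_succ, mul_assoc]
      congr 1
      omega
    rw [e]
    exact h3

theorem chainTwo_left {k : ℕ} {P : ℕ → Prop} {n : ℕ} (h : ChainTwo k P n) (hn : n % 2 = 1) (h1 : P ((n + 1) / 2)) :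
    ChainTwo (k + 1) P ((n + 1) / 2) := by
  intro i hi
  rcases Nat.eq_zero_or_pos i with h2 | h2
  · rw [h2, pow_zero, one_mul]
    have e : (n + 1) / 2 - 1 + 1 = (n + 1) / 2 := by omega
    rw [e]; exact h1
  · obtain ⟨j, rfl⟩ : ∃ j, i = j + 1 := ⟨i - 1, by omega⟩
    have h3 := h j (by omega)
    have e : 2 ^ (j + 1) * ((n + 1) / 2 - 1) = 2 ^ j * (n - 1) := by
      rw [pow_succ, mul_assoc]
      congr 1
      omega
    rw [e]
    exact h3

theorem chainOne_mono {k : ℕ} {P P' : ℕ → Prop} (hP : ∀ n, P n → P' n) {n : ℕ} (h : ChainOne k P n) :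
    ChainOne k P' n := fun i hi => hP _ (h i hi)

theorem chainTwo_mono {k : ℕ} {P P' : ℕ → Prop} (hP : ∀ n, P n → P' n) {n : ℕ} (h : ChainTwo k P n) :
    ChainTwo k P' n := fun i hi => hP _ (h i hi)

theorem rough_zero {z : ℕ} (hz : 2 ≤ z) : ¬ Rough z 0 := fun h => h 2 Nat.prime_two hz (dvd_zero 2)

theorem exact_one {k : ℕ} (hk : 1 ≤ k) : ∃ D : ℝ, 0 < D ∧ Tendsto (chainConstant k) atTop (𝓝 D) ∧
    Formula k (ExactOne k) D ∧ Orders k (ExactOne k) ∧ Formula k (CompleteOne k) D ∧ Orders k (CompleteOne k) := by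
  obtain ⟨D, hD, hl, F, O⟩ := chainOne_all hk
  obtain ⟨D', hD', -, F', -⟩ := chainOne_all (show 1 ≤ k + 1 by omega)
  have U : Upper (k + 1) (ChainOne (k + 1)) := formula_upper hD' F'
  have U' : Upper (k + 1) (fun P n => n % 2 = 1 ∧ ChainOne (k + 1) P ((n - 1) / 2)) := by
    refine upper_half U (fun z hz h => ?_)
    have := h 0 (by omega)
    simp only [pow_zero, one_mul, zero_add, Nat.sub_self] at this
    exact rough_zero hz this
  have F1 : Formula k (ExactOne k) D := by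
    refine formula_except hD F U 0 (fun z _ n hn => ⟨fun h => h.1, fun h => ?_⟩)
    by_cases h1 : Rough z (2 ^ k * (n + 1) - 1)
    · exact Or.inr (chainOne_succ h h1)
    · exact Or.inl ⟨h, h1⟩
  have O1 : Orders k (ExactOne k) := by
    refine orders_except O U (fun r y y' z hy hz n hn h => ?_) (fun n _ h => h.1)
    have h2 : ChainOne k (Almost r y') n := chainOne_mono (fun m hm => almost_mono le_rfl hy hm) h
    by_cases h1 : Almost r y' (2 ^ k * (n + 1) - 1)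
    · exact Or.inr (chainOne_mono (fun m hm => almost_rough hz hm) (chainOne_succ h2 h1))
    · exact Or.inl ⟨h2, h1⟩
  refine ⟨D, hD, hl, F1, O1, ?_, ?_⟩
  · refine formula_except hD F1 U' 0 (fun z _ n hn => ⟨fun h => h.1, fun h => ?_⟩)
    by_cases h1 : n % 2 = 1 ∧ Rough z ((n - 1) / 2)
    · exact Or.inr ⟨h1.1, chainOne_left h.1 h1.1 h1.2⟩
    · exact Or.inl ⟨h, h1⟩
  · refine orders_except O (upper_or U U') (fun r y y' z hy hz n hn h => ?_) (fun n _ h => h.1.1)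
    have h2 : ChainOne k (Almost r y') n := chainOne_mono (fun m hm => almost_mono le_rfl hy hm) h
    by_cases h1 : Almost r y' (2 ^ k * (n + 1) - 1)
    · exact Or.inr (Or.inl (chainOne_mono (fun m hm => almost_rough hz hm) (chainOne_succ h2 h1)))
    · by_cases h3 : n % 2 = 1 ∧ Almost r y' ((n - 1) / 2)
      · exact Or.inr (Or.inr ⟨h3.1, chainOne_mono (fun m hm => almost_rough hz hm) (chainOne_left h2 h3.1 h3.2)⟩)
      · exact Or.inl ⟨⟨h2, h1⟩, h3⟩

theorem exact_two {k : ℕ} (hk : 1 ≤ k) : ∃ D : ℝ, 0 < D ∧ Tendsto (chainConstant k) atTop (𝓝 D) ∧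
    Formula k (ExactTwo k) D ∧ Orders k (ExactTwo k) ∧ Formula k (CompleteTwo k) D ∧ Orders k (CompleteTwo k) := by
  obtain ⟨D, hD, hl, F, O⟩ := chainTwo_all hk
  obtain ⟨D', hD', -, F', -⟩ := chainTwo_all (show 1 ≤ k + 1 by omega)
  have U : Upper (k + 1) (ChainTwo (k + 1)) := formula_upper hD' F'
  have U' : Upper (k + 1) (fun P n => n % 2 = 1 ∧ ChainTwo (k + 1) P ((n + 1) / 2)) := upper_half' U
  have F1 : Formula k (ExactTwo k) D := by
    refine formula_except hD F U 0 (fun z _ n hn => ⟨fun h => h.1, fun h => ?_⟩)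
    by_cases h1 : Rough z (2 ^ k * (n - 1) + 1)
    · exact Or.inr (chainTwo_succ h h1)
    · exact Or.inl ⟨h, h1⟩
  have O1 : Orders k (ExactTwo k) := by
    refine orders_except O U (fun r y y' z hy hz n hn h => ?_) (fun n _ h => h.1)
    have h2 : ChainTwo k (Almost r y') n := chainTwo_mono (fun m hm => almost_mono le_rfl hy hm) h
    by_cases h1 : Almost r y' (2 ^ k * (n - 1) + 1)
    · exact Or.inr (chainTwo_mono (fun m hm => almost_rough hz hm) (chainTwo_succ h2 h1))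
    · exact Or.inl ⟨h2, h1⟩
  refine ⟨D, hD, hl, F1, O1, ?_, ?_⟩
  · refine formula_except hD F1 U' 0 (fun z _ n hn => ⟨fun h => h.1, fun h => ?_⟩)
    by_cases h1 : n % 2 = 1 ∧ Rough z ((n + 1) / 2)
    · exact Or.inr ⟨h1.1, chainTwo_left h.1 h1.1 h1.2⟩
    · exact Or.inl ⟨h, h1⟩
  · refine orders_except O (upper_or U U') (fun r y y' z hy hz n hn h => ?_) (fun n _ h => h.1.1)
    have h2 : ChainTwo k (Almost r y') n := chainTwo_mono (fun m hm => almost_mono le_rfl hy hm) h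
    by_cases h1 : Almost r y' (2 ^ k * (n - 1) + 1)
    · exact Or.inr (Or.inl (chainTwo_mono (fun m hm => almost_rough hz hm) (chainTwo_succ h2 h1)))
    · by_cases h3 : n % 2 = 1 ∧ Almost r y' ((n + 1) / 2)
      · exact Or.inr (Or.inr ⟨h3.1, chainTwo_mono (fun m hm => almost_rough hz hm) (chainTwo_left h2 h3.1 h3.2)⟩)
      · exact Or.inl ⟨⟨h2, h1⟩, h3⟩

end Pool.Agent.Run7.h90.AU
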