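import Pool.Agent.Run7.h90.AU.Lin

/-!
# Intervals of arbitrary length
-/

set_option autoImplicit false
set_option linter.all false

namespace Pool.Agent.Run7.h90.AU

open Finset Filter Topology
open Run7.h870.LI
open Pool.Agent.Run7.h90.AP
open Pool.Agent.H560R3.GB (C₂ sing)
open scoped Classical

theorem extend {p : ℕ} {ℓ : ℝ} (hp : 2 ≤ p) (hℓ : ℓ ≤ ((p / 2 : ℕ) : ℝ)) (f : ℕ → ℕ → ℝ)
    (hadd : ∀ M L₁ L₂, f M (L₁ + L₂) = f M L₁ + f (M + L₁) L₂) (τ : ℝ) (R : ℕ)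
    (h : ∀ M L : ℕ, M + L ≤ R → ℓ ≤ L → L ≤ p → f M L ≤ τ * L) :
    ∀ L M : ℕ, M + L ≤ R → ℓ ≤ L → f M L ≤ τ * L := by
  intro L
  induction L using Nat.strong_induction_on with
  | _ L ih =>
    intro M hM hL
    rcases le_or_gt L p with h1 | h1
    · exact h M L hM hL h1
    · obtain ⟨L₂, rfl⟩ : ∃ L₂, L = p / 2 + L₂ := ⟨L - p / 2, by omega⟩
      have h2 := h M (p / 2) (by omega) hℓ (by omega)
      have h3 := ih L₂ (by omega) (M + p / 2) (by omega) (hℓ.trans (by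
        have : p / 2 ≤ L₂ := by omega
        exact_mod_cast this))
      rw [hadd]
      push_cast
      push_cast at h2
      linarith

theorem prs_add (p : ℕ) {ι : Type} (s : Finset ι) (v : ι → ZMod p) (P : ι × ℕ → Prop) [DecidablePred P]
    (M L₁ L₂ : ℕ) :
    ((prs p s v M (L₁ + L₂)).filter P).card =
      ((prs p s v M L₁).filter P).card + ((prs p s v (M + L₁) L₂).filter P).card := by
  rw [← card_union_of_disjoint]
  · congr 1
    ext x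
    unfold prs
    simp only [mem_filter, mem_product, mem_Ioc, mem_union]
    constructor
    · rintro ⟨⟨⟨h1, h2, h3⟩, h4⟩, h5⟩
      rcases le_or_gt x.2 (M + L₁) with h | h
      · exact Or.inl ⟨⟨⟨h1, h2, h⟩, h4⟩, h5⟩
      · exact Or.inr ⟨⟨⟨h1, h, by omega⟩, h4⟩, h5⟩
    · rintro (⟨⟨⟨h1, h2, h3⟩, h4⟩, h5⟩ | ⟨⟨⟨h1, h2, h3⟩, h4⟩, h5⟩)
      · exact ⟨⟨⟨h1, h2, by omega⟩, h4⟩, h5⟩
      · exact ⟨⟨⟨h1, by omega, by omega⟩, h4⟩, h5⟩
  · rw [disjoint_left]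
    intro x h1 h2
    unfold prs at h1 h2
    rw [mem_filter, mem_filter, mem_product, mem_Ioc] at h1 h2
    omega

theorem ev_half (δ : ℝ) (hδ : 0 < δ) : ∀ᶠ x : ℝ in atTop, ∀ p : ℕ, x ≤ p →
    2 ≤ p ∧ (p : ℝ) ^ (1 - δ) ≤ ((p / 2 : ℕ) : ℝ) := by
  have h1 := (tendsto_rpow_atTop hδ).eventually_ge_atTop (4 : ℝ)
  obtain ⟨x₀, hx₀⟩ := eventually_atTop.1 h1
  filter_upwards [eventually_ge_atTop (max x₀ 4)] with x hx p hp
  have hp4 : (4 : ℝ) ≤ p := (le_max_right _ _).trans (hx.trans hp)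
  have hp4' : 4 ≤ p := by exact_mod_cast hp4
  have h2 := hx₀ p ((le_max_left _ _).trans (hx.trans hp))
  refine ⟨by omega, ?_⟩
  have hp0 : (0 : ℝ) < p := by linarith
  have h3 : (p : ℝ) ^ (1 - δ) ≤ p / 4 := by
    rw [Real.rpow_sub hp0, Real.rpow_one]
    exact div_le_div_of_nonneg_left hp0.le (by norm_num) h2
  have h4 : (p : ℝ) ≤ 2 * ((p / 2 : ℕ) : ℝ) + 1 := by
    have : p ≤ 2 * (p / 2) + 1 := by omega
    exact_mod_cast this
  linarith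

/-- the count without upper bound for the length of the interval -/
theorem pair_countL (ε A : ℝ) (hε : 0 < ε) (hA : 0 ≤ A) : ∃ δ : ℝ, 0 < δ ∧ δ ≤ ε / 8 ∧ δ ≤ 1 / 8 ∧
    ∀ b : ℕ, 1 ≤ b → ∃ P₀ : ℝ, ∀ (p : ℕ) [Fact p.Prime], P₀ ≤ p → ∀ (F : Polynomial ℤ) (E : ℕ),
      F.natDegree ≤ 2 → E ≠ 0 → 2 ∣ E → (E : ℝ) ≤ (p : ℝ) ^ A →
      (∀ l : ℕ, l.Prime → rr (QF F) l = if l ∣ E then 1 else 2) →
      ∀ (ι : Type) (s : Finset ι) (v : ι → ZMod p), Small p ε s v →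
      ∀ M L z : ℕ, (p : ℝ) ^ (1 - δ) ≤ L → Real.log p ≤ z → (z : ℝ) ≤ (p : ℝ) ^ (δ / b) →
      |((((prs p s v M L).filter fun x => ∀ l : ℕ, l.Prime → l ≤ z → ¬ QF F l x.2).card : ℕ) : ℝ) -
        X₂ p s.card L E (Real.log z)| ≤ (1 / 2) ^ b * X₂ p s.card L E (Real.log z) := by
  obtain ⟨δ, hδ, h1, h2, H⟩ := pair_count ε A hε hA
  refine ⟨δ, hδ, h1, h2, fun b hb => ?_⟩
  obtain ⟨P₁, H⟩ := H b hb
  obtain ⟨P₂, hP₂⟩ := eventually_atTop.1 (ev_half δ hδ)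
  refine ⟨max P₁ P₂, ?_⟩
  intro p hp hpP F E hdeg hE0 hE2 hEA hF ι s v hv M L z hL hz1 hz2
  obtain ⟨hp2, hhalf⟩ := hP₂ P₂ le_rfl p ((le_max_right _ _).trans hpP)
  obtain ⟨G, hG⟩ : ∃ G : ℝ, G = X₂ p s.card 1 E (Real.log z) := ⟨_, rfl⟩
  have hX : ∀ L : ℕ, X₂ p s.card L E (Real.log z) = G * L := by
    intro L
    rw [hG]
    unfold X₂
    push_cast
    ring
  obtain ⟨f, hf⟩ : ∃ f : ℕ → ℕ → ℝ, f = fun M L => ((((prs p s v M L).filter fun x =>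
    ∀ l : ℕ, l.Prime → l ≤ z → ¬ QF F l x.2).card : ℕ) : ℝ) := ⟨_, rfl⟩
  have hadd : ∀ M L₁ L₂, f M (L₁ + L₂) = f M L₁ + f (M + L₁) L₂ := by
    intro M L₁ L₂
    rw [hf]
    try simp only
    rw [prs_add]
    push_cast
    rfl
  have hb := fun M L hL1 hL2 => H p ((le_max_left _ _).trans hpP) F E hdeg hE0 hE2 hEA hF ι s v hv M L z
    hL1 hL2 hz1 hz2
  have e1 := extend hp2 hhalf f hadd ((1 + (1 / 2) ^ b) * G) (M + L) (by
    intro M' L' _ h3 h4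
    have h5 := (abs_le.1 (hb M' L' h3 h4)).2
    rw [hX] at h5
    rw [hf]
    try simp only
    linarith) L M le_rfl hL
  have e2 := extend hp2 hhalf (fun M L => - f M L) (fun M L₁ L₂ => by
    try simp only
    rw [hadd]
    ring) (-((1 - (1 / 2) ^ b) * G)) (M + L) (by
    intro M' L' _ h3 h4
    have h5 := (abs_le.1 (hb M' L' h3 h4)).1
    rw [hX] at h5
    rw [hf]
    try simp only
    linarith) L M le_rfl hL
  rw [hf] at e1 e2
  try simp only at e1 e2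
  rw [hX, abs_le]
  constructor <;> linarith

/-- the orders of magnitude without upper bound for the length of the interval -/
theorem lin_ordersL (ε A : ℝ) (hε : 0 < ε) (hA : 1 ≤ A) : ∃ (r : ℕ) (δ K : ℝ), 0 < δ ∧ 0 < K ∧
    ∃ P₀ : ℝ, ∀ (p : ℕ) [Fact p.Prime], P₀ ≤ p → ∀ a d : ℤ, a ≠ 0 → d ≠ 0 → IsCoprime a d →
      2 ∣ a * d → (|a| : ℝ) ≤ (p : ℝ) ^ A → (|d| : ℝ) ≤ (p : ℝ) ^ A →
      ∀ (ι : Type) (s : Finset ι) (v : ι → ZMod p), Small p ε s v →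
      ∀ M L : ℕ, (M + L : ℝ) ≤ (p : ℝ) ^ A → (p : ℝ) ^ (1 - δ) ≤ L →
      sing (a * d).natAbs * (s.card * ((L : ℝ) / p)) / Real.log p ^ 2 ≤
        K * (((prs p s v M L).filter fun x =>
          x.2.primeFactorsList.length ≤ r ∧ (∀ l : ℕ, l ∈ x.2.primeFactorsList → (p : ℝ) ^ δ ≤ l) ∧
          (a + d * x.2).natAbs ≠ 0 ∧ (a + d * x.2).natAbs.primeFactorsList.length ≤ r ∧
          ∀ l : ℕ, l ∈ (a + d * x.2).natAbs.primeFactorsList → (p : ℝ) ^ δ ≤ l).card : ℝ) ∧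
      (((prs p s v M L).filter fun x => x.2.Prime ∧ (a + d * x.2).natAbs.Prime).card : ℝ) ≤
        K * (sing (a * d).natAbs * (s.card * ((L : ℝ) / p)) / Real.log p ^ 2) := by
  obtain ⟨r, δ, K, hδ, hK, P₁, H⟩ := lin_orders ε A hε hA
  obtain ⟨P₂, hP₂⟩ := eventually_atTop.1 (ev_half δ hδ)
  refine ⟨r, δ, K, hδ, hK, max P₁ P₂, ?_⟩
  intro p hp hpP a d ha0 hd0 had h2ad haA hdA ι s v hv M L hM hL
  obtain ⟨hp2, hhalf⟩ := hP₂ P₂ le_rfl p ((le_max_right _ _).trans hpP)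
  obtain ⟨G, hG⟩ : ∃ G : ℝ, G = sing (a * d).natAbs * (s.card * (1 / (p : ℝ))) / Real.log p ^ 2 :=
    ⟨_, rfl⟩
  have hX : ∀ L : ℕ, sing (a * d).natAbs * (s.card * ((L : ℝ) / p)) / Real.log p ^ 2 = G * L := by
    intro L
    rw [hG]
    ring
  obtain ⟨f, hf⟩ : ∃ f : ℕ → ℕ → ℝ, f = fun M L => (((prs p s v M L).filter fun x =>
          x.2.primeFactorsList.length ≤ r ∧ (∀ l : ℕ, l ∈ x.2.primeFactorsList → (p : ℝ) ^ δ ≤ l) ∧
          (a + d * x.2).natAbs ≠ 0 ∧ (a + d * x.2).natAbs.primeFactorsList.length ≤ r ∧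
          ∀ l : ℕ, l ∈ (a + d * x.2).natAbs.primeFactorsList → (p : ℝ) ^ δ ≤ l).card : ℝ) := ⟨_, rfl⟩
  obtain ⟨f', hf'⟩ : ∃ f' : ℕ → ℕ → ℝ, f' = fun M L => (((prs p s v M L).filter fun x =>
      x.2.Prime ∧ (a + d * x.2).natAbs.Prime).card : ℝ) := ⟨_, rfl⟩
  have hadd : ∀ M L₁ L₂, f M (L₁ + L₂) = f M L₁ + f (M + L₁) L₂ := by
    intro M L₁ L₂
    rw [hf]
    try simp only
    rw [prs_add]
    push_cast
    rfl
  have hadd' : ∀ M L₁ L₂, f' M (L₁ + L₂) = f' M L₁ + f' (M + L₁) L₂ := by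
    intro M L₁ L₂
    rw [hf']
    try simp only
    rw [prs_add]
    push_cast
    rfl
  have hb := fun M L hM hL1 hL2 => H p ((le_max_left _ _).trans hpP) a d ha0 hd0 had h2ad haA hdA ι s v
    hv M L hM hL1 hL2
  have hML : ∀ M' L' : ℕ, M' + L' ≤ M + L → (M' : ℝ) ≤ (p : ℝ) ^ A := by
    intro M' L' h3
    have : (M' : ℝ) ≤ M + L := by
      have : M' ≤ M + L := by omega
      exact_mod_cast this
    linarith
  constructor
  · have e := extend hp2 hhalf (fun M L => - (K * f M L)) (fun M L₁ L₂ => by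
      try simp only
      rw [hadd]
      ring) (-G) (M + L) (by
      intro M' L' h2 h3 h4
      have h5 := (hb M' L' (hML M' L' h2) h3 h4).1
      rw [hX] at h5
      rw [hf]
      try simp only
      linarith) L M le_rfl hL
    rw [hf] at e
    try simp only at e
    rw [hX]
    linarith
  · have e := extend hp2 hhalf f' hadd' (K * G) (M + L) (by
      intro M' L' h2 h3 h4
      have h5 := (hb M' L' (hML M' L' h2) h3 h4).2
      rw [hX] at h5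
      rw [hf']
      try simp only
      linarith) L M le_rfl hL
    rw [hf'] at e
    try simp only at e
    rw [hX]
    linarith

end Pool.Agent.Run7.h90.AU
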