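import Pool.Agent.Run7.h90.AU.Lin
import Pool.Agent.Run7.h823.BK9

/-!
# Linear recurrences modulo a prime have small exponential sums
-/

set_option autoImplicit false
set_option linter.all false

namespace Pool.Agent.Run7.h90.AU

open Finset

/-- the linear recurrence `c_1 g_1 ^ n + ... + c_k g_k ^ n` -/
def lrec (p k : ℕ) (c : Fin k → ZMod p) (g : Fin k → (ZMod p)ˣ) (n : ℕ) : ZMod p :=
  ∑ i, c i * (g i : ZMod p) ^ n

theorem lrec_small (k : ℕ) (η : ℝ) (hη : 0 < η) : ∃ ε : ℝ, 0 < ε ∧ ∃ P₀ : ℕ,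
    ∀ (p : ℕ) [Fact p.Prime], P₀ ≤ p → ∀ (c : Fin k → ZMod p) (g : Fin k → (ZMod p)ˣ) (N : ℕ),
      c ≠ 0 → (∀ j, (p : ℝ) ^ η ≤ orderOf (g j)) →
      (∀ i j, i ≠ j → (p : ℝ) ^ η ≤ orderOf (g i / g j)) → (p : ℝ) ^ η ≤ N →
      Small p ε (range N) (lrec p k c g) := by
  obtain ⟨ε, hε, P₀, h⟩ := Pool.Agent.Run7.h823.BK.recurrences k hη
  refine ⟨ε, hε, P₀, ?_⟩
  intro p hp hpP c g N hc hg hgg hN ξ hξ
  have hli : LinearIndependent (ZMod p) (fun _ : Fin 1 => c) := by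
    rw [linearIndependent_unique_iff]
    exact hc
  have h1 := h p hpP 1 (fun _ => c) g N hli hg hgg hN (fun _ => ξ) (by
    intro h0
    exact hξ (congrFun h0 0))
  rw [card_range]
  simp only [Fin.sum_univ_one, univ_unique, sum_const, card_singleton] at h1
  unfold lrec
  rw [mul_comm ((p : ℝ) ^ (-ε))]
  simpa using h1

end Pool.Agent.Run7.h90.AU
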