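import Pool.Agent.Run7.h90.AU.TupleC
import Pool.Agent.Run7.h90.AU.Rec

/-!
# Tuples of linear forms at the values of linear recurrences modulo a prime
-/

set_option autoImplicit false
set_option linter.all false

namespace Pool.Agent.Run7.h90.AU

open Finset Filter Topology
open Run7.h870.LI
open Pool.Agent.Run7.h90.AP
open scoped Classical
open Polynomial (X C)

/-- the linear recurrence `c_1 g_1 ^ n + ... + c_k g_k ^ n` -/
def RSet (η δ : ℝ) (p k : ℕ) (c : Fin k → ZMod p) (g : Fin k → (ZMod p)ˣ) (N L : ℕ) : Prop :=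
  c ≠ 0 ∧ (∀ i, (p : ℝ) ^ η ≤ orderOf (g i)) ∧ (∀ i j, i ≠ j → (p : ℝ) ^ η ≤ orderOf (g i / g j)) ∧
    (p : ℝ) ^ η ≤ N ∧ (p : ℝ) ^ (1 - δ) ≤ L

/-- the tuple of linear forms is nondegenerate, without fixed prime divisor, of size at most `Q` -/
def TS {m : ℕ} (Q : ℝ) (a d : Fin m → ℤ) : Prop :=
  (∀ j, d j ≠ 0) ∧ (∀ i j, i ≠ j → a i * d j ≠ a j * d i) ∧
    (∀ l : ℕ, l.Prime → ∃ n : ℤ, ¬ (l : ℤ) ∣ ∏ j, (a j + d j * n)) ∧
    (∀ j, |(a j : ℝ)| ≤ Q) ∧ ∀ j, |(d j : ℝ)| ≤ Q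

/-- the number of the roots -/
noncomputable def om {m : ℕ} (a d : Fin m → ℤ) (l : ℕ) : ℕ :=
  ((range l).filter fun n : ℕ => (l : ℤ) ∣ ∏ j, (a j + d j * (n : ℤ))).card

/-- the partial products of the singular series -/
noncomputable def psing {m : ℕ} (a d : Fin m → ℤ) (z : ℕ) : ℝ :=
  ∏ l ∈ (range (z + 1)).filter Nat.Prime, ((1 - (om a d l : ℝ) / l) / (1 - 1 / (l : ℝ)) ^ m)

theorem prod_lf_eval {m : ℕ} (a d : Fin m → ℤ) (n : ℤ) :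
    (∏ j, lf a d j).eval n = ∏ j, (a j + d j * n) := by
  rw [Polynomial.eval_prod]
  exact prod_congr rfl fun j _ => lf_eval a d j n

theorem psing_eq {m : ℕ} (a d : Fin m → ℤ) : psing a d = PS m (∏ j, lf a d j) := by
  funext z
  unfold psing PS fct
  refine prod_congr rfl fun l _ => ?_
  have h : om a d l = rr (QF (∏ j, lf a d j)) l := by
    unfold om rr
    congr 1
    ext n
    rw [mem_filter, mem_filter]
    unfold QF
    rw [prod_lf_eval]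
  rw [h]

theorem psing_lim {m : ℕ} {Q : ℝ} {a d : Fin m → ℤ} (h : TS Q a d) :
    ∃ S : ℝ, 0 < S ∧ Tendsto (psing a d) atTop (𝓝 S) := by
  rw [psing_eq]
  exact PS_lim (Hyp_lf h.1 h.2.1 (fun l hl => by
    obtain ⟨n, hn⟩ := h.2.2.1 l hl
    exact ⟨n, by rwa [prod_lf_eval]⟩))

theorem rec_count (m k : ℕ) (η A : ℝ) (hη : 0 < η) (hA : 1 ≤ A) : ∃ δ : ℝ, 0 < δ ∧
    ∀ b : ℕ, 1 ≤ b → ∃ P₀ : ℝ, ∀ p : ℕ, p.Prime → P₀ ≤ p →
      ∀ (c : Fin k → ZMod p) (g : Fin k → (ZMod p)ˣ) (N L : ℕ), RSet η δ p k c g N L →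
      ∀ a d : Fin m → ℤ, TS ((p : ℝ) ^ A) a d → ∀ S : ℝ, 0 < S → Tendsto (psing a d) atTop (𝓝 S) →
      ∀ M z : ℕ, Real.log p ≤ z → (z : ℝ) ≤ (p : ℝ) ^ (δ / b) →
      |((((prs p (range N) (lrec p k c g) M L).filter fun x =>
          ∀ l : ℕ, l.Prime → l ≤ z → ¬ (l : ℤ) ∣ ∏ j, (a j + d j * (x.2 : ℤ))).card : ℕ) : ℝ) -
        Real.exp (-(m * Real.eulerMascheroniConstant)) * Xk m p S N L (Real.log z)| ≤
      (1 / 2) ^ b * (Real.exp (-(m * Real.eulerMascheroniConstant)) * Xk m p S N L (Real.log z)) := by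
  obtain ⟨ε, hε, P₁, hsmall⟩ := lrec_small k η hη
  obtain ⟨δ, hδ, -, -, H⟩ := tuple_count m ε (A * ((m + 3 * m ^ 2 : ℕ) : ℝ)) hε (by positivity)
  refine ⟨δ, hδ, fun b hb => ?_⟩
  obtain ⟨P₂, H⟩ := H b hb
  refine ⟨max (max P₁ P₂) 2, ?_⟩
  intro p hpp hpP c g N L hS a d hT S hS0 hS1 M z hz1 hz2
  have hfact : Fact p.Prime := ⟨hpp⟩
  obtain ⟨hc, hg, hgg, hN, hL1⟩ := hS
  obtain ⟨t1, t2, t3, t4, t5⟩ := hT
  have hP1 : P₁ ≤ p := by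
    have := (le_max_left _ _).trans ((le_max_left _ _).trans hpP)
    exact_mod_cast this
  have hp2 : (2 : ℝ) ≤ p := (le_max_right _ _).trans hpP
  have hp0 : (0 : ℝ) < p := by linarith
  have hsm := hsmall p hP1 c g N hc hg hgg hN
  have hpA : (p : ℝ) ≤ (p : ℝ) ^ A := by
    calc (p : ℝ) = (p : ℝ) ^ (1 : ℝ) := (Real.rpow_one _).symm
      _ ≤ _ := Real.rpow_le_rpow_of_exponent_le (by linarith) hA
  have hadm : ∀ l : ℕ, l.Prime → ∃ n : ℤ, ¬ (l : ℤ) ∣ (∏ j, lf a d j).eval n := fun l hl => by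
    obtain ⟨n, hn⟩ := t3 l hl
    exact ⟨n, by rwa [prod_lf_eval]⟩
  have hE : (((Res a d).natAbs : ℕ) : ℝ) ≤ (p : ℝ) ^ (A * ((m + 3 * m ^ 2 : ℕ) : ℝ)) := by
    have h1 := Res_le (Q := (p : ℝ) ^ A) (by linarith) t4 t5
    refine h1.trans (le_of_eq ?_)
    rw [Real.rpow_mul hp0.le, Real.rpow_natCast]
  have h := H p ((le_max_right _ _).trans ((le_max_left _ _).trans hpP)) _ _ (Hyp_lf t1 t2 hadm)
    (lf_prod_deg t1).le hE S hS0 (by rw [← psing_eq]; exact hS1) ℕ (range N) _ hsm M L z hL1 hz1 hz2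
  rw [card_range] at h
  have hset : ((prs p (range N) (lrec p k c g) M L).filter fun x =>
          ∀ l : ℕ, l.Prime → l ≤ z → ¬ (l : ℤ) ∣ ∏ j, (a j + d j * (x.2 : ℤ))) =
      ((prs p (range N) (lrec p k c g) M L).filter fun x =>
          ∀ l : ℕ, l.Prime → l ≤ z → ¬ QF (∏ j, lf a d j) l x.2) := by
    unfold QF
    simp only [prod_lf_eval]
  rw [hset]
  exact h

theorem rec_orders (m k : ℕ) (η A : ℝ) (hη : 0 < η) (hA : 1 ≤ A) : ∃ (r : ℕ) (δ K : ℝ), 0 < δ ∧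
    0 < K ∧ ∃ P₀ : ℝ, ∀ p : ℕ, p.Prime → P₀ ≤ p →
      ∀ (c : Fin k → ZMod p) (g : Fin k → (ZMod p)ˣ) (N L : ℕ), RSet η δ p k c g N L →
      ∀ a d : Fin m → ℤ, TS ((p : ℝ) ^ A) a d → ∀ S : ℝ, 0 < S → Tendsto (psing a d) atTop (𝓝 S) →
      ∀ M : ℕ, (M + L : ℝ) ≤ (p : ℝ) ^ A →
      Xk m p S N L (Real.log p) ≤ K * ((((prs p (range N) (lrec p k c g) M L).filter fun x =>
          ∀ j, Alm r ((p : ℝ) ^ δ) (a j + d j * (x.2 : ℤ)).natAbs).card : ℕ) : ℝ) ∧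
      ((((prs p (range N) (lrec p k c g) M L).filter fun x =>
          ∀ j, (a j + d j * (x.2 : ℤ)).natAbs.Prime).card : ℕ) : ℝ) ≤
        K * Xk m p S N L (Real.log p) := by
  obtain ⟨ε, hε, P₁, hsmall⟩ := lrec_small k η hη
  obtain ⟨r, δ, K, hδ, hK, P₂, H⟩ := tuple_orders m ε A hε hA
  refine ⟨r, δ, K, hδ, hK, max P₁ P₂, ?_⟩
  intro p hpp hpP c g N L hS a d hT S hS0 hS1 M hM
  have hfact : Fact p.Prime := ⟨hpp⟩
  obtain ⟨hc, hg, hgg, hN, hL1⟩ := hS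
  obtain ⟨t1, t2, t3, t4, t5⟩ := hT
  have hP1 : P₁ ≤ p := by
    have := (le_max_left _ _).trans hpP
    exact_mod_cast this
  have hsm := hsmall p hP1 c g N hc hg hgg hN
  have hadm : ∀ l : ℕ, l.Prime → ∃ n : ℤ, ¬ (l : ℤ) ∣ (∏ j, lf a d j).eval n := fun l hl => by
    obtain ⟨n, hn⟩ := t3 l hl
    exact ⟨n, by rwa [prod_lf_eval]⟩
  have h := H p ((le_max_right _ _).trans hpP) a d t1 t2 hadm t4 t5 S hS0
    (by rw [← psing_eq]; exact hS1) ℕ (range N) _ hsm M L hM hL1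
  rw [card_range] at h
  simp only [lf_eval] at h
  exact h

end Pool.Agent.Run7.h90.AU
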