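import Pool.Agent.Run7.h90.AU.Cls

/-!
# Fixed tuples of linear forms
-/

set_option autoImplicit false
set_option linter.all false

namespace Pool.Agent.Run7.h90.AU

open Finset Filter Topology
open Run7.h870.LI
open Pool.Agent.Run7.h90.AP
open scoped Classical

/-- No prime `l ≤ z` divides `n`. -/
def Rough (z : ℕ) (n : ℕ) : Prop := ∀ l : ℕ, l.Prime → l ≤ z → ¬ l ∣ n

/-- nondegenerate and without fixed prime divisor -/
def ND {m : ℕ} (a d : Fin m → ℤ) : Prop :=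
  (∀ j, d j ≠ 0) ∧ (∀ i j, i ≠ j → a i * d j ≠ a j * d i) ∧
    (∀ l : ℕ, l.Prime → ∃ n : ℤ, ¬ (l : ℤ) ∣ ∏ j, (a j + d j * n))

theorem ND.ts {m : ℕ} {a d : Fin m → ℤ} (h : ND a d) {Q : ℝ} (hQ : ∑ j, (|(a j : ℝ)| + |(d j : ℝ)|) ≤ Q) :
    TS Q a d := by
  refine ⟨h.1, h.2.1, h.2.2, fun j => ?_, fun j => ?_⟩
  · have h1 : |(a j : ℝ)| + |(d j : ℝ)| ≤ ∑ j, (|(a j : ℝ)| + |(d j : ℝ)|) :=
      single_le_sum (f := fun j => |(a j : ℝ)| + |(d j : ℝ)|)
        (fun i _ => add_nonneg (abs_nonneg _) (abs_nonneg _)) (mem_univ j)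
    have := abs_nonneg (d j : ℝ)
    linarith
  · have h1 : |(a j : ℝ)| + |(d j : ℝ)| ≤ ∑ j, (|(a j : ℝ)| + |(d j : ℝ)|) :=
      single_le_sum (f := fun j => |(a j : ℝ)| + |(d j : ℝ)|)
        (fun i _ => add_nonneg (abs_nonneg _) (abs_nonneg _)) (mem_univ j)
    have := abs_nonneg (a j : ℝ)
    linarith

theorem free_prod {m : ℕ} (z : ℕ) (a d : Fin m → ℤ) (n : ℤ) :
    Free z (∏ j, (a j + d j * n)) ↔ ∀ j, Rough z (a j + d j * n).natAbs := by
  unfold Free Rough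
  constructor
  · intro h j l hl hlz hd
    apply h l hl hlz
    exact (Int.natCast_dvd.2 hd).trans (dvd_prod_of_mem (fun j => a j + d j * n) (mem_univ j))
  · intro h l hl hlz hd
    obtain ⟨j, -, hj⟩ := (Prime.dvd_finset_prod_iff (Nat.prime_iff_prime_int.1 hl) _).1 hd
    exact h j l hl hlz (Int.natCast_dvd.1 hj)

theorem fix_count {m : ℕ} (a d : Fin m → ℤ) (h : ND a d) (D : ℝ) (hD : 0 < D)
    (hDl : Tendsto (psing a d) atTop (𝓝 D)) (ε : ℝ) (hε : 0 < ε) : ∃ δ : ℝ, 0 < δ ∧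
    ∀ b : ℕ, 1 ≤ b → ∃ P₀ : ℝ, ∀ (p : ℕ) [Fact p.Prime], P₀ ≤ p →
      ∀ (ι : Type) (s : Finset ι) (v : ι → ZMod p), SmallSums p ε s v →
      ∀ M L z : ℕ, (p : ℝ) ^ (1 - δ) ≤ L → Real.log p ≤ z → (z : ℝ) ≤ (p : ℝ) ^ (δ / b) →
      |(number p s v M L (fun n => ∀ j, Rough z (a j + d j * (n : ℤ)).natAbs) : ℝ) -
        Real.exp (-(m * Real.eulerMascheroniConstant)) * (D * (s.card * ((L : ℝ) / p)) / Real.log z ^ m)| ≤
      (1 / 2) ^ b * (Real.exp (-(m * Real.eulerMascheroniConstant)) *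
        (D * (s.card * ((L : ℝ) / p)) / Real.log z ^ m)) := by
  obtain ⟨δ, hδ, H⟩ := cls_count m ε 1 hε le_rfl
  refine ⟨δ, hδ, fun b hb => ?_⟩
  obtain ⟨P₀, H⟩ := H b hb
  refine ⟨max P₀ (∑ j, (|(a j : ℝ)| + |(d j : ℝ)|)), ?_⟩
  intro p hp hpP ι s v hv M L z hL hz1 hz2
  have h1 := H p ((le_max_left _ _).trans hpP) ι s v hv a d
    (h.ts (by rw [Real.rpow_one]; exact (le_max_right _ _).trans hpP)) D hD hDl M L z hL hz1 hz2
  simp only [free_prod] at h1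
  exact h1

theorem fix_orders {m : ℕ} (a d : Fin m → ℤ) (h : ND a d) (D : ℝ) (hD : 0 < D)
    (hDl : Tendsto (psing a d) atTop (𝓝 D)) (ε A : ℝ) (hε : 0 < ε) (hA : 1 ≤ A) :
    ∃ (r : ℕ) (δ K : ℝ), 0 < δ ∧ 0 < K ∧ ∃ P₀ : ℝ, ∀ (p : ℕ) [Fact p.Prime], P₀ ≤ p →
      ∀ (ι : Type) (s : Finset ι) (v : ι → ZMod p), SmallSums p ε s v →
      ∀ M L : ℕ, (M + L : ℝ) ≤ (p : ℝ) ^ A → (p : ℝ) ^ (1 - δ) ≤ L →
      s.card * ((L : ℝ) / p) / Real.log p ^ m ≤ K * (number p s v M L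
        (fun n => ∀ j, Almost r ((p : ℝ) ^ δ) (a j + d j * (n : ℤ)).natAbs) : ℝ) ∧
      (number p s v M L (fun n => ∀ j, (a j + d j * (n : ℤ)).natAbs.Prime) : ℝ) ≤
        K * (s.card * ((L : ℝ) / p) / Real.log p ^ m) := by
  obtain ⟨r, δ, K, hδ, hK, P₀, H⟩ := cls_orders m ε A hε hA
  refine ⟨r, δ, max (K / D) (K * D), hδ, lt_max_of_lt_left (by positivity),
    max (max P₀ (∑ j, (|(a j : ℝ)| + |(d j : ℝ)|))) 1, ?_⟩
  intro p hp hpP ι s v hv M L hM hL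
  have hp1 : (1 : ℝ) ≤ p := (le_max_right _ _).trans hpP
  have hpA : (p : ℝ) ≤ (p : ℝ) ^ A := by
    calc (p : ℝ) = (p : ℝ) ^ (1 : ℝ) := (Real.rpow_one _).symm
      _ ≤ _ := Real.rpow_le_rpow_of_exponent_le hp1 hA
  obtain ⟨h1, h2⟩ := H p ((le_max_left _ _).trans ((le_max_left _ _).trans hpP)) ι s v hv a d
    (h.ts (((le_max_right _ _).trans ((le_max_left _ _).trans hpP)).trans hpA)) D hD hDl M L hM hL
  obtain ⟨Y, hY⟩ : ∃ Y : ℝ, Y = s.card * ((L : ℝ) / p) / Real.log p ^ m := ⟨_, rfl⟩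
  have hY0 : 0 ≤ Y := by
    rw [hY]
    have := Real.log_nonneg hp1
    positivity
  have e : D * (s.card * ((L : ℝ) / p)) / Real.log p ^ m = D * Y := by rw [hY]; ring
  rw [e] at h1 h2
  rw [← hY]
  constructor
  · obtain ⟨w, hw⟩ : ∃ w : ℝ, w = (number p s v M L
        (fun n => ∀ j, Almost r ((p : ℝ) ^ δ) (a j + d j * (n : ℤ)).natAbs) : ℝ) := ⟨_, rfl⟩
    have hw0 : 0 ≤ w := by rw [hw]; exact Nat.cast_nonneg _
    rw [← hw] at h1 ⊢
    have h3 : Y ≤ K / D * w := by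
      rw [div_mul_eq_mul_div, le_div_iff₀ hD]
      linarith
    exact h3.trans (mul_le_mul_of_nonneg_right (le_max_left _ _) hw0)
  · refine h2.trans ?_
    rw [← mul_assoc]
    exact mul_le_mul_of_nonneg_right (le_max_right _ _) hY0

/-- the explicit form of the partial products -/
theorem psing_explicit {m : ℕ} {a d : Fin m → ℤ} (h : ND a d) (B : ℕ)
    (hB : ∀ l : ℕ, l.Prime → B < l → ¬ (l : ℤ) ∣ Res a d) {z : ℕ} (hz : B ≤ z) :
    psing a d z = psing a d B *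
      ∏ l ∈ (Icc (B + 1) z).filter Nat.Prime, ((1 - (m : ℝ) / l) / (1 - 1 / (l : ℝ)) ^ m) := by
  unfold psing
  have hset : (range (z + 1)).filter Nat.Prime =
      (range (B + 1)).filter Nat.Prime ∪ (Icc (B + 1) z).filter Nat.Prime := by
    ext l
    simp only [mem_filter, mem_union, mem_range, mem_Icc]
    constructor
    · rintro ⟨h1, h2⟩
      rcases le_or_gt l B with h3 | h3
      · exact Or.inl ⟨by omega, h2⟩
      · exact Or.inr ⟨⟨by omega, by omega⟩, h2⟩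
    · rintro (⟨h1, h2⟩ | ⟨⟨h1, h3⟩, h2⟩)
      · exact ⟨by omega, h2⟩
      · exact ⟨by omega, h2⟩
  have hdisj : Disjoint ((range (B + 1)).filter Nat.Prime) ((Icc (B + 1) z).filter Nat.Prime) := by
    rw [disjoint_left]
    intro l h1 h2
    rw [mem_filter, mem_range] at h1
    rw [mem_filter, mem_Icc] at h2
    omega
  rw [hset, prod_union hdisj]
  congr 1
  refine prod_congr rfl fun l hl => ?_
  rw [mem_filter, mem_Icc] at hl
  have h1 : om a d l = m := by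
    have h2 := rr_full h.1 (fun l hl => by
      obtain ⟨n, hn⟩ := h.2.2 l hl
      exact ⟨n, by rwa [prod_lf_eval]⟩) hl.2 (hB l hl.2 (by omega))
    refine Eq.trans ?_ h2
    unfold om rr
    congr 1
    ext n
    rw [mem_filter, mem_filter]
    unfold QF
    rw [prod_lf_eval]
  rw [h1]

theorem nd_of {m : ℕ} {a d : Fin m → ℤ} (h1 : ∀ j, d j ≠ 0)
    (h2 : ∀ i j, i ≠ j → a i * d j ≠ a j * d i) (h3 : ∀ j, IsCoprime (a j) (d j))
    (h4 : ∀ l : ℕ, l.Prime → l ≤ m → ∃ n : ℤ, ¬ (l : ℤ) ∣ ∏ j, (a j + d j * n)) : ND a d := by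
  refine ⟨h1, h2, ?_⟩
  intro l hl
  rcases le_or_gt l m with hlm | hlm
  · exact h4 l hl hlm
  have hfact : Fact l.Prime := ⟨hl⟩
  by_contra hcon
  push Not at hcon
  obtain ⟨f, hf⟩ : ∃ f : Fin m → Polynomial (ZMod l), f = fun j =>
    Polynomial.C ((a j : ℤ) : ZMod l) + Polynomial.C ((d j : ℤ) : ZMod l) * Polynomial.X := ⟨_, rfl⟩
  have hf0 : ∀ j, f j ≠ 0 := by
    intro j h0
    have c0 : (f j).coeff 0 = ((a j : ℤ) : ZMod l) := by rw [hf]; simp
    have c1 : (f j).coeff 1 = ((d j : ℤ) : ZMod l) := by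
      rw [hf]
      simp only [Polynomial.coeff_add, Polynomial.coeff_C_mul, Polynomial.coeff_X_one, mul_one,
        Polynomial.coeff_C, one_ne_zero, if_false, zero_add]
    rw [h0, Polynomial.coeff_zero] at c0 c1
    have e0 := (ZMod.intCast_zmod_eq_zero_iff_dvd _ _).1 c0.symm
    have e1 := (ZMod.intCast_zmod_eq_zero_iff_dvd _ _).1 c1.symm
    exact (Nat.prime_iff_prime_int.1 hl).not_unit ((h3 j).isUnit_of_dvd' e0 e1)
  have hdeg : (∏ j, f j).natDegree ≤ m := by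
    refine (Polynomial.natDegree_prod_le _ _).trans ?_
    calc ∑ j, (f j).natDegree ≤ ∑ _j : Fin m, 1 := by
          apply sum_le_sum
          intro j _
          rw [hf]
          refine (Polynomial.natDegree_add_le _ _).trans ?_
          rw [max_le_iff]
          exact ⟨by rw [Polynomial.natDegree_C]; omega,
            (Polynomial.natDegree_C_mul_le _ _).trans Polynomial.natDegree_X_le⟩
      _ = m := by simp
  have hne : (∏ j, f j) ≠ 0 := prod_ne_zero_iff.2 fun j _ => hf0 j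
  have hall : (univ : Finset (ZMod l)) ⊆ (∏ j, f j).roots.toFinset := by
    intro x _
    rw [Multiset.mem_toFinset, Polynomial.mem_roots hne]
    obtain ⟨n, rfl⟩ : ∃ n : ℤ, (n : ZMod l) = x := ⟨x.cast, by simp⟩
    have h5 := (ZMod.intCast_zmod_eq_zero_iff_dvd _ _).2 (hcon n)
    push_cast at h5
    rw [Polynomial.IsRoot.def, Polynomial.eval_prod, ← h5]
    refine prod_congr rfl fun j _ => ?_
    rw [hf]
    simp
  have h6 := card_le_card hall
  rw [card_univ, ZMod.card] at h6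
  have h7 := (Multiset.toFinset_card_le (∏ j, f j).roots).trans (Polynomial.card_roots' _)
  omega

theorem smooth23 {l : ℕ} (hl : l.Prime) (i j : ℕ) (h : (l : ℤ) ∣ 2 ^ i * 3 ^ j) : l ≤ 3 := by
  have h1 : l ∣ 2 ^ i * 3 ^ j := by exact_mod_cast h
  rcases hl.dvd_mul.1 h1 with h2 | h2
  · have := Nat.le_of_dvd (by norm_num) (hl.dvd_of_dvd_pow h2)
    omega
  · exact Nat.le_of_dvd (by norm_num) (hl.dvd_of_dvd_pow h2)

theorem smooth235 {l : ℕ} (hl : l.Prime) (i j k : ℕ) (h : (l : ℤ) ∣ 2 ^ i * 3 ^ j * 5 ^ k) : l ≤ 5 := by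
  have h1 : l ∣ 2 ^ i * 3 ^ j * 5 ^ k := by exact_mod_cast h
  rcases hl.dvd_mul.1 h1 with h2 | h2
  · have := smooth23 hl i j (by exact_mod_cast h2)
    omega
  · exact Nat.le_of_dvd (by norm_num) (hl.dvd_of_dvd_pow h2)

end Pool.Agent.Run7.h90.AU
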