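import Pool.Agent.Run7.h90.AU.Ex

/-!
# The two conclusions as properties of a pattern
-/

set_option autoImplicit false
set_option linter.all false

namespace Pool.Agent.Run7.h90.AU

open Finset Filter Topology
open scoped Classical

/-- A pattern `Q` assigns to a property `P` of natural numbers a property of `n` (for example `P n ∧ P (n + 2)`).
`Formula m Q D`: for all families `(v i)`, `i ∈ s`, of residues modulo a large prime `p` with exponential sums at most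
`p ^ (-ε) |s|`, all intervals `(M, M + L]` with `L ≥ p ^ (1 - δ)`, and `log p ≤ z ≤ p ^ (δ / b)`, the number of the pairs
`(i, n)`, `n ≡ v i`, `M < n ≤ M + L`, with the pattern `Q` for the numbers without prime factors `≤ z` is
`e ^ (- m γ) D |s| (L / p) / (log z) ^ m` up to a factor `1 ± 2 ^ (-b)`; here `δ` depends on `ε`. -/
def Formula (m : ℕ) (Q : (ℕ → Prop) → ℕ → Prop) (D : ℝ) : Prop :=
  ∀ ε : ℝ, 0 < ε → ∃ δ : ℝ, 0 < δ ∧ ∀ b : ℕ, 1 ≤ b → ∃ P₀ : ℝ, ∀ (p : ℕ) [Fact p.Prime], P₀ ≤ p →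
    ∀ (ι : Type) (s : Finset ι) (v : ι → ZMod p), SmallSums p ε s v →
    ∀ M L z : ℕ, (p : ℝ) ^ (1 - δ) ≤ L → Real.log p ≤ z → (z : ℝ) ≤ (p : ℝ) ^ (δ / b) →
    |(number p s v M L (Q (Rough z)) : ℝ) -
      Real.exp (-(m * Real.eulerMascheroniConstant)) * (D * (s.card * ((L : ℝ) / p)) / Real.log z ^ m)| ≤
    (1 / 2) ^ b * (Real.exp (-(m * Real.eulerMascheroniConstant)) *
      (D * (s.card * ((L : ℝ) / p)) / Real.log z ^ m))

/-- `Orders m Q`: for the same families and intervals contained in `[0, p ^ A]`, the number of the pairs with the pattern `Q`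
for the products of at most `r` primes, all at least `p ^ δ`, is at least `|s| (L / p) / (K (log p) ^ m)`, and the number of the
pairs with the pattern `Q` for primes is at most `K |s| (L / p) / (log p) ^ m`; `r`, `δ`, `K` depend on `ε` and `A`. -/
def Orders (m : ℕ) (Q : (ℕ → Prop) → ℕ → Prop) : Prop :=
  ∀ ε A : ℝ, 0 < ε → 1 ≤ A → ∃ (r : ℕ) (δ K : ℝ), 0 < δ ∧ 0 < K ∧ ∃ P₀ : ℝ,
    ∀ (p : ℕ) [Fact p.Prime], P₀ ≤ p →
    ∀ (ι : Type) (s : Finset ι) (v : ι → ZMod p), SmallSums p ε s v →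
    ∀ M L : ℕ, (M + L : ℝ) ≤ (p : ℝ) ^ A → (p : ℝ) ^ (1 - δ) ≤ L →
    s.card * ((L : ℝ) / p) / Real.log p ^ m ≤
      K * (number p s v M L (Q (Almost r ((p : ℝ) ^ δ))) : ℝ) ∧
    (number p s v M L (Q Nat.Prime) : ℝ) ≤ K * (s.card * ((L : ℝ) / p) / Real.log p ^ m)

theorem formula_of {m : ℕ} {a d : Fin m → ℤ} (h : ND a d) {Q : (ℕ → Prop) → ℕ → Prop}
    (hQ : ∀ (P : ℕ → Prop) (n : ℕ), 1 ≤ n → ((∀ j, P (a j + d j * (n : ℤ)).natAbs) ↔ Q P n)) {D : ℝ} (hD : 0 < D)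
    (hDl : Tendsto (psing a d) atTop (𝓝 D)) : Formula m Q D := by
  intro ε hε
  obtain ⟨δ, hδ, H⟩ := fix_count a d h D hD hDl ε hε
  refine ⟨δ, hδ, fun b hb => ?_⟩
  obtain ⟨P₀, H⟩ := H b hb
  refine ⟨P₀, ?_⟩
  intro p hp hpP ι s v hv M L z hL hz1 hz2
  have h1 := H p hpP ι s v hv M L z hL hz1 hz2
  rw [number_congr p s v M L _ (Q (Rough z)) (fun n hn => hQ (Rough z) n (by omega))] at h1
  exact h1

theorem orders_of {m : ℕ} {a d : Fin m → ℤ} (h : ND a d) {Q : (ℕ → Prop) → ℕ → Prop}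
    (hQ : ∀ (P : ℕ → Prop) (n : ℕ), 1 ≤ n → ((∀ j, P (a j + d j * (n : ℤ)).natAbs) ↔ Q P n)) {D : ℝ} (hD : 0 < D)
    (hDl : Tendsto (psing a d) atTop (𝓝 D)) : Orders m Q := by
  intro ε A hε hA
  obtain ⟨r, δ, K, hδ, hK, P₀, H⟩ := fix_orders a d h D hD hDl ε A hε hA
  refine ⟨r, δ, K, hδ, hK, P₀, ?_⟩
  intro p hp hpP ι s v hv M L hM hL
  obtain ⟨h1, h2⟩ := H p hpP ι s v hv M L hM hL
  rw [number_congr p s v M L _ (Q (Almost r ((p : ℝ) ^ δ))) (fun n hn => hQ _ n (by omega))] at h1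
  rw [number_congr p s v M L _ (Q Nat.Prime) (fun n hn => hQ _ n (by omega))] at h2
  exact ⟨h1, h2⟩

theorem lim_of {m : ℕ} {a d : Fin m → ℤ} (h : ND a d) :
    ∃ D : ℝ, 0 < D ∧ Tendsto (psing a d) atTop (𝓝 D) :=
  psing_lim (h.ts le_rfl : TS (∑ j, (|(a j : ℝ)| + |(d j : ℝ)|)) a d)

theorem sm23 {l N : ℕ} (hl : l.Prime) (h : l ∣ N) (i j : ℕ) (hN : N = 2 ^ i * 3 ^ j) : l ≤ 3 := by
  rw [hN] at h
  rcases hl.dvd_mul.1 h with h2 | h2
  · have := Nat.le_of_dvd (by norm_num) (hl.dvd_of_dvd_pow h2)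
    omega
  · exact Nat.le_of_dvd (by norm_num) (hl.dvd_of_dvd_pow h2)

theorem sm235 {l N : ℕ} (hl : l.Prime) (h : l ∣ N) (i j k : ℕ) (hN : N = 2 ^ i * 3 ^ j * 5 ^ k) : l ≤ 5 := by
  rw [hN] at h
  rcases hl.dvd_mul.1 h with h2 | h2
  · have := sm23 hl h2 i j rfl
    omega
  · exact Nat.le_of_dvd (by norm_num) (hl.dvd_of_dvd_pow h2)

theorem sm2357 {l N : ℕ} (hl : l.Prime) (h : l ∣ N) (i j k n : ℕ)
    (hN : N = 2 ^ i * 3 ^ j * 5 ^ k * 7 ^ n) : l ≤ 7 := by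
  rw [hN] at h
  rcases hl.dvd_mul.1 h with h2 | h2
  · have := sm235 hl h2 i j k rfl
    omega
  · exact Nat.le_of_dvd (by norm_num) (hl.dvd_of_dvd_pow h2)

theorem psing_exp {m : ℕ} {a d : Fin m → ℤ} (h : ND a d) (B : ℕ)
    (hB : ∀ l : ℕ, l.Prime → l ∣ (Res a d).natAbs → l ≤ B) {z : ℕ} (hz : B ≤ z) :
    psing a d z = psing a d B *
      ∏ l ∈ (Icc (B + 1) z).filter Nat.Prime, ((1 - (m : ℝ) / l) / (1 - 1 / (l : ℝ)) ^ m) :=
  psing_explicit h B (fun l hl h1 hd => by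
    have := hB l hl (Int.natCast_dvd.1 hd)
    omega) hz

end Pool.Agent.Run7.h90.AU
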