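import Pool.Agent.Run7.h90.AU.Sm

/-!
# The average of the singular series of pairs with differences `k p`
-/

set_option autoImplicit false
set_option linter.all false

namespace Pool.Agent.Run7.h90.AU

open Finset Filter Topology
open scoped Classical

theorem sum_mult (K m : ℕ) (hm : 1 ≤ m) :
    ∑ k ∈ (Ico 1 K).filter (fun k => m ∣ k), ((K : ℝ) - k) ≤ (K : ℝ) ^ 2 / (2 * m) := by
  have hm0 : (0 : ℝ) < m := by exact_mod_cast hm
  have e : (Ico 1 K).filter (fun k => m ∣ k) = (Ico 1 ((K - 1) / m + 1)).image (fun j => m * j) := by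
    ext k
    simp only [mem_filter, mem_Ico, mem_image]
    constructor
    · rintro ⟨⟨h1, h2⟩, j, rfl⟩
      refine ⟨j, ⟨?_, ?_⟩, rfl⟩
      · by_contra h
        have : j = 0 := by omega
        rw [this] at h1
        omega
      · have : j ≤ (K - 1) / m := (Nat.le_div_iff_mul_le (by omega)).2 (by rw [mul_comm]; omega)
        omega
    · rintro ⟨j, ⟨h1, h2⟩, rfl⟩
      have h3 : j ≤ (K - 1) / m := by omega
      have h4 : j * m ≤ K - 1 := (Nat.le_div_iff_mul_le (by omega)).1 h3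
      have h5 : 1 ≤ m * j := Nat.mul_pos (by omega) (by omega)
      rw [mul_comm] at h4
      exact ⟨⟨h5, by omega⟩, dvd_mul_right _ _⟩
  rw [e, sum_image (fun x _ y _ h => Nat.eq_of_mul_eq_mul_left (by omega) h)]
  generalize (K - 1) / m = J
  have h1 : ∀ J : ℕ, ∑ j ∈ Ico 1 (J + 1), ((K : ℝ) - ((m * j : ℕ) : ℝ)) = K * J - m * (J * (J + 1) / 2) := by
    intro J
    induction J with
    | zero => simp
    | succ J ih =>
      rw [sum_Ico_succ_top (by omega), ih]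
      push_cast
      ring
  rw [h1, le_div_iff₀ (by positivity)]
  have hJ : (0 : ℝ) ≤ J := by positivity
  nlinarith [sq_nonneg ((K : ℝ) - m * J), mul_nonneg (mul_nonneg hm0.le hm0.le) hJ]

/-- odd primes below `K` -/
def oddP (K : ℕ) : Finset ℕ := (Ico 3 K).filter Nat.Prime

theorem avg_bound (K : ℕ) :
    ∑ k ∈ (Ico 1 K).filter (fun k => 2 ∣ k), ((K : ℝ) - k) *
      ∏ q ∈ k.primeFactors.filter (fun q => 3 ≤ q), (((q : ℝ) - 1) / ((q : ℝ) - 2)) ≤
    (K : ℝ) ^ 2 / 4 * ∏ q ∈ oddP K, (1 + 1 / ((q : ℝ) * ((q : ℝ) - 2))) := by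
  have hq : ∀ q ∈ oddP K, (3 : ℝ) ≤ q ∧ q.Prime := by
    intro q hq
    unfold oddP at hq
    rw [mem_filter, mem_Ico] at hq
    exact ⟨by exact_mod_cast hq.1.1, hq.2⟩
  have step : ∀ k ∈ (Ico 1 K).filter (fun k => 2 ∣ k),
      ∏ q ∈ k.primeFactors.filter (fun q => 3 ≤ q), (((q : ℝ) - 1) / ((q : ℝ) - 2)) =
      ∑ T ∈ (oddP K).powerset, if (∀ q ∈ T, q ∣ k) then ∏ q ∈ T, (1 / ((q : ℝ) - 2)) else 0 := by
    intro k hk
    rw [mem_filter, mem_Ico] at hk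
    have e1 : k.primeFactors.filter (fun q => 3 ≤ q) = (oddP K).filter (fun q => q ∣ k) := by
      ext q
      unfold oddP
      simp only [mem_filter, Nat.mem_primeFactors, mem_Ico]
      constructor
      · rintro ⟨⟨h3, h4, h5⟩, h6⟩
        have := Nat.le_of_dvd (by omega) h4
        exact ⟨⟨⟨h6, by omega⟩, h3⟩, h4⟩
      · rintro ⟨⟨⟨h3, h4⟩, h5⟩, h6⟩
        exact ⟨⟨h5, h6, by omega⟩, h3⟩
    have e2 : ∏ q ∈ (oddP K).filter (fun q => q ∣ k), (((q : ℝ) - 1) / ((q : ℝ) - 2)) =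
        ∏ q ∈ (oddP K).filter (fun q => q ∣ k), (1 + 1 / ((q : ℝ) - 2)) := by
      refine prod_congr rfl fun q h => ?_
      have h3 := (hq q (mem_filter.1 h).1).1
      have h6 : (q : ℝ) - 2 ≠ 0 := by linarith
      field_simp
      ring
    rw [e1, e2, prod_one_add, ← sum_filter]
    refine sum_congr ?_ fun _ _ => rfl
    ext T
    simp only [mem_powerset, mem_filter]
    constructor
    · intro h
      exact ⟨fun q h2 => (mem_filter.1 (h h2)).1, fun q h2 => (mem_filter.1 (h h2)).2⟩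
    · rintro ⟨h1, h2⟩ q h3
      exact mem_filter.2 ⟨h1 h3, h2 q h3⟩
  have e3 : ∑ k ∈ (Ico 1 K).filter (fun k => 2 ∣ k), ((K : ℝ) - k) *
      ∏ q ∈ k.primeFactors.filter (fun q => 3 ≤ q), (((q : ℝ) - 1) / ((q : ℝ) - 2)) =
      ∑ T ∈ (oddP K).powerset, (∏ q ∈ T, (1 / ((q : ℝ) - 2))) *
        ∑ k ∈ ((Ico 1 K).filter (fun k => 2 ∣ k)).filter (fun k => ∀ q ∈ T, q ∣ k), ((K : ℝ) - k) := by
    rw [sum_congr rfl (fun k hk => by rw [step k hk, mul_sum]), sum_comm]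
    refine sum_congr rfl fun T _ => ?_
    rw [mul_sum, sum_filter (fun k => ∀ q ∈ T, q ∣ k)]
    refine sum_congr rfl fun k _ => ?_
    split_ifs
    · ring
    · ring
  have e4 : ∀ T ∈ (oddP K).powerset, (∏ q ∈ T, (1 / ((q : ℝ) - 2))) *
      ∑ k ∈ ((Ico 1 K).filter (fun k => 2 ∣ k)).filter (fun k => ∀ q ∈ T, q ∣ k), ((K : ℝ) - k) ≤
      (K : ℝ) ^ 2 / 4 * ∏ q ∈ T, (1 / ((q : ℝ) * ((q : ℝ) - 2))) := by
    intro T hT
    rw [mem_powerset] at hT
    have hpos : 0 ≤ ∏ q ∈ T, (1 / ((q : ℝ) - 2)) := prod_nonneg fun q h => by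
      have := (hq q (hT h)).1
      exact one_div_nonneg.2 (by linarith)
    have h2T : 2 ∉ T := by
      intro h
      have := (hq 2 (hT h)).1
      norm_num at this
    have hsub : ((Ico 1 K).filter (fun k => 2 ∣ k)).filter (fun k => ∀ q ∈ T, q ∣ k) ⊆
        (Ico 1 K).filter (fun k => (∏ q ∈ insert 2 T, q) ∣ k) := by
      intro k hk
      rw [mem_filter, mem_filter] at hk
      rw [mem_filter]
      refine ⟨hk.1.1, ?_⟩
      apply Finset.prod_primes_dvd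
      · intro q h
        rw [mem_insert] at h
        rcases h with rfl | h
        · exact Nat.prime_two.prime
        · exact ((hq q (hT h)).2).prime
      · intro q h
        rw [mem_insert] at h
        rcases h with rfl | h
        · exact hk.1.2
        · exact hk.2 q h
    have hm : 1 ≤ ∏ q ∈ insert 2 T, q := by
      apply Nat.one_le_iff_ne_zero.2
      rw [prod_ne_zero_iff]
      intro q h
      rw [mem_insert] at h
      rcases h with rfl | h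
      · norm_num
      · exact ((hq q (hT h)).2).ne_zero
    have h5 : ∑ k ∈ ((Ico 1 K).filter (fun k => 2 ∣ k)).filter (fun k => ∀ q ∈ T, q ∣ k), ((K : ℝ) - k) ≤
        (K : ℝ) ^ 2 / (2 * ((∏ q ∈ insert 2 T, q : ℕ) : ℝ)) := by
      refine le_trans (sum_le_sum_of_subset_of_nonneg hsub (fun k hk _ => ?_)) (sum_mult K _ hm)
      rw [mem_filter, mem_Ico] at hk
      have : (k : ℝ) < K := by exact_mod_cast hk.1.2
      linarith
    refine (mul_le_mul_of_nonneg_left h5 hpos).trans (le_of_eq ?_)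
    rw [prod_insert h2T]
    push_cast
    have hTne : (∏ q ∈ T, (q : ℝ)) ≠ 0 := prod_ne_zero_iff.2 fun q h => by
      have := (hq q (hT h)).1
      linarith
    have e6 : ∏ q ∈ T, (1 / ((q : ℝ) * ((q : ℝ) - 2))) = (∏ q ∈ T, (1 / ((q : ℝ) - 2))) / ∏ q ∈ T, (q : ℝ) := by
      rw [eq_div_iff hTne, ← prod_mul_distrib]
      refine prod_congr rfl fun q h => ?_
      have h3 := (hq q (hT h)).1
      have h6 : (q : ℝ) - 2 ≠ 0 := by linarith
      have h7 : (q : ℝ) ≠ 0 := by linarith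
      field_simp
    rw [e6]
    field_simp
    ring
  rw [e3, prod_one_add, mul_sum]
  exact sum_le_sum e4

theorem prod_inverse (K : ℕ) : (∏ q ∈ oddP K, (1 + 1 / ((q : ℝ) * ((q : ℝ) - 2)))) *
    ∏ q ∈ oddP K, (1 - 1 / ((q : ℝ) - 1) ^ 2) = 1 := by
  rw [← prod_mul_distrib]
  apply prod_eq_one
  intro q hq
  unfold oddP at hq
  rw [mem_filter, mem_Ico] at hq
  have h3 : (3 : ℝ) ≤ q := by exact_mod_cast hq.1.1
  have h4 : (q : ℝ) ≠ 0 := by linarith
  have h5 : (q : ℝ) - 1 ≠ 0 := by linarith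
  have h6 : (q : ℝ) - 2 ≠ 0 := by linarith
  field_simp
  ring

theorem pair_limit_le {K k p : ℕ} (hp : p.Prime) (hk : 1 ≤ k) (hkK : k < K) (hKp : K < p) (hp3 : 3 ≤ p) {D : ℝ}
    (hD : Tendsto (pairSeries (k * p)) atTop (𝓝 D)) :
    D ≤ 2 * (∏ q ∈ oddP K, (1 - 1 / ((q : ℝ) - 1) ^ 2)) * (((p : ℝ) - 1) / ((p : ℝ) - 2)) *
      ∏ q ∈ k.primeFactors.filter (fun q => 3 ≤ q), (((q : ℝ) - 1) / ((q : ℝ) - 2)) := by
  refine le_of_tendsto hD ?_
  filter_upwards [eventually_ge_atTop K] with z hz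
  unfold pairSeries
  have e1 : (k * p).primeFactors.filter (fun q => 3 ≤ q) = insert p (k.primeFactors.filter (fun q => 3 ≤ q)) := by
    ext q
    rw [Nat.primeFactors_mul (by omega) hp.ne_zero, hp.primeFactors]
    simp only [mem_filter, mem_union, mem_singleton, mem_insert]
    constructor
    · rintro ⟨h | h, h2⟩
      · exact Or.inr ⟨h, h2⟩
      · exact Or.inl h
    · rintro (rfl | ⟨h, h2⟩)
      · exact ⟨Or.inr rfl, hp3⟩
      · exact ⟨Or.inl h, h2⟩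
  have hnot : p ∉ k.primeFactors.filter (fun q => 3 ≤ q) := by
    intro h
    rw [mem_filter, Nat.mem_primeFactors] at h
    have := Nat.le_of_dvd (by omega) h.1.2.1
    omega
  rw [e1, prod_insert hnot]
  have hf : ∀ q : ℕ, 3 ≤ q → 0 ≤ 1 - 1 / ((q : ℝ) - 1) ^ 2 ∧ 1 - 1 / ((q : ℝ) - 1) ^ 2 ≤ 1 := by
    intro q hq
    have h3 : (3 : ℝ) ≤ q := by exact_mod_cast hq
    have h4 : (1 : ℝ) ≤ ((q : ℝ) - 1) ^ 2 := by nlinarith
    have h5 : (1 : ℝ) / ((q : ℝ) - 1) ^ 2 ≤ 1 := by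
      rw [div_le_one (by linarith)]
      exact h4
    have h6 : (0 : ℝ) ≤ 1 / ((q : ℝ) - 1) ^ 2 := by positivity
    exact ⟨by linarith, by linarith⟩
  have h1 : ∏ q ∈ (Icc 3 z).filter Nat.Prime, (1 - 1 / ((q : ℝ) - 1) ^ 2) ≤
      ∏ q ∈ oddP K, (1 - 1 / ((q : ℝ) - 1) ^ 2) := by
    have hsub : oddP K ⊆ (Icc 3 z).filter Nat.Prime := by
      intro q hq
      unfold oddP at hq
      rw [mem_filter, mem_Ico] at hq
      rw [mem_filter, mem_Icc]
      exact ⟨⟨hq.1.1, by omega⟩, hq.2⟩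
    rw [← prod_sdiff hsub]
    apply mul_le_of_le_one_left
    · refine prod_nonneg fun q hq => (hf q ?_).1
      unfold oddP at hq
      rw [mem_filter, mem_Ico] at hq
      exact hq.1.1
    · refine prod_le_one (fun q hq => (hf q ?_).1) (fun q hq => (hf q ?_).2) <;>
        (rw [Finset.mem_sdiff, mem_filter, mem_Icc] at hq; exact hq.1.1.1)
  have h2 : 0 ≤ (((p : ℝ) - 1) / ((p : ℝ) - 2)) *
      ∏ q ∈ k.primeFactors.filter (fun q => 3 ≤ q), (((q : ℝ) - 1) / ((q : ℝ) - 2)) := by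
    have hp3' : (3 : ℝ) ≤ p := by exact_mod_cast hp3
    apply mul_nonneg
    · exact div_nonneg (by linarith) (by linarith)
    · refine prod_nonneg fun q hq => ?_
      have h3 : (3 : ℝ) ≤ q := by exact_mod_cast (mem_filter.1 hq).2
      exact div_nonneg (by linarith) (by linarith)
  calc 2 * (∏ q ∈ (Icc 3 z).filter Nat.Prime, (1 - 1 / ((q : ℝ) - 1) ^ 2)) *
        ((((p : ℝ) - 1) / ((p : ℝ) - 2)) *
          ∏ q ∈ k.primeFactors.filter (fun q => 3 ≤ q), (((q : ℝ) - 1) / ((q : ℝ) - 2))) ≤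
      2 * (∏ q ∈ oddP K, (1 - 1 / ((q : ℝ) - 1) ^ 2)) * ((((p : ℝ) - 1) / ((p : ℝ) - 2)) *
          ∏ q ∈ k.primeFactors.filter (fun q => 3 ≤ q), (((q : ℝ) - 1) / ((q : ℝ) - 2))) := by
        apply mul_le_mul_of_nonneg_right _ h2
        linarith
    _ = _ := by ring

/-- the sum of the singular series -/
theorem series_sum {K p : ℕ} (hp : p.Prime) (hKp : K < p) (hp3 : 3 ≤ p) (D : ℕ → ℝ)
    (hD : ∀ k ∈ (Ico 1 K).filter (fun k => 2 ∣ k), Tendsto (pairSeries (k * p)) atTop (𝓝 (D k))) :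
    ∑ k ∈ (Ico 1 K).filter (fun k => 2 ∣ k), ((K : ℝ) - k) * D k ≤
      ((p : ℝ) - 1) / ((p : ℝ) - 2) * ((K : ℝ) ^ 2 / 2) := by
  have hp3' : (3 : ℝ) ≤ p := by exact_mod_cast hp3
  have hpp : 0 ≤ ((p : ℝ) - 1) / ((p : ℝ) - 2) := div_nonneg (by linarith) (by linarith)
  have hP : 0 ≤ ∏ q ∈ oddP K, (1 - 1 / ((q : ℝ) - 1) ^ 2) := by
    refine prod_nonneg fun q hq => ?_
    unfold oddP at hq
    rw [mem_filter, mem_Ico] at hq
    have h3 : (3 : ℝ) ≤ q := by exact_mod_cast hq.1.1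
    have h4 : (1 : ℝ) ≤ ((q : ℝ) - 1) ^ 2 := by nlinarith
    have h5 : (1 : ℝ) / ((q : ℝ) - 1) ^ 2 ≤ 1 := by
      rw [div_le_one (by linarith)]
      exact h4
    linarith
  calc ∑ k ∈ (Ico 1 K).filter (fun k => 2 ∣ k), ((K : ℝ) - k) * D k ≤
      ∑ k ∈ (Ico 1 K).filter (fun k => 2 ∣ k), (2 * (∏ q ∈ oddP K, (1 - 1 / ((q : ℝ) - 1) ^ 2)) *
        (((p : ℝ) - 1) / ((p : ℝ) - 2))) * (((K : ℝ) - k) *
        ∏ q ∈ k.primeFactors.filter (fun q => 3 ≤ q), (((q : ℝ) - 1) / ((q : ℝ) - 2))) := by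
        refine sum_le_sum fun k hk => ?_
        have h1 := hD k hk
        rw [mem_filter, mem_Ico] at hk
        have h2 := pair_limit_le hp hk.1.1 hk.1.2 hKp hp3 h1
        have h3 : (k : ℝ) < K := by exact_mod_cast hk.1.2
        calc ((K : ℝ) - k) * D k ≤ ((K : ℝ) - k) * (2 * (∏ q ∈ oddP K, (1 - 1 / ((q : ℝ) - 1) ^ 2)) *
              (((p : ℝ) - 1) / ((p : ℝ) - 2)) *
              ∏ q ∈ k.primeFactors.filter (fun q => 3 ≤ q), (((q : ℝ) - 1) / ((q : ℝ) - 2))) :=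
              mul_le_mul_of_nonneg_left h2 (by linarith)
          _ = _ := by ring
    _ ≤ (2 * (∏ q ∈ oddP K, (1 - 1 / ((q : ℝ) - 1) ^ 2)) * (((p : ℝ) - 1) / ((p : ℝ) - 2))) *
        ((K : ℝ) ^ 2 / 4 * ∏ q ∈ oddP K, (1 + 1 / ((q : ℝ) * ((q : ℝ) - 2)))) := by
        rw [← mul_sum]
        exact mul_le_mul_of_nonneg_left (avg_bound K) (by positivity)
    _ = ((p : ℝ) - 1) / ((p : ℝ) - 2) * ((K : ℝ) ^ 2 / 2) *
        ((∏ q ∈ oddP K, (1 + 1 / ((q : ℝ) * ((q : ℝ) - 2)))) *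
          ∏ q ∈ oddP K, (1 - 1 / ((q : ℝ) - 1) ^ 2)) := by ring
    _ = _ := by rw [prod_inverse, mul_one]

end Pool.Agent.Run7.h90.AU
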