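import Pool.Agent.Run7.h90.AU.LeastB

/-!
# Almost primes in almost all classes of thin families: the theorem
-/

set_option autoImplicit false
set_option linter.all false

namespace Pool.Agent.Run7.h90.AU

open Finset Filter Topology
open scoped Classical

theorem cheb {ι : Type} (s : Finset ι) (a : ι → ℝ) (μ β : ℝ) (hμ : 0 < μ) (hβ0 : 0 ≤ β) (hβ1 : β ≤ 1)
    (h1 : |∑ i ∈ s, a i - s.card * μ| ≤ β * (s.card * μ))
    (h2 : ∑ i ∈ s, a i ^ 2 ≤ ∑ i ∈ s, a i + (1 + β) ^ 2 * (s.card * μ ^ 2)) :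
    ((s.filter fun i => a i = 0).card : ℝ) ≤ (2 / μ + 5 * β) * s.card := by
  have e1 : ∑ i ∈ s, (a i - μ) ^ 2 = ∑ i ∈ s, a i ^ 2 - 2 * μ * ∑ i ∈ s, a i + s.card * μ ^ 2 := by
    have : ∀ i ∈ s, (a i - μ) ^ 2 = a i ^ 2 - 2 * μ * a i + μ ^ 2 := fun i _ => by ring
    rw [sum_congr rfl this, sum_add_distrib, sum_sub_distrib, ← mul_sum, sum_const, nsmul_eq_mul]
  have e2 : ((s.filter fun i => a i = 0).card : ℝ) * μ ^ 2 ≤ ∑ i ∈ s, (a i - μ) ^ 2 := by
    calc ((s.filter fun i => a i = 0).card : ℝ) * μ ^ 2 = ∑ i ∈ s.filter (fun i => a i = 0), μ ^ 2 := by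
          rw [sum_const, nsmul_eq_mul]
      _ = ∑ i ∈ s.filter (fun i => a i = 0), (a i - μ) ^ 2 := by
          refine sum_congr rfl fun i hi => ?_
          rw [(mem_filter.1 hi).2]
          ring
      _ ≤ _ := sum_le_sum_of_subset_of_nonneg (filter_subset _ _) (fun i _ _ => sq_nonneg _)
  have hs : (0 : ℝ) ≤ s.card := by positivity
  rw [abs_le] at h1
  obtain ⟨X, hX⟩ : ∃ X, X = ∑ i ∈ s, a i := ⟨_, rfl⟩
  rw [← hX] at h1 h2 e1
  have h3 : X ≤ (1 + β) * (s.card * μ) := by linarith [h1.2]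
  have h4 : (1 - β) * (s.card * μ) ≤ X := by linarith [h1.1]
  have h5 : ∑ i ∈ s, (a i - μ) ^ 2 ≤ s.card * (2 * μ + 5 * β * μ ^ 2) := by
    rw [e1]
    have h6 : 2 * μ * ((1 - β) * (s.card * μ)) ≤ 2 * μ * X := mul_le_mul_of_nonneg_left h4 (by positivity)
    have h7 : (1 + β) * (s.card * μ) ≤ 2 * (s.card * μ) := by
      apply mul_le_mul_of_nonneg_right (by linarith) (by positivity)
    have h8 : β ^ 2 * (s.card * μ ^ 2) ≤ β * (s.card * μ ^ 2) := by
      apply mul_le_mul_of_nonneg_right _ (by positivity)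
      nlinarith
    nlinarith
  have h6 : ((s.filter fun i => a i = 0).card : ℝ) * μ ^ 2 ≤ ((2 / μ + 5 * β) * s.card) * μ ^ 2 := by
    refine (e2.trans h5).trans (le_of_eq ?_)
    field_simp
  exact le_of_mul_le_mul_right h6 (by positivity)

theorem least_core (ε η A : ℝ) (hε : 0 < ε) (hη : 0 < η) (hA : 1 ≤ A) : ∃ (r : ℕ) (κ : ℝ), 0 < κ ∧
    ∃ P₀ : ℝ, ∀ (p : ℕ) [Fact p.Prime], P₀ ≤ p →
      ∀ (ι : Type) (s : Finset ι) (v : ι → ZMod p), SmallSums p ε s v →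
      ∀ M : ℕ, (M : ℝ) ≤ (p : ℝ) ^ A →
      ((s.filter fun i => ¬ ∃ n : ℕ, M < n ∧ (n : ℝ) ≤ M + p * Real.log p ∧ (n : ZMod p) = v i ∧
        Almost r ((p : ℝ) ^ κ) n).card : ℝ) ≤ η * s.card := by
  obtain ⟨δ₁, hδ₁, F⟩ := single_all.1 ε hε
  obtain ⟨δ₂, hδ₂, G⟩ := pair_uniform ε 2 hε (by norm_num)
  obtain ⟨δ, hδ⟩ : ∃ δ : ℝ, δ = min (min δ₁ δ₂) 1 := ⟨_, rfl⟩
  have hδ0 : 0 < δ := by rw [hδ]; exact lt_min (lt_min hδ₁ hδ₂) one_pos
  have hδ1 : δ ≤ δ₁ := by rw [hδ]; exact (min_le_left _ _).trans (min_le_left _ _)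
  have hδ2 : δ ≤ δ₂ := by rw [hδ]; exact (min_le_left _ _).trans (min_le_right _ _)
  have hδ3 : δ ≤ 1 := by rw [hδ]; exact min_le_right _ _
  obtain ⟨E, hE⟩ : ∃ E : ℝ, E = Real.exp (-Real.eulerMascheroniConstant) := ⟨_, rfl⟩
  have hE0 : 0 < E := by rw [hE]; exact Real.exp_pos _
  obtain ⟨b₁, hb₁⟩ := exists_pow_lt_of_lt_one (show (0 : ℝ) < η / 10 by positivity) (show (1 / 2 : ℝ) < 1 by norm_num)
  obtain ⟨b₂, hb₂⟩ := exists_nat_ge (8 / (E * η))
  obtain ⟨b, hb⟩ : ∃ b : ℕ, b = b₁ + b₂ + 1 := ⟨_, rfl⟩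
  have hb1 : 1 ≤ b := by omega
  have hbR : (1 : ℝ) ≤ b := by exact_mod_cast hb1
  have hb0 : (0 : ℝ) < b := by linarith
  obtain ⟨β, hβ⟩ : ∃ β : ℝ, β = (1 / 2) ^ b := ⟨_, rfl⟩
  have hβ0 : 0 < β := by rw [hβ]; positivity
  have hβ1 : β ≤ 1 := by rw [hβ]; exact pow_le_one₀ (by norm_num) (by norm_num)
  have hβη : 5 * β ≤ η / 2 := by
    have : β ≤ (1 / 2) ^ b₁ := by
      rw [hβ]
      exact pow_le_pow_of_le_one (by norm_num) (by norm_num) (by omega)
    linarith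
  have hbη : 4 / (E * b) ≤ η / 2 := by
    have h1 : 8 / (E * η) ≤ b := hb₂.trans (by rw [hb]; push_cast; linarith [show (0 : ℝ) ≤ b₁ by positivity])
    rw [div_le_iff₀ (by positivity)] at h1
    rw [div_le_iff₀ (by positivity)]
    nlinarith
  obtain ⟨P₁, F⟩ := F b hb1
  obtain ⟨P₂, G⟩ := G b hb1
  obtain ⟨d, hd⟩ : ∃ d : ℝ, d = δ / b := ⟨_, rfl⟩
  have hd0 : 0 < d := by rw [hd]; positivity
  obtain ⟨P₃, hP₃⟩ := (ev_pow d hd0 4).exists_forall_of_atTop
  have ev2 : ∀ᶠ x : ℝ in atTop, (4 : ℝ) ≤ x ^ (d / 2) :=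
    (tendsto_rpow_atTop (show 0 < d / 2 by positivity)).eventually_ge_atTop 4
  obtain ⟨P₄, hP₄⟩ := ev2.exists_forall_of_atTop
  refine ⟨⌈(A + 2) / (d / 2)⌉₊, d / 2, by positivity, max (max (max P₁ P₂) (max P₃ P₄)) (max 4 (2 + 1 / β)), ?_⟩
  intro p hpf hpP ι s v hv M hM
  have hp := hpf.out
  have hpP1 : P₁ ≤ p := (le_max_left _ _).trans ((le_max_left _ _).trans ((le_max_left _ _).trans hpP))
  have hpP2 : P₂ ≤ p := (le_max_right _ _).trans ((le_max_left _ _).trans ((le_max_left _ _).trans hpP))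
  have hpP3 : P₃ ≤ p := (le_max_left _ _).trans ((le_max_right _ _).trans ((le_max_left _ _).trans hpP))
  have hpP4 : P₄ ≤ p := (le_max_right _ _).trans ((le_max_right _ _).trans ((le_max_left _ _).trans hpP))
  have hp4 : (4 : ℝ) ≤ p := (le_max_left _ _).trans ((le_max_right _ _).trans hpP)
  have hpβ : 2 + 1 / β ≤ p := (le_max_right _ _).trans ((le_max_right _ _).trans hpP)
  have hp4' : 4 ≤ p := by exact_mod_cast hp4
  have hp0 : (0 : ℝ) < p := by linarith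
  have hp1 : (1 : ℝ) ≤ p := by linarith
  obtain ⟨z, hz⟩ : ∃ z : ℕ, z = ⌊(p : ℝ) ^ d / 2⌋₊ := ⟨_, rfl⟩
  obtain ⟨e1, e2, e3⟩ := hP₃ p hpP3
  have e4 := hP₄ p hpP4
  rw [← hz] at e1 e2
  have hlog4 : 4 ≤ Real.log p := e3
  have hzle : (z : ℝ) ≤ (p : ℝ) ^ d / 2 := by rw [hz]; exact Nat.floor_le (by positivity)
  have hz4 : (4 : ℝ) ≤ z := by linarith
  have hz4' : 4 ≤ z := by exact_mod_cast hz4
  have hlz0 : 0 < Real.log z := Real.log_pos (by linarith)
  have hlz : Real.log z ≤ d * Real.log p := by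
    rw [← Real.log_rpow hp0]
    exact Real.log_le_log (by linarith) (by linarith [show (0 : ℝ) < (p : ℝ) ^ d by positivity])
  -- K
  obtain ⟨K, hK⟩ : ∃ K : ℕ, K = ⌊Real.log p⌋₊ := ⟨_, rfl⟩
  have hKle : (K : ℝ) ≤ Real.log p := by rw [hK]; exact Nat.floor_le (by linarith)
  have hKge : Real.log p / 2 ≤ K := by
    have : Real.log p - 1 < (K : ℝ) := by rw [hK]; exact Nat.sub_one_lt_floor _
    linarith
  have hlogp : Real.log p < p := by
    have := Real.log_lt_sub_one_of_pos hp0 (by linarith)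
    linarith
  have hKp : K < p := by
    have : (K : ℝ) < p := by linarith
    exact_mod_cast this
  have hK1 : 1 ≤ K := by
    have : (1 : ℝ) ≤ K := by linarith
    exact_mod_cast this
  have hK0 : (0 : ℝ) < K := by exact_mod_cast hK1
  obtain ⟨μ, hμ⟩ : ∃ μ : ℝ, μ = E * K / Real.log z := ⟨_, rfl⟩
  have hμ0 : 0 < μ := by rw [hμ]; positivity
  have hμge : E * b / 2 ≤ μ := by
    rw [hμ, le_div_iff₀ hlz0]
    have h1 : Real.log z ≤ (1 / b) * Real.log p := by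
      refine hlz.trans ?_
      apply mul_le_mul_of_nonneg_right _ (by linarith)
      rw [hd]
      gcongr
    calc E * b / 2 * Real.log z ≤ E * b / 2 * ((1 / b) * Real.log p) := by gcongr
      _ = E * (Real.log p / 2) := by field_simp
      _ ≤ E * K := by gcongr
  have h2μ : 2 / μ ≤ η / 2 := by
    refine le_trans ?_ hbη
    rw [div_le_div_iff₀ hμ0 (by positivity)]
    nlinarith
  -- the intervals
  have hpL : ∀ (t : ℕ), 1 ≤ t → ∀ δ' : ℝ, 0 < δ' → (p : ℝ) ^ (1 - δ') ≤ ((t * p : ℕ) : ℝ) := by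
    intro t ht δ' hδ'
    calc (p : ℝ) ^ (1 - δ') ≤ (p : ℝ) ^ (1 : ℝ) := Real.rpow_le_rpow_of_exponent_le hp1 (by linarith)
      _ = p := Real.rpow_one _
      _ ≤ _ := by
        have : p ≤ t * p := Nat.le_mul_of_pos_left p (by omega)
        exact_mod_cast this
  have hzz : ∀ δ' : ℝ, δ ≤ δ' → (z : ℝ) ≤ (p : ℝ) ^ (δ' / b) := by
    intro δ' h
    have h1 : (z : ℝ) ≤ (p : ℝ) ^ d := by linarith [show (0 : ℝ) < (p : ℝ) ^ d by positivity]
    refine h1.trans (Real.rpow_le_rpow_of_exponent_le hp1 ?_)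
    rw [hd]
    gcongr
  have f1 := F p hpP1 ι s v hv M (K * p) z (hpL K hK1 δ₁ hδ₁) e1 (hzz δ₁ hδ1)
  have hdiv : ∀ t : ℕ, (((t * p : ℕ) : ℝ)) / p = t := by
    intro t
    push_cast
    field_simp
  rw [hdiv, ← hβ] at f1
  simp only [Nat.cast_one, one_mul, pow_one] at f1
  rw [← hE] at f1
  have f1' : |(number p s v M (K * p) (Rough z) : ℝ) - s.card * μ| ≤ β * (s.card * μ) := by
    have : E * (s.card * K / Real.log z) = s.card * μ := by rw [hμ]; ring
    rw [this] at f1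
    exact f1
  -- pairs
  have hodd : p % 2 = 1 := by
    rcases hp.eq_two_or_odd with h | h
    · omega
    · exact h
  have g0 : ∀ k ∈ (Ico 1 K).filter (fun k => 2 ∣ k), ∃ D : ℝ, 0 < D ∧ Tendsto (pairSeries (k * p)) atTop (𝓝 D) ∧
      (number p s v M ((K - k) * p) (PairPat (k * p) (Rough z)) : ℝ) ≤
        (1 + β) * (E ^ 2 * (D * (s.card * ((K : ℝ) - k)) / Real.log z ^ 2)) := by
    intro k hk
    rw [mem_filter, mem_Ico] at hk
    obtain ⟨D, hD, hl, G'⟩ := G p hpP2 ι s v hv (k * p) ⟨Nat.mul_pos (by omega) (by omega), hk.2.mul_right _⟩ (by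
      have h1 : k * p + 1 ≤ p ^ 2 := by nlinarith [hk.1.2, hKp]
      have h2 : (((k * p + 1 : ℕ)) : ℝ) ≤ ((p ^ 2 : ℕ) : ℝ) := by exact_mod_cast h1
      push_cast at h2 ⊢
      calc (k : ℝ) * p + 1 ≤ (p : ℝ) ^ 2 := h2
        _ = (p : ℝ) ^ (2 : ℝ) := by norm_cast)
    refine ⟨D, hD, hl, ?_⟩
    have h1 := G' M ((K - k) * p) z (hpL (K - k) (by omega) δ₂ hδ₂) e1 (hzz δ₂ hδ2)
    rw [hdiv, ← hβ, Nat.cast_sub hk.1.2.le] at h1
    have hE2 : Real.exp (-(((2 : ℕ) : ℝ) * Real.eulerMascheroniConstant)) = E ^ 2 := by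
      rw [hE, ← Real.exp_nat_mul]
      congr 1
      push_cast
      ring
    rw [hE2, abs_le] at h1
    linarith [h1.2]
  choose! D hD0 hDl hDn using g0
  have godd : ∀ k : ℕ, ¬ 2 ∣ k → number p s v M ((K - k) * p) (PairPat (k * p) (Rough z)) = 0 := by
    intro k hk
    unfold number
    rw [card_eq_zero, filter_eq_empty_iff]
    intro x _
    rintro ⟨-, h1, h2⟩
    have a1 : ¬ 2 ∣ x.2 := h2 2 Nat.prime_two (by omega)
    have a2 : ¬ 2 ∣ x.2 + k * p := h1 2 Nat.prime_two (by omega)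
    have a3 : ¬ 2 ∣ k * p := fun h => by
      rcases Nat.prime_two.dvd_mul.1 h with h | h
      · exact hk h
      · omega
    omega
  have hsum : ∑ k ∈ Ico 1 K, (number p s v M ((K - k) * p) (PairPat (k * p) (Rough z)) : ℝ) ≤
      (1 + β) ^ 2 * (s.card * μ ^ 2) / 2 := by
    have h1 : ∑ k ∈ Ico 1 K, (number p s v M ((K - k) * p) (PairPat (k * p) (Rough z)) : ℝ) =
        ∑ k ∈ (Ico 1 K).filter (fun k => 2 ∣ k),
          (number p s v M ((K - k) * p) (PairPat (k * p) (Rough z)) : ℝ) := by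
      rw [sum_filter]
      refine sum_congr rfl fun k _ => ?_
      split_ifs with h
      · rfl
      · rw [godd k h, Nat.cast_zero]
    have h2 := series_sum hp hKp (by omega) D hDl
    have h3 : ((p : ℝ) - 1) / ((p : ℝ) - 2) ≤ 1 + β := by
      have h4 : (0 : ℝ) < (p : ℝ) - 2 := by linarith
      rw [div_le_iff₀ h4]
      have h5 : 1 / β ≤ (p : ℝ) - 2 := by linarith
      rw [div_le_iff₀ hβ0] at h5
      have h6 : (1 + β) * ((p : ℝ) - 2) = ((p : ℝ) - 2) + ((p : ℝ) - 2) * β := by ring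
      rw [h6]
      linarith
    rw [h1]
    calc ∑ k ∈ (Ico 1 K).filter (fun k => 2 ∣ k),
          (number p s v M ((K - k) * p) (PairPat (k * p) (Rough z)) : ℝ) ≤
        ∑ k ∈ (Ico 1 K).filter (fun k => 2 ∣ k),
          ((1 + β) * (E ^ 2 * s.card / Real.log z ^ 2)) * (((K : ℝ) - k) * D k) := by
          refine sum_le_sum fun k hk => (hDn k hk).trans (le_of_eq ?_)
          ring
      _ = ((1 + β) * (E ^ 2 * s.card / Real.log z ^ 2)) *
          ∑ k ∈ (Ico 1 K).filter (fun k => 2 ∣ k), (((K : ℝ) - k) * D k) := by rw [mul_sum]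
      _ ≤ ((1 + β) * (E ^ 2 * s.card / Real.log z ^ 2)) *
          (((p : ℝ) - 1) / ((p : ℝ) - 2) * ((K : ℝ) ^ 2 / 2)) := by
          apply mul_le_mul_of_nonneg_left h2 (by positivity)
      _ ≤ ((1 + β) * (E ^ 2 * s.card / Real.log z ^ 2)) * ((1 + β) * ((K : ℝ) ^ 2 / 2)) := by
          gcongr
      _ = _ := by
          rw [hμ]
          field_simp
  -- the second moment
  have hsq : ∑ i ∈ s, ((mem' p (v i) M (K * p) (Rough z)).card : ℝ) ^ 2 ≤
      ∑ i ∈ s, ((mem' p (v i) M (K * p) (Rough z)).card : ℝ) + (1 + β) ^ 2 * (s.card * μ ^ 2) := by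
    have h1 : ∀ i ∈ s, ((mem' p (v i) M (K * p) (Rough z)).card : ℝ) ^ 2 ≤
        ((mem' p (v i) M (K * p) (Rough z)).card : ℝ) +
          2 * ∑ k ∈ Ico 1 K, ((mem' p (v i) M ((K - k) * p) (PairPat (k * p) (Rough z))).card : ℝ) := by
      intro i _
      have h3 := sq_card p (by omega) (v i) M K (Rough z)
      have e : ∀ k, (fun n => Rough z (n + k * p) ∧ Rough z n) = PairPat (k * p) (Rough z) := fun k => rfl
      simp only [e] at h3
      generalize PairPat = Q at h3 ⊢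
      exact_mod_cast h3
    refine (sum_le_sum h1).trans ?_
    rw [sum_add_distrib, ← mul_sum, sum_comm]
    have h2 : ∑ k ∈ Ico 1 K, ∑ i ∈ s, ((mem' p (v i) M ((K - k) * p) (PairPat (k * p) (Rough z))).card : ℝ) =
        ∑ k ∈ Ico 1 K, (number p s v M ((K - k) * p) (PairPat (k * p) (Rough z)) : ℝ) := by
      refine sum_congr rfl fun k _ => ?_
      rw [number_sum]
      push_cast
      rfl
    rw [h2]
    linarith
  have hfirst : |∑ i ∈ s, ((mem' p (v i) M (K * p) (Rough z)).card : ℝ) - s.card * μ| ≤ β * (s.card * μ) := by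
    rw [number_sum] at f1'
    push_cast at f1'
    exact f1'
  have hc := cheb s _ μ β hμ0 hβ0.le hβ1 hfirst hsq
  have hcard0 : (0 : ℝ) ≤ s.card := by positivity
  refine le_trans ?_ (hc.trans (mul_le_mul_of_nonneg_right (by linarith) hcard0))
  have hsub : (s.filter fun i => ¬ ∃ n : ℕ, M < n ∧ (n : ℝ) ≤ M + p * Real.log p ∧ (n : ZMod p) = v i ∧
        Almost ⌈(A + 2) / (d / 2)⌉₊ ((p : ℝ) ^ (d / 2)) n) ⊆
      s.filter fun i => ((mem' p (v i) M (K * p) (Rough z)).card : ℝ) = 0 := by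
    intro i hi
    rw [mem_filter] at hi ⊢
    refine ⟨hi.1, ?_⟩
    by_contra hne
    apply hi.2
    have hpos : 0 < (mem' p (v i) M (K * p) (Rough z)).card := by
      rcases Nat.eq_zero_or_pos (mem' p (v i) M (K * p) (Rough z)).card with h | h
      · exact absurd (by rw [h, Nat.cast_zero]) hne
      · exact h
    obtain ⟨n, hn⟩ := card_pos.1 hpos
    rw [mem_mem'] at hn
    have hnle : (n : ℝ) ≤ M + p * Real.log p := by
      have h1 : (n : ℝ) ≤ ((M + K * p : ℕ) : ℝ) := by exact_mod_cast hn.1.2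
      push_cast at h1
      nlinarith
    refine ⟨n, hn.1.1, hnle, hn.2.1, ?_⟩
    refine almost_of_rough (y := 0) (by positivity) (by omega) ?_ hn.2.2 (by omega) ?_
    · have h1 : (p : ℝ) ^ d / 2 < z + 1 := by rw [hz]; exact Nat.lt_floor_add_one _
      have h2 : (p : ℝ) ^ d = (p : ℝ) ^ (d / 2) * (p : ℝ) ^ (d / 2) := by
        rw [← Real.rpow_add hp0]; ring_nf
      nlinarith
    · refine hnle.trans ?_
      have h1 : (p : ℝ) * Real.log p ≤ (p : ℝ) ^ 2 := by nlinarith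
      have h2 : (p : ℝ) ^ (A + 2) = (p : ℝ) ^ A * (p : ℝ) ^ 2 := by
        rw [Real.rpow_add hp0]
        norm_cast
      have h3 : (p : ℝ) ≤ (p : ℝ) ^ A := by
        calc (p : ℝ) = (p : ℝ) ^ (1 : ℝ) := (Real.rpow_one _).symm
          _ ≤ _ := Real.rpow_le_rpow_of_exponent_le hp1 hA
      have h4 : (16 : ℝ) ≤ (p : ℝ) ^ 2 := by nlinarith
      rw [h2]
      nlinarith [show (0 : ℝ) ≤ (p : ℝ) ^ 2 by positivity]
  exact_mod_cast card_le_card hsub

/-- the upper bound for the classes with a small prime -/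
theorem prime_core (ε η A : ℝ) (hε : 0 < ε) (hη : 0 < η) (hA : 1 ≤ A) : ∃ c : ℝ, 0 < c ∧
    ∃ P₀ : ℝ, ∀ (p : ℕ) [Fact p.Prime], P₀ ≤ p →
      ∀ (ι : Type) (s : Finset ι) (v : ι → ZMod p), SmallSums p ε s v →
      ∀ M : ℕ, (M : ℝ) ≤ (p : ℝ) ^ A →
      ((s.filter fun i => ∃ q : ℕ, q.Prime ∧ M < q ∧ (q : ℝ) ≤ M + c * p * Real.log p ∧
        (q : ZMod p) = v i).card : ℝ) ≤ η * s.card := by
  obtain ⟨r, δ, K, hδ, hK, P₁, H⟩ := single_all.2 ε (A + 2) hε (by linarith)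
  obtain ⟨c, hc⟩ : ∃ c : ℝ, c = min 1 (η / K) := ⟨_, rfl⟩
  have hc0 : 0 < c := by rw [hc]; exact lt_min one_pos (by positivity)
  have hc1 : c ≤ 1 := by rw [hc]; exact min_le_left _ _
  have hcη : K * c ≤ η := by
    have : c ≤ η / K := by rw [hc]; exact min_le_right _ _
    rw [le_div_iff₀ hK] at this
    linarith
  have ev1 : ∀ᶠ x : ℝ in atTop, 2 / c ≤ Real.log x := Real.tendsto_log_atTop.eventually_ge_atTop _
  obtain ⟨P₂, hP₂⟩ := ev1.exists_forall_of_atTop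
  refine ⟨c, hc0, max (max P₁ P₂) 4, ?_⟩
  intro p hpf hpP ι s v hv M hM
  have hpP1 : P₁ ≤ p := (le_max_left _ _).trans ((le_max_left _ _).trans hpP)
  have hpP2 : P₂ ≤ p := (le_max_right _ _).trans ((le_max_left _ _).trans hpP)
  have hp4 : (4 : ℝ) ≤ p := (le_max_right _ _).trans hpP
  have hp0 : (0 : ℝ) < p := by linarith
  have hp1 : (1 : ℝ) ≤ p := by linarith
  have hlog : 2 / c ≤ Real.log p := hP₂ p hpP2
  have hlog' : 2 ≤ c * Real.log p := by
    rw [div_le_iff₀ hc0] at hlog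
    linarith
  have hlog0 : 0 < Real.log p := Real.log_pos (by linarith)
  obtain ⟨L, hL⟩ : ∃ L : ℕ, L = ⌊c * p * Real.log p⌋₊ := ⟨_, rfl⟩
  have hx0 : 0 ≤ c * p * Real.log p := by positivity
  have hLle : (L : ℝ) ≤ c * p * Real.log p := by rw [hL]; exact Nat.floor_le hx0
  have hLge : (p : ℝ) ≤ L := by
    have h1 : c * p * Real.log p < (L : ℝ) + 1 := by rw [hL]; exact Nat.lt_floor_add_one _
    nlinarith
  have hlogp : Real.log p < p := by
    have := Real.log_lt_sub_one_of_pos hp0 (by linarith)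
    linarith
  have hML : (M + L : ℝ) ≤ (p : ℝ) ^ (A + 2) := by
    have h1 : (L : ℝ) ≤ (p : ℝ) ^ 2 := by
      have : c * p * Real.log p ≤ 1 * p * p := by gcongr
      nlinarith
    have h2 : (p : ℝ) ^ (A + 2) = (p : ℝ) ^ A * (p : ℝ) ^ 2 := by
      rw [Real.rpow_add hp0]
      norm_cast
    have h3 : (p : ℝ) ≤ (p : ℝ) ^ A := by
      calc (p : ℝ) = (p : ℝ) ^ (1 : ℝ) := (Real.rpow_one _).symm
        _ ≤ _ := Real.rpow_le_rpow_of_exponent_le hp1 hA
    have h4 : (16 : ℝ) ≤ (p : ℝ) ^ 2 := by nlinarith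
    rw [h2]
    nlinarith [show (0 : ℝ) ≤ (p : ℝ) ^ 2 by positivity]
  have hL1 : (p : ℝ) ^ (1 - δ) ≤ L := by
    calc (p : ℝ) ^ (1 - δ) ≤ (p : ℝ) ^ (1 : ℝ) := Real.rpow_le_rpow_of_exponent_le hp1 (by linarith)
      _ = p := Real.rpow_one _
      _ ≤ _ := hLge
  obtain ⟨-, h⟩ := H p hpP1 ι s v hv M L hML hL1
  have h1 : ((s.filter fun i => ∃ q : ℕ, q.Prime ∧ M < q ∧ (q : ℝ) ≤ M + c * p * Real.log p ∧
        (q : ZMod p) = v i).card : ℝ) ≤ (number p s v M L Nat.Prime : ℝ) := by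
    have h2 : (s.filter fun i => ∃ q : ℕ, q.Prime ∧ M < q ∧ (q : ℝ) ≤ M + c * p * Real.log p ∧
        (q : ZMod p) = v i).card ≤ number p s v M L Nat.Prime := by
      rw [number_sum, card_filter]
      refine sum_le_sum fun i _ => ?_
      split_ifs with hq
      · obtain ⟨q, hq1, hq2, hq3, hq4⟩ := hq
        apply card_pos.2
        refine ⟨q, (mem_mem' p (v i) M L Nat.Prime q).2 ⟨⟨hq2, ?_⟩, hq4, hq1⟩⟩
        have h3 : ((q - M : ℕ) : ℝ) ≤ c * p * Real.log p := by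
          rw [Nat.cast_sub hq2.le]
          linarith
        have h4 : q - M ≤ L := by rw [hL]; exact Nat.le_floor h3
        omega
      · exact Nat.zero_le _
    exact_mod_cast h2
  refine h1.trans (h.trans ?_)
  rw [pow_one]
  have h5 : (s.card : ℝ) * ((L : ℝ) / p) / Real.log p ≤ c * s.card := by
    rw [div_le_iff₀ hlog0]
    have h6 : (L : ℝ) / p ≤ c * Real.log p := by
      rw [div_le_iff₀ hp0]
      nlinarith
    calc (s.card : ℝ) * ((L : ℝ) / p) ≤ s.card * (c * Real.log p) := by gcongr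
      _ = _ := by ring
  calc K * ((s.card : ℝ) * ((L : ℝ) / p) / Real.log p) ≤ K * (c * s.card) := by gcongr
    _ = K * c * s.card := by ring
    _ ≤ η * s.card := by gcongr

end Pool.Agent.Run7.h90.AU
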