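import Pool.Agent.Run7.h90.AU.Pair

/-!
# Two linear forms: counts and orders of magnitude, uniformly in the coefficients
-/

set_option autoImplicit false
set_option linter.all false

namespace Pool.Agent.Run7.h90.AU

open Finset Filter Topology
open Run7.h870.LI
open Pool.Agent.N825.FC (rep rep_gt rep_le rep_cast rep_unique eqd)
open Pool.Agent.Run7.h90.AP
open Pool.Agent.H560R3.GB (C₂ sing)
open scoped Classical
open Polynomial (X C)

/-- the product of the two linear forms -/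
noncomputable def FL (a d : ℤ) : Polynomial ℤ := X * (C a + C d * X)

theorem FL_eval (a d n : ℤ) : (FL a d).eval n = n * (a + d * n) := by
  unfold FL
  simp

theorem FL_deg (a d : ℤ) : (FL a d).natDegree ≤ 2 := by
  unfold FL
  refine Polynomial.natDegree_mul_le.trans ?_
  have h1 : (X : Polynomial ℤ).natDegree ≤ 1 := Polynomial.natDegree_X_le
  have h2 : (C a + C d * X : Polynomial ℤ).natDegree ≤ 1 := by
    refine (Polynomial.natDegree_add_le _ _).trans ?_
    rw [max_le_iff]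
    exact ⟨by rw [Polynomial.natDegree_C]; omega, (Polynomial.natDegree_C_mul_le _ _).trans Polynomial.natDegree_X_le⟩
  omega

theorem FL_rr {a d : ℤ} (had : IsCoprime a d) (l : ℕ) (hl : l.Prime) :
    rr (QF (FL a d)) l = if l ∣ (a * d).natAbs then 1 else 2 := by
  have hfact : Fact l.Prime := ⟨hl⟩
  have hlp : Prime (l : ℤ) := Nat.prime_iff_prime_int.1 hl
  have hQ : ∀ n : ℕ, QF (FL a d) l n ↔ (l : ℤ) ∣ n ∨ (l : ℤ) ∣ a + d * n := by
    intro n
    unfold QF
    rw [FL_eval]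
    exact hlp.dvd_mul
  have hsmall : ∀ n ∈ range l, (l : ℤ) ∣ n → n = 0 := by
    intro n hn h
    have h1 : l ∣ n := by exact_mod_cast h
    exact Nat.eq_zero_of_dvd_of_lt h1 (mem_range.1 hn)
  unfold rr
  split_ifs with h
  · have h0 : ((range l).filter fun n => QF (FL a d) l n) = {0} := by
      ext n
      rw [mem_filter, mem_singleton, hQ]
      constructor
      · rintro ⟨h1, h2 | h2⟩
        · exact hsmall n h1 h2
        · have h3 : (l : ℤ) ∣ a * d := by
            rw [Int.natCast_dvd]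
            exact h
          rcases hlp.dvd_mul.1 h3 with h4 | h4
          · have h5 : (l : ℤ) ∣ d * n := (dvd_add_right h4).1 h2
            rcases hlp.dvd_mul.1 h5 with h6 | h6
            · exact absurd (had.isUnit_of_dvd' h4 h6) hlp.not_unit
            · exact hsmall n h1 h6
          · have h5 : (l : ℤ) ∣ a := (dvd_add_left (h4.mul_right _)).1 h2
            exact absurd (had.isUnit_of_dvd' h5 h4) hlp.not_unit
      · rintro rfl
        exact ⟨mem_range.2 hl.pos, Or.inl (by simp)⟩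
    rw [h0, card_singleton]
  · have h3 : ¬ (l : ℤ) ∣ a * d := by
      rw [Int.natCast_dvd]
      exact h
    have ha : ¬ (l : ℤ) ∣ a := fun h4 => h3 (h4.mul_right _)
    have hd : ¬ (l : ℤ) ∣ d := fun h4 => h3 (h4.mul_left _)
    have hd0 : (d : ZMod l) ≠ 0 := by
      rw [Ne, ZMod.intCast_zmod_eq_zero_iff_dvd]
      exact hd
    obtain ⟨r, hr⟩ : ∃ r : ZMod l, r = -(a : ZMod l) / d := ⟨_, rfl⟩
    have hr1 : (a : ZMod l) + d * r = 0 := by
      rw [hr]
      field_simp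
      ring
    have hr2 : ∀ n : ℕ, (l : ℤ) ∣ a + d * n ↔ (n : ZMod l) = r := by
      intro n
      rw [← ZMod.intCast_zmod_eq_zero_iff_dvd]
      push_cast
      constructor
      · intro h5
        have : (d : ZMod l) * n = d * r := by linear_combination h5 - hr1
        exact mul_left_cancel₀ hd0 this
      · intro h5
        rw [h5, hr1]
    have h0 : ((range l).filter fun n => QF (FL a d) l n) = {0, r.val} := by
      ext n
      rw [mem_filter, mem_insert, mem_singleton, hQ, hr2]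
      constructor
      · rintro ⟨h1, h2 | h2⟩
        · exact Or.inl (hsmall n h1 h2)
        · right
          rw [← h2, ZMod.val_natCast, Nat.mod_eq_of_lt (mem_range.1 h1)]
      · rintro (h1 | h1)
        · rw [h1]
          exact ⟨mem_range.2 hl.pos, Or.inl (by simp)⟩
        · rw [h1]
          exact ⟨mem_range.2 (ZMod.val_lt r), Or.inr (ZMod.natCast_zmod_val r)⟩
    rw [h0, card_insert_of_notMem, card_singleton]
    rw [mem_singleton]
    intro h1
    have h2 : r = 0 := (ZMod.val_eq_zero r).1 h1.symm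
    rw [h2, mul_zero, add_zero] at hr1
    exact ha ((ZMod.intCast_zmod_eq_zero_iff_dvd _ _).1 hr1)

/-- the integers where one of the two forms is small -/
theorem small_values (a d : ℤ) (hd : d ≠ 0) (z : ℕ) : ∃ T : Finset ℕ, T.card ≤ 3 * z + 2 ∧
    ∀ n : ℕ, n ≤ z ∨ (a + d * n).natAbs ≤ z → n ∈ T := by
  refine ⟨range (z + 1) ∪ (Icc (-(z : ℤ)) z).image (fun m => ((m - a) / d).toNat), ?_, ?_⟩
  · refine (card_union_le _ _).trans ?_
    have h1 := card_image_le (s := Icc (-(z : ℤ)) z) (f := fun m => ((m - a) / d).toNat)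
    rw [Int.card_Icc] at h1
    rw [card_range]
    omega
  · intro n hn
    rw [mem_union]
    rcases hn with h | h
    · exact Or.inl (mem_range.2 (by omega))
    · right
      rw [mem_image]
      refine ⟨a + d * n, mem_Icc.2 ⟨by omega, by omega⟩, ?_⟩
      rw [add_sub_cancel_left, Int.mul_ediv_cancel_left _ hd, Int.toNat_natCast]

/-- the number of the prime factors -/
theorem few {n z : ℕ} {p : ℝ} {δ B : ℝ} (hp : 1 < p) (hδ : 0 < δ) (hz : p ^ δ ≤ z + 1)
    (hn0 : n ≠ 0) (hn : (n : ℝ) ≤ p ^ B) (h : ∀ l : ℕ, l.Prime → l ∣ n → z < l) :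
    (n.primeFactorsList.length : ℝ) ≤ B / δ ∧ ∀ l : ℕ, l ∈ n.primeFactorsList → p ^ δ ≤ l := by
  have h1 : ∀ l ∈ n.primeFactorsList, z + 1 ≤ l := by
    intro l hl
    rw [Nat.mem_primeFactorsList hn0] at hl
    exact h l hl.1 hl.2
  refine ⟨?_, fun l hl => hz.trans (by exact_mod_cast h1 l hl)⟩
  have h2 : (z + 1) ^ n.primeFactorsList.length ≤ n := by
    have := List.pow_card_le_prod n.primeFactorsList (z + 1) h1
    rwa [Nat.prod_primeFactorsList hn0] at this
  obtain ⟨k, hk⟩ : ∃ k, k = n.primeFactorsList.length := ⟨_, rfl⟩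
  rw [← hk] at h2 ⊢
  have h3 : (p ^ δ) ^ k ≤ p ^ B := by
    calc (p ^ δ) ^ k ≤ ((z : ℝ) + 1) ^ k := pow_le_pow_left₀ (by positivity) hz k
      _ ≤ (n : ℝ) := by exact_mod_cast h2
      _ ≤ _ := hn
  rw [← Real.rpow_natCast, ← Real.rpow_mul (by linarith)] at h3
  have h4 := (Real.rpow_le_rpow_left_iff hp).1 h3
  rw [le_div_iff₀ hδ]
  linarith

/-- comparison of the logarithms with powers -/
theorem ev_cube (s : ℝ) (hs : 0 < s) : ∀ᶠ x : ℝ in atTop,
    5 * (4 + Real.log x) * Real.log x ^ 2 ≤ x ^ s := by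
  filter_upwards [ev_log 3 (s / 3) (by positivity), eventually_ge_atTop (1 : ℝ)] with x hx hx1
  have hl : 0 ≤ Real.log x := Real.log_nonneg hx1
  obtain ⟨y, hy⟩ : ∃ y, y = 3 + Real.log x := ⟨_, rfl⟩
  have hy3 : 3 ≤ y := by rw [hy]; linarith
  rw [← hy] at hx
  have e : x ^ s = (x ^ (s / 3)) ^ 3 := by
    rw [← Real.rpow_natCast, ← Real.rpow_mul (by linarith)]
    congr 1
    push_cast
    ring
  rw [e]
  calc 5 * (4 + Real.log x) * Real.log x ^ 2 ≤ 5 * (2 * y) * y ^ 2 := by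
        have h1 : 4 + Real.log x ≤ 2 * y := by linarith
        have h2 : Real.log x ^ 2 ≤ y ^ 2 := pow_le_pow_left₀ hl (by linarith) 2
        exact mul_le_mul (by linarith) h2 (by positivity) (by positivity)
    _ ≤ (3 * y) ^ 3 := by
        have : 0 ≤ y ^ 3 := by positivity
        nlinarith
    _ ≤ _ := pow_le_pow_left₀ (by linarith) hx 3

/-- **Orders of magnitude** for two linear forms -/
theorem lin_orders (ε A : ℝ) (hε : 0 < ε) (hA : 1 ≤ A) : ∃ (r : ℕ) (δ K : ℝ), 0 < δ ∧ 0 < K ∧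
    ∃ P₀ : ℝ, ∀ (p : ℕ) [Fact p.Prime], P₀ ≤ p → ∀ a d : ℤ, a ≠ 0 → d ≠ 0 → IsCoprime a d →
      2 ∣ a * d → (|a| : ℝ) ≤ (p : ℝ) ^ A → (|d| : ℝ) ≤ (p : ℝ) ^ A →
      ∀ (ι : Type) (s : Finset ι) (v : ι → ZMod p), Small p ε s v →
      ∀ M L : ℕ, (M : ℝ) ≤ (p : ℝ) ^ A → (p : ℝ) ^ (1 - δ) ≤ L → L ≤ p →
      sing (a * d).natAbs * (s.card * ((L : ℝ) / p)) / Real.log p ^ 2 ≤
        K * (((prs p s v M L).filter fun x =>
          x.2.primeFactorsList.length ≤ r ∧ (∀ l : ℕ, l ∈ x.2.primeFactorsList → (p : ℝ) ^ δ ≤ l) ∧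
          (a + d * x.2).natAbs ≠ 0 ∧ (a + d * x.2).natAbs.primeFactorsList.length ≤ r ∧
          ∀ l : ℕ, l ∈ (a + d * x.2).natAbs.primeFactorsList → (p : ℝ) ^ δ ≤ l).card : ℝ) ∧
      (((prs p s v M L).filter fun x => x.2.Prime ∧ (a + d * x.2).natAbs.Prime).card : ℝ) ≤
        K * (sing (a * d).natAbs * (s.card * ((L : ℝ) / p)) / Real.log p ^ 2) := by
  obtain ⟨δ, hδ, hδε, hδ8, H⟩ := pair_count ε (2 * A) hε (by linarith)
  obtain ⟨P₁, H⟩ := H 1 le_rfl
  obtain ⟨g, hg⟩ : ∃ g : ℝ, g = Real.exp (-(2 * Real.eulerMascheroniConstant)) := ⟨_, rfl⟩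
  have hg0 : 0 < g := by rw [hg]; exact Real.exp_pos _
  set ε' : ℝ := min ε 1 with hε'
  have hε'0 : 0 < ε' := lt_min hε one_pos
  have hε'1 : ε' ≤ 1 := min_le_right _ _
  have hε'ε : ε' ≤ ε := min_le_left _ _
  have hδε' : δ ≤ ε' / 8 := by
    rcases le_total ε 1 with h | h
    · rw [hε', min_eq_left h]; exact hδε
    · rw [hε', min_eq_right h]; linarith
  obtain ⟨K, hK⟩ : ∃ K : ℝ, K = max (2 * δ ^ 2 / g) (3 / 2 * g * (2 / δ) ^ 2 + 1) := ⟨_, rfl⟩
  have hK1 : 2 * δ ^ 2 / g ≤ K := by rw [hK]; exact le_max_left _ _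
  have hK2 : 3 / 2 * g * (2 / δ) ^ 2 + 1 ≤ K := by rw [hK]; exact le_max_right _ _
  have hK0 : 0 < K := lt_of_lt_of_le (by positivity) hK1
  refine ⟨⌊3 * A / δ⌋₊, δ, K, hδ, hK0, ?_⟩
  have ev : ∀ᶠ p : ℝ in atTop, P₁ ≤ p ∧ 10 ≤ p ∧ 1 ≤ p ^ δ ∧
      5 * (4 + Real.log p) * Real.log p ^ 2 ≤ p ^ (ε' / 2) ∧ 2 ≤ (p : ℝ) ^ (δ / 2) ∧
      3 + Real.log p ≤ p ^ δ / 2 := by
    refine (eventually_ge_atTop P₁).and ((eventually_ge_atTop 10).and
      (((tendsto_rpow_atTop hδ).eventually_ge_atTop _).and ((ev_cube _ (by positivity)).and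
      (((tendsto_rpow_atTop (show 0 < δ / 2 by positivity)).eventually_ge_atTop _).and ?_))))
    filter_upwards [ev_log 2 δ hδ] with x hx
    linarith
  obtain ⟨P₀, hP₀⟩ := eventually_atTop.1 ev
  refine ⟨P₀, ?_⟩
  intro p hp hpP a d ha0 hd0 had h2ad haA hdA ι s v hv M L hM hL1 hL2
  have hpp : p.Prime := Fact.out
  obtain ⟨hpP1, hp10, hpδ, hpcube, hp2, hplog⟩ := hP₀ p hpP
  have hp0 : (0 : ℝ) < p := by linarith
  have hp1 : (1 : ℝ) < p := by linarith
  have hlogp : 0 < Real.log p := Real.log_pos hp1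
  obtain ⟨z, hz⟩ : ∃ z, z = ⌊(p : ℝ) ^ δ⌋₊ := ⟨_, rfl⟩
  have hz1 : (z : ℝ) ≤ (p : ℝ) ^ δ := by rw [hz]; exact Nat.floor_le (by positivity)
  have hz2 : (p : ℝ) ^ δ ≤ z + 1 := by rw [hz]; exact (Nat.lt_floor_add_one _).le
  have hzlog : Real.log p ≤ z := by linarith
  have hzr : (2 : ℝ) ≤ z := by linarith
  have hlz1 : Real.log z ≤ δ * Real.log p := by
    rw [← Real.log_rpow (by linarith)]
    exact Real.log_le_log (by linarith) hz1
  have hlz2 : δ / 2 * Real.log p ≤ Real.log z := by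
    rw [← Real.log_rpow (by linarith)]
    apply Real.log_le_log (by positivity)
    have e : (p : ℝ) ^ δ = (p : ℝ) ^ (δ / 2) * (p : ℝ) ^ (δ / 2) := by
      rw [← Real.rpow_add (by linarith)]; congr 1; ring
    nlinarith
  have hlz0 : 0 < Real.log z := lt_of_lt_of_le (by positivity) hlz2
  have hEabs : (((a * d).natAbs : ℕ) : ℝ) = |(a : ℝ)| * |(d : ℝ)| := by
    rw [Nat.cast_natAbs, Int.cast_abs, Int.cast_mul, abs_mul]
  have hE0 : (a * d).natAbs ≠ 0 := Int.natAbs_ne_zero.2 (mul_ne_zero ha0 hd0)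
  have hEA : (((a * d).natAbs : ℕ) : ℝ) ≤ (p : ℝ) ^ (2 * A) := by
    rw [hEabs, two_mul, Real.rpow_add hp0]
    push_cast at haA hdA
    exact mul_le_mul haA hdA (abs_nonneg _) (by positivity)
  have hE2 : 2 ∣ (a * d).natAbs := by
    have : ((2 : ℕ) : ℤ) ∣ a * d := by exact_mod_cast h2ad
    exact Int.natCast_dvd.1 this
  have h1 := H p hpP1 (FL a d) (a * d).natAbs (FL_deg a d) hE0 hE2 hEA (FL_rr had) ι s v hv M L z
    hL1 hL2 hzlog (by rw [Nat.cast_one, div_one]; exact hz1)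
  obtain ⟨Y, hY⟩ : ∃ Y : ℝ, Y = sing (a * d).natAbs * (s.card * ((L : ℝ) / p)) := ⟨_, rfl⟩
  have hS := (sing_pos hE0).le
  have hY0 : 0 ≤ Y := by rw [hY]; positivity
  have hX : X₂ p s.card L (a * d).natAbs (Real.log z) = g * Y / Real.log z ^ 2 := by
    unfold X₂
    rw [hY, ← hg]
    ring
  rw [hX, pow_one, abs_le] at h1
  have hYe : sing (a * d).natAbs * (s.card * ((L : ℝ) / p)) / Real.log p ^ 2 = Y / Real.log p ^ 2 := by
    rw [hY]
  rw [hYe]
  have hlow : g * Y / (δ * Real.log p) ^ 2 ≤ g * Y / Real.log z ^ 2 :=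
    div_le_div_of_nonneg_left (by positivity) (by positivity) (pow_le_pow_left₀ hlz0.le hlz1 2)
  have hup : g * Y / Real.log z ^ 2 ≤ g * Y / (δ / 2 * Real.log p) ^ 2 :=
    div_le_div_of_nonneg_left (by positivity) (by positivity)
      (pow_le_pow_left₀ (by positivity) hlz2 2)
  constructor
  · have h2 : ((prs p s v M L).filter fun x => ∀ l : ℕ, l.Prime → l ≤ z →
        ¬ QF (FL a d) l x.2).card ≤ ((prs p s v M L).filter fun x =>
          x.2.primeFactorsList.length ≤ ⌊3 * A / δ⌋₊ ∧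
          (∀ l : ℕ, l ∈ x.2.primeFactorsList → (p : ℝ) ^ δ ≤ l) ∧
          (a + d * x.2).natAbs ≠ 0 ∧ (a + d * x.2).natAbs.primeFactorsList.length ≤ ⌊3 * A / δ⌋₊ ∧
          ∀ l : ℕ, l ∈ (a + d * x.2).natAbs.primeFactorsList → (p : ℝ) ^ δ ≤ l).card := by
      apply card_le_card
      intro x hx
      rw [mem_filter] at hx ⊢
      refine ⟨hx.1, ?_⟩
      have hx1 := hx.1
      unfold prs at hx1
      rw [mem_filter, mem_product, mem_Ioc] at hx1
      have hx0 : x.2 ≠ 0 := by omega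
      have hpA : (p : ℝ) ≤ (p : ℝ) ^ A := by
        calc (p : ℝ) = (p : ℝ) ^ (1 : ℝ) := (Real.rpow_one _).symm
          _ ≤ _ := Real.rpow_le_rpow_of_exponent_le hp1.le hA
      have hxb : (x.2 : ℝ) ≤ 2 * (p : ℝ) ^ A := by
        have h3 : (x.2 : ℝ) ≤ M + L := by exact_mod_cast hx1.1.2.2
        have h4 : (L : ℝ) ≤ p := by exact_mod_cast hL2
        linarith
      have hpA0 : (0 : ℝ) < (p : ℝ) ^ A := by positivity
      have hp3A : (p : ℝ) ^ (3 * A) = (p : ℝ) ^ A * ((p : ℝ) ^ A * (p : ℝ) ^ A) := by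
        rw [← Real.rpow_add hp0, ← Real.rpow_add hp0]
        congr 1
        ring
      have hpA10 : (10 : ℝ) ≤ (p : ℝ) ^ A := by linarith
      have hxB : (x.2 : ℝ) ≤ (p : ℝ) ^ (3 * A) := by
        rw [hp3A]
        nlinarith
      have hyB : (((a + d * x.2).natAbs : ℕ) : ℝ) ≤ (p : ℝ) ^ (3 * A) := by
        rw [Nat.cast_natAbs, Int.cast_abs]
        push_cast
        refine (abs_add_le _ _).trans ?_
        rw [abs_mul, Nat.abs_cast, hp3A]
        push_cast at haA hdA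
        have h3 : |(d : ℝ)| * x.2 ≤ (p : ℝ) ^ A * (2 * (p : ℝ) ^ A) :=
          mul_le_mul hdA hxb (by positivity) (by positivity)
        have h4 : (p : ℝ) ^ A * 10 ≤ (p : ℝ) ^ A * (p : ℝ) ^ A :=
          mul_le_mul_of_nonneg_left hpA10 hpA0.le
        have h5 : 10 * ((p : ℝ) ^ A * (p : ℝ) ^ A) ≤ (p : ℝ) ^ A * ((p : ℝ) ^ A * (p : ℝ) ^ A) :=
          mul_le_mul_of_nonneg_right hpA10 (by positivity)
        linarith
      have hdvd1 : ∀ l : ℕ, l.Prime → l ∣ x.2 → z < l := by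
        intro l hl hlx
        by_contra hlt
        refine hx.2 l hl (by omega) ?_
        unfold QF
        rw [FL_eval]
        exact Dvd.dvd.mul_right (by exact_mod_cast hlx) _
      have hdvd2 : ∀ l : ℕ, l.Prime → l ∣ (a + d * x.2).natAbs → z < l := by
        intro l hl hlx
        by_contra hlt
        refine hx.2 l hl (by omega) ?_
        unfold QF
        rw [FL_eval]
        exact Dvd.dvd.mul_left (Int.natCast_dvd.2 hlx) _
      have hy0 : (a + d * x.2).natAbs ≠ 0 := by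
        intro h0
        have h3 := hdvd2 2 Nat.prime_two (by rw [h0]; exact dvd_zero _)
        have h4 : (2 : ℕ) ≤ z := by exact_mod_cast hzr
        omega
      obtain ⟨u1, u2⟩ := few hp1 hδ hz2 hx0 hxB hdvd1
      obtain ⟨w1, w2⟩ := few hp1 hδ hz2 hy0 hyB hdvd2
      exact ⟨Nat.le_floor u1, u2, hy0, Nat.le_floor w1, w2⟩
    have h3 : (((prs p s v M L).filter fun x => ∀ l : ℕ, l.Prime → l ≤ z →
        ¬ QF (FL a d) l x.2).card : ℝ) ≤ (((prs p s v M L).filter fun x =>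
          x.2.primeFactorsList.length ≤ ⌊3 * A / δ⌋₊ ∧
          (∀ l : ℕ, l ∈ x.2.primeFactorsList → (p : ℝ) ^ δ ≤ l) ∧
          (a + d * x.2).natAbs ≠ 0 ∧ (a + d * x.2).natAbs.primeFactorsList.length ≤ ⌊3 * A / δ⌋₊ ∧
          ∀ l : ℕ, l ∈ (a + d * x.2).natAbs.primeFactorsList → (p : ℝ) ^ δ ≤ l).card : ℝ) := by
      exact_mod_cast h2
    obtain ⟨c, hc⟩ : ∃ c : ℝ, c = (((prs p s v M L).filter fun x =>
          x.2.primeFactorsList.length ≤ ⌊3 * A / δ⌋₊ ∧
          (∀ l : ℕ, l ∈ x.2.primeFactorsList → (p : ℝ) ^ δ ≤ l) ∧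
          (a + d * x.2).natAbs ≠ 0 ∧ (a + d * x.2).natAbs.primeFactorsList.length ≤ ⌊3 * A / δ⌋₊ ∧
          ∀ l : ℕ, l ∈ (a + d * x.2).natAbs.primeFactorsList → (p : ℝ) ^ δ ≤ l).card : ℝ) := ⟨_, rfl⟩
    rw [← hc] at h3 ⊢
    have h4 : g * Y / (δ * Real.log p) ^ 2 ≤ 2 * c := by linarith [h1.1]
    have hc0 : 0 ≤ c := by rw [hc]; exact Nat.cast_nonneg _
    calc Y / Real.log p ^ 2 = (δ ^ 2 / g) * (g * Y / (δ * Real.log p) ^ 2) := by
          field_simp
      _ ≤ (δ ^ 2 / g) * (2 * c) := mul_le_mul_of_nonneg_left h4 (by positivity)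
      _ = (2 * δ ^ 2 / g) * c := by ring
      _ ≤ K * c := mul_le_mul_of_nonneg_right hK1 hc0
  · obtain ⟨T, hT1, hT2⟩ := small_values a d hd0 z
    have h2 : ((prs p s v M L).filter fun x => x.2.Prime ∧ (a + d * x.2).natAbs.Prime).card ≤
        ((prs p s v M L).filter fun x => ∀ l : ℕ, l.Prime → l ≤ z →
        ¬ QF (FL a d) l x.2).card + ((prs p s v M L).filter fun x => x.2 ∈ T).card := by
      refine le_trans (card_le_card ?_) (card_union_le _ _)
      intro x hx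
      rw [mem_filter] at hx
      rw [mem_union, mem_filter, mem_filter]
      by_cases hxT : x.2 ∈ T
      · exact Or.inr ⟨hx.1, hxT⟩
      · left
        refine ⟨hx.1, ?_⟩
        intro l hl hlz hQ
        have h3 := fun h => hxT (hT2 x.2 h)
        unfold QF at hQ
        rw [FL_eval] at hQ
        rcases (Nat.prime_iff_prime_int.1 hl).dvd_mul.1 hQ with h4 | h4
        · have h5 : l ∣ x.2 := by exact_mod_cast h4
          have h6 := (Nat.prime_dvd_prime_iff_eq hl hx.2.1).1 h5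
          exact h3 (Or.inl (by omega))
        · have h5 : l ∣ (a + d * x.2).natAbs := Int.natCast_dvd.1 h4
          have h6 := (Nat.prime_dvd_prime_iff_eq hl hx.2.2).1 h5
          exact h3 (Or.inr (by omega))
    have h3 := mults p s v ε hv M L hL2 T
    have h4 : (((prs p s v M L).filter fun x => x.2.Prime ∧ (a + d * x.2).natAbs.Prime).card : ℝ) ≤
        (((prs p s v M L).filter fun x => ∀ l : ℕ, l.Prime → l ≤ z →
        ¬ QF (FL a d) l x.2).card : ℝ) + (((prs p s v M L).filter fun x => x.2 ∈ T).card : ℝ) := by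
      exact_mod_cast h2
    have hs0 : (0 : ℝ) ≤ s.card := Nat.cast_nonneg _
    have h5 : (((prs p s v M L).filter fun x => x.2 ∈ T).card : ℝ) ≤ Y / Real.log p ^ 2 := by
      refine h3.trans ?_
      have hTr : (T.card : ℝ) ≤ 5 * (p : ℝ) ^ δ := by
        have : (T.card : ℝ) ≤ 3 * z + 2 := by exact_mod_cast hT1
        linarith
      have hpε : (p : ℝ) ^ (-ε) ≤ (p : ℝ) ^ (-ε') :=
        Real.rpow_le_rpow_of_exponent_le hp1.le (by linarith)
      have hpε1 : 1 / (p : ℝ) ≤ (p : ℝ) ^ (-ε') := by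
        rw [one_div, ← Real.rpow_neg_one]
        exact Real.rpow_le_rpow_of_exponent_le hp1.le (by linarith)
      have b1 : (p : ℝ) ^ (-ε) * s.card * (2 + Real.log p) + 2 * (s.card / p) ≤
          s.card * ((p : ℝ) ^ (-ε') * (4 + Real.log p)) := by
        have e : (p : ℝ) ^ (-ε) * s.card * (2 + Real.log p) + 2 * (s.card / p) =
          s.card * ((p : ℝ) ^ (-ε) * (2 + Real.log p) + 2 * (1 / p)) := by ring
        rw [e]
        apply mul_le_mul_of_nonneg_left _ hs0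
        have a4 : (p : ℝ) ^ (-ε) * (2 + Real.log p) ≤ (p : ℝ) ^ (-ε') * (2 + Real.log p) :=
          mul_le_mul_of_nonneg_right hpε (by linarith)
        linarith
      have b2 : (1 : ℝ) ≤ sing (a * d).natAbs := by
        have h6 := (Sz_le hE0 3)
        have h7 : (1 : ℝ) / 2 ≤ C₂ := ge_of_tendsto' Ct_lim prod_low
        nlinarith [h6.1, h6.2]
      have b3 : (p : ℝ) ^ (-δ) ≤ (L : ℝ) / p := by
        rw [le_div_iff₀ hp0]
        refine le_trans (le_of_eq ?_) hL1
        rw [show (1 : ℝ) - δ = -δ + 1 by ring, Real.rpow_add hp0, Real.rpow_one]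
      have b4 : 5 * (p : ℝ) ^ δ * ((p : ℝ) ^ (-ε') * (4 + Real.log p)) * Real.log p ^ 2 ≤
          (p : ℝ) ^ (-δ) := by
        calc 5 * (p : ℝ) ^ δ * ((p : ℝ) ^ (-ε') * (4 + Real.log p)) * Real.log p ^ 2 =
            (p : ℝ) ^ δ * (p : ℝ) ^ (-ε') * (5 * (4 + Real.log p) * Real.log p ^ 2) := by ring
          _ ≤ (p : ℝ) ^ δ * (p : ℝ) ^ (-ε') * (p : ℝ) ^ (ε' / 2) :=
              mul_le_mul_of_nonneg_left hpcube (by positivity)
          _ = (p : ℝ) ^ (δ + -ε' + ε' / 2) := by rw [← Real.rpow_add hp0, ← Real.rpow_add hp0]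
          _ ≤ _ := Real.rpow_le_rpow_of_exponent_le hp1.le (by linarith)
      calc (T.card : ℝ) * ((p : ℝ) ^ (-ε) * s.card * (2 + Real.log p) + 2 * (s.card / p)) ≤
          (5 * (p : ℝ) ^ δ) * (s.card * ((p : ℝ) ^ (-ε') * (4 + Real.log p))) :=
            mul_le_mul hTr b1 (by positivity) (by positivity)
        _ = (s.card : ℝ) * ((5 * (p : ℝ) ^ δ * ((p : ℝ) ^ (-ε') * (4 + Real.log p)) *
            Real.log p ^ 2)) / Real.log p ^ 2 := by
            field_simp
        _ ≤ (s.card : ℝ) * (p : ℝ) ^ (-δ) / Real.log p ^ 2 := by gcongr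
        _ ≤ 1 * ((s.card : ℝ) * ((L : ℝ) / p)) / Real.log p ^ 2 := by
            rw [one_mul]
            gcongr
        _ ≤ Y / Real.log p ^ 2 := by
            rw [hY]
            gcongr
    have h6 : g * Y / Real.log z ^ 2 ≤ g * (2 / δ) ^ 2 * (Y / Real.log p ^ 2) := by
      refine hup.trans (le_of_eq ?_)
      field_simp
    have hYl : 0 ≤ Y / Real.log p ^ 2 := by positivity
    calc (((prs p s v M L).filter fun x => x.2.Prime ∧ (a + d * x.2).natAbs.Prime).card : ℝ) ≤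
        3 / 2 * (g * Y / Real.log z ^ 2) + Y / Real.log p ^ 2 := by linarith [h1.2]
      _ ≤ (3 / 2 * g * (2 / δ) ^ 2 + 1) * (Y / Real.log p ^ 2) := by linarith
      _ ≤ K * (Y / Real.log p ^ 2) := mul_le_mul_of_nonneg_right hK2 hYl

end Pool.Agent.Run7.h90.AU
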