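import Pool.Agent.Run7.h90.AU.Two

/-!
# Polynomials with two roots modulo almost all primes: counts with the singular series, uniformly
-/

set_option autoImplicit false
set_option linter.all false

namespace Pool.Agent.Run7.h90.AU

open Finset Filter Topology
open Run7.h870.LI
open Pool.Agent.N825.FC (rep rep_gt rep_le rep_cast rep_unique eqd)
open Pool.Agent.Run7.h90.AP
open Pool.Agent.Y781.JR (GG GG_pos GG_mertens)
open Pool.Agent.H560R3.GB (C₂ sing)
open scoped Classical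

theorem sing_pos {E : ℕ} (hE : E ≠ 0) : 0 < sing E := by
  have h := Sz_le hE 3
  have := C₂_pos
  refine lt_of_lt_of_le ?_ h.2
  have : 0 < Sz E 3 := by linarith [h.1]
  positivity

/-- uniform asymptotics of the sieve product -/
theorem V_asym (A τ : ℝ) (hA : 0 ≤ A) (hτ : 0 < τ) : ∃ Z₀ : ℕ, 3 ≤ Z₀ ∧ ∀ z : ℕ, Z₀ ≤ z →
    ∀ (F : Polynomial ℤ) (E : ℕ), E ≠ 0 → 2 ∣ E →
    (∀ l : ℕ, l.Prime → rr (QF F) l = if l ∣ E then 1 else 2) → Real.log E ≤ A * z →
    |V F z - Real.exp (-(2 * Real.eulerMascheroniConstant)) * sing E / Real.log z ^ 2| ≤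
      τ * (Real.exp (-(2 * Real.eulerMascheroniConstant)) * sing E / Real.log z ^ 2) := by
  have hC := C₂_pos
  obtain ⟨g, hg⟩ : ∃ g : ℝ, g = Real.exp (-(2 * Real.eulerMascheroniConstant)) := ⟨_, rfl⟩
  have hg0 : 0 < g := by rw [hg]; exact Real.exp_pos _
  obtain ⟨f, hf⟩ : ∃ f : ℕ → ℝ, f = fun z => (GG (z + 1) * Real.log z) ^ 2 * Ct z := ⟨_, rfl⟩
  have hflim : Tendsto f atTop (𝓝 (g * C₂)) := by
    have h1 := (GG_mertens.pow 2).mul Ct_lim
    have e : Real.exp (-Real.eulerMascheroniConstant) ^ 2 = g := by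
      rw [hg, ← Real.exp_nat_mul]
      congr 1
      push_cast
      ring
    rw [e] at h1
    rw [hf]
    exact h1
  have hlog : Tendsto (fun z : ℕ => Real.exp (-(3 * A / Real.log z))) atTop (𝓝 1) := by
    have h1 : Tendsto (fun z : ℕ => 3 * A / Real.log z) atTop (𝓝 0) :=
      (Real.tendsto_log_atTop.comp tendsto_natCast_atTop_atTop).const_div_atTop _
    have h2 := (Real.continuous_exp.tendsto _).comp h1.neg
    rwa [neg_zero, Real.exp_zero] at h2
  have hlow := hflim.mul hlog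
  rw [mul_one] at hlow
  have hK : 0 < g * C₂ := mul_pos hg0 hC
  have e1 : ∀ᶠ z : ℕ in atTop, f z ≤ (1 + τ) * (g * C₂) :=
    (hflim.eventually (gt_mem_nhds (show g * C₂ < (1 + τ) * (g * C₂) by nlinarith))).mono
      fun z hz => le_of_lt hz
  have e2 : ∀ᶠ z : ℕ in atTop, (1 - τ) * (g * C₂) ≤ f z * Real.exp (-(3 * A / Real.log z)) :=
    (hlow.eventually (lt_mem_nhds (show (1 - τ) * (g * C₂) < g * C₂ by nlinarith))).mono
      fun z hz => le_of_lt hz
  obtain ⟨Z₀, hZ₀⟩ := eventually_atTop.1 (e1.and e2)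
  refine ⟨max Z₀ 3, le_max_right _ _, ?_⟩
  intro z hz F E hE0 hE2 hF hEA
  obtain ⟨h1, h2⟩ := hZ₀ z ((le_max_left _ _).trans hz)
  have hz3 : 3 ≤ z := (le_max_right _ _).trans hz
  have hz3' : (3 : ℝ) ≤ z := by exact_mod_cast hz3
  have hlz : 0 < Real.log z := Real.log_pos (by linarith)
  have hV := V_two hE2 hF z (by omega)
  obtain ⟨hS1, hS2⟩ := Sz_le hE0 z
  have hS3 := sing_le hE0 hz3
  have hsing := sing_pos hE0
  have hff : f z = (GG (z + 1) * Real.log z) ^ 2 * Ct z := by rw [hf]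
  have hf0 : 0 ≤ f z := by
    rw [hff]
    exact mul_nonneg (sq_nonneg _) (Ct_nonneg z)
  have hexp : Real.exp (Real.log E / (Real.log z * ((z : ℝ) - 2))) ≤ Real.exp (3 * A / Real.log z) := by
    apply Real.exp_le_exp.2
    rw [div_le_div_iff₀ (mul_pos hlz (by linarith)) hlz]
    have a1 : A * z ≤ 3 * A * ((z : ℝ) - 2) := by nlinarith
    have a2 := mul_le_mul_of_nonneg_right (hEA.trans a1) hlz.le
    linarith
  have hS4 : sing E ≤ 2 * C₂ * Sz E z * Real.exp (3 * A / Real.log z) :=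
    hS3.trans (mul_le_mul_of_nonneg_left hexp (by positivity))
  have hS5 : sing E * Real.exp (-(3 * A / Real.log z)) ≤ 2 * C₂ * Sz E z := by
    rw [Real.exp_neg, ← div_eq_mul_inv, div_le_iff₀ (Real.exp_pos _)]
    exact hS4
  have hVz : V F z * Real.log z ^ 2 * C₂ = f z * (2 * C₂ * Sz E z) := by
    rw [hV, hff]
    ring
  rw [← hg]
  obtain ⟨H, hH⟩ : ∃ H : ℝ, H = g * sing E / Real.log z ^ 2 := ⟨_, rfl⟩
  rw [← hH]
  have hHz : H * Real.log z ^ 2 * C₂ = g * C₂ * sing E := by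
    rw [hH]
    field_simp
  have hpos : 0 < Real.log z ^ 2 * C₂ := by positivity
  have u1 : V F z ≤ (1 + τ) * H := by
    refine le_of_mul_le_mul_right ?_ hpos
    calc V F z * (Real.log z ^ 2 * C₂) = f z * (2 * C₂ * Sz E z) := by rw [← hVz]; ring
      _ ≤ ((1 + τ) * (g * C₂)) * sing E := mul_le_mul h1 hS2 (by positivity) (by positivity)
      _ = (1 + τ) * (H * Real.log z ^ 2 * C₂) := by rw [hHz]; ring
      _ = _ := by ring
  have u2 : (1 - τ) * H ≤ V F z := by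
    refine le_of_mul_le_mul_right ?_ hpos
    calc (1 - τ) * H * (Real.log z ^ 2 * C₂) = (1 - τ) * (H * Real.log z ^ 2 * C₂) := by ring
      _ = ((1 - τ) * (g * C₂)) * sing E := by rw [hHz]; ring
      _ ≤ (f z * Real.exp (-(3 * A / Real.log z))) * sing E :=
          mul_le_mul_of_nonneg_right h2 hsing.le
      _ = f z * (sing E * Real.exp (-(3 * A / Real.log z))) := by ring
      _ ≤ f z * (2 * C₂ * Sz E z) := mul_le_mul_of_nonneg_left hS5 hf0
      _ = V F z * (Real.log z ^ 2 * C₂) := by rw [← hVz]; ring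
  rw [abs_le]
  constructor <;> linarith

theorem adm_of_rr {F : Polynomial ℤ} {E : ℕ} (hE : 2 ∣ E)
    (hF : ∀ l : ℕ, l.Prime → rr (QF F) l = if l ∣ E then 1 else 2) (l : ℕ) (hl : l.Prime) :
    ∃ n : ℤ, ¬ (l : ℤ) ∣ F.eval n := by
  by_contra hcon
  push Not at hcon
  have h1 := hF l hl
  unfold rr at h1
  rw [filter_true_of_mem, card_range] at h1
  · have h2 := hl.two_le
    by_cases h : l ∣ E
    · rw [if_pos h] at h1
      omega
    · rw [if_neg h] at h1
      rw [h1] at h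
      exact h hE
  · intro n _
    exact hcon n

/-- the family of the residues with small exponential sums -/
def Small (p : ℕ) [NeZero p] (ε : ℝ) {ι : Type} (s : Finset ι) (v : ι → ZMod p) : Prop :=
  ∀ ξ : ZMod p, ξ ≠ 0 → ‖∑ i ∈ s, (ZMod.stdAddChar (ξ * v i) : ℂ)‖ ≤ (p : ℝ) ^ (-ε) * s.card

/-- the pairs of an index and an integer of the interval -/
noncomputable def prs (p : ℕ) {ι : Type} (s : Finset ι) (v : ι → ZMod p) (M L : ℕ) : Finset (ι × ℕ) :=
  (s ×ˢ Ioc M (M + L)).filter fun x => ((x.2 : ℕ) : ZMod p) = v x.1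

theorem card_prs (p : ℕ) [NeZero p] {ι : Type} (s : Finset ι) (v : ι → ZMod p) (M L : ℕ) (hL : L ≤ p)
    (P : ℕ → Prop) : ((prs p s v M L).filter fun x => P x.2).card =
      ((s.filter fun i => rep (M : ℤ) (v i) ≤ M + L).filter fun i => P (rep (M : ℤ) (v i)).toNat).card := by
  symm
  apply card_bij (fun i _ => (i, (rep (M : ℤ) (v i)).toNat))
  · intro i hi
    rw [mem_filter, mem_filter] at hi
    have h2 := rep_gt (M : ℤ) (v i)
    unfold prs
    rw [mem_filter, mem_filter, mem_product, mem_Ioc]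
    refine ⟨⟨⟨hi.1.1, by omega, by omega⟩, ?_⟩, hi.2⟩
    obtain ⟨m, hm⟩ : ∃ m : ℕ, rep (M : ℤ) (v i) = m :=
      ⟨(rep (M : ℤ) (v i)).toNat, (Int.toNat_of_nonneg (by omega)).symm⟩
    have hc := rep_cast (M : ℤ) (v i)
    rw [hm, Int.cast_natCast] at hc
    rw [hm, Int.toNat_natCast]
    exact hc
  · intro i _ j _ h
    exact (Prod.ext_iff.1 h).1
  · intro x hx
    unfold prs at hx
    rw [mem_filter, mem_filter, mem_product, mem_Ioc] at hx
    obtain ⟨⟨⟨h1, h2, h3⟩, h4⟩, h5⟩ := hx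
    have h6 : rep (M : ℤ) (v x.1) = (x.2 : ℤ) := by
      symm
      apply rep_unique
      · exact_mod_cast h2
      · have : x.2 ≤ M + p := by omega
        exact_mod_cast this
      · rw [← h4]
        simp
    refine ⟨x.1, ?_, ?_⟩
    · rw [mem_filter, mem_filter, h6]
      refine ⟨⟨h1, by exact_mod_cast h3⟩, ?_⟩
      rw [Int.toNat_natCast]
      exact h5
    · rw [h6, Int.toNat_natCast]

/-- the main term -/
noncomputable def X₂ (p : ℕ) (K : ℝ) (L E : ℕ) (y : ℝ) : ℝ :=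
  Real.exp (-(2 * Real.eulerMascheroniConstant)) * sing E * (K * ((L : ℝ) / p)) / y ^ 2

/-- **The count** of the members free of small prime factors. -/
theorem pair_count (ε A : ℝ) (hε : 0 < ε) (hA : 0 ≤ A) : ∃ δ : ℝ, 0 < δ ∧ δ ≤ ε / 8 ∧ δ ≤ 1 / 8 ∧
    ∀ b : ℕ, 1 ≤ b → ∃ P₀ : ℝ, ∀ (p : ℕ) [Fact p.Prime], P₀ ≤ p → ∀ (F : Polynomial ℤ) (E : ℕ),
      F.natDegree ≤ 2 → E ≠ 0 → 2 ∣ E → (E : ℝ) ≤ (p : ℝ) ^ A →
      (∀ l : ℕ, l.Prime → rr (QF F) l = if l ∣ E then 1 else 2) →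
      ∀ (ι : Type) (s : Finset ι) (v : ι → ZMod p), Small p ε s v →
      ∀ M L z : ℕ, (p : ℝ) ^ (1 - δ) ≤ L → L ≤ p → Real.log p ≤ z → (z : ℝ) ≤ (p : ℝ) ^ (δ / b) →
      |((((prs p s v M L).filter fun x => ∀ l : ℕ, l.Prime → l ≤ z → ¬ QF F l x.2).card : ℕ) : ℝ) -
        X₂ p s.card L E (Real.log z)| ≤ (1 / 2) ^ b * X₂ p s.card L E (Real.log z) := by
  obtain ⟨δ₀, hδ₀, hδ₀ε, hδ₀8, H⟩ := fundU 2 ε hε
  refine ⟨δ₀ / 3, by positivity, by linarith, by linarith, ?_⟩
  intro b hb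
  obtain ⟨x, hx⟩ : ∃ x : ℝ, x = (1 / 2) ^ (b + 2) := ⟨_, rfl⟩
  have hx0 : 0 < x := by rw [hx]; positivity
  have hx1 : x ≤ 1 := by rw [hx]; exact pow_le_one₀ (by norm_num) (by norm_num)
  have hx2 : (1 / 2 : ℝ) ^ b = 4 * x := by rw [hx, pow_add]; ring
  obtain ⟨P₁, H⟩ := H (b + 2) (by omega)
  obtain ⟨Z₀, hZ3, hZ⟩ := V_asym A x hA hx0
  refine ⟨max P₁ (Real.exp Z₀), ?_⟩
  intro p hp hpP F E hdeg hE0 hE2 hEA hF ι s v hv M L z hL1 hL2 hz1 hz2
  have hpp : p.Prime := Fact.out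
  have hp0 : (0 : ℝ) < p := by exact_mod_cast hpp.pos
  have hp1 : (1 : ℝ) ≤ p := by exact_mod_cast hpp.one_le
  have hzZ : Z₀ ≤ z := by
    have h1 : (Z₀ : ℝ) ≤ Real.log p := by
      rw [← Real.log_exp (Z₀ : ℝ)]
      exact Real.log_le_log (Real.exp_pos _) ((le_max_right _ _).trans hpP)
    exact_mod_cast h1.trans hz1
  have hb1 : (1 : ℝ) ≤ b := by exact_mod_cast hb
  have hElog : Real.log E ≤ A * z := by
    have hE1 : (0 : ℝ) < E := by
      have : 0 < E := Nat.pos_of_ne_zero hE0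
      exact_mod_cast this
    calc Real.log E ≤ Real.log ((p : ℝ) ^ A) := Real.log_le_log hE1 hEA
      _ = A * Real.log p := Real.log_rpow hp0 _
      _ ≤ _ := mul_le_mul_of_nonneg_left hz1 hA
  have h1 := H p ((le_max_left _ _).trans hpP) F hdeg (adm_of_rr hE2 hF) ι s v hv M L z
    ((Real.rpow_le_rpow_of_exponent_le hp1 (by linarith)).trans hL1) hL2 (by omega)
    (hz2.trans (Real.rpow_le_rpow_of_exponent_le hp1 (by
      push_cast
      rw [div_div, div_le_div_iff₀ (by positivity) (by positivity)]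
      nlinarith)))
  have h2 := hZ z hzZ F E hE0 hE2 hF hElog
  have hcard : ((prs p s v M L).filter fun x => ∀ l : ℕ, l.Prime → l ≤ z → ¬ QF F l x.2).card =
      ((s.filter fun i => rep (M : ℤ) (v i) ≤ M + L).filter fun i =>
          ∀ l ∈ (range (z + 1)).filter Nat.Prime, ¬ QF F l (rep (M : ℤ) (v i)).toNat).card := by
    have hcp := card_prs p s v M L hL2 (fun n => ∀ l : ℕ, l.Prime → l ≤ z → ¬ QF F l n)
    rw [hcp]
    congr 1
    ext i
    simp only [mem_filter, mem_range]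
    constructor
    · rintro ⟨h3, h4⟩
      exact ⟨h3, fun l hl => h4 l hl.2 (by omega)⟩
    · rintro ⟨h3, h4⟩
      exact ⟨h3, fun l hl hlz => h4 l ⟨by omega, hl⟩⟩
  rw [hcard]
  rw [← hx] at h1
  rw [hx2]
  obtain ⟨Y, hY⟩ : ∃ Y : ℝ, Y = s.card * ((L : ℝ) / p) := ⟨_, rfl⟩
  have hY0 : 0 ≤ Y := by rw [hY]; positivity
  obtain ⟨G, hG⟩ : ∃ G : ℝ, G = Real.exp (-(2 * Real.eulerMascheroniConstant)) * sing E /
    Real.log z ^ 2 := ⟨_, rfl⟩
  have hG0 : 0 ≤ G := by
    rw [hG]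
    have := (sing_pos hE0).le
    positivity
  have hX : X₂ p s.card L E (Real.log z) = Y * G := by
    unfold X₂
    rw [hY, hG]
    ring
  rw [hX]
  rw [← hY] at h1
  rw [← hG] at h2
  rw [abs_le] at h1 h2 ⊢
  have hYG : 0 ≤ Y * G := mul_nonneg hY0 hG0
  have a1 : Y * V F z ≤ Y * (G + x * G) := mul_le_mul_of_nonneg_left (by linarith [h2.2]) hY0
  have a2 : Y * (G - x * G) ≤ Y * V F z := mul_le_mul_of_nonneg_left (by linarith [h2.1]) hY0
  have a3 : x * (Y * V F z) ≤ x * (Y * (G + x * G)) := mul_le_mul_of_nonneg_left a1 hx0.le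
  have a4 : x * (x * (Y * G)) ≤ 1 * (x * (Y * G)) := mul_le_mul_of_nonneg_right hx1 (by positivity)
  constructor
  · nlinarith [h1.1]
  · nlinarith [h1.2]

/-- few indices with a given value -/
theorem mult (p : ℕ) [Fact p.Prime] {ι : Type} (s : Finset ι) (v : ι → ZMod p) (ε : ℝ)
    (hv : Small p ε s v) (t : ZMod p) : ((s.filter fun i => v i = t).card : ℝ) ≤
      (p : ℝ) ^ (-ε) * s.card * (2 + Real.log p) + 2 * (s.card / p) := by
  have hpp : p.Prime := Fact.out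
  have h := classesF p s v ((p : ℝ) ^ (-ε) * s.card) (by positivity) hv (t.val + (p - 1)) 1
    hpp.one_le 1 le_rfl (Nat.coprime_one_right _) 0 (by norm_num)
  have e : ((s.filter fun i => rep ((t.val + (p - 1) : ℕ) : ℤ) (v i) ≤ ((t.val + (p - 1) : ℕ) : ℤ) +
      ((1 : ℕ) : ℤ)).filter fun i => (rep ((t.val + (p - 1) : ℕ) : ℤ) (v i)).toNat % 1 = 0) =
      s.filter fun i => v i = t := by
    rw [filter_filter]
    apply filter_congr
    intro i _
    have h2 := rep_gt ((t.val + (p - 1) : ℕ) : ℤ) (v i)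
    have hc := rep_cast ((t.val + (p - 1) : ℕ) : ℤ) (v i)
    have ht : ((((t.val + (p - 1) : ℕ) : ℤ) + 1 : ℤ) : ZMod p) = t := by
      have h3 : (((t.val + (p - 1) : ℕ) : ℤ) + 1 : ℤ) = ((t.val + p : ℕ) : ℤ) := by
        have := hpp.one_le
        push_cast [Nat.cast_sub this]
        ring
      rw [h3, Int.cast_natCast, Nat.cast_add, ZMod.natCast_self, add_zero, ZMod.natCast_zmod_val]
    constructor
    · rintro ⟨h4, _⟩
      have h5 : rep ((t.val + (p - 1) : ℕ) : ℤ) (v i) = ((t.val + (p - 1) : ℕ) : ℤ) + 1 := by omega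
      rw [h5, ht] at hc
      exact hc.symm
    · intro h4
      refine ⟨?_, Nat.mod_one _⟩
      have h5 : ((t.val + (p - 1) : ℕ) : ℤ) + 1 = rep ((t.val + (p - 1) : ℕ) : ℤ) (v i) := by
        apply rep_unique
        · omega
        · have := hpp.one_le
          omega
        · rw [ht, h4]
      rw [← h5]
      norm_num
  rw [e] at h
  have h1 := (abs_le.1 h).2
  push_cast at h1
  have e2 : (s.card : ℝ) * (1 / (p : ℝ)) / 1 = s.card / p := by ring
  rw [e2] at h1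
  linarith

/-- few indices with a value in a given set of integers -/
theorem mults (p : ℕ) [Fact p.Prime] {ι : Type} (s : Finset ι) (v : ι → ZMod p) (ε : ℝ)
    (hv : Small p ε s v) (M L : ℕ) (hL : L ≤ p) (T : Finset ℕ) :
    (((prs p s v M L).filter fun x => x.2 ∈ T).card : ℝ) ≤
      T.card * ((p : ℝ) ^ (-ε) * s.card * (2 + Real.log p) + 2 * (s.card / p)) := by
  have h1 : ((prs p s v M L).filter fun x => x.2 ∈ T) ⊆
      T.biUnion fun t => (s.filter fun i => v i = (t : ZMod p)).image fun i => (i, t) := by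
    intro x hx
    unfold prs at hx
    rw [mem_filter, mem_filter, mem_product] at hx
    rw [mem_biUnion]
    refine ⟨x.2, hx.2, ?_⟩
    rw [mem_image]
    exact ⟨x.1, mem_filter.2 ⟨hx.1.1.1, hx.1.2.symm⟩, rfl⟩
  calc (((prs p s v M L).filter fun x => x.2 ∈ T).card : ℝ) ≤
      ((T.biUnion fun t => (s.filter fun i => v i = (t : ZMod p)).image fun i => (i, t)).card : ℝ) := by
        exact_mod_cast card_le_card h1
    _ ≤ ((∑ t ∈ T, ((s.filter fun i => v i = (t : ZMod p)).image fun i => (i, t)).card : ℕ) : ℝ) := by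
        exact_mod_cast card_biUnion_le
    _ ≤ ((∑ t ∈ T, (s.filter fun i => v i = (t : ZMod p)).card : ℕ) : ℝ) := by
        exact_mod_cast sum_le_sum fun t _ => card_image_le
    _ = ∑ t ∈ T, ((s.filter fun i => v i = (t : ZMod p)).card : ℝ) := by push_cast; rfl
    _ ≤ ∑ _t ∈ T, ((p : ℝ) ^ (-ε) * s.card * (2 + Real.log p) + 2 * (s.card / p)) :=
        sum_le_sum fun t _ => mult p s v ε hv _
    _ = _ := by rw [sum_const, nsmul_eq_mul]

end Pool.Agent.Run7.h90.AU
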