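import Pool.Agent.Run7.h90.AU.QuadV

/-!
# The solutions of `d ^ 2 - 8 b ^ 2 = 1` modulo a prime
-/

set_option autoImplicit false
set_option linter.all false

namespace Pool.Agent.Run7.h90.AU

open Finset Filter Topology
open scoped Classical

/-- The solutions `(d, b)` of `d ^ 2 - 8 b ^ 2 = 1` given by `d + b √8 = (3 + √8) ^ j`. -/
def pell : ℕ → ℤ × ℤ
  | 0 => (1, 0)
  | j + 1 => (3 * (pell j).1 + 8 * (pell j).2, (pell j).1 + 3 * (pell j).2)

theorem pell_succ (j : ℕ) : pell (j + 1) = (3 * (pell j).1 + 8 * (pell j).2, (pell j).1 + 3 * (pell j).2) := rfl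

theorem pell_eq (j : ℕ) : (pell j).1 ^ 2 = 8 * (pell j).2 ^ 2 + 1 := by
  induction j with
  | zero => norm_num [pell]
  | succ j ih =>
    rw [pell_succ]
    simp only
    linear_combination ih

theorem pell_number (j : ℕ) : 8 * (pell j).1 ^ 2 + 1 = 64 * (pell j).2 ^ 2 + 9 := by
  rw [pell_eq]
  ring

theorem pell_plus {R : Type} [CommRing R] (s : R) (hs : s ^ 2 = 8) (j : ℕ) :
    ((pell j).1 : R) + (pell j).2 * s = (3 + s) ^ j := by
  induction j with
  | zero => simp [pell]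
  | succ j ih =>
    rw [pell_succ, pow_succ, ← ih]
    push_cast
    linear_combination (-((pell j).2 : R)) * hs

theorem pell_minus {R : Type} [CommRing R] (s : R) (hs : s ^ 2 = 8) (j : ℕ) :
    ((pell j).1 : R) - (pell j).2 * s = (3 - s) ^ j := by
  have h := pell_plus (-s) (by rw [neg_sq, hs]) j
  linear_combination h

/-- The residues modulo a large prime `p` of the numbers `8 d ^ 2 + 1 = 64 b ^ 2 + 9`, of `d` and of `b`, `(d, b)` running
through the first `N ≥ p ^ η` solutions of `d ^ 2 - 8 b ^ 2 = 1`, have small exponential sums if `8` has a square root `s`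
modulo `p` for which the order of `3 + s` is at least `p ^ η`. -/
def PellSmall : Prop :=
  ∀ η : ℝ, 0 < η → ∃ ε : ℝ, 0 < ε ∧ ∃ P₀ : ℕ, ∀ (p : ℕ) [Fact p.Prime], P₀ ≤ p → ∀ (s : ZMod p) (N : ℕ),
    s ^ 2 = 8 → (p : ℝ) ^ η ≤ orderOf (3 + s) → (p : ℝ) ^ η ≤ N →
    SmallSums p ε (range N) (fun j => ((8 * (pell j).1 ^ 2 + 1 : ℤ) : ZMod p)) ∧
    SmallSums p ε (range N) (fun j => ((pell j).1 : ZMod p)) ∧
    SmallSums p ε (range N) (fun j => ((pell j).2 : ZMod p))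

/-- The number of the odd primes `p ≤ x` for which some square root `s` of `8` modulo `p` is such that the order of `3 + s`
is smaller than `p ^ η` is at most `2 x ^ (2 η)`. -/
def FewExceptions : Prop :=
  ∀ (η : ℝ) (x : ℕ), 0 < η → ((((Ioc 2 x).filter fun p : ℕ => p.Prime ∧
    ∃ s : ZMod p, s ^ 2 = 8 ∧ (orderOf (3 + s) : ℝ) < (p : ℝ) ^ η).card : ℕ) : ℝ) ≤ 2 * (x : ℝ) ^ (2 * η)

theorem order_pow_ge {G : Type} [Group G] [Finite G] (u : G) (k : ℕ) (hk : 0 < k) :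
    orderOf u ≤ k * orderOf (u ^ k) := by
  apply Nat.le_of_dvd (Nat.mul_pos hk (orderOf_pos _))
  apply orderOf_dvd_of_pow_eq_one
  rw [pow_mul, pow_orderOf_eq_one]

theorem pell_small : PellSmall := by
  intro η hη
  obtain ⟨ε, hε, P₁, H⟩ := rec_small 2 (η / 2) (by positivity)
  obtain ⟨P₂, hP₂⟩ := eventually_atTop.1 ((tendsto_rpow_atTop (show (0 : ℝ) < η / 2 by positivity)).eventually_ge_atTop 4)
  refine ⟨ε, hε, max P₁ (max ⌈P₂⌉₊ 11), ?_⟩
  intro p hp hpP s N hs hord hN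
  have hp1 : P₁ ≤ p := (le_max_left _ _).trans hpP
  have hp2 : ⌈P₂⌉₊ ≤ p := (le_max_left _ _).trans ((le_max_right _ _).trans hpP)
  have hp11 : 11 ≤ p := (le_max_right _ _).trans ((le_max_right _ _).trans hpP)
  have h4 : (4 : ℝ) ≤ (p : ℝ) ^ (η / 2) := hP₂ p ((Nat.le_ceil _).trans (by exact_mod_cast hp2))
  have hp0 : (0 : ℝ) < p := by
    have : (11 : ℝ) ≤ p := by exact_mod_cast hp11
    linarith
  have hsplit : (p : ℝ) ^ η = (p : ℝ) ^ (η / 2) * (p : ℝ) ^ (η / 2) := by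
    rw [← Real.rpow_add hp0]
    congr 1
    ring
  have hNN : (p : ℝ) ^ (η / 2) ≤ N := by
    refine le_trans ?_ hN
    rw [hsplit]
    nlinarith
  have hmul : (3 + s) * (3 - s) = 1 := by
    linear_combination -hs
  obtain ⟨u, hu⟩ : ∃ u : (ZMod p)ˣ, u = ⟨3 + s, 3 - s, hmul, by rw [mul_comm]; exact hmul⟩ := ⟨_, rfl⟩
  have hu1 : (u : ZMod p) = 3 + s := by rw [hu]
  have hu2 : ((u⁻¹ : (ZMod p)ˣ) : ZMod p) = 3 - s := by rw [hu]; rfl
  have ho : (p : ℝ) ^ η ≤ orderOf u := by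
    rw [← orderOf_units, hu1]
    exact hord
  have hk : ∀ k : ℕ, 0 < k → k ≤ 4 → (p : ℝ) ^ (η / 2) ≤ orderOf (u ^ k) := by
    intro k h1 h2
    have h3 : (orderOf u : ℝ) ≤ k * orderOf (u ^ k) := by exact_mod_cast order_pow_ge u k h1
    have h5 : (k : ℝ) ≤ 4 := by exact_mod_cast h2
    have h6 : (0 : ℝ) ≤ orderOf (u ^ k) := Nat.cast_nonneg _
    have h7 : (p : ℝ) ^ (η / 2) * (p : ℝ) ^ (η / 2) ≤ 4 * orderOf (u ^ k) := by
      rw [← hsplit]
      calc (p : ℝ) ^ η ≤ orderOf u := ho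
        _ ≤ k * orderOf (u ^ k) := h3
        _ ≤ _ := mul_le_mul_of_nonneg_right h5 h6
    nlinarith
  have h2ne : (2 : ZMod p) ≠ 0 := by
    intro h
    have h1 : ((2 : ℕ) : ZMod p) = 0 := by exact_mod_cast h
    rw [ZMod.natCast_eq_zero_iff] at h1
    have := Nat.le_of_dvd (by norm_num) h1
    omega
  have h8ne : s ≠ 0 := by
    intro h
    rw [h] at hs
    have h1 : ((8 : ℕ) : ZMod p) = 0 := by
      push_cast
      rw [← hs]
      ring
    rw [ZMod.natCast_eq_zero_iff] at h1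
    have := Nat.le_of_dvd (by norm_num) h1
    omega
  have key : ∀ (c : Fin 2 → ZMod p) (k : ℕ), 0 < k → k ≤ 2 → c ≠ 0 →
      SmallSums p ε (range N) (fun n => ∑ i, c i * (((![u ^ k, (u ^ k)⁻¹] : Fin 2 → (ZMod p)ˣ) i : ZMod p)) ^ n) := by
    intro c k h1 h2 hc
    have h3 := hk k h1 (by omega)
    have h5 : (p : ℝ) ^ (η / 2) ≤ orderOf (u ^ (2 * k)) := hk (2 * k) (by omega) (by omega)
    refine H p hp1 c _ N hc ?_ ?_ hNN
    · intro j
      fin_cases j
      · exact h3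
      · show (p : ℝ) ^ (η / 2) ≤ orderOf ((u ^ k)⁻¹)
        rw [orderOf_inv]
        exact h3
    · intro i j hij
      have e1 : u ^ k / (u ^ k)⁻¹ = u ^ (2 * k) := by
        rw [div_inv_eq_mul, ← pow_add]
        congr 1
        omega
      have e2 : (u ^ k)⁻¹ / u ^ k = (u ^ (2 * k))⁻¹ := by
        rw [← e1, inv_div]
      fin_cases i <;> fin_cases j
      · exact absurd rfl hij
      · show (p : ℝ) ^ (η / 2) ≤ orderOf (u ^ k / (u ^ k)⁻¹)
        rw [e1]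
        exact h5
      · show (p : ℝ) ^ (η / 2) ≤ orderOf ((u ^ k)⁻¹ / u ^ k)
        rw [e2, orderOf_inv]
        exact h5
      · exact absurd rfl hij
  have hplus := fun j => pell_plus s hs j
  have hminus := fun j => pell_minus s hs j
  have hd : ∀ j : ℕ, ((pell j).1 : ZMod p) = 2⁻¹ * (3 + s) ^ j + 2⁻¹ * (3 - s) ^ j := by
    intro j
    rw [← hplus j, ← hminus j]
    field_simp
    ring
  have hb : ∀ j : ℕ, ((pell j).2 : ZMod p) = (2 * s)⁻¹ * (3 + s) ^ j + (-(2 * s)⁻¹) * (3 - s) ^ j := by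
    intro j
    rw [← hplus j, ← hminus j]
    field_simp
    ring
  refine ⟨?_, ?_, ?_⟩
  · have h1 := key ![2, 2] 2 (by norm_num) le_rfl (by
      intro h
      exact h2ne (congrFun h 0))
    have h2 := small_affine h1 (one_ne_zero) 5
    convert h2 using 2 with j
    simp only [Fin.sum_univ_two, Matrix.cons_val_zero, Matrix.cons_val_one, Units.val_pow_eq_pow_val]
    have e3 : (((u ^ 2)⁻¹ : (ZMod p)ˣ) : ZMod p) = (3 - s) ^ 2 := by
      rw [← inv_pow, Units.val_pow_eq_pow_val, hu2]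
    have e4 : ((3 + s) ^ j * (3 - s) ^ j : ZMod p) = 1 := by
      rw [← mul_pow, hmul, one_pow]
    try simp only [Matrix.cons_val_fin_one]
    rw [e3, hu1]
    push_cast
    rw [hd j]
    have e5 : ((3 + s) ^ 2) ^ j = ((3 + s) ^ j) ^ 2 := by rw [← pow_mul, ← pow_mul, mul_comm]
    have e6 : ((3 - s) ^ 2) ^ j = ((3 - s) ^ j) ^ 2 := by rw [← pow_mul, ← pow_mul, mul_comm]
    rw [e5, e6]
    have e7 : (2 : ZMod p) * 2⁻¹ = 1 := mul_inv_cancel₀ h2ne
    obtain ⟨a, ha⟩ : ∃ a, a = (3 + s) ^ j := ⟨_, rfl⟩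
    obtain ⟨b, hb'⟩ : ∃ b, b = (3 - s) ^ j := ⟨_, rfl⟩
    rw [← ha, ← hb'] at e4 ⊢
    obtain ⟨h, hh⟩ : ∃ h, h = (2 : ZMod p)⁻¹ := ⟨_, rfl⟩
    rw [← hh] at e7 ⊢
    linear_combination (4 * (a ^ 2 + b ^ 2 + 2 * a * b) * h + 2 * (a ^ 2 + b ^ 2 + 2 * a * b)) * e7 + 4 * e4
  · have h1 := key ![2⁻¹, 2⁻¹] 1 (by norm_num) (by norm_num) (by
      intro h
      exact (inv_ne_zero h2ne) (congrFun h 0))
    convert h1 using 2 with j
    simp only [Fin.sum_univ_two, Matrix.cons_val_zero, Matrix.cons_val_one, pow_one]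
    try simp only [Matrix.cons_val_fin_one]
    rw [hu1, hu2, hd j]
  · have h1 := key ![(2 * s)⁻¹, -(2 * s)⁻¹] 1 (by norm_num) (by norm_num) (by
      intro h
      exact (inv_ne_zero (mul_ne_zero h2ne h8ne)) (congrFun h 0))
    convert h1 using 2 with j
    simp only [Fin.sum_univ_two, Matrix.cons_val_zero, Matrix.cons_val_one, pow_one]
    try simp only [Matrix.cons_val_fin_one]
    rw [hu1, hu2, hb j]

theorem pell_bound (m : ℕ) : 1 ≤ (pell (m + 1)).2 ∧ (pell (m + 1)).2 ≤ 6 ^ m ∧ 8 * (pell (m + 1)).2 ≤ 3 * (pell (m + 1)).1 ∧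
    (pell (m + 1)).1 ≤ 3 * 6 ^ m := by
  induction m with
  | zero => norm_num [pell]
  | succ m ih =>
    obtain ⟨h1, h2, h3, h4⟩ := ih
    rw [pell_succ (m + 1)]
    simp only
    have h5 : (6 : ℤ) ^ (m + 1) = 6 * 6 ^ m := by rw [pow_succ]; ring
    rw [h5]
    refine ⟨by linarith, by linarith, by linarith, by linarith⟩

theorem few_exceptions : FewExceptions := by
  intro η x hη
  obtain ⟨T, hT⟩ : ∃ T : ℕ, T = ⌊(x : ℝ) ^ η⌋₊ := ⟨_, rfl⟩
  have hTx : (T : ℝ) ≤ (x : ℝ) ^ η := by rw [hT]; exact Nat.floor_le (by positivity)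
  obtain ⟨B, hB⟩ : ∃ B : ℕ, B = ∏ m ∈ range T, ((pell (m + 1)).2).natAbs := ⟨_, rfl⟩
  have hpos : ∀ m : ℕ, 0 < ((pell (m + 1)).2).natAbs := by
    intro m
    have := (pell_bound m).1
    omega
  have hB0 : B ≠ 0 := by
    rw [hB]
    exact (prod_pos fun m _ => hpos m).ne'
  have hBle : B ≤ 2 ^ (3 * ∑ m ∈ range T, m) := by
    rw [hB, mul_sum, ← prod_pow_eq_pow_sum]
    apply prod_le_prod' fun m _ => ?_
    have h1 := (pell_bound m).2.1
    have h2 := (pell_bound m).1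
    have h3 : (((pell (m + 1)).2).natAbs : ℤ) ≤ 6 ^ m := by
      rw [Int.natAbs_of_nonneg (by linarith)]
      exact h1
    have h4 : ((pell (m + 1)).2).natAbs ≤ 6 ^ m := by exact_mod_cast h3
    calc ((pell (m + 1)).2).natAbs ≤ 6 ^ m := h4
      _ ≤ 8 ^ m := Nat.pow_le_pow_left (by norm_num) m
      _ = 2 ^ (3 * m) := by rw [pow_mul]; norm_num
  have hsub : ((Ioc 2 x).filter fun p : ℕ => p.Prime ∧
      ∃ s : ZMod p, s ^ 2 = 8 ∧ (orderOf (3 + s) : ℝ) < (p : ℝ) ^ η) ⊆ B.primeFactors := by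
    intro p hp
    rw [mem_filter, mem_Ioc] at hp
    obtain ⟨⟨hp2, hpx⟩, hpp, s, hs, hord⟩ := hp
    haveI : Fact p.Prime := ⟨hpp⟩
    rw [Nat.mem_primeFactors]
    refine ⟨hpp, ?_, hB0⟩
    have hmul : (3 + s) * (3 - s) = 1 := by
      linear_combination -hs
    obtain ⟨u, hu⟩ : ∃ u : (ZMod p)ˣ, u = ⟨3 + s, 3 - s, hmul, by rw [mul_comm]; exact hmul⟩ := ⟨_, rfl⟩
    have hu1 : (u : ZMod p) = 3 + s := by rw [hu]
    have ho : orderOf (3 + s) = orderOf u := by rw [← orderOf_units, hu1]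
    have ht0 : 0 < orderOf (3 + s) := by rw [ho]; exact orderOf_pos u
    obtain ⟨t, ht⟩ : ∃ t, t = orderOf (3 + s) := ⟨_, rfl⟩
    rw [← ht] at ht0 hord
    have h1 : (3 + s) ^ t = 1 := by rw [ht]; exact pow_orderOf_eq_one _
    have h2 : (3 - s) ^ t = 1 := by
      have h3 : (3 + s) ^ t * (3 - s) ^ t = 1 := by rw [← mul_pow, hmul, one_pow]
      rw [h1, one_mul] at h3
      exact h3
    have h3 := pell_plus s hs t
    have h4 := pell_minus s hs t
    rw [h1] at h3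
    rw [h2] at h4
    have h2ne : (2 : ZMod p) ≠ 0 := by
      intro h
      have h1 : ((2 : ℕ) : ZMod p) = 0 := by exact_mod_cast h
      rw [ZMod.natCast_eq_zero_iff] at h1
      have := Nat.le_of_dvd (by norm_num) h1
      omega
    have h8ne : s ≠ 0 := by
      intro h
      rw [h] at hs
      have h1 : (2 : ZMod p) ^ 3 = 0 := by
        calc (2 : ZMod p) ^ 3 = 8 := by norm_num
          _ = 0 ^ 2 := hs.symm
          _ = 0 := by ring
      exact h2ne (pow_eq_zero_iff (by norm_num) |>.1 h1)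
    have h5 : ((pell t).2 : ZMod p) * (2 * s) = 0 := by linear_combination h3 - h4
    have h6 : ((pell t).2 : ZMod p) = 0 := by
      rcases mul_eq_zero.1 h5 with h | h
      · exact h
      · exact absurd h (mul_ne_zero h2ne h8ne)
    have h7 : (p : ℤ) ∣ (pell t).2 := (ZMod.intCast_zmod_eq_zero_iff_dvd _ _).1 h6
    have h8 : t ≤ T := by
      rw [hT]
      apply Nat.le_floor
      refine hord.le.trans ?_
      exact Real.rpow_le_rpow (Nat.cast_nonneg _) (by exact_mod_cast hpx) hη.le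
    have h9 : p ∣ ((pell t).2).natAbs := Int.natCast_dvd.1 h7
    obtain ⟨m, rfl⟩ : ∃ m, t = m + 1 := ⟨t - 1, by omega⟩
    rw [hB]
    exact h9.trans (dvd_prod_of_mem (fun m => ((pell (m + 1)).2).natAbs) (mem_range.2 (by omega)))
  have hc1 := card_le_card hsub
  have hc2 : 2 ^ B.primeFactors.card ≤ 2 ^ (3 * ∑ m ∈ range T, m) := by
    refine le_trans ?_ hBle
    calc 2 ^ B.primeFactors.card = ∏ _q ∈ B.primeFactors, 2 := by rw [prod_const]
      _ ≤ ∏ q ∈ B.primeFactors, q := prod_le_prod' fun q hq => (Nat.prime_of_mem_primeFactors hq).two_le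
      _ ≤ B := Nat.le_of_dvd (Nat.pos_of_ne_zero hB0) (Nat.prod_primeFactors_dvd B)
  have hc3 := (Nat.pow_le_pow_iff_right (by norm_num : 1 < 2)).1 hc2
  have hc4 : (∑ m ∈ range T, m) * 2 = T * (T - 1) := Finset.sum_range_id_mul_two T
  have hc5 : T * (T - 1) ≤ T * T := Nat.mul_le_mul_left _ (Nat.sub_le _ _)
  have hc6 : ((Ioc 2 x).filter fun p : ℕ => p.Prime ∧
      ∃ s : ZMod p, s ^ 2 = 8 ∧ (orderOf (3 + s) : ℝ) < (p : ℝ) ^ η).card ≤ 2 * (T * T) := by
    omega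
  have hc7 : ((((Ioc 2 x).filter fun p : ℕ => p.Prime ∧
      ∃ s : ZMod p, s ^ 2 = 8 ∧ (orderOf (3 + s) : ℝ) < (p : ℝ) ^ η).card : ℕ) : ℝ) ≤ 2 * (T * T) := by
    exact_mod_cast hc6
  refine hc7.trans ?_
  have hx0 : (0 : ℝ) ≤ x := Nat.cast_nonneg _
  have e : (x : ℝ) ^ (2 * η) = (x : ℝ) ^ η * (x : ℝ) ^ η := by
    rw [mul_comm 2 η, Real.rpow_mul hx0, Real.rpow_two, sq]
  rw [e]
  have hT0 : (0 : ℝ) ≤ T := Nat.cast_nonneg _
  exact mul_le_mul_of_nonneg_left (mul_le_mul hTx hTx hT0 (hT0.trans hTx)) (by norm_num)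

end Pool.Agent.Run7.h90.AU
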