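import Pool.Agent.Run7.h90.AU.Cnt
import Pool.Agent.TH464.PO.Sing2
import Pool.Agent.TH464.PO.Comb

/-!
# The Poisson law for rough numbers in the residue classes of thin families
-/

set_option autoImplicit false
set_option linter.all false

namespace Pool.Agent.Run7.h90.AU

open Finset Filter Topology
open Pool.Agent.H373R2.T7 (nuB PerB pz)
open Pool.Agent.W123.RP (Vq)
open Pool.Agent.W123.RU (CoG)
open Pool.Agent.TH464.PO (QH sing_avg law_tv poisson_tail)
open Pool.Agent.Y781.JR (GG GG_pos GG_mertens)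
open scoped Classical

theorem enumerate {ι : Type} (s : Finset ι) (hs : s.Nonempty) :
    ∃ f : ℕ → ι, Set.BijOn f (range s.card : Finset ℕ) (s : Set ι) := by
  obtain ⟨i₀, hi₀⟩ := hs
  refine ⟨fun n => if h : n < s.card then (s.equivFin.symm ⟨n, h⟩ : ι) else i₀, ?_, ?_, ?_⟩
  · intro n hn
    rw [mem_coe, mem_range] at hn
    simp only [dif_pos hn]
    exact (s.equivFin.symm ⟨n, hn⟩).2
  · intro a ha b hb hab
    rw [mem_coe, mem_range] at ha hb
    simp only [dif_pos ha, dif_pos hb] at hab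
    have h1 := s.equivFin.symm.injective (Subtype.ext hab)
    exact Fin.mk.inj_iff.1 h1
  · intro i hi
    refine ⟨(s.equivFin ⟨i, hi⟩).1, ?_, ?_⟩
    · rw [mem_coe, mem_range]
      exact (s.equivFin ⟨i, hi⟩).2
    · simp only [dif_pos (s.equivFin ⟨i, hi⟩).2, Fin.eta, Equiv.symm_apply_apply]

/-- from moments to the law, for families -/
theorem law_tv' (x0 ε : ℝ) (hx0 : 0 ≤ x0) (hε : 0 < ε) : ∃ (R : ℕ) (η : ℝ), 0 < η ∧
    ∀ (ι : Type) (s : Finset ι) (N : ι → ℕ) (x : ℝ), 0 ≤ x → x ≤ x0 →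
    (∀ k ≤ R, |∑ i ∈ s, ((N i).choose k : ℝ) - s.card * (x ^ k / k.factorial)| ≤ η * s.card) →
    ∀ A : Finset ℕ, |((s.filter (fun i => N i ∈ A)).card : ℝ) -
      s.card * ∑ j ∈ A, Real.exp (-x) * x ^ j / j.factorial| ≤ ε * s.card := by
  obtain ⟨R, η, hη, h⟩ := law_tv x0 ε hx0 hε
  refine ⟨R, η, hη, ?_⟩
  intro ι s N x hx hxx hk A
  rcases s.eq_empty_or_nonempty with rfl | hs
  · simp
  obtain ⟨f, hf⟩ := enumerate s hs
  have tr : ∀ g : ι → ℝ, ∑ n ∈ range s.card, g (f n) = ∑ i ∈ s, g i := by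
    intro g
    refine sum_nbij f ?_ ?_ ?_ fun _ _ => rfl
    · intro n hn
      exact mem_coe.1 (hf.mapsTo (mem_coe.2 hn))
    · exact hf.injOn
    · exact hf.surjOn
  have h1 := h (range s.card) (fun n => N (f n)) x hx hxx (by
    intro k hkR
    rw [tr fun i => ((N i).choose k : ℝ), card_range]
    exact hk k hkR) A
  rw [card_range] at h1
  have e : (((range s.card).filter (fun n => N (f n) ∈ A)).card : ℝ) =
      ((s.filter (fun i => N i ∈ A)).card : ℝ) := by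
    rw [card_filter, card_filter]
    push_cast
    exact tr fun i => if N i ∈ A then 1 else 0
  rw [e] at h1
  exact h1

/-- windows of small mean -/
theorem extend' {α : Type} (Om : Finset α) (W W' : α → ℕ) (hW : ∀ n, W n ≤ W' n) (x x' η : ℝ) (hx : 0 ≤ x)
    (hxx : x ≤ x')
    (h : |((Om.filter (fun n => W' n ∈ ({0} : Finset ℕ))).card : ℝ) -
      Om.card * ∑ j ∈ ({0} : Finset ℕ), Real.exp (-x') * x' ^ j / j.factorial| ≤ η * Om.card)
    (A : Finset ℕ) :
    |((Om.filter (fun n => W n ∈ A)).card : ℝ) -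
      Om.card * ∑ j ∈ A, Real.exp (-x) * x ^ j / j.factorial| ≤ (x' + η) * Om.card := by
  have hOm : (0 : ℝ) ≤ Om.card := Nat.cast_nonneg _
  rw [Finset.sum_singleton] at h
  simp only [pow_zero, Nat.factorial_zero, Nat.cast_one, div_one, mul_one] at h
  have h1 := (abs_le.1 h).1
  have hexp : 1 - x' ≤ Real.exp (-x') := by
    have := Real.add_one_le_exp (-x')
    linarith
  have hexp2 : Real.exp (-x') ≤ Real.exp (-x) := Real.exp_le_exp.2 (by linarith)
  obtain ⟨q, hq⟩ : ∃ q : ℝ, q = ((Om.filter (fun n => W n = 0)).card : ℝ) := ⟨_, rfl⟩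
  have hq1 : (1 - x' - η) * Om.card ≤ q := by
    have h2 : ((Om.filter (fun n => W' n ∈ ({0} : Finset ℕ))).card : ℝ) ≤ q := by
      rw [hq]
      have : (Om.filter (fun n => W' n ∈ ({0} : Finset ℕ))).card ≤ (Om.filter (fun n => W n = 0)).card := by
        apply card_le_card
        intro n hn
        rw [mem_filter, mem_singleton] at hn
        rw [mem_filter]
        have := hW n
        exact ⟨hn.1, by omega⟩
      exact_mod_cast this
    have h3 : (Om.card : ℝ) * (1 - x') ≤ Om.card * Real.exp (-x') :=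
      mul_le_mul_of_nonneg_left hexp hOm
    nlinarith
  have hs0 : 0 ≤ ∑ j ∈ A, Real.exp (-x) * x ^ j / j.factorial := Finset.sum_nonneg fun j _ => by positivity
  have hs1 : ∑ j ∈ A, Real.exp (-x) * x ^ j / j.factorial ≤ 1 := by
    have := poisson_tail x hx 0 A (fun _ _ => Nat.zero_le _)
    simpa using this
  by_cases h0 : 0 ∈ A
  · have h2 : q ≤ ((Om.filter (fun n => W n ∈ A)).card : ℝ) := by
      rw [hq]
      have : (Om.filter (fun n => W n = 0)).card ≤ (Om.filter (fun n => W n ∈ A)).card := by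
        apply card_le_card
        intro n hn
        rw [mem_filter] at hn ⊢
        exact ⟨hn.1, by rw [hn.2]; exact h0⟩
      exact_mod_cast this
    have h3 : ((Om.filter (fun n => W n ∈ A)).card : ℝ) ≤ Om.card := by
      exact_mod_cast card_le_card (filter_subset _ _)
    have h4 : 1 - x' ≤ ∑ j ∈ A, Real.exp (-x) * x ^ j / j.factorial := by
      have h5 : Real.exp (-x) ≤ ∑ j ∈ A, Real.exp (-x) * x ^ j / j.factorial := by
        have := Finset.single_le_sum (f := fun j : ℕ => Real.exp (-x) * x ^ j / (j.factorial : ℝ))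
          (fun j _ => by positivity) h0
        simpa using this
      linarith
    have hη : 0 ≤ η * Om.card := (abs_nonneg _).trans h
    rw [abs_le]
    constructor
    · nlinarith
    · nlinarith
  · have h2 : ((Om.filter (fun n => W n ∈ A)).card : ℝ) ≤ Om.card - q := by
      have h3 : (Om.filter (fun n => W n ∈ A)).card + (Om.filter (fun n => W n = 0)).card ≤ Om.card := by
        rw [← card_union_of_disjoint]
        · exact card_le_card (union_subset (filter_subset _ _) (filter_subset _ _))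
        · rw [Finset.disjoint_left]
          intro n hn hn'
          rw [mem_filter] at hn hn'
          exact h0 (by rw [← hn'.2]; exact hn.2)
      have h4 : ((Om.filter (fun n => W n ∈ A)).card : ℝ) + (Om.filter (fun n => W n = 0)).card ≤
          Om.card := by exact_mod_cast h3
      rw [hq]
      linarith
    have h4 : ∑ j ∈ A, Real.exp (-x) * x ^ j / j.factorial ≤ x := by
      have := poisson_tail x hx 1 A (fun j hj => Nat.pos_of_ne_zero fun h => h0 (h ▸ hj))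
      simpa using this
    have hη : 0 ≤ η * Om.card := (abs_nonneg _).trans h
    have h5 : (0 : ℝ) ≤ ((Om.filter (fun n => W n ∈ A)).card : ℝ) := Nat.cast_nonneg _
    have h6 : Om.card * ∑ j ∈ A, Real.exp (-x) * x ^ j / j.factorial ≤ x' * Om.card := by
      nlinarith
    have h7 : 0 ≤ Om.card * ∑ j ∈ A, Real.exp (-x) * x ^ j / j.factorial := mul_nonneg hOm hs0
    rw [abs_le]
    constructor
    · nlinarith
    · nlinarith

/-- a window of mean between `κ` and `2 κ` -/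
theorem exists_window' (V κ : ℝ) (hV : 0 < V) (hVκ : V ≤ κ) :
    ∃ T' : ℕ, κ ≤ T' * V ∧ T' * V ≤ 2 * κ ∧ ∀ T : ℕ, T * V < κ → T ≤ T' := by
  refine ⟨⌈κ / V⌉₊, ?_, ?_, ?_⟩
  · have := Nat.le_ceil (κ / V)
    rwa [div_le_iff₀ hV] at this
  · have h0 : 0 ≤ κ / V := div_nonneg (hV.le.trans hVκ) hV.le
    have := (Nat.ceil_lt_add_one h0).le
    calc (⌈κ / V⌉₊ : ℝ) * V ≤ (κ / V + 1) * V := by gcongr
      _ = κ + V := by field_simp
      _ ≤ 2 * κ := by linarith
  · intro T hT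
    have h1 : (T : ℝ) < κ / V := by rwa [lt_div_iff₀ hV]
    have h2 : (T : ℝ) < ⌈κ / V⌉₊ := lt_of_lt_of_le h1 (Nat.le_ceil _)
    have h3 : T < ⌈κ / V⌉₊ := by exact_mod_cast h2
    exact h3.le

/-- divisibility -/
def Dv (l n : ℕ) : Prop := l ∣ n

theorem nuB_eq (Q : ℕ → ℕ → Prop) (l : ℕ) [NeZero l] (S : Finset (ZMod l))
    (h : ∀ n : ℕ, Q l n ↔ (n : ZMod l) ∈ S) : nuB Q l = S.card := by
  unfold nuB
  refine card_bij (t := S) (fun (n : ℕ) _ => (n : ZMod l)) ?_ ?_ ?_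
  · intro n hn
    exact (h n).1 (mem_filter.1 hn).2
  · intro a ha b hb hab
    have ha' := mem_range.1 (mem_filter.1 ha).1
    have hb' := mem_range.1 (mem_filter.1 hb).1
    rw [ZMod.natCast_eq_natCast_iff'] at hab
    rwa [Nat.mod_eq_of_lt ha', Nat.mod_eq_of_lt hb'] at hab
  · intro x hx
    exact ⟨x.val, mem_filter.2 ⟨mem_range.2 (ZMod.val_lt x), (h _).2 (by rwa [ZMod.natCast_zmod_val])⟩,
      ZMod.natCast_zmod_val x⟩

theorem nuB_QH (H : Finset ℕ) {l : ℕ} (hl : l.Prime) : nuB (QH Dv H) l = classes H l := by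
  have : Fact l.Prime := ⟨hl⟩
  rw [classes_cast, nuB_eq (QH Dv H) l ((H.image fun e => ((e : ℕ) : ZMod l)).image fun x => -x) ?_]
  · exact card_image_of_injective _ neg_injective
  · intro n
    unfold QH Dv
    simp only [mem_image, exists_exists_and_eq_and]
    constructor
    · rintro ⟨h, hh, hd⟩
      refine ⟨h, hh, ?_⟩
      rw [← ZMod.natCast_eq_zero_iff] at hd
      push_cast at hd
      exact (eq_neg_of_add_eq_zero_left hd).symm
    · rintro ⟨h, hh, hd⟩
      refine ⟨h, hh, ?_⟩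
      rw [← ZMod.natCast_eq_zero_iff]
      push_cast
      rw [← hd]
      ring

theorem nuB_Dv {l : ℕ} (hl : l.Prime) : nuB Dv l = 1 := by
  have : Fact l.Prime := ⟨hl⟩
  rw [nuB_eq Dv l {0} ?_, card_singleton]
  intro n
  unfold Dv
  rw [mem_singleton, ZMod.natCast_eq_zero_iff]

theorem perB_Dv : PerB Dv 1 := by
  refine ⟨fun p n => ?_, fun p hp => (nuB_Dv hp).le⟩
  unfold Dv
  rw [Nat.dvd_iff_mod_eq_zero, Nat.dvd_iff_mod_eq_zero, Nat.mod_mod]

theorem pz_eq (z : ℕ) : pz z = (range (z + 1)).filter Nat.Prime := by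
  unfold pz
  ext l
  rw [mem_filter, mem_filter, mem_Icc, mem_range]
  constructor
  · rintro ⟨h1, h2⟩
    exact ⟨by omega, h2⟩
  · rintro ⟨h1, h2⟩
    exact ⟨⟨h2.one_lt.le, by omega⟩, h2⟩

theorem dens_eq (H : Finset ℕ) (z : ℕ) : Vq (QH Dv H) z = dens H z := by
  unfold Vq dens
  rw [pz_eq]
  refine prod_congr rfl fun l hl => ?_
  rw [nuB_QH H (mem_filter.1 hl).2]

theorem GG_eq (z : ℕ) : Vq Dv z = GG (z + 1) := by
  unfold Vq GG
  rw [pz_eq]
  refine prod_congr rfl fun l hl => ?_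
  rw [nuB_Dv (mem_filter.1 hl).2]
  simp

theorem dens_map (H : Finset ℕ) (z : ℕ) : dens (H.map (addRightEmbedding 1)) z = dens H z := by
  unfold dens
  refine prod_congr rfl fun l hl => ?_
  have : NeZero l := ⟨(mem_filter.1 hl).2.ne_zero⟩
  rw [classes_cast, classes_cast]
  have e : ((H.map (addRightEmbedding 1)).image fun e => ((e : ℕ) : ZMod l)) =
      (H.image fun e => ((e : ℕ) : ZMod l)).image fun x => x + 1 := by
    rw [image_image]
    ext x
    simp [mem_image, Finset.mem_map]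
  rw [e, card_image_of_injective _ (add_left_injective 1)]

theorem sum_shift (z T k : ℕ) : ∑ H ∈ powersetCard k (range T), dens H z =
    ∑ H ∈ powersetCard k (Icc 1 T), dens H z := by
  have e : Icc 1 T = (range T).map (addRightEmbedding 1) := by
    ext x
    rw [mem_Icc, Finset.mem_map]
    constructor
    · rintro ⟨h1, h2⟩
      exact ⟨x - 1, mem_range.2 (by omega), by simp [addRightEmbedding]; omega⟩
    · rintro ⟨y, hy, rfl⟩
      rw [mem_range] at hy
      simp [addRightEmbedding]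
      omega
  rw [e, powersetCard_map, sum_map]
  refine sum_congr rfl fun H _ => ?_
  exact (dens_map H z).symm

/-- the Poisson law for windows that are not too short -/
theorem poisson_core (ε x0 η : ℝ) (hε : 0 < ε) (hx0 : 0 ≤ x0) (hη : 0 < η) : ∃ δ : ℝ, 0 < δ ∧ ∃ z₀ T₀ : ℕ, ∃ P₀ : ℝ,
    ∀ (p : ℕ) [Fact p.Prime], P₀ ≤ p → ∀ (ι : Type) (s : Finset ι) (v : ι → ZMod p), SmallSums p ε s v →
    ∀ M z T : ℕ, z₀ ≤ z → (z : ℝ) ≤ (p : ℝ) ^ δ → T₀ ≤ T → T * GG (z + 1) ≤ x0 → ∀ A : Finset ℕ,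
    |((s.filter (fun i => Wd p M z T (v i) ∈ A)).card : ℝ) -
      s.card * ∑ j ∈ A, Real.exp (-(T * GG (z + 1))) * (T * GG (z + 1)) ^ j / j.factorial| ≤ η * s.card := by
  obtain ⟨R, η₁, hη₁, htv⟩ := law_tv' x0 η hx0 hη
  obtain ⟨X1, hX1⟩ : ∃ X1 : ℝ, X1 = (1 + x0) ^ (R + 1) := ⟨_, rfl⟩
  have hX1pos : 1 ≤ X1 := by rw [hX1]; exact one_le_pow₀ (by linarith)
  obtain ⟨η₂, hη₂⟩ : ∃ η₂ : ℝ, η₂ = min 1 (η₁ / (4 * X1)) := ⟨_, rfl⟩
  have hη20 : 0 < η₂ := by rw [hη₂]; positivity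
  have hη21 : η₂ ≤ 1 := by rw [hη₂]; exact min_le_left _ _
  have hη22 : η₂ * (4 * X1) ≤ η₁ := by
    have : η₂ ≤ η₁ / (4 * X1) := by rw [hη₂]; exact min_le_right _ _
    rwa [le_div_iff₀ (by positivity)] at this
  obtain ⟨b, hb⟩ : ∃ b : ℕ, (1 / 2 : ℝ) ^ b < η₂ := exists_pow_lt_of_lt_one hη20 (by norm_num)
  have hb' : (1 / 2 : ℝ) ^ (b + 1) ≤ η₂ := by
    rw [pow_succ]
    have : (0 : ℝ) ≤ (1 / 2) ^ b := by positivity
    linarith
  obtain ⟨δ, hδ, hδ8, P₀, htup⟩ := tuple_W (R + 1) ε hε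
  choose w η' T0 hη' hsing using fun k => sing_avg 1 k η₂ hη20 hη21
  refine ⟨δ / (b + 1 : ℕ), by positivity, (∑ k ∈ range (R + 1), w k) + R + 2, ∑ k ∈ range (R + 1), T0 k, P₀, ?_⟩
  intro p hp hpP ι s v hv M z T hz hzp hT hx A
  have hx00 : 0 ≤ T * GG (z + 1) := mul_nonneg (Nat.cast_nonneg _) (GG_pos _).le
  refine htv ι s (fun i => Wd p M z T (v i)) (T * GG (z + 1)) hx00 hx ?_ A
  intro k hk
  have hs0 : (0 : ℝ) ≤ s.card := Nat.cast_nonneg _
  rcases k with _ | k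
  · simp
    positivity
  have hkR : k ∈ range (R + 1) := mem_range.2 (by omega)
  have hwk : w k ≤ ∑ k ∈ range (R + 1), w k := Finset.single_le_sum (fun _ _ => Nat.zero_le _) hkR
  have hTk : T0 k ≤ ∑ k ∈ range (R + 1), T0 k := Finset.single_le_sum (fun _ _ => Nat.zero_le _) hkR
  obtain ⟨S, hS⟩ : ∃ S : ℝ, S = ∑ H ∈ powersetCard (k + 1) (range T), dens H z := ⟨_, rfl⟩
  obtain ⟨x, hxdef⟩ : ∃ x : ℝ, x = T * GG (z + 1) := ⟨_, rfl⟩
  rw [← hxdef] at hx hx00 ⊢
  have hsg := hsing k T (hTk.trans hT) Dv perB_Dv (fun l hl => by rw [nuB_Dv hl]; exact hl.one_lt) z (by omega)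
    (by
      intro t ht
      rw [mem_Icc] at ht
      have he : ((pz z).filter (fun l : ℕ => T < l ∧ CoG Dv l t)) = ∅ := by
        rw [filter_eq_empty_iff]
        rintro l - ⟨h1, m, h2, h3⟩
        unfold Dv at h2 h3
        have h4 : l ∣ t := (Nat.dvd_add_right h2).1 h3
        have := Nat.le_of_dvd (by omega) h4
        omega
      rw [he]
      simp only [card_empty, Nat.cast_zero]
      exact mul_nonneg (hη' k).le (Nat.cast_nonneg _))
  simp only [dens_eq] at hsg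
  rw [← sum_shift, ← hS, GG_eq, ← hxdef] at hsg
  obtain ⟨Y, hY⟩ : ∃ Y : ℝ, Y = x ^ (k + 1) / ((k + 1).factorial : ℝ) := ⟨_, rfl⟩
  rw [← hY] at hsg ⊢
  have hY0 : 0 ≤ Y := by rw [hY]; positivity
  have hY1 : Y ≤ X1 := by
    have hf1 : (1 : ℝ) ≤ (k + 1).factorial := by exact_mod_cast Nat.factorial_pos (k + 1)
    rw [hY]
    calc x ^ (k + 1) / ((k + 1).factorial : ℝ) ≤ x ^ (k + 1) := div_le_self (by positivity) hf1
      _ ≤ (1 + x0) ^ (k + 1) := pow_le_pow_left₀ hx00 (by linarith) _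
      _ ≤ (1 + x0) ^ (R + 1) := pow_le_pow_right₀ (by linarith) (by omega)
      _ = X1 := hX1.symm
  have hS1 : S ≤ 2 * X1 := by
    have : (1 + η₂) * Y ≤ 2 * X1 := by nlinarith
    linarith [hsg.2]
  have hSY : |S - Y| ≤ η₂ * X1 := by
    have h1 : η₂ * Y ≤ η₂ * X1 := mul_le_mul_of_nonneg_left hY1 hη20.le
    rw [abs_le]
    constructor
    · nlinarith [hsg.1]
    · nlinarith [hsg.2]
  have hmain : |∑ i ∈ s, ((Wd p M z T (v i)).choose (k + 1) : ℝ) - s.card * S| ≤ η₂ * (s.card * S) := by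
    rw [Wd_choose, hS, mul_sum, ← sum_sub_distrib]
    refine (abs_sum_le_sum_abs _ _).trans ?_
    rw [mul_sum]
    refine sum_le_sum fun H hH => ?_
    have hHc : H.card ≤ R + 1 := by
      rw [(mem_powersetCard.1 hH).2]
      omega
    have h1 := htup p hpP (b + 1) (by omega) ι s v hv M z (by omega) (by omega) hzp H hHc
    refine h1.trans ?_
    exact mul_le_mul_of_nonneg_right hb' (mul_nonneg hs0 (dens_nonneg _ _))
  calc |∑ i ∈ s, ((Wd p M z T (v i)).choose (k + 1) : ℝ) - s.card * Y| ≤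
        |∑ i ∈ s, ((Wd p M z T (v i)).choose (k + 1) : ℝ) - s.card * S| + |s.card * S - s.card * Y| :=
        abs_sub_le _ _ _
    _ ≤ η₂ * (s.card * S) + s.card * (η₂ * X1) := by
        refine add_le_add hmain ?_
        rw [← mul_sub, abs_mul, abs_of_nonneg hs0]
        exact mul_le_mul_of_nonneg_left hSY hs0
    _ ≤ η₂ * (s.card * (2 * X1)) + s.card * (η₂ * X1) := by
        have := mul_le_mul_of_nonneg_left (mul_le_mul_of_nonneg_left hS1 hs0) hη20.le
        linarith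
    _ ≤ (η₂ * (4 * X1)) * s.card := by
        have : 0 ≤ η₂ * X1 * s.card := by positivity
        linarith
    _ ≤ η₁ * s.card := mul_le_mul_of_nonneg_right hη22 hs0

theorem GG_small (κ : ℝ) (hκ : 0 < κ) : ∃ z₁ : ℕ, ∀ z : ℕ, z₁ ≤ z → GG (z + 1) ≤ κ := by
  have h1 := GG_mertens
  have h2 : Tendsto (fun z : ℕ => (Real.log z)⁻¹) atTop (𝓝 0) :=
    (tendsto_inv_atTop_zero.comp Real.tendsto_log_atTop).comp tendsto_natCast_atTop_atTop
  have h3 := h1.mul h2
  rw [mul_zero] at h3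
  have h4 := h3.eventually (gt_mem_nhds hκ)
  obtain ⟨z₁, hz₁⟩ := eventually_atTop.1 (h4.and (eventually_ge_atTop 2))
  refine ⟨z₁, fun z hz => ?_⟩
  obtain ⟨h5, h6⟩ := hz₁ z hz
  have hlog : Real.log z ≠ 0 := (Real.log_pos (by exact_mod_cast (by omega : 1 < z))).ne'
  rw [mul_assoc, mul_inv_cancel₀ hlog, mul_one] at h5
  exact h5.le

/-- **The Poisson law.** -/
theorem poisson_law (ε x0 η : ℝ) (hε : 0 < ε) (hη : 0 < η) : ∃ δ : ℝ, 0 < δ ∧ ∃ z₀ : ℕ, ∃ P₀ : ℝ,
    ∀ (p : ℕ) [Fact p.Prime], P₀ ≤ p → ∀ (ι : Type) (s : Finset ι) (v : ι → ZMod p), SmallSums p ε s v →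
    ∀ M z T : ℕ, z₀ ≤ z → (z : ℝ) ≤ (p : ℝ) ^ δ → T * GG (z + 1) ≤ x0 → ∀ A : Finset ℕ,
    |((s.filter (fun i => Wd p M z T (v i) ∈ A)).card : ℝ) -
      s.card * ∑ j ∈ A, Real.exp (-(T * GG (z + 1))) * (T * GG (z + 1)) ^ j / j.factorial| ≤ η * s.card := by
  obtain ⟨η₁, hη₁⟩ : ∃ η₁ : ℝ, η₁ = min η 1 := ⟨_, rfl⟩
  have hη10 : 0 < η₁ := by rw [hη₁]; positivity
  have hη11 : η₁ ≤ 1 := by rw [hη₁]; exact min_le_right _ _
  have hη12 : η₁ ≤ η := by rw [hη₁]; exact min_le_left _ _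
  obtain ⟨κ, hκ⟩ : ∃ κ, κ = η₁ / 8 := ⟨_, rfl⟩
  have hκ0 : 0 < κ := by rw [hκ]; positivity
  obtain ⟨δ, hδ, z₀, T₀, P₀, H⟩ := poisson_core ε (max x0 1) (η₁ / 4) hε (by positivity) (by positivity)
  obtain ⟨z₁, hz₁⟩ := GG_small (κ / (T₀ + 1)) (by positivity)
  refine ⟨δ, hδ, max z₀ z₁, P₀, ?_⟩
  intro p hp hpP ι s v hv M z T hz hzp hx A
  have hz0 : z₀ ≤ z := (le_max_left _ _).trans hz
  have hG := hz₁ z ((le_max_right _ _).trans hz)
  have hG0 : 0 < GG (z + 1) := GG_pos _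
  have hGκ : GG (z + 1) ≤ κ := hG.trans (div_le_self hκ0.le (by
    have : (0 : ℝ) ≤ T₀ := Nat.cast_nonneg _
    linarith))
  have hs0 : (0 : ℝ) ≤ s.card := Nat.cast_nonneg _
  have hT0 : ∀ T : ℕ, κ ≤ T * GG (z + 1) → T₀ ≤ T := by
    intro T hT
    have h1 : T * GG (z + 1) ≤ T * (κ / (T₀ + 1)) := mul_le_mul_of_nonneg_left hG (Nat.cast_nonneg _)
    have h2 : κ ≤ T * (κ / (T₀ + 1)) := hT.trans h1
    rw [mul_div_assoc', le_div_iff₀ (by positivity)] at h2
    have h3 : (T₀ : ℝ) + 1 ≤ T := by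
      have h4 : κ * ((T₀ : ℝ) + 1) ≤ κ * T := by linarith
      exact le_of_mul_le_mul_left h4 hκ0
    have h4 : (T₀ : ℝ) ≤ T := by linarith
    exact_mod_cast h4
  by_cases hκT : κ ≤ T * GG (z + 1)
  · refine (H p hpP ι s v hv M z T hz0 hzp (hT0 T hκT) (hx.trans (le_max_left _ _)) A).trans ?_
    exact mul_le_mul_of_nonneg_right (by linarith) hs0
  · rw [not_le] at hκT
    obtain ⟨T', h1, h2, h3⟩ := exists_window' (GG (z + 1)) κ hG0 hGκ
    have hT'x : T' * GG (z + 1) ≤ max x0 1 :=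
      h2.trans ((by linarith : 2 * κ ≤ 1).trans (le_max_right _ _))
    have h4 := H p hpP ι s v hv M z T' hz0 hzp (hT0 T' h1) hT'x {0}
    have h5 := extend' s (fun i => Wd p M z T (v i)) (fun i => Wd p M z T' (v i)) (by
      intro i
      unfold Wd
      apply card_le_card
      intro h hh
      rw [mem_filter, mem_range] at hh ⊢
      have := h3 T hκT
      exact ⟨by omega, hh.2⟩) (T * GG (z + 1)) (T' * GG (z + 1)) (η₁ / 4)
      (mul_nonneg (Nat.cast_nonneg _) hG0.le)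
      (mul_le_mul_of_nonneg_right (by exact_mod_cast h3 T hκT) hG0.le) h4 A
    refine h5.trans ?_
    apply mul_le_mul_of_nonneg_right _ hs0
    linarith

end Pool.Agent.Run7.h90.AU
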