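import Pool.Agent.Run7.h90.AU.Ext

/-!
# Arbitrary polynomials: counts and orders of magnitude in terms of the sieve product, uniformly
-/

set_option autoImplicit false
set_option linter.all false

namespace Pool.Agent.Run7.h90.AU

open Finset Filter Topology
open Run7.h870.LI
open Pool.Agent.N825.FC (rep rep_gt rep_le rep_cast rep_unique eqd)
open Pool.Agent.Run7.h90.AP
open scoped Classical
open Polynomial (X C)

theorem poly_count (κ : ℕ) (ε : ℝ) (hε : 0 < ε) : ∃ δ : ℝ, 0 < δ ∧ δ ≤ ε / 8 ∧ δ ≤ 1 / 8 ∧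
    ∀ b : ℕ, 1 ≤ b → ∃ P₀ : ℝ, ∀ (p : ℕ) [Fact p.Prime], P₀ ≤ p → ∀ F : Polynomial ℤ,
      F.natDegree ≤ κ → (∀ l : ℕ, l.Prime → ∃ n : ℤ, ¬ (l : ℤ) ∣ F.eval n) →
      ∀ (ι : Type) (s : Finset ι) (v : ι → ZMod p), Small p ε s v →
      ∀ M L z : ℕ, (p : ℝ) ^ (1 - δ) ≤ L → 1 ≤ z → (z : ℝ) ≤ (p : ℝ) ^ (δ / b) →
      |((((prs p s v M L).filter fun x => ∀ l : ℕ, l.Prime → l ≤ z → ¬ QF F l x.2).card : ℕ) : ℝ) -
        s.card * ((L : ℝ) / p) * V F z| ≤ (1 / 2) ^ b * (s.card * ((L : ℝ) / p) * V F z) := by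
  obtain ⟨δ, hδ, h1, h2, H⟩ := fundU κ ε hε
  refine ⟨δ, hδ, h1, h2, fun b hb => ?_⟩
  obtain ⟨P₁, H⟩ := H b hb
  obtain ⟨P₂, hP₂⟩ := eventually_atTop.1 (ev_half δ hδ)
  refine ⟨max P₁ P₂, ?_⟩
  intro p hp hpP F hdeg hF ι s v hv M L z hL hz1 hz2
  obtain ⟨hp2, hhalf⟩ := hP₂ P₂ le_rfl p ((le_max_right _ _).trans hpP)
  obtain ⟨G, hG⟩ : ∃ G : ℝ, G = s.card * (1 / (p : ℝ)) * V F z := ⟨_, rfl⟩
  have hX : ∀ L : ℕ, s.card * ((L : ℝ) / p) * V F z = G * L := by
    intro L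
    rw [hG]
    ring
  obtain ⟨f, hf⟩ : ∃ f : ℕ → ℕ → ℝ, f = fun M L => ((((prs p s v M L).filter fun x =>
    ∀ l : ℕ, l.Prime → l ≤ z → ¬ QF F l x.2).card : ℕ) : ℝ) := ⟨_, rfl⟩
  have hadd : ∀ M L₁ L₂, f M (L₁ + L₂) = f M L₁ + f (M + L₁) L₂ := by
    intro M L₁ L₂
    rw [hf]
    try simp only
    rw [prs_add]
    push_cast
    rfl
  have hb : ∀ M L : ℕ, (p : ℝ) ^ (1 - δ) ≤ L → L ≤ p → |f M L - G * L| ≤ (1 / 2) ^ b * (G * L) := by
    intro M L hL1 hL2
    have h3 := H p ((le_max_left _ _).trans hpP) F hdeg hF ι s v hv M L z hL1 hL2 hz1 hz2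
    rw [hX] at h3
    have hcard : ((prs p s v M L).filter fun x => ∀ l : ℕ, l.Prime → l ≤ z → ¬ QF F l x.2).card =
        ((s.filter fun i => rep (M : ℤ) (v i) ≤ M + L).filter fun i =>
            ∀ l ∈ (range (z + 1)).filter Nat.Prime, ¬ QF F l (rep (M : ℤ) (v i)).toNat).card := by
      have hcp := card_prs p s v M L hL2 (fun n => ∀ l : ℕ, l.Prime → l ≤ z → ¬ QF F l n)
      rw [hcp]
      congr 1
      ext i
      simp only [mem_filter, mem_range]
      constructor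
      · rintro ⟨h3, h4⟩
        exact ⟨h3, fun l hl => h4 l hl.2 (by omega)⟩
      · rintro ⟨h3, h4⟩
        exact ⟨h3, fun l hl hlz => h4 l ⟨by omega, hl⟩⟩
    rw [hf]
    try simp only
    rw [hcard]
    exact h3
  have e1 := extend hp2 hhalf f hadd ((1 + (1 / 2) ^ b) * G) (M + L) (by
    intro M' L' _ h3 h4
    have h5 := (abs_le.1 (hb M' L' h3 h4)).2
    linarith) L M le_rfl hL
  have e2 := extend hp2 hhalf (fun M L => - f M L) (fun M L₁ L₂ => by
    try simp only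
    rw [hadd]
    ring) (-((1 - (1 / 2) ^ b) * G)) (M + L) (by
    intro M' L' _ h3 h4
    have h5 := (abs_le.1 (hb M' L' h3 h4)).1
    linarith) L M le_rfl hL
  rw [hf] at e1 e2
  try simp only at e1 e2
  rw [hX, abs_le]
  constructor <;> linarith

/-- the integers where a polynomial is small -/
theorem small_valuesF (G : Polynomial ℤ) (hG : 1 ≤ G.natDegree) (z : ℕ) : ∃ T : Finset ℕ,
    T.card ≤ (2 * z + 1) * G.natDegree ∧ ∀ n : ℕ, (G.eval (n : ℤ)).natAbs ≤ z → n ∈ T := by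
  refine ⟨(Icc (-(z : ℤ)) z).biUnion fun m => (G - C m).roots.toFinset.image Int.toNat, ?_, ?_⟩
  · refine card_biUnion_le.trans ?_
    calc ∑ m ∈ Icc (-(z : ℤ)) z, ((G - C m).roots.toFinset.image Int.toNat).card ≤
        ∑ _m ∈ Icc (-(z : ℤ)) z, G.natDegree := by
          apply sum_le_sum
          intro m _
          refine card_image_le.trans ((Multiset.toFinset_card_le _).trans ?_)
          refine (Polynomial.card_roots' _).trans ?_
          rw [Polynomial.natDegree_sub_C]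
      _ = _ := by
          rw [sum_const, Int.card_Icc, smul_eq_mul]
          congr 1
          omega
  · intro n hn
    rw [mem_biUnion]
    refine ⟨G.eval (n : ℤ), mem_Icc.2 ⟨by omega, by omega⟩, ?_⟩
    rw [mem_image]
    refine ⟨(n : ℤ), ?_, Int.toNat_natCast n⟩
    rw [Multiset.mem_toFinset, Polynomial.mem_roots]
    · simp
    · intro h0
      have h1 : (G - C (G.eval (n : ℤ))).natDegree = G.natDegree := Polynomial.natDegree_sub_C
      rw [h0, Polynomial.natDegree_zero] at h1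
      omega

theorem eval_bound (G : Polynomial ℤ) (κ : ℕ) (hG : G.natDegree ≤ κ) (Q : ℝ) (hQ : (κ : ℝ) + 1 ≤ Q)
    (hc : ∀ i, |(G.coeff i : ℝ)| ≤ Q) (n : ℕ) (hn : (n : ℝ) ≤ Q) :
    (((G.eval (n : ℤ)).natAbs : ℕ) : ℝ) ≤ Q ^ (κ + 2) := by
  have hκ : (0 : ℝ) ≤ κ := Nat.cast_nonneg κ
  have hQ1 : 1 ≤ Q := by linarith
  rw [Nat.cast_natAbs, Polynomial.eval_eq_sum_range' (Nat.lt_succ_of_le hG)]
  push_cast
  refine (abs_sum_le_sum_abs _ _).trans ?_
  calc ∑ i ∈ range (κ + 1), |(G.coeff i : ℝ) * (n : ℝ) ^ i| ≤ ∑ _i ∈ range (κ + 1), Q * Q ^ κ := by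
        apply sum_le_sum
        intro i hi
        rw [abs_mul, abs_pow, Nat.abs_cast]
        have h1 : (n : ℝ) ^ i ≤ Q ^ κ :=
          (pow_le_pow_left₀ (Nat.cast_nonneg n) hn i).trans
            (pow_le_pow_right₀ hQ1 (by have := mem_range.1 hi; omega))
        exact mul_le_mul (hc i) h1 (by positivity) (by linarith)
    _ = (κ + 1) * (Q * Q ^ κ) := by
        rw [sum_const, card_range, nsmul_eq_mul]
        push_cast
        ring
    _ ≤ Q * (Q * Q ^ κ) := mul_le_mul_of_nonneg_right hQ (by positivity)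
    _ = _ := by ring

/-- almost primes -/
def Alm (r : ℕ) (y : ℝ) (n : ℕ) : Prop :=
  n ≠ 0 ∧ n.primeFactorsList.length ≤ r ∧ ∀ l : ℕ, l ∈ n.primeFactorsList → y ≤ l

theorem ev_gen (c K s : ℝ) (hc : 0 < c) (hK : 0 ≤ K) (hs : 0 < s) : ∀ᶠ x : ℝ in atTop,
    K * (4 + Real.log x) * x ^ (-s) ≤ c := by
  filter_upwards [ev_log (2 * K / c) s hs, eventually_ge_atTop (1 : ℝ)] with x hx hx1
  have hx0 : 0 < x := by linarith
  have hl : 0 ≤ Real.log x := Real.log_nonneg hx1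
  have h1 : K * (4 + Real.log x) ≤ c * x ^ s := by
    have h2 : K * (4 + Real.log x) ≤ c * (2 * K / c * (3 + Real.log x)) := by
      have e : c * (2 * K / c * (3 + Real.log x)) = 2 * K * (3 + Real.log x) := by
        field_simp
      rw [e]
      nlinarith [mul_nonneg hK hl]
    exact h2.trans (mul_le_mul_of_nonneg_left hx hc.le)
  calc K * (4 + Real.log x) * x ^ (-s) ≤ c * x ^ s * x ^ (-s) :=
        mul_le_mul_of_nonneg_right h1 (by positivity)
    _ = c := by rw [mul_assoc, ← Real.rpow_add hx0]; simp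

theorem poly_orders (κ : ℕ) (ε A : ℝ) (hε : 0 < ε) (hA : 1 ≤ A) : ∃ (r : ℕ) (δ : ℝ), 0 < δ ∧
    δ ≤ ε / 8 ∧ δ ≤ 1 / 8 ∧
    ∃ P₀ : ℝ, ∀ (p : ℕ) [Fact p.Prime], P₀ ≤ p → ∀ (k : ℕ) (Fs : Fin k → Polynomial ℤ),
      (∀ j, 1 ≤ (Fs j).natDegree) → (∏ j, Fs j).natDegree ≤ κ →
      (∀ l : ℕ, l.Prime → ∃ n : ℤ, ¬ (l : ℤ) ∣ (∏ j, Fs j).eval n) →
      (∀ j i, |((Fs j).coeff i : ℝ)| ≤ (p : ℝ) ^ A) →
      ∀ (ι : Type) (s : Finset ι) (v : ι → ZMod p), Small p ε s v →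
      ∀ M L : ℕ, (M + L : ℝ) ≤ (p : ℝ) ^ A → (p : ℝ) ^ (1 - δ) ≤ L →
      s.card * ((L : ℝ) / p) * V (∏ j, Fs j) ⌊(p : ℝ) ^ δ⌋₊ ≤ 2 * (((prs p s v M L).filter fun x =>
          ∀ j, Alm r ((p : ℝ) ^ δ) ((Fs j).eval (x.2 : ℤ)).natAbs).card : ℝ) ∧
      (((prs p s v M L).filter fun x => ∀ j, ((Fs j).eval (x.2 : ℤ)).natAbs.Prime).card : ℝ) ≤
        2 * (s.card * ((L : ℝ) / p) * V (∏ j, Fs j) ⌊(p : ℝ) ^ δ⌋₊) := by
  obtain ⟨δ₀, hδ₀, hδε, hδ8, H⟩ := poly_count κ ε hε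
  obtain ⟨P₁, H⟩ := H 1 le_rfl
  obtain ⟨cV, hcV, hVU⟩ := V_lowU κ
  have hκ0 : (0 : ℝ) ≤ κ := Nat.cast_nonneg κ
  set ε' : ℝ := min ε 1 with hε'
  have hε'0 : 0 < ε' := lt_min hε one_pos
  have hε'1 : ε' ≤ 1 := min_le_right _ _
  have hε'ε : ε' ≤ ε := min_le_left _ _
  have hδε' : δ₀ ≤ ε' / 8 := by
    rcases le_total ε 1 with h | h
    · rw [hε', min_eq_left h]; exact hδε
    · rw [hε', min_eq_right h]; linarith
  set δ : ℝ := δ₀ / (2 * κ + 2) with hδdef
  have hδ : 0 < δ := by positivity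
  have hδκ : δ * (2 * κ + 2) = δ₀ := by rw [hδdef]; field_simp
  have hδδ : δ ≤ δ₀ := by rw [← hδκ]; exact le_mul_of_one_le_right hδ.le (by linarith)
  refine ⟨⌊A * (κ + 2) / δ⌋₊, δ, hδ, by linarith, by linarith, ?_⟩
  have ev : ∀ᶠ p : ℝ in atTop, P₁ ≤ p ∧ (κ : ℝ) + 2 ≤ p ∧ 2 ≤ p ^ δ ∧
      (6 * κ ^ 2) * (4 + Real.log p) * p ^ (-(ε' / 2)) ≤ cV := by
    exact (eventually_ge_atTop P₁).and ((eventually_ge_atTop _).and
      (((tendsto_rpow_atTop hδ).eventually_ge_atTop _).and (ev_gen cV _ _ hcV (by positivity)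
      (by positivity))))
  obtain ⟨P₀, hP₀⟩ := eventually_atTop.1 (ev.and (ev_half δ hδ))
  refine ⟨P₀, ?_⟩
  intro p hp hpP k Fs hFs hdeg hadm hcoef ι s v hv M L hML hL
  have hpp : p.Prime := Fact.out
  obtain ⟨⟨hpP1, hpκ, hpδ, hpc⟩, hhalf'⟩ := hP₀ p hpP
  obtain ⟨hp2', hhalf⟩ := hhalf' p le_rfl
  have hp0 : (0 : ℝ) < p := by linarith
  have hp1 : (1 : ℝ) < p := by linarith
  obtain ⟨F, hF⟩ : ∃ F, F = ∏ j, Fs j := ⟨_, rfl⟩
  rw [← hF] at hdeg hadm ⊢
  have hF0 : F ≠ 0 := by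
    intro h0
    obtain ⟨n, hn⟩ := hadm 2 Nat.prime_two
    rw [h0] at hn
    simp at hn
  obtain ⟨z, hz⟩ : ∃ z, z = ⌊(p : ℝ) ^ δ⌋₊ := ⟨_, rfl⟩
  rw [← hz]
  have hz1 : (z : ℝ) ≤ (p : ℝ) ^ δ := by rw [hz]; exact Nat.floor_le (by positivity)
  have hz2 : (p : ℝ) ^ δ ≤ z + 1 := by rw [hz]; exact (Nat.lt_floor_add_one _).le
  have hz3 : 2 ≤ z := by
    rw [hz]
    apply Nat.le_floor
    exact_mod_cast hpδ
  have hzr : (2 : ℝ) ≤ z := by exact_mod_cast hz3
  have hmain := fun M L (hL : (p : ℝ) ^ (1 - δ) ≤ ((L : ℕ) : ℝ)) => H p hpP1 F hdeg hadm ι s v hv M L z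
    ((Real.rpow_le_rpow_of_exponent_le hp1.le (by linarith)).trans hL) (by omega)
    (by rw [Nat.cast_one, div_one]
        exact hz1.trans (Real.rpow_le_rpow_of_exponent_le hp1.le hδδ))
  have hV0 := V_pos hadm z
  have hprodeval : ∀ n : ℤ, F.eval n = ∏ j, (Fs j).eval n := by
    intro n
    rw [hF, Polynomial.eval_prod]
  have hFj0 : ∀ j, Fs j ≠ 0 := by
    intro j h0
    have := hFs j
    rw [h0, Polynomial.natDegree_zero] at this
    omega
  have hsumdeg : ∑ j, (Fs j).natDegree ≤ κ := by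
    rw [← Polynomial.natDegree_prod _ _ (fun j _ => hFj0 j), ← hF]
    exact hdeg
  have hdegj : ∀ j, (Fs j).natDegree ≤ κ := by
    intro j
    exact (single_le_sum (fun i _ => Nat.zero_le _) (mem_univ j)).trans hsumdeg
  have hkκ : k ≤ κ := by
    calc k = ∑ _j : Fin k, 1 := by simp
      _ ≤ ∑ j, (Fs j).natDegree := sum_le_sum fun j _ => hFs j
      _ ≤ κ := hsumdeg
  constructor
  · have h1 := (abs_le.1 (hmain M L hL)).1
    have h2 : ((prs p s v M L).filter fun x => ∀ l : ℕ, l.Prime → l ≤ z → ¬ QF F l x.2).card ≤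
        ((prs p s v M L).filter fun x =>
          ∀ j, Alm ⌊A * (κ + 2) / δ⌋₊ ((p : ℝ) ^ δ) ((Fs j).eval (x.2 : ℤ)).natAbs).card := by
      apply card_le_card
      intro x hx
      rw [mem_filter] at hx ⊢
      refine ⟨hx.1, fun j => ?_⟩
      have hx1 := hx.1
      unfold prs at hx1
      rw [mem_filter, mem_product, mem_Ioc] at hx1
      have hxA : (x.2 : ℝ) ≤ (p : ℝ) ^ A := by
        have : (x.2 : ℝ) ≤ M + L := by exact_mod_cast hx1.1.2.2
        linarith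
      have hpA : (p : ℝ) ≤ (p : ℝ) ^ A := by
        calc (p : ℝ) = (p : ℝ) ^ (1 : ℝ) := (Real.rpow_one _).symm
          _ ≤ _ := Real.rpow_le_rpow_of_exponent_le hp1.le hA
      have hbd := eval_bound (Fs j) κ (hdegj j) ((p : ℝ) ^ A) (by linarith) (hcoef j) x.2 hxA
      have hbd2 : (((((Fs j).eval (x.2 : ℤ)).natAbs : ℕ)) : ℝ) ≤ (p : ℝ) ^ (A * (κ + 2)) := by
        refine hbd.trans (le_of_eq ?_)
        rw [← Real.rpow_natCast, ← Real.rpow_mul hp0.le]
        push_cast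
        rfl
      have hdvd : ∀ l : ℕ, l.Prime → l ∣ ((Fs j).eval (x.2 : ℤ)).natAbs → z < l := by
        intro l hl hlx
        by_contra hlt
        refine hx.2 l hl (by omega) ?_
        unfold QF
        rw [hprodeval]
        exact (Int.natCast_dvd.2 hlx).trans (dvd_prod_of_mem (fun j => (Fs j).eval (x.2 : ℤ)) (mem_univ j))
      have hy0 : ((Fs j).eval (x.2 : ℤ)).natAbs ≠ 0 := by
        intro h0
        have h3 := hdvd 2 Nat.prime_two (by rw [h0]; exact dvd_zero _)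
        omega
      obtain ⟨u1, u2⟩ := few hp1 hδ hz2 hy0 hbd2 hdvd
      exact ⟨hy0, Nat.le_floor u1, u2⟩
    have h3 : (((prs p s v M L).filter fun x => ∀ l : ℕ, l.Prime → l ≤ z → ¬ QF F l x.2).card : ℝ) ≤
        (((prs p s v M L).filter fun x =>
          ∀ j, Alm ⌊A * (κ + 2) / δ⌋₊ ((p : ℝ) ^ δ) ((Fs j).eval (x.2 : ℤ)).natAbs).card : ℝ) := by
      exact_mod_cast h2
    linarith
  · -- the upper bound, first for short intervals
    choose T hT1 hT2 using fun j => small_valuesF (Fs j) (hFs j) z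
    obtain ⟨G, hG⟩ : ∃ G : ℝ, G = 2 * (s.card * (1 / (p : ℝ)) * V F z) := ⟨_, rfl⟩
    obtain ⟨f, hf⟩ : ∃ f : ℕ → ℕ → ℝ, f = fun M L => (((prs p s v M L).filter fun x =>
        ∀ j, ((Fs j).eval (x.2 : ℤ)).natAbs.Prime).card : ℝ) := ⟨_, rfl⟩
    have hadd : ∀ M L₁ L₂, f M (L₁ + L₂) = f M L₁ + f (M + L₁) L₂ := by
      intro M L₁ L₂
      rw [hf]
      try simp only
      rw [prs_add]
      push_cast
      rfl
    have e := extend hp2' hhalf f hadd G (M + L) (by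
      intro M L _ hL1 hL2
      have h1 := (abs_le.1 (hmain M L hL1)).2
      have h2 : ((prs p s v M L).filter fun x => ∀ j, ((Fs j).eval (x.2 : ℤ)).natAbs.Prime).card ≤
          ((prs p s v M L).filter fun x => ∀ l : ℕ, l.Prime → l ≤ z → ¬ QF F l x.2).card +
          ((prs p s v M L).filter fun x => x.2 ∈ univ.biUnion T).card := by
        refine le_trans (card_le_card ?_) (card_union_le _ _)
        intro x hx
        rw [mem_filter] at hx
        rw [mem_union, mem_filter, mem_filter]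
        by_cases hxT : x.2 ∈ univ.biUnion T
        · exact Or.inr ⟨hx.1, hxT⟩
        · left
          refine ⟨hx.1, ?_⟩
          intro l hl hlz hQ
          unfold QF at hQ
          rw [hprodeval] at hQ
          obtain ⟨j, -, hj⟩ := (Prime.dvd_finset_prod_iff (Nat.prime_iff_prime_int.1 hl) _).1 hQ
          have h5 : l ∣ ((Fs j).eval (x.2 : ℤ)).natAbs := Int.natCast_dvd.1 hj
          have h6 := (Nat.prime_dvd_prime_iff_eq hl (hx.2 j)).1 h5
          apply hxT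
          rw [mem_biUnion]
          exact ⟨j, mem_univ j, hT2 j x.2 (by omega)⟩
      have h3 := mults p s v ε hv M L hL2 (univ.biUnion T)
      have h4 : (((prs p s v M L).filter fun x => ∀ j, ((Fs j).eval (x.2 : ℤ)).natAbs.Prime).card : ℝ) ≤
          (((prs p s v M L).filter fun x => ∀ l : ℕ, l.Prime → l ≤ z → ¬ QF F l x.2).card : ℝ) +
          (((prs p s v M L).filter fun x => x.2 ∈ univ.biUnion T).card : ℝ) := by
        exact_mod_cast h2
      have hTc : ((univ.biUnion T).card : ℝ) ≤ 3 * κ ^ 2 * (p : ℝ) ^ δ := by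
        have h5 : (univ.biUnion T).card ≤ κ * ((2 * z + 1) * κ) := by
          calc (univ.biUnion T).card ≤ ∑ j, (T j).card := card_biUnion_le
            _ ≤ ∑ _j : Fin k, (2 * z + 1) * κ := sum_le_sum fun j _ =>
                (hT1 j).trans (Nat.mul_le_mul_left _ (hdegj j))
            _ = k * ((2 * z + 1) * κ) := by simp
            _ ≤ _ := Nat.mul_le_mul_right _ hkκ
        have h6 : ((univ.biUnion T).card : ℝ) ≤ κ * ((2 * z + 1) * κ) := by exact_mod_cast h5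
        have h7 : (2 * (z : ℝ) + 1) ≤ 3 * (p : ℝ) ^ δ := by linarith
        calc ((univ.biUnion T).card : ℝ) ≤ κ * ((2 * z + 1) * κ) := h6
          _ = κ ^ 2 * (2 * z + 1) := by ring
          _ ≤ κ ^ 2 * (3 * (p : ℝ) ^ δ) := mul_le_mul_of_nonneg_left h7 (by positivity)
          _ = _ := by ring
      have hs0 : (0 : ℝ) ≤ s.card := Nat.cast_nonneg _
      have hlogp : 0 < Real.log p := Real.log_pos hp1
      have b1 : (p : ℝ) ^ (-ε) * s.card * (2 + Real.log p) + 2 * (s.card / p) ≤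
          s.card * ((p : ℝ) ^ (-ε') * (4 + Real.log p)) := by
        have hpε : (p : ℝ) ^ (-ε) ≤ (p : ℝ) ^ (-ε') :=
          Real.rpow_le_rpow_of_exponent_le hp1.le (by linarith)
        have hpε1 : 1 / (p : ℝ) ≤ (p : ℝ) ^ (-ε') := by
          rw [one_div, ← Real.rpow_neg_one]
          exact Real.rpow_le_rpow_of_exponent_le hp1.le (by linarith)
        have e : (p : ℝ) ^ (-ε) * s.card * (2 + Real.log p) + 2 * (s.card / p) =
          s.card * ((p : ℝ) ^ (-ε) * (2 + Real.log p) + 2 * (1 / p)) := by ring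
        rw [e]
        apply mul_le_mul_of_nonneg_left _ hs0
        have a4 : (p : ℝ) ^ (-ε) * (2 + Real.log p) ≤ (p : ℝ) ^ (-ε') * (2 + Real.log p) :=
          mul_le_mul_of_nonneg_right hpε (by linarith)
        linarith
      have b3 : (p : ℝ) ^ (-δ) ≤ (L : ℝ) / p := by
        rw [le_div_iff₀ hp0]
        refine le_trans (le_of_eq ?_) hL1
        rw [show (1 : ℝ) - δ = -δ + 1 by ring, Real.rpow_add hp0, Real.rpow_one]
      have b4 : cV * (p : ℝ) ^ (-(2 * κ * δ)) ≤ V F z := by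
        have h5 := hVU F hdeg hadm z (by omega)
        have h6 : (z : ℝ) ^ (2 * κ) ≤ (p : ℝ) ^ (2 * κ * δ) := by
          calc (z : ℝ) ^ (2 * κ) ≤ ((p : ℝ) ^ δ) ^ (2 * κ) := pow_le_pow_left₀ (by linarith) hz1 _
            _ = _ := by
                rw [← Real.rpow_natCast, ← Real.rpow_mul hp0.le]
                push_cast
                congr 1
                ring
        have h7 : cV ≤ V F z * (p : ℝ) ^ (2 * κ * δ) :=
          h5.trans (mul_le_mul_of_nonneg_left h6 hV0.le)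
        calc cV * (p : ℝ) ^ (-(2 * κ * δ)) ≤
            (V F z * (p : ℝ) ^ (2 * κ * δ)) * (p : ℝ) ^ (-(2 * κ * δ)) :=
              mul_le_mul_of_nonneg_right h7 (by positivity)
          _ = V F z := by rw [mul_assoc, ← Real.rpow_add hp0]; simp
      have b5 : 3 * κ ^ 2 * (p : ℝ) ^ δ * ((p : ℝ) ^ (-ε') * (4 + Real.log p)) ≤
          1 / 2 * ((p : ℝ) ^ (-δ) * (cV * (p : ℝ) ^ (-(2 * κ * δ)))) := by
        have e1 : (p : ℝ) ^ δ * (p : ℝ) ^ (-ε') ≤
            (p : ℝ) ^ (-(ε' / 2)) * ((p : ℝ) ^ (-δ) * (p : ℝ) ^ (-(2 * κ * δ))) := by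
          rw [← Real.rpow_add hp0, ← Real.rpow_add hp0, ← Real.rpow_add hp0]
          apply Real.rpow_le_rpow_of_exponent_le hp1.le
          have : 2 * κ * δ = δ₀ - 2 * δ := by rw [← hδκ]; ring
          rw [this]
          linarith
        calc 3 * κ ^ 2 * (p : ℝ) ^ δ * ((p : ℝ) ^ (-ε') * (4 + Real.log p)) =
            (1 / 2 * (6 * κ ^ 2 * (4 + Real.log p))) * ((p : ℝ) ^ δ * (p : ℝ) ^ (-ε')) := by ring
          _ ≤ (1 / 2 * (6 * κ ^ 2 * (4 + Real.log p))) *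
              ((p : ℝ) ^ (-(ε' / 2)) * ((p : ℝ) ^ (-δ) * (p : ℝ) ^ (-(2 * κ * δ)))) :=
              mul_le_mul_of_nonneg_left e1 (by positivity)
          _ = 1 / 2 * ((6 * κ ^ 2) * (4 + Real.log p) * (p : ℝ) ^ (-(ε' / 2))) *
              ((p : ℝ) ^ (-δ) * (p : ℝ) ^ (-(2 * κ * δ))) := by ring
          _ ≤ 1 / 2 * cV * ((p : ℝ) ^ (-δ) * (p : ℝ) ^ (-(2 * κ * δ))) := by gcongr
          _ = _ := by ring
      have h5 : (((prs p s v M L).filter fun x => x.2 ∈ univ.biUnion T).card : ℝ) ≤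
          1 / 2 * (s.card * ((L : ℝ) / p) * V F z) := by
        refine h3.trans ?_
        calc ((univ.biUnion T).card : ℝ) *
            ((p : ℝ) ^ (-ε) * s.card * (2 + Real.log p) + 2 * (s.card / p)) ≤
            (3 * κ ^ 2 * (p : ℝ) ^ δ) * (s.card * ((p : ℝ) ^ (-ε') * (4 + Real.log p))) :=
              mul_le_mul hTc b1 (by positivity) (by positivity)
          _ = s.card * (3 * κ ^ 2 * (p : ℝ) ^ δ * ((p : ℝ) ^ (-ε') * (4 + Real.log p))) := by ring
          _ ≤ s.card * (1 / 2 * ((p : ℝ) ^ (-δ) * (cV * (p : ℝ) ^ (-(2 * κ * δ))))) :=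
              mul_le_mul_of_nonneg_left b5 hs0
          _ ≤ s.card * (1 / 2 * (((L : ℝ) / p) * V F z)) := by
              apply mul_le_mul_of_nonneg_left _ hs0
              apply mul_le_mul_of_nonneg_left _ (by norm_num)
              exact mul_le_mul b3 b4 (by positivity) (by positivity)
          _ = _ := by ring
      rw [hf, hG]
      try simp only
      have e3 : 2 * (s.card * (1 / (p : ℝ)) * V F z) * L = 2 * (s.card * ((L : ℝ) / p) * V F z) := by
        ring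
      rw [e3]
      rw [pow_one] at h1
      linarith) L M le_rfl hL
    rw [hf, hG] at e
    try simp only at e
    have e3 : 2 * (s.card * (1 / (p : ℝ)) * V F z) * L = 2 * (s.card * ((L : ℝ) / p) * V F z) := by
      ring
    rw [e3] at e
    exact e

end Pool.Agent.Run7.h90.AU
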