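import Pool.Agent.Run7.h90.AU.LeastB
import Pool.Agent.Run7.h90.AU.Poly

/-!
# Irreducible quadratic polynomials at the members of thin families of residues
-/

set_option autoImplicit false
set_option linter.all false

namespace Pool.Agent.Run7.h90.AU

open Finset Filter Topology
open Run7.h870.LI
open Pool.Agent.Run7.h90.AP
open scoped Classical
open Polynomial (X C)

theorem V_rel {F : Polynomial ℤ} {c : ℝ} (hc : 0 < c)
    (hlim : Tendsto (fun z : ℕ => V F z * Real.log z) atTop (𝓝 c)) (τ : ℝ) (hτ : 0 < τ) :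
    ∃ Z₀ : ℕ, 2 ≤ Z₀ ∧ ∀ z : ℕ, Z₀ ≤ z → |V F z - c / Real.log z| ≤ τ * (c / Real.log z) := by
  have h := (Metric.tendsto_nhds.1 hlim) (τ * c) (by positivity)
  obtain ⟨Z, hZ⟩ := eventually_atTop.1 h
  refine ⟨max Z 2, le_max_right _ _, fun z hz => ?_⟩
  have h1 := hZ z ((le_max_left _ _).trans hz)
  rw [Real.dist_eq] at h1
  have hz2 : 2 ≤ z := (le_max_right _ _).trans hz
  have hl : 0 < Real.log z := Real.log_pos (by exact_mod_cast hz2)
  have e : V F z - c / Real.log z = (V F z * Real.log z - c) / Real.log z := by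
    field_simp
  rw [e, abs_div, abs_of_pos hl, ← mul_div_assoc]
  exact div_le_div_of_nonneg_right h1.le hl.le

theorem quad_formula {F : Polynomial ℤ} (hdeg : F.natDegree ≤ 2)
    (hF : ∀ l : ℕ, l.Prime → ∃ n : ℤ, ¬ (l : ℤ) ∣ F.eval n) {D : ℝ} (hD : 0 < D)
    (hlim : Tendsto (fun z : ℕ => V F z * Real.log z) atTop (𝓝 (Real.exp (-Real.eulerMascheroniConstant) * D)))
    (G : ℕ → ℕ) (hG : ∀ n : ℕ, F.eval (n : ℤ) = (G n : ℤ)) :
    Formula 1 (fun P n => P (G n)) D := by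
  intro ε hε
  obtain ⟨δ, hδ, -, -, H⟩ := poly_count 2 ε hε
  refine ⟨δ / 3, by positivity, fun b hb => ?_⟩
  obtain ⟨P₁, H⟩ := H (b + 2) (by omega)
  have hc : 0 < Real.exp (-Real.eulerMascheroniConstant) * D := mul_pos (Real.exp_pos _) hD
  obtain ⟨Z₀, hZ2, hZ⟩ := V_rel hc hlim ((1 / 2) ^ (b + 2)) (by positivity)
  refine ⟨max P₁ (max 2 (Real.exp Z₀)), ?_⟩
  intro p hp hpP ι s v hv M L z hL hz1 hz2
  have hp1 : P₁ ≤ p := (le_max_left _ _).trans hpP
  have hp2 : (2 : ℝ) ≤ p := (le_max_left _ _).trans ((le_max_right _ _).trans hpP)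
  have hpZ : Real.exp Z₀ ≤ p := (le_max_right _ _).trans ((le_max_right _ _).trans hpP)
  have hp0 : (0 : ℝ) < p := by linarith
  have hzZ : Z₀ ≤ z := by
    have h1 : (Z₀ : ℝ) ≤ z := ((Real.le_log_iff_exp_le hp0).2 hpZ).trans hz1
    exact_mod_cast h1
  have hbr : (1 : ℝ) ≤ b := by exact_mod_cast hb
  have h1 := H p hp1 F hdeg hF ι s v hv M L z
    ((Real.rpow_le_rpow_of_exponent_le (by linarith) (by linarith)).trans hL) (by omega)
    (hz2.trans (Real.rpow_le_rpow_of_exponent_le (by linarith) (by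
      rw [div_div, div_le_div_iff₀ (by positivity) (by positivity)]
      push_cast
      nlinarith)))
  have h2 := hZ z hzZ
  have hl : 0 < Real.log z := Real.log_pos (by exact_mod_cast (by omega : 1 < z))
  rw [number_eq p s v M L _ (fun x => ∀ l : ℕ, l.Prime → l ≤ z → ¬ QF F l x.2)]
  swap
  · intro x
    unfold Rough QF
    simp only [hG]
    constructor
    · intro h l h3 h4 h5
      exact h l h3 h4 (by exact_mod_cast h5)
    · intro h l h3 h4 h5
      exact h l h3 h4 (by exact_mod_cast h5)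
  obtain ⟨Xx, hXx⟩ : ∃ Xx : ℝ, Xx = s.card * ((L : ℝ) / p) := ⟨_, rfl⟩
  obtain ⟨T, hT⟩ : ∃ T : ℝ, T = Real.exp (-Real.eulerMascheroniConstant) * D / Real.log z := ⟨_, rfl⟩
  obtain ⟨N, hN⟩ : ∃ N : ℝ, N = ((((prs p s v M L).filter fun x => ∀ l : ℕ, l.Prime → l ≤ z →
    ¬ QF F l x.2).card : ℕ) : ℝ) := ⟨_, rfl⟩
  obtain ⟨q, hq⟩ : ∃ q : ℝ, q = (1 / 2) ^ (b + 2) := ⟨_, rfl⟩
  rw [← hXx, ← hN, ← hq] at h1
  rw [← hT, ← hq] at h2
  have e1 : Real.exp (-(((1 : ℕ) : ℝ) * Real.eulerMascheroniConstant)) * (D * Xx / Real.log z ^ 1) = Xx * T := by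
    rw [hT, pow_one, Nat.cast_one, one_mul]
    ring
  rw [← hXx, e1, ← hN]
  have hX0 : 0 ≤ Xx := by rw [hXx]; positivity
  have hT0 : 0 < T := by rw [hT]; exact div_pos hc hl
  have hq0 : 0 < q := by rw [hq]; positivity
  have hq4 : (1 / 2 : ℝ) ^ b = 4 * q := by
    rw [hq, pow_add]
    ring
  have hq1 : q ≤ 1 := by
    rw [hq]
    exact pow_le_one₀ (by norm_num) (by norm_num)
  rw [hq4]
  have h3 : |Xx * V F z - Xx * T| ≤ q * (Xx * T) := by
    rw [← mul_sub, abs_mul, abs_of_nonneg hX0]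
    calc Xx * |V F z - T| ≤ Xx * (q * T) := mul_le_mul_of_nonneg_left h2 hX0
      _ = _ := by ring
  have h4 : Xx * V F z ≤ 2 * (Xx * T) := by
    have := (abs_le.1 h3).2
    have h5 : q * (Xx * T) ≤ 1 * (Xx * T) := mul_le_mul_of_nonneg_right hq1 (by positivity)
    linarith
  have h6 : |N - Xx * T| ≤ |N - Xx * V F z| + |Xx * V F z - Xx * T| := by
    have := abs_add_le (N - Xx * V F z) (Xx * V F z - Xx * T)
    simpa using this
  have h7 : q * (Xx * V F z) ≤ q * (2 * (Xx * T)) := mul_le_mul_of_nonneg_left h4 hq0.le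
  have h8 : 0 ≤ q * (Xx * T) := by positivity
  linarith

theorem quad_orders {F : Polynomial ℤ} (hdeg : F.natDegree ≤ 2) (hdeg1 : 1 ≤ F.natDegree)
    (hF : ∀ l : ℕ, l.Prime → ∃ n : ℤ, ¬ (l : ℤ) ∣ F.eval n) {D : ℝ} (hD : 0 < D)
    (hlim : Tendsto (fun z : ℕ => V F z * Real.log z) atTop (𝓝 (Real.exp (-Real.eulerMascheroniConstant) * D)))
    (G : ℕ → ℕ) (hG : ∀ n : ℕ, F.eval (n : ℤ) = (G n : ℤ)) (B : ℝ) (hB : ∀ i, |(F.coeff i : ℝ)| ≤ B) :
    Orders 1 (fun P n => P (G n)) := by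
  intro ε A hε hA
  obtain ⟨r, δ, hδ, -, -, P₁, H⟩ := poly_orders 2 ε A hε hA
  set c : ℝ := Real.exp (-Real.eulerMascheroniConstant) * D with hcdef
  have hc : 0 < c := mul_pos (Real.exp_pos _) hD
  obtain ⟨Z₀, hZ2, hZ⟩ := V_rel hc hlim (1 / 2) (by norm_num)
  obtain ⟨P₂, hP₂⟩ := eventually_atTop.1 ((tendsto_rpow_atTop hδ).eventually_ge_atTop ((Z₀ : ℝ) + 4))
  refine ⟨r, δ, 4 * δ / c + 6 * c / δ, hδ, by positivity, max P₁ (max P₂ (max B 2)), ?_⟩
  intro p hp hpP ι s v hv M L hML hL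
  have hp1 : P₁ ≤ p := (le_max_left _ _).trans hpP
  have hp2 : P₂ ≤ p := (le_max_left _ _).trans ((le_max_right _ _).trans hpP)
  have hpB : B ≤ p := (le_max_left _ _).trans ((le_max_right _ _).trans ((le_max_right _ _).trans hpP))
  have hp3 : (2 : ℝ) ≤ p := (le_max_right _ _).trans ((le_max_right _ _).trans ((le_max_right _ _).trans hpP))
  have hp0 : (0 : ℝ) < p := by linarith
  have hpA : (p : ℝ) ≤ (p : ℝ) ^ A := by
    calc (p : ℝ) = (p : ℝ) ^ (1 : ℝ) := (Real.rpow_one _).symm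
      _ ≤ _ := Real.rpow_le_rpow_of_exponent_le (by linarith) hA
  obtain ⟨h1, h2⟩ := H p hp1 1 (fun _ => F) (fun _ => hdeg1) (by simpa using hdeg) (by simpa using hF)
    (fun _ i => (hB i).trans (hpB.trans hpA)) ι s v hv M L hML hL
  simp only [univ_unique, prod_singleton, forall_const] at h1 h2
  have hpδ := hP₂ p hp2
  set z : ℕ := ⌊(p : ℝ) ^ δ⌋₊ with hz
  have hz1 : (z : ℝ) ≤ (p : ℝ) ^ δ := Nat.floor_le (by positivity)
  have hz2 : (p : ℝ) ^ δ ≤ z + 1 := (Nat.lt_floor_add_one _).le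
  have hzZ : Z₀ + 3 ≤ z := by
    have : ((Z₀ + 3 : ℕ) : ℝ) ≤ z := by push_cast; linarith
    exact_mod_cast this
  have h3 := hZ z (by omega)
  have hzr : (5 : ℝ) ≤ z := by exact_mod_cast (by omega : 5 ≤ z)
  have hlz : 0 < Real.log z := Real.log_pos (by linarith)
  have hlp : 0 < Real.log p := Real.log_pos (by linarith)
  have hl1 : Real.log z ≤ δ * Real.log p := by
    rw [← Real.log_rpow hp0]
    exact Real.log_le_log (by linarith) hz1
  have hl2 : δ * Real.log p ≤ 2 * Real.log z := by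
    rw [← Real.log_rpow hp0]
    have h5 : (p : ℝ) ^ δ ≤ (z : ℝ) ^ 2 := by nlinarith
    calc Real.log ((p : ℝ) ^ δ) ≤ Real.log ((z : ℝ) ^ 2) := Real.log_le_log (by positivity) h5
      _ = _ := by rw [Real.log_pow]; norm_num
  have hVlo : c / (2 * (δ * Real.log p)) ≤ V F z := by
    have h5 := (abs_le.1 h3).1
    have h6 : c / (δ * Real.log p) ≤ c / Real.log z := div_le_div_of_nonneg_left hc.le hlz hl1
    have h7 : c / (2 * (δ * Real.log p)) = 1 / 2 * (c / (δ * Real.log p)) := by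
      field_simp
    rw [h7]
    linarith
  have hVup : V F z ≤ 3 * c / (δ * Real.log p) := by
    have h5 := (abs_le.1 h3).2
    have h6 : c / Real.log z ≤ 2 * c / (δ * Real.log p) := by
      rw [div_le_div_iff₀ hlz (by positivity)]
      nlinarith
    have h7 : 3 * c / (δ * Real.log p) = 3 / 2 * (2 * c / (δ * Real.log p)) := by
      field_simp
    rw [h7]
    linarith
  have hX0 : (0 : ℝ) ≤ s.card * ((L : ℝ) / p) := by positivity
  obtain ⟨Xx, hXx⟩ : ∃ Xx : ℝ, Xx = s.card * ((L : ℝ) / p) := ⟨_, rfl⟩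
  rw [← hXx] at h1 h2 hX0 ⊢
  rw [pow_one]
  constructor
  · rw [number_eq p s v M L _ (fun x => Alm r ((p : ℝ) ^ δ) (F.eval (x.2 : ℤ)).natAbs)]
    swap
    · intro x
      rw [hG, Int.natAbs_natCast]
      exact Iff.rfl
    obtain ⟨N, hN⟩ : ∃ N : ℝ, N = ((((prs p s v M L).filter fun x =>
      Alm r ((p : ℝ) ^ δ) (F.eval (x.2 : ℤ)).natAbs).card : ℕ) : ℝ) := ⟨_, rfl⟩
    rw [← hN] at h1 ⊢
    have hN0 : 0 ≤ N := by rw [hN]; positivity
    have h5 : Xx * (c / (2 * (δ * Real.log p))) ≤ 2 * N := (mul_le_mul_of_nonneg_left hVlo hX0).trans h1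
    have h6 : Xx / Real.log p = (2 * δ / c) * (Xx * (c / (2 * (δ * Real.log p)))) := by
      field_simp
    rw [h6]
    calc (2 * δ / c) * (Xx * (c / (2 * (δ * Real.log p)))) ≤ (2 * δ / c) * (2 * N) :=
          mul_le_mul_of_nonneg_left h5 (by positivity)
      _ = 4 * δ / c * N := by ring
      _ ≤ (4 * δ / c + 6 * c / δ) * N := mul_le_mul_of_nonneg_right (by
          have : 0 ≤ 6 * c / δ := by positivity
          linarith) hN0
  · rw [number_eq p s v M L _ (fun x => (F.eval (x.2 : ℤ)).natAbs.Prime)]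
    swap
    · intro x
      rw [hG, Int.natAbs_natCast]
    refine h2.trans ?_
    have h5 : Xx * V F z ≤ Xx * (3 * c / (δ * Real.log p)) := mul_le_mul_of_nonneg_left hVup hX0
    have h6 : 2 * (Xx * (3 * c / (δ * Real.log p))) = 6 * c / δ * (Xx / Real.log p) := by
      field_simp
      ring
    have h7 : 0 ≤ Xx / Real.log p := by positivity
    calc 2 * (Xx * V F z) ≤ 2 * (Xx * (3 * c / (δ * Real.log p))) := by linarith
      _ = 6 * c / δ * (Xx / Real.log p) := h6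
      _ ≤ (4 * δ / c + 6 * c / δ) * (Xx / Real.log p) := mul_le_mul_of_nonneg_right (by
          have : 0 ≤ 4 * δ / c := by positivity
          linarith) h7

end Pool.Agent.Run7.h90.AU
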