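import Pool.Agent.Run7.h90.AU.QuadV

/-!
# Several polynomials at the members of thin families of residues
-/

set_option autoImplicit false
set_option linter.all false

namespace Pool.Agent.Run7.h90.AU

open Finset Filter Topology
open Run7.h870.LI
open Pool.Agent.Run7.h90.AP
open Pool.Agent.Y781.JR (GG GG_pos GG_mertens RR RR_conv rho_eq)
open scoped Classical
open Polynomial (X C)

theorem V_relm {F : Polynomial ℤ} {c : ℝ} (m : ℕ) (hc : 0 < c)
    (hlim : Tendsto (fun z : ℕ => V F z * Real.log z ^ m) atTop (𝓝 c)) (τ : ℝ) (hτ : 0 < τ) :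
    ∃ Z₀ : ℕ, 2 ≤ Z₀ ∧ ∀ z : ℕ, Z₀ ≤ z → |V F z - c / Real.log z ^ m| ≤ τ * (c / Real.log z ^ m) := by
  have h := (Metric.tendsto_nhds.1 hlim) (τ * c) (by positivity)
  obtain ⟨Z, hZ⟩ := eventually_atTop.1 h
  refine ⟨max Z 2, le_max_right _ _, fun z hz => ?_⟩
  have h1 := hZ z ((le_max_left _ _).trans hz)
  rw [Real.dist_eq] at h1
  have hz2 : 2 ≤ z := (le_max_right _ _).trans hz
  have hl0 : 0 < Real.log z := Real.log_pos (by exact_mod_cast hz2)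
  have hl : 0 < Real.log z ^ m := pow_pos hl0 m
  have e : V F z - c / Real.log z ^ m = (V F z * Real.log z ^ m - c) / Real.log z ^ m := by
    field_simp
  rw [e, abs_div, abs_of_pos hl, ← mul_div_assoc]
  exact div_le_div_of_nonneg_right h1.le hl.le

theorem poly_formula {κ m : ℕ} {F : Polynomial ℤ} (hdeg : F.natDegree ≤ κ)
    (hF : ∀ l : ℕ, l.Prime → ∃ n : ℤ, ¬ (l : ℤ) ∣ F.eval n) {D : ℝ} (hD : 0 < D)
    (hlim : Tendsto (fun z : ℕ => V F z * Real.log z ^ m) atTop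
      (𝓝 (Real.exp (-(m * Real.eulerMascheroniConstant)) * D)))
    (Q : (ℕ → Prop) → ℕ → Prop) (hQ : ∀ z n : ℕ, Q (Rough z) n ↔ ∀ l : ℕ, l.Prime → l ≤ z → ¬ QF F l n) :
    Formula m Q D := by
  intro ε hε
  obtain ⟨δ, hδ, -, -, H⟩ := poly_count κ ε hε
  refine ⟨δ / 3, by positivity, fun b hb => ?_⟩
  obtain ⟨P₁, H⟩ := H (b + 2) (by omega)
  have hc : 0 < Real.exp (-(m * Real.eulerMascheroniConstant)) * D := mul_pos (Real.exp_pos _) hD
  obtain ⟨Z₀, hZ2, hZ⟩ := V_relm m hc hlim ((1 / 2) ^ (b + 2)) (by positivity)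
  refine ⟨max P₁ (max 2 (Real.exp Z₀)), ?_⟩
  intro p hp hpP ι s v hv M L z hL hz1 hz2
  have hp1 : P₁ ≤ p := (le_max_left _ _).trans hpP
  have hp2 : (2 : ℝ) ≤ p := (le_max_left _ _).trans ((le_max_right _ _).trans hpP)
  have hpZ : Real.exp Z₀ ≤ p := (le_max_right _ _).trans ((le_max_right _ _).trans hpP)
  have hp0 : (0 : ℝ) < p := by linarith
  have hzZ : Z₀ ≤ z := by
    have h1 : (Z₀ : ℝ) ≤ z := ((Real.le_log_iff_exp_le hp0).2 hpZ).trans hz1
    exact_mod_cast h1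
  have hbr : (1 : ℝ) ≤ b := by exact_mod_cast hb
  have h1 := H p hp1 F hdeg hF ι s v hv M L z
    ((Real.rpow_le_rpow_of_exponent_le (by linarith) (by linarith)).trans hL) (by omega)
    (hz2.trans (Real.rpow_le_rpow_of_exponent_le (by linarith) (by
      rw [div_div, div_le_div_iff₀ (by positivity) (by positivity)]
      push_cast
      nlinarith)))
  have h2 := hZ z hzZ
  have hl0 : 0 < Real.log z := Real.log_pos (by exact_mod_cast (by omega : 1 < z))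
  have hl : 0 < Real.log z ^ m := pow_pos hl0 m
  rw [number_eq p s v M L _ (fun x => ∀ l : ℕ, l.Prime → l ≤ z → ¬ QF F l x.2)]
  swap
  · intro x
    exact hQ z x.2
  obtain ⟨Xx, hXx⟩ : ∃ Xx : ℝ, Xx = s.card * ((L : ℝ) / p) := ⟨_, rfl⟩
  obtain ⟨T, hT⟩ : ∃ T : ℝ, T = Real.exp (-(m * Real.eulerMascheroniConstant)) * D / Real.log z ^ m := ⟨_, rfl⟩
  obtain ⟨N, hN⟩ : ∃ N : ℝ, N = ((((prs p s v M L).filter fun x => ∀ l : ℕ, l.Prime → l ≤ z →
    ¬ QF F l x.2).card : ℕ) : ℝ) := ⟨_, rfl⟩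
  obtain ⟨q, hq⟩ : ∃ q : ℝ, q = (1 / 2) ^ (b + 2) := ⟨_, rfl⟩
  rw [← hXx, ← hN, ← hq] at h1
  rw [← hT, ← hq] at h2
  have e1 : Real.exp (-((m : ℝ) * Real.eulerMascheroniConstant)) * (D * Xx / Real.log z ^ m) = Xx * T := by
    rw [hT]
    ring
  rw [← hXx, e1, ← hN]
  have hX0 : 0 ≤ Xx := by rw [hXx]; positivity
  have hT0 : 0 < T := by rw [hT]; exact div_pos hc hl
  have hq0 : 0 < q := by rw [hq]; positivity
  have hq4 : (1 / 2 : ℝ) ^ b = 4 * q := by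
    rw [hq, pow_add]
    ring
  have hq1 : q ≤ 1 := by
    rw [hq]
    exact pow_le_one₀ (by norm_num) (by norm_num)
  rw [hq4]
  have h3 : |Xx * V F z - Xx * T| ≤ q * (Xx * T) := by
    rw [← mul_sub, abs_mul, abs_of_nonneg hX0]
    calc Xx * |V F z - T| ≤ Xx * (q * T) := mul_le_mul_of_nonneg_left h2 hX0
      _ = _ := by ring
  have h4 : Xx * V F z ≤ 2 * (Xx * T) := by
    have := (abs_le.1 h3).2
    have h5 : q * (Xx * T) ≤ 1 * (Xx * T) := mul_le_mul_of_nonneg_right hq1 (by positivity)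
    linarith
  have h6 : |N - Xx * T| ≤ |N - Xx * V F z| + |Xx * V F z - Xx * T| := by
    have := abs_add_le (N - Xx * V F z) (Xx * V F z - Xx * T)
    simpa using this
  have h7 : q * (Xx * V F z) ≤ q * (2 * (Xx * T)) := mul_le_mul_of_nonneg_left h4 hq0.le
  have h8 : 0 ≤ q * (Xx * T) := by positivity
  linarith

theorem poly_orders' {κ m k : ℕ} {Fs : Fin k → Polynomial ℤ} (hdeg : (∏ j, Fs j).natDegree ≤ κ)
    (hdeg1 : ∀ j, 1 ≤ (Fs j).natDegree)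
    (hF : ∀ l : ℕ, l.Prime → ∃ n : ℤ, ¬ (l : ℤ) ∣ (∏ j, Fs j).eval n) {D : ℝ} (hD : 0 < D)
    (hlim : Tendsto (fun z : ℕ => V (∏ j, Fs j) z * Real.log z ^ m) atTop
      (𝓝 (Real.exp (-(m * Real.eulerMascheroniConstant)) * D)))
    (Q : (ℕ → Prop) → ℕ → Prop)
    (hQ : ∀ (P : ℕ → Prop) (n : ℕ), Q P n ↔ ∀ j, P ((Fs j).eval (n : ℤ)).natAbs)
    (B : ℝ) (hB : ∀ j i, |((Fs j).coeff i : ℝ)| ≤ B) :
    Orders m Q := by
  intro ε A hε hA
  obtain ⟨r, δ, hδ, -, -, P₁, H⟩ := poly_orders κ ε A hε hA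
  set c : ℝ := Real.exp (-(m * Real.eulerMascheroniConstant)) * D with hcdef
  have hc : 0 < c := mul_pos (Real.exp_pos _) hD
  obtain ⟨Z₀, hZ2, hZ⟩ := V_relm m hc hlim (1 / 2) (by norm_num)
  obtain ⟨P₂, hP₂⟩ := eventually_atTop.1 ((tendsto_rpow_atTop hδ).eventually_ge_atTop ((Z₀ : ℝ) + 4))
  refine ⟨r, δ, 4 * δ ^ m / c + 3 * c * 2 ^ m / δ ^ m, hδ, by positivity, max P₁ (max P₂ (max B 2)), ?_⟩
  intro p hp hpP ι s v hv M L hML hL
  have hp1 : P₁ ≤ p := (le_max_left _ _).trans hpP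
  have hp2 : P₂ ≤ p := (le_max_left _ _).trans ((le_max_right _ _).trans hpP)
  have hpB : B ≤ p := (le_max_left _ _).trans ((le_max_right _ _).trans ((le_max_right _ _).trans hpP))
  have hp3 : (2 : ℝ) ≤ p := (le_max_right _ _).trans ((le_max_right _ _).trans ((le_max_right _ _).trans hpP))
  have hp0 : (0 : ℝ) < p := by linarith
  have hpA : (p : ℝ) ≤ (p : ℝ) ^ A := by
    calc (p : ℝ) = (p : ℝ) ^ (1 : ℝ) := (Real.rpow_one _).symm
      _ ≤ _ := Real.rpow_le_rpow_of_exponent_le (by linarith) hA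
  obtain ⟨h1, h2⟩ := H p hp1 k Fs hdeg1 hdeg hF
    (fun j i => (hB j i).trans (hpB.trans hpA)) ι s v hv M L hML hL
  have hpδ := hP₂ p hp2
  set z : ℕ := ⌊(p : ℝ) ^ δ⌋₊ with hz
  have hz1 : (z : ℝ) ≤ (p : ℝ) ^ δ := Nat.floor_le (by positivity)
  have hz2 : (p : ℝ) ^ δ ≤ z + 1 := (Nat.lt_floor_add_one _).le
  have hzZ : Z₀ + 3 ≤ z := by
    have : ((Z₀ + 3 : ℕ) : ℝ) ≤ z := by push_cast; linarith
    exact_mod_cast this
  have h3 := hZ z (by omega)
  have hzr : (5 : ℝ) ≤ z := by exact_mod_cast (by omega : 5 ≤ z)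
  have hlz : 0 < Real.log z := Real.log_pos (by linarith)
  have hlp : 0 < Real.log p := Real.log_pos (by linarith)
  have hl1 : Real.log z ≤ δ * Real.log p := by
    rw [← Real.log_rpow hp0]
    exact Real.log_le_log (by linarith) hz1
  have hl2 : δ * Real.log p ≤ 2 * Real.log z := by
    rw [← Real.log_rpow hp0]
    have h5 : (p : ℝ) ^ δ ≤ (z : ℝ) ^ 2 := by nlinarith
    calc Real.log ((p : ℝ) ^ δ) ≤ Real.log ((z : ℝ) ^ 2) := Real.log_le_log (by positivity) h5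
      _ = _ := by rw [Real.log_pow]; norm_num
  have hl1m : Real.log z ^ m ≤ δ ^ m * Real.log p ^ m := by
    rw [← mul_pow]
    exact pow_le_pow_left₀ hlz.le hl1 m
  have hl2m : δ ^ m * Real.log p ^ m ≤ 2 ^ m * Real.log z ^ m := by
    rw [← mul_pow, ← mul_pow]
    exact pow_le_pow_left₀ (by positivity) hl2 m
  have hlzm : 0 < Real.log z ^ m := pow_pos hlz m
  have hlpm : 0 < Real.log p ^ m := pow_pos hlp m
  have hδm : 0 < δ ^ m := pow_pos hδ m
  have hVlo : c / (2 * (δ ^ m * Real.log p ^ m)) ≤ V (∏ j, Fs j) z := by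
    have h5 := (abs_le.1 h3).1
    have h6 : c / (δ ^ m * Real.log p ^ m) ≤ c / Real.log z ^ m := div_le_div_of_nonneg_left hc.le hlzm hl1m
    have h7 : c / (2 * (δ ^ m * Real.log p ^ m)) = 1 / 2 * (c / (δ ^ m * Real.log p ^ m)) := by
      field_simp
    rw [h7]
    linarith
  have hVup : V (∏ j, Fs j) z ≤ 3 / 2 * (2 ^ m * c / (δ ^ m * Real.log p ^ m)) := by
    have h5 := (abs_le.1 h3).2
    have h6 : c / Real.log z ^ m ≤ 2 ^ m * c / (δ ^ m * Real.log p ^ m) := by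
      rw [div_le_div_iff₀ hlzm (by positivity)]
      calc c * (δ ^ m * Real.log p ^ m) ≤ c * (2 ^ m * Real.log z ^ m) := mul_le_mul_of_nonneg_left hl2m hc.le
        _ = _ := by ring
    linarith
  have hX0 : (0 : ℝ) ≤ s.card * ((L : ℝ) / p) := by positivity
  obtain ⟨Xx, hXx⟩ : ∃ Xx : ℝ, Xx = s.card * ((L : ℝ) / p) := ⟨_, rfl⟩
  rw [← hXx] at h1 h2 hX0 ⊢
  constructor
  · rw [number_eq p s v M L _ (fun x => ∀ j, Alm r ((p : ℝ) ^ δ) ((Fs j).eval (x.2 : ℤ)).natAbs)]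
    swap
    · intro x
      exact hQ _ x.2
    obtain ⟨N, hN⟩ : ∃ N : ℝ, N = ((((prs p s v M L).filter fun x =>
      ∀ j, Alm r ((p : ℝ) ^ δ) ((Fs j).eval (x.2 : ℤ)).natAbs).card : ℕ) : ℝ) := ⟨_, rfl⟩
    rw [← hN] at h1 ⊢
    have hN0 : 0 ≤ N := by rw [hN]; positivity
    have h5 : Xx * (c / (2 * (δ ^ m * Real.log p ^ m))) ≤ 2 * N := (mul_le_mul_of_nonneg_left hVlo hX0).trans h1
    have h6 : Xx / Real.log p ^ m = (2 * δ ^ m / c) * (Xx * (c / (2 * (δ ^ m * Real.log p ^ m)))) := by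
      field_simp
    rw [h6]
    calc (2 * δ ^ m / c) * (Xx * (c / (2 * (δ ^ m * Real.log p ^ m)))) ≤ (2 * δ ^ m / c) * (2 * N) :=
          mul_le_mul_of_nonneg_left h5 (by positivity)
      _ = 4 * δ ^ m / c * N := by ring
      _ ≤ (4 * δ ^ m / c + 3 * c * 2 ^ m / δ ^ m) * N := mul_le_mul_of_nonneg_right (by
          have : 0 ≤ 3 * c * 2 ^ m / δ ^ m := by positivity
          linarith) hN0
  · rw [number_eq p s v M L _ (fun x => ∀ j, ((Fs j).eval (x.2 : ℤ)).natAbs.Prime)]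
    swap
    · intro x
      exact hQ _ x.2
    refine h2.trans ?_
    have h5 : Xx * V (∏ j, Fs j) z ≤ Xx * (3 / 2 * (2 ^ m * c / (δ ^ m * Real.log p ^ m))) :=
      mul_le_mul_of_nonneg_left hVup hX0
    have h6 : 2 * (Xx * (3 / 2 * (2 ^ m * c / (δ ^ m * Real.log p ^ m)))) =
        3 * c * 2 ^ m / δ ^ m * (Xx / Real.log p ^ m) := by
      field_simp
    have h7 : 0 ≤ Xx / Real.log p ^ m := by positivity
    calc 2 * (Xx * V (∏ j, Fs j) z) ≤ 2 * (Xx * (3 / 2 * (2 ^ m * c / (δ ^ m * Real.log p ^ m)))) := by linarith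
      _ = 3 * c * 2 ^ m / δ ^ m * (Xx / Real.log p ^ m) := h6
      _ ≤ (4 * δ ^ m / c + 3 * c * 2 ^ m / δ ^ m) * (Xx / Real.log p ^ m) := mul_le_mul_of_nonneg_right (by
          have : 0 ≤ 4 * δ ^ m / c := by positivity
          linarith) h7

end Pool.Agent.Run7.h90.AU
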