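import Pool.Agent.Run7.h90.AU.QuadG

/-!
# Primes `x` with `x ^ 2 - 2` prime, and sums of two such numbers
-/

set_option autoImplicit false
set_option linter.all false

namespace Pool.Agent.Run7.h90.AU

open Finset Filter Topology
open Run7.h870.LI
open Pool.Agent.Run7.h90.AP
open Pool.Agent.Y781.JR (GG GG_pos GG_mertens RR RR_conv rho_eq)
open scoped Classical
open Polynomial (X C)

/-- The product of the factors `(1 - (2 + (2 / q)) / q) / (1 - 1 / q) ^ 2` over the odd primes `q ≤ z`, times `2`; here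
`(2 / q)` is the Legendre symbol. -/
noncomputable def shiftedSquareSeries (z : ℕ) : ℝ :=
  2 * ∏ q ∈ (range (z + 1)).filter (fun q : ℕ => q.Prime ∧ q ≠ 2),
    ((1 - (2 + (jacobiSym 2 q : ℝ)) / q) / (1 - 1 / (q : ℝ)) ^ 2)

noncomputable def corr (q : ℕ) : ℝ :=
  1 - (1 + (jacobiSym 2 q : ℝ)) / (((q : ℝ) - 1) * ((q : ℝ) - 1 - (jacobiSym 2 q : ℝ)))

theorem jac3 : jacobiSym 2 3 = -1 := by
  rw [jacobiSym.at_two (by decide)]
  decide

theorem corr_bounds {q : ℕ} (hq : q.Prime) (h2 : q ≠ 2) : 0 < corr q ∧ corr q ≤ 1 ∧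
    (5 ≤ q → 1 - 2 / (((q : ℝ) - 1) * ((q : ℝ) - 2)) ≤ corr q) := by
  have h3 : 3 ≤ q := by
    have := hq.two_le
    omega
  have h3r : (3 : ℝ) ≤ q := by exact_mod_cast h3
  unfold corr
  rcases jacobiSym.trichotomy 2 q with h | h | h
  · rw [h]
    push_cast
    have e : ((q : ℝ) - 1 - 0) = q - 1 := by ring
    rw [e]
    have h1 : (4 : ℝ) ≤ ((q : ℝ) - 1) * (q - 1) := by nlinarith
    have h4 : (1 + (0 : ℝ)) / (((q : ℝ) - 1) * (q - 1)) ≤ 1 / 4 := by
      rw [div_le_div_iff₀ (by linarith) (by norm_num)]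
      linarith
    have h5 : 0 ≤ (1 + (0 : ℝ)) / (((q : ℝ) - 1) * (q - 1)) := by positivity
    refine ⟨by linarith, by linarith, fun h5q => ?_⟩
    have h6 : (1 + (0 : ℝ)) / (((q : ℝ) - 1) * (q - 1)) ≤ 2 / (((q : ℝ) - 1) * ((q : ℝ) - 2)) := by
      have h7 : (0 : ℝ) < ((q : ℝ) - 1) * ((q : ℝ) - 2) := by nlinarith
      rw [div_le_div_iff₀ (by linarith) h7]
      nlinarith
    linarith
  · have hq3 : q ≠ 3 := by
      rintro rfl
      rw [jac3] at h
      norm_num at h
    have hq5 : (5 : ℝ) ≤ q := by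
      have h4 : q ≠ 4 := by
        rintro rfl
        norm_num at hq
      exact_mod_cast (by omega : 5 ≤ q)
    rw [h]
    push_cast
    have e : ((q : ℝ) - 1 - 1) = q - 2 := by ring
    rw [e]
    have h1 : (12 : ℝ) ≤ ((q : ℝ) - 1) * (q - 2) := by nlinarith
    have h4 : (1 + (1 : ℝ)) / (((q : ℝ) - 1) * (q - 2)) ≤ 1 / 6 := by
      rw [div_le_div_iff₀ (by linarith) (by norm_num)]
      linarith
    have h5 : 0 ≤ (1 + (1 : ℝ)) / (((q : ℝ) - 1) * (q - 2)) := by
      apply div_nonneg (by norm_num) (by linarith)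
    refine ⟨by linarith, by linarith, fun h5q => ?_⟩
    norm_num
  · rw [h]
    push_cast
    have e : (1 : ℝ) + -1 = 0 := by ring
    rw [e, zero_div]
    refine ⟨by norm_num, by norm_num, fun h5q => ?_⟩
    have h5r : (5 : ℝ) ≤ q := by exact_mod_cast h5q
    have : 0 ≤ 2 / (((q : ℝ) - 1) * ((q : ℝ) - 2)) := by
      apply div_nonneg (by norm_num)
      nlinarith
    linarith

/-- partial products of the correction factors -/
noncomputable def CC (z : ℕ) : ℝ := ∏ q ∈ (range (z + 1)).filter (fun q : ℕ => q.Prime ∧ q ≠ 2), corr q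

theorem CC_anti : Antitone CC := by
  intro z w h
  unfold CC
  refine prod_le_prod_of_subset_of_le_one ?_ (fun l hl => ?_) (fun l hl _ => ?_)
  · exact filter_subset_filter _ (range_subset_range.2 (by omega))
  · exact (corr_bounds (mem_filter.1 hl).2.1 (mem_filter.1 hl).2.2).1.le
  · exact (corr_bounds (mem_filter.1 hl).2.1 (mem_filter.1 hl).2.2).2.1

theorem tele (z : ℕ) : (1 : ℝ) / 2 ≤ ∏ l ∈ Ico 5 (z + 5), (1 - 2 / (((l : ℝ) - 1) * ((l : ℝ) - 2))) := by
  have h : ∀ z : ℕ, ∏ l ∈ Ico 5 (z + 5), (1 - 2 / (((l : ℝ) - 1) * ((l : ℝ) - 2))) =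
      (z + 4) / (2 * (z + 2)) := by
    intro z
    induction z with
    | zero => norm_num
    | succ z ih =>
      rw [show z + 1 + 5 = (z + 5) + 1 by ring, prod_Ico_succ_top (by omega), ih]
      push_cast
      have hz : (0 : ℝ) ≤ z := Nat.cast_nonneg z
      have h1 : (z : ℝ) + 5 - 1 ≠ 0 := by linarith
      have h2 : (z : ℝ) + 5 - 2 ≠ 0 := by linarith
      have h3 : (z : ℝ) + 2 ≠ 0 := by linarith
      have h4 : (z : ℝ) + 1 + 2 ≠ 0 := by linarith
      field_simp
      ring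
  rw [h]
  have hz : (0 : ℝ) ≤ z := Nat.cast_nonneg z
  rw [div_le_div_iff₀ (by norm_num) (by linarith)]
  linarith

theorem CC_low (z : ℕ) : (1 : ℝ) / 2 ≤ CC z := by
  have h1 : CC (z + 4) ≤ CC z := CC_anti (by omega)
  refine le_trans ?_ h1
  have h3 : corr 3 = 1 := by
    unfold corr
    rw [jac3]
    norm_num
  unfold CC
  have hsplit : ∏ q ∈ (range (z + 4 + 1)).filter (fun q : ℕ => q.Prime ∧ q ≠ 2), corr q =
      ∏ q ∈ (Ico 5 (z + 5)).filter (fun q : ℕ => q.Prime ∧ q ≠ 2), corr q := by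
    symm
    apply prod_subset
    · intro q hq
      rw [mem_filter, mem_Ico] at hq
      rw [mem_filter, mem_range]
      exact ⟨by omega, hq.2⟩
    · intro q hq hq2
      rw [mem_filter, mem_range] at hq
      rw [mem_filter, mem_Ico] at hq2
      have h5 : q < 5 := by
        by_contra hcon
        exact hq2 ⟨⟨by omega, by omega⟩, hq.2⟩
      have h6 := hq.2.1.two_le
      have h7 : q ≠ 4 := by
        rintro rfl
        have := hq.2.1
        norm_num at this
      have h8 : q = 3 := by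
        have := hq.2.2
        omega
      rw [h8]
      exact h3
  rw [hsplit]
  calc (1 : ℝ) / 2 ≤ ∏ l ∈ Ico 5 (z + 5), (1 - 2 / (((l : ℝ) - 1) * ((l : ℝ) - 2))) := tele z
    _ ≤ ∏ l ∈ (Ico 5 (z + 5)).filter (fun q : ℕ => q.Prime ∧ q ≠ 2), (1 - 2 / (((l : ℝ) - 1) * ((l : ℝ) - 2))) := by
        refine prod_le_prod_of_subset_of_le_one (filter_subset _ _) (fun l hl => ?_) (fun l hl _ => ?_)
        · have h5 : (5 : ℝ) ≤ l := by exact_mod_cast (mem_Ico.1 hl).1
          have h6 : (12 : ℝ) ≤ ((l : ℝ) - 1) * ((l : ℝ) - 2) := by nlinarith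
          have h7 : 2 / (((l : ℝ) - 1) * ((l : ℝ) - 2)) ≤ 1 / 6 := by
            rw [div_le_div_iff₀ (by linarith) (by norm_num)]
            linarith
          linarith
        · have h5 : (5 : ℝ) ≤ l := by exact_mod_cast (mem_Ico.1 hl).1
          have h6 : (12 : ℝ) ≤ ((l : ℝ) - 1) * ((l : ℝ) - 2) := by nlinarith
          have h7 : 0 ≤ 2 / (((l : ℝ) - 1) * ((l : ℝ) - 2)) := div_nonneg (by norm_num) (by linarith)
          linarith
    _ ≤ _ := by
        refine prod_le_prod (fun l hl => ?_) (fun l hl => ?_)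
        · rw [mem_filter, mem_Ico] at hl
          have h5 : (5 : ℝ) ≤ l := by exact_mod_cast hl.1.1
          have h6 : (12 : ℝ) ≤ ((l : ℝ) - 1) * ((l : ℝ) - 2) := by nlinarith
          have h7 : 2 / (((l : ℝ) - 1) * ((l : ℝ) - 2)) ≤ 1 / 6 := by
            rw [div_le_div_iff₀ (by linarith) (by norm_num)]
            linarith
          linarith
        · rw [mem_filter, mem_Ico] at hl
          exact (corr_bounds hl.2.1 hl.2.2).2.2 hl.1.1

theorem CC_lim : ∃ c : ℝ, 0 < c ∧ Tendsto CC atTop (𝓝 c) :=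
  ⟨⨅ z, CC z, lt_of_lt_of_le (by norm_num : (0 : ℝ) < 1 / 2) (le_ciInf CC_low),
    tendsto_atTop_ciInf CC_anti ⟨1 / 2, by rintro _ ⟨z, rfl⟩; exact CC_low z⟩⟩

theorem series_eq (z : ℕ) : shiftedSquareSeries z = 2 * RR (-2) (z + 1) * CC z := by
  unfold shiftedSquareSeries RR CC
  rw [mul_assoc, ← prod_mul_distrib]
  congr 1
  refine prod_congr rfl fun q hq => ?_
  rw [mem_filter] at hq
  have h2 := hq.2.1.two_le
  have h3 : 3 ≤ q := by
    have := hq.2.2
    omega
  have h3r : (3 : ℝ) ≤ q := by exact_mod_cast h3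
  unfold corr
  rw [neg_neg]
  have hb : ((q : ℝ) - 1 - (jacobiSym 2 q : ℝ)) ≠ 0 := by
    rcases jacobiSym.trichotomy 2 q with h | h | h <;> rw [h] <;> push_cast <;> intro h0 <;> linarith
  have h4 : (q : ℝ) ≠ 0 := by linarith
  have h5 : (q : ℝ) - 1 ≠ 0 := by linarith
  have h6 : (1 : ℝ) - 1 / q = (q - 1) / q := by field_simp
  rw [h6]
  obtain ⟨t, ht⟩ : ∃ t : ℝ, t = (jacobiSym 2 q : ℝ) := ⟨_, rfl⟩
  rw [← ht] at hb ⊢
  field_simp
  ring

theorem series_lim : ∃ D : ℝ, 0 < D ∧ Tendsto shiftedSquareSeries atTop (𝓝 D) := by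
  have hs : ¬ IsSquare (-(-2) : ℤ) := by
    rintro ⟨r, hr⟩
    have h1 : r ≤ 1 := by nlinarith
    have h2 : -1 ≤ r := by nlinarith
    interval_cases r <;> omega
  obtain ⟨c₁, hc1, h1⟩ := RR_conv (-2) hs
  obtain ⟨c₂, hc2, h2⟩ := CC_lim
  refine ⟨2 * c₁ * c₂, by positivity, ?_⟩
  have h3 := ((h1.comp (tendsto_add_atTop_nat 1)).const_mul 2).mul h2
  refine h3.congr (fun z => ?_)
  rw [series_eq]
  rfl

noncomputable def FC : Polynomial ℤ := X ^ 2 - C 2

theorem FC_eval (n : ℤ) : FC.eval n = n ^ 2 - 2 := by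
  unfold FC; simp

noncomputable def FP : Fin 2 → Polynomial ℤ := ![X, FC]

theorem FP_prod : ∏ j, FP j = X * FC := by
  unfold FP
  rw [Fin.prod_univ_two]
  rfl

theorem FP_eval (n : ℤ) : (∏ j, FP j).eval n = n * (n ^ 2 - 2) := by
  rw [FP_prod, Polynomial.eval_mul, Polynomial.eval_X, FC_eval]

theorem rr_pair {l : ℕ} (hl : l.Prime) : (rr (QF (∏ j, FP j)) l : ℝ) =
    if l = 2 then 1 else 2 + (jacobiSym 2 l : ℝ) := by
  unfold rr QF
  simp only [FP_eval]
  split_ifs with h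
  · subst h
    have : ((range 2).filter fun n : ℕ => ((2 : ℕ) : ℤ) ∣ (n : ℤ) * ((n : ℤ) ^ 2 - 2)) = {0} := by
      ext m
      simp only [mem_filter, mem_range, mem_singleton]
      constructor
      · rintro ⟨h1, h2⟩
        interval_cases m
        · rfl
        · norm_num at h2
      · rintro rfl
        norm_num
    rw [this, card_singleton]
    norm_num
  · have hu : ((range l).filter fun n : ℕ => (l : ℤ) ∣ (n : ℤ) * ((n : ℤ) ^ 2 - 2)) =
        {0} ∪ ((range l).filter fun n : ℕ => (l : ℤ) ∣ (n : ℤ) ^ 2 + (-2)) := by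
      ext m
      simp only [mem_filter, mem_range, mem_union, mem_singleton]
      constructor
      · rintro ⟨h1, h2⟩
        rcases (Nat.prime_iff_prime_int.1 hl).dvd_or_dvd h2 with h3 | h3
        · left
          have h4 : l ∣ m := by exact_mod_cast h3
          rcases Nat.eq_zero_or_pos m with h5 | h5
          · exact h5
          · have := Nat.le_of_dvd h5 h4
            omega
        · right
          exact ⟨h1, by rwa [← sub_eq_add_neg]⟩
      · rintro (h1 | ⟨h1, h2⟩)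
        · rw [h1]
          exact ⟨hl.pos, by simp⟩
        · refine ⟨h1, Dvd.dvd.mul_left ?_ _⟩
          rwa [sub_eq_add_neg]
    have hd : Disjoint ({0} : Finset ℕ) ((range l).filter fun n : ℕ => (l : ℤ) ∣ (n : ℤ) ^ 2 + (-2)) := by
      rw [disjoint_singleton_left, mem_filter]
      rintro ⟨-, h2⟩
      have h3 : (l : ℤ) ∣ 2 := by
        have : (l : ℤ) ∣ -2 := by simpa using h2
        exact (dvd_neg.1 this)
      have h4 : l ∣ 2 := by exact_mod_cast h3
      exact h ((Nat.prime_dvd_prime_iff_eq hl Nat.prime_two).1 h4)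
    rw [hu, card_union_of_disjoint hd, card_singleton]
    have h3 := Pool.Agent.Y882.SI.ro_quad (-2) l hl h
    have h5 := rho_eq (-2) l
    have h6 : ((((range l).filter fun n : ℕ => (l : ℤ) ∣ (n : ℤ) ^ 2 + (-2)).card : ℕ) : ℝ) =
        1 + (jacobiSym 2 l : ℝ) := by
      have h7 : ((range l).filter fun n : ℕ => (l : ℤ) ∣ (n : ℤ) ^ 2 + (-2)).card =
          ((Finset.range l).filter (fun m : ℕ => (l : ℤ) ∣ (m : ℤ) ^ 2 + (-2))).card := by
        congr
      rw [h7, h5]
      rw [neg_neg] at h3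
      exact_mod_cast h3
    push_cast
    rw [h6]
    ring

end Pool.Agent.Run7.h90.AU
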