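import Pool.Agent.Run7.h90.AU.QuadH

/-!
# Primes `x` with `x ^ 2 - 2` prime, and sums of two such numbers: conclusions
-/

set_option autoImplicit false
set_option linter.all false

namespace Pool.Agent.Run7.h90.AU

open Finset Filter Topology
open Run7.h870.LI
open Pool.Agent.Run7.h90.AP
open Pool.Agent.Y781.JR (GG GG_pos GG_mertens RR RR_conv rho_eq)
open scoped Classical
open Polynomial (X C)

theorem V_pairP {z : ℕ} (hz : 2 ≤ z) : V (∏ j, FP j) z = GG (z + 1) ^ 2 * shiftedSquareSeries z := by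
  unfold V GG shiftedSquareSeries
  rw [← filter_filter, prod_filter (s := (range (z + 1)).filter Nat.Prime)]
  have h2 : (2 : ℝ) = ∏ q ∈ (range (z + 1)).filter Nat.Prime, if q = 2 then (2 : ℝ) else 1 := by
    rw [prod_ite_eq', if_pos]
    rw [mem_filter, mem_range]
    exact ⟨by omega, Nat.prime_two⟩
  rw [← prod_pow]
  conv_rhs => rw [show (2 : ℝ) * (∏ a ∈ (range (z + 1)).filter Nat.Prime, if a ≠ 2 then
      ((1 - (2 + (jacobiSym 2 a : ℝ)) / a) / (1 - 1 / (a : ℝ)) ^ 2) else 1) =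
      (∏ q ∈ (range (z + 1)).filter Nat.Prime, if q = 2 then (2 : ℝ) else 1) *
      (∏ a ∈ (range (z + 1)).filter Nat.Prime, if a ≠ 2 then
      ((1 - (2 + (jacobiSym 2 a : ℝ)) / a) / (1 - 1 / (a : ℝ)) ^ 2) else 1) by rw [← h2]]
  rw [← prod_mul_distrib, ← prod_mul_distrib]
  refine prod_congr rfl fun q hq => ?_
  have hqp := (mem_filter.1 hq).2
  rw [rr_pair hqp]
  by_cases h : q = 2
  · rw [if_pos h, if_pos h, if_neg (by simp [h]), h]
    norm_num
  · rw [if_neg h, if_neg h, if_pos h]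
    have h3 : (2 : ℝ) ≤ q := by exact_mod_cast hqp.two_le
    have h4 : (1 : ℝ) - 1 / q ≠ 0 := by
      have : (1 : ℝ) / q ≤ 1 / 2 := one_div_le_one_div_of_le (by norm_num) h3
      linarith
    have h5 : (q : ℝ) - 1 ≠ 0 := by linarith
    field_simp

theorem limP : ∃ D : ℝ, 0 < D ∧ Tendsto shiftedSquareSeries atTop (𝓝 D) ∧
    Tendsto (fun z : ℕ => V (∏ j, FP j) z * Real.log z ^ 2) atTop
      (𝓝 (Real.exp (-(((2 : ℕ) : ℝ) * Real.eulerMascheroniConstant)) * D)) := by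
  obtain ⟨D, hD, h⟩ := series_lim
  refine ⟨D, hD, h, ?_⟩
  have h1 := (GG_mertens.pow 2).mul h
  have e : Real.exp (-(((2 : ℕ) : ℝ) * Real.eulerMascheroniConstant)) =
      Real.exp (-Real.eulerMascheroniConstant) ^ 2 := by
    rw [← Real.exp_nat_mul]
    congr 1
    ring
  rw [e]
  refine h1.congr' ?_
  filter_upwards [eventually_ge_atTop 2] with z hz
  rw [V_pairP hz]
  ring

theorem FC_deg : FC.natDegree = 2 := by
  unfold FC
  compute_degree!

theorem FP_adm (l : ℕ) (hl : l.Prime) : ∃ n : ℤ, ¬ (l : ℤ) ∣ (∏ j, FP j).eval n := by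
  refine ⟨1, fun h => ?_⟩
  rw [FP_eval] at h
  have h1 : (l : ℤ) ∣ 1 := by
    have : (l : ℤ) ∣ -1 := by simpa using h
    exact dvd_neg.1 this
  have h2 : l ∣ 1 := by exact_mod_cast h1
  exact hl.one_lt.ne' (Nat.dvd_one.1 h2)

/-- The numbers `x` and `|x ^ 2 - 2|` have the property `P`. -/
def Shifted (P : ℕ → Prop) (x : ℕ) : Prop := P x ∧ P ((x : ℤ) ^ 2 - 2).natAbs

theorem FP_all (P : ℕ → Prop) (n : ℕ) : Shifted P n ↔ ∀ j, P ((FP j).eval (n : ℤ)).natAbs := by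
  unfold Shifted
  rw [Fin.forall_fin_two]
  unfold FP
  simp only [Matrix.cons_val_zero, Matrix.cons_val_one, Polynomial.eval_X, Int.natAbs_natCast]
  try simp only [Matrix.cons_val_fin_one]
  rw [FC_eval]

theorem rough_natAbs (z : ℕ) (m : ℤ) : Rough z m.natAbs ↔ ∀ l : ℕ, l.Prime → l ≤ z → ¬ (l : ℤ) ∣ m := by
  unfold Rough
  simp only [Int.natCast_dvd]

theorem all_rough {k : ℕ} (Fs : Fin k → Polynomial ℤ) (z : ℕ) (n : ℤ) :
    (∀ j, Rough z ((Fs j).eval n).natAbs) ↔ ∀ l : ℕ, l.Prime → l ≤ z → ¬ (l : ℤ) ∣ (∏ j, Fs j).eval n := by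
  simp only [rough_natAbs, Polynomial.eval_prod]
  constructor
  · intro h l hl hlz hd
    obtain ⟨j, -, hj⟩ := (Prime.dvd_finset_prod_iff (Nat.prime_iff_prime_int.1 hl) _).1 hd
    exact h j l hl hlz hj
  · intro h j l hl hlz hd
    exact h l hl hlz (hd.trans (dvd_prod_of_mem (fun j => (Fs j).eval n) (mem_univ j)))

theorem FP_coeff (j : Fin 2) (i : ℕ) : |(((FP j).coeff i : ℤ) : ℝ)| ≤ 3 := by
  fin_cases j
  · show |((((X : Polynomial ℤ)).coeff i : ℤ) : ℝ)| ≤ 3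
    rw [Polynomial.coeff_X]
    split_ifs <;> norm_num
  · show |(((FC).coeff i : ℤ) : ℝ)| ≤ 3
    unfold FC
    rw [Polynomial.coeff_sub, Polynomial.coeff_X_pow, Polynomial.coeff_C]
    split_ifs <;> norm_num

theorem FP_d (j : Fin 2) : 1 ≤ (FP j).natDegree := by
  fin_cases j
  · show 1 ≤ (X : Polynomial ℤ).natDegree
    rw [Polynomial.natDegree_X]
  · show 1 ≤ (FC).natDegree
    rw [FC_deg]
    norm_num

theorem FP_deg3 : (∏ j, FP j).natDegree ≤ 3 := by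
  rw [FP_prod]
  refine Polynomial.natDegree_mul_le.trans ?_
  rw [Polynomial.natDegree_X, FC_deg]

/-- Both conclusions for `x`, `x ^ 2 - 2`. -/
theorem pairP : ∃ D : ℝ, 0 < D ∧ Tendsto shiftedSquareSeries atTop (𝓝 D) ∧ Formula 2 Shifted D ∧ Orders 2 Shifted := by
  obtain ⟨D, hD, h1, h2⟩ := limP
  refine ⟨D, hD, h1, poly_formula FP_deg3 FP_adm hD h2 Shifted (fun z n => ?_),
    poly_orders' FP_deg3 FP_d FP_adm hD h2 Shifted FP_all 3 FP_coeff⟩
  rw [FP_all, all_rough]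
  rfl

/-- The numbers `x`, `|x ^ 2 - 2|`, `y` and `|y ^ 2 - 2|`, where `y = |N - x|`, have the property `P`. -/
def ShiftedSum (N : ℕ) (P : ℕ → Prop) (x : ℕ) : Prop :=
  P x ∧ P ((x : ℤ) ^ 2 - 2).natAbs ∧ P ((N : ℤ) - x).natAbs ∧ P (((N : ℤ) - x) ^ 2 - 2).natAbs

/-- The number of the residue classes modulo `l` of the solutions of `x (x ^ 2 - 2) (N - x) ((N - x) ^ 2 - 2) ≡ 0`. -/
noncomputable def sumRoots (N l : ℕ) : ℕ :=
  ((range l).filter fun x : ℕ =>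
    (l : ℤ) ∣ (x : ℤ) * ((x : ℤ) ^ 2 - 2) * ((N : ℤ) - x) * (((N : ℤ) - x) ^ 2 - 2)).card

/-- The product of `1 - sumRoots N l / l` over the primes `l ≤ z`. -/
noncomputable def sumDensity (N z : ℕ) : ℝ := ∏ l ∈ (range (z + 1)).filter Nat.Prime, (1 - (sumRoots N l : ℝ) / l)

noncomputable def FS (N : ℕ) : Fin 4 → Polynomial ℤ :=
  ![X, X ^ 2 - C 2, C (N : ℤ) - X, X ^ 2 - C (2 * (N : ℤ)) * X + C ((N : ℤ) ^ 2 - 2)]

theorem FS_eval (N : ℕ) (n : ℤ) : (∏ j, FS N j).eval n =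
    n * (n ^ 2 - 2) * ((N : ℤ) - n) * (((N : ℤ) - n) ^ 2 - 2) := by
  rw [Polynomial.eval_prod, Fin.prod_univ_four]
  unfold FS
  simp
  left
  ring

theorem FS_all (N : ℕ) (P : ℕ → Prop) (n : ℕ) : ShiftedSum N P n ↔ ∀ j, P ((FS N j).eval (n : ℤ)).natAbs := by
  unfold ShiftedSum
  have e : (∀ j, P ((FS N j).eval (n : ℤ)).natAbs) ↔ P ((FS N 0).eval (n : ℤ)).natAbs ∧
      P ((FS N 1).eval (n : ℤ)).natAbs ∧ P ((FS N 2).eval (n : ℤ)).natAbs ∧ P ((FS N 3).eval (n : ℤ)).natAbs := by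
    constructor
    · intro h
      exact ⟨h 0, h 1, h 2, h 3⟩
    · rintro ⟨h0, h1, h2, h3⟩ j
      fin_cases j
      · exact h0
      · exact h1
      · exact h2
      · exact h3
  rw [e]
  have e0 : (FS N 0).eval (n : ℤ) = n := by unfold FS; simp
  have e1 : (FS N 1).eval (n : ℤ) = (n : ℤ) ^ 2 - 2 := by unfold FS; simp
  have e2 : (FS N 2).eval (n : ℤ) = (N : ℤ) - n := by unfold FS; simp
  have e3 : (FS N 3).eval (n : ℤ) = ((N : ℤ) - n) ^ 2 - 2 := by unfold FS; simp; ring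
  rw [e0, e1, e2, e3, Int.natAbs_natCast]

theorem FS_V (N z : ℕ) : V (∏ j, FS N j) z = sumDensity N z := by
  unfold V sumDensity
  refine prod_congr rfl fun l _ => ?_
  have h : rr (QF (∏ j, FS N j)) l = sumRoots N l := by
    unfold rr sumRoots QF
    simp only [FS_eval]
  rw [h]

theorem FS_ndeg (N : ℕ) : (FS N 0).natDegree = 1 ∧ (FS N 1).natDegree = 2 ∧ (FS N 2).natDegree = 1 ∧
    (FS N 3).natDegree = 2 := by
  refine ⟨?_, ?_, ?_, ?_⟩
  · show (X : Polynomial ℤ).natDegree = 1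
    exact Polynomial.natDegree_X
  · show (X ^ 2 - C 2 : Polynomial ℤ).natDegree = 2
    compute_degree!
  · show (C (N : ℤ) - X : Polynomial ℤ).natDegree = 1
    compute_degree!
  · show (X ^ 2 - C (2 * (N : ℤ)) * X + C ((N : ℤ) ^ 2 - 2) : Polynomial ℤ).natDegree = 2
    compute_degree!

theorem FS_d (N : ℕ) (j : Fin 4) : 1 ≤ (FS N j).natDegree := by
  obtain ⟨h0, h1, h2, h3⟩ := FS_ndeg N
  fin_cases j
  · exact h0.ge
  · show 1 ≤ (FS N 1).natDegree
    rw [h1]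
    norm_num
  · exact h2.ge
  · show 1 ≤ (FS N 3).natDegree
    rw [h3]
    norm_num

theorem FS_deg6 (N : ℕ) : (∏ j, FS N j).natDegree ≤ 6 := by
  obtain ⟨h0, h1, h2, h3⟩ := FS_ndeg N
  refine (Polynomial.natDegree_prod_le _ _).trans ?_
  rw [Fin.sum_univ_four, h0, h1, h2, h3]

theorem FS_coeff (N : ℕ) (j : Fin 4) (i : ℕ) : |(((FS N j).coeff i : ℤ) : ℝ)| ≤ (N : ℝ) ^ 2 + 2 * N + 3 := by
  have hN : (0 : ℝ) ≤ N := Nat.cast_nonneg N
  fin_cases j
  · show |((((X : Polynomial ℤ)).coeff i : ℤ) : ℝ)| ≤ _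
    rw [Polynomial.coeff_X]
    split_ifs <;> norm_num <;> nlinarith
  · show |(((X ^ 2 - C 2 : Polynomial ℤ).coeff i : ℤ) : ℝ)| ≤ _
    rw [Polynomial.coeff_sub, Polynomial.coeff_X_pow, Polynomial.coeff_C]
    split_ifs <;> norm_num <;> nlinarith
  · show |(((C (N : ℤ) - X : Polynomial ℤ).coeff i : ℤ) : ℝ)| ≤ _
    rw [Polynomial.coeff_sub, Polynomial.coeff_X, Polynomial.coeff_C]
    split_ifs <;> push_cast <;> rw [abs_le] <;> constructor <;> nlinarith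
  · show |(((X ^ 2 - C (2 * (N : ℤ)) * X + C ((N : ℤ) ^ 2 - 2) : Polynomial ℤ).coeff i : ℤ) : ℝ)| ≤ _
    rw [Polynomial.coeff_add, Polynomial.coeff_sub, Polynomial.coeff_X_pow, Polynomial.coeff_C_mul,
      Polynomial.coeff_X, Polynomial.coeff_C]
    split_ifs <;> push_cast <;> rw [abs_le] <;> constructor <;> nlinarith

theorem dec2 : ∃ n : ZMod 2, n * (n ^ 2 - 2) * (0 - n) * ((0 - n) ^ 2 - 2) ≠ 0 := by decide

theorem dec3 : ∀ N : ZMod 3, ∃ n : ZMod 3, n * (n ^ 2 - 2) * (N - n) * ((N - n) ^ 2 - 2) ≠ 0 := by decide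

theorem dec5 : ∀ N : ZMod 5, ∃ n : ZMod 5, n * (n ^ 2 - 2) * (N - n) * ((N - n) ^ 2 - 2) ≠ 0 := by decide

theorem of_zmod {l : ℕ} [NeZero l] (N : ℕ)
    (h : ∃ n : ZMod l, n * (n ^ 2 - 2) * ((N : ZMod l) - n) * (((N : ZMod l) - n) ^ 2 - 2) ≠ 0) :
    ∃ n : ℤ, ¬ (l : ℤ) ∣ (∏ j, FS N j).eval n := by
  obtain ⟨n, hn⟩ := h
  refine ⟨(n.val : ℤ), fun hd => hn ?_⟩
  rw [FS_eval] at hd
  have h1 := (ZMod.intCast_zmod_eq_zero_iff_dvd _ l).2 hd
  push_cast at h1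
  rw [ZMod.natCast_zmod_val] at h1
  exact h1

theorem FS_adm (N : ℕ) (hN : 2 ∣ N) (l : ℕ) (hl : l.Prime) : ∃ n : ℤ, ¬ (l : ℤ) ∣ (∏ j, FS N j).eval n := by
  by_cases h2 : l = 2
  · subst h2
    apply of_zmod
    have h0 : (N : ZMod 2) = 0 := (ZMod.natCast_eq_zero_iff N 2).2 hN
    rw [h0]
    exact dec2
  by_cases h3 : l = 3
  · subst h3
    exact of_zmod N (dec3 _)
  by_cases h5 : l = 5
  · subst h5
    exact of_zmod N (dec5 _)
  have hl7 : 7 ≤ l := by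
    have h1 := hl.two_le
    by_contra hcon
    have : l = 4 ∨ l = 6 := by omega
    rcases this with rfl | rfl
    · norm_num at hl
    · norm_num at hl
  haveI : Fact l.Prime := ⟨hl⟩
  by_contra hcon
  push Not at hcon
  have hz : (∏ j, FS N j).map (Int.castRingHom (ZMod l)) = 0 := by
    apply Polynomial.eq_zero_of_natDegree_lt_card_of_eval_eq_zero' _ (univ : Finset (ZMod l))
    · intro x _
      have h1 := hcon (x.val : ℤ)
      have h2 := (ZMod.intCast_zmod_eq_zero_iff_dvd _ l).2 h1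
      have h4 : ((∏ j, FS N j).map (Int.castRingHom (ZMod l))).eval x =
          (((∏ j, FS N j).eval (x.val : ℤ) : ℤ) : ZMod l) := by
        have h6 := Polynomial.eval_intCast_map (Int.castRingHom (ZMod l)) (∏ j, FS N j) (x.val : ℤ)
        have h7 : (((x.val : ℤ)) : ZMod l) = x := by
          push_cast
          exact ZMod.natCast_zmod_val x
        rw [h7] at h6
        rw [h6]
        simp
      rw [h4, h2]
    · rw [card_univ, ZMod.card]
      exact lt_of_le_of_lt (Polynomial.natDegree_map_le) (lt_of_le_of_lt (FS_deg6 N) (by omega))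
  rw [Polynomial.map_prod, prod_eq_zero_iff] at hz
  obtain ⟨j, -, hj⟩ := hz
  have hc : ∀ (F : Polynomial ℤ) (i : ℕ) (u : ℤ), F.coeff i = u → (u = 1 ∨ u = -1) →
      F.map (Int.castRingHom (ZMod l)) ≠ 0 := by
    intro F i u h1 h2 h0
    have h4 := congrArg (fun P => Polynomial.coeff P i) h0
    simp only [Polynomial.coeff_map, Polynomial.coeff_zero, h1] at h4
    rcases h2 with rfl | rfl
    · simp at h4
    · simp at h4
  fin_cases j
  · exact hc (X : Polynomial ℤ) 1 1 (by rw [Polynomial.coeff_X]; simp) (Or.inl rfl) hj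
  · exact hc (X ^ 2 - C 2 : Polynomial ℤ) 2 1 (by
      rw [Polynomial.coeff_sub, Polynomial.coeff_X_pow, Polynomial.coeff_C]; simp) (Or.inl rfl) hj
  · exact hc (C (N : ℤ) - X : Polynomial ℤ) 1 (-1) (by
      rw [Polynomial.coeff_sub, Polynomial.coeff_X, Polynomial.coeff_C]; simp) (Or.inr rfl) hj
  · exact hc (X ^ 2 - C (2 * (N : ℤ)) * X + C ((N : ℤ) ^ 2 - 2) : Polynomial ℤ) 2 1 (by
      rw [Polynomial.coeff_add, Polynomial.coeff_sub, Polynomial.coeff_X_pow, Polynomial.coeff_C_mul,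
        Polynomial.coeff_X, Polynomial.coeff_C]; simp) (Or.inl rfl) hj

/-- For all families of residues with small exponential sums and all even `N`: the number of the `x` for which `x`,
`x ^ 2 - 2`, `N - x`, `(N - x) ^ 2 - 2` are free of primes `≤ z` is the expected one up to a factor `1 ± 2 ^ (-b)`; for all
even `N ≤ p ^ A` the number of the `x` for which they are products of at most `r` primes, all at least `p ^ δ`, is at least half
of the expected number for `z = p ^ δ`, and the number of the `x` for which they are primes is at most twice this number. -/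
def SumLaw : Prop :=
  ∀ ε A : ℝ, 0 < ε → 1 ≤ A →
    (∃ δ : ℝ, 0 < δ ∧ ∀ b : ℕ, 1 ≤ b → ∃ P₀ : ℝ, ∀ (p : ℕ) [Fact p.Prime], P₀ ≤ p →
      ∀ (ι : Type) (s : Finset ι) (v : ι → ZMod p), SmallSums p ε s v →
      ∀ N M L z : ℕ, 2 ∣ N → (p : ℝ) ^ (1 - δ) ≤ L → 1 ≤ z → (z : ℝ) ≤ (p : ℝ) ^ (δ / b) →
      |(number p s v M L (ShiftedSum N (Rough z)) : ℝ) - s.card * ((L : ℝ) / p) * sumDensity N z| ≤
        (1 / 2) ^ b * (s.card * ((L : ℝ) / p) * sumDensity N z)) ∧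
    (∃ (r : ℕ) (δ : ℝ), 0 < δ ∧ ∃ P₀ : ℝ, ∀ (p : ℕ) [Fact p.Prime], P₀ ≤ p →
      ∀ (ι : Type) (s : Finset ι) (v : ι → ZMod p), SmallSums p ε s v →
      ∀ N M L : ℕ, 2 ∣ N → (N : ℝ) ≤ (p : ℝ) ^ A → (M + L : ℝ) ≤ (p : ℝ) ^ A → (p : ℝ) ^ (1 - δ) ≤ L →
      s.card * ((L : ℝ) / p) * sumDensity N ⌊(p : ℝ) ^ δ⌋₊ ≤
        2 * (number p s v M L (ShiftedSum N (Almost r ((p : ℝ) ^ δ))) : ℝ) ∧
      (number p s v M L (ShiftedSum N Nat.Prime) : ℝ) ≤
        2 * (s.card * ((L : ℝ) / p) * sumDensity N ⌊(p : ℝ) ^ δ⌋₊))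

theorem sum_law : SumLaw := by
  intro ε A hε hA
  constructor
  · obtain ⟨δ, hδ, -, -, H⟩ := poly_count 6 ε hε
    refine ⟨δ, hδ, fun b hb => ?_⟩
    obtain ⟨P₀, H⟩ := H b hb
    refine ⟨P₀, ?_⟩
    intro p hp hpP ι s v hv N M L z hN hL hz1 hz2
    have h := H p hpP (∏ j, FS N j) (FS_deg6 N) (FS_adm N hN) ι s v hv M L z hL hz1 hz2
    rw [FS_V] at h
    rw [number_eq p s v M L _ (fun x => ∀ l : ℕ, l.Prime → l ≤ z → ¬ QF (∏ j, FS N j) l x.2)]
    · exact h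
    · intro x
      rw [FS_all, all_rough]
      exact Iff.rfl
  · obtain ⟨r, δ, hδ, -, -, P₀, H⟩ := poly_orders 6 ε (2 * A + 3) hε (by linarith)
    refine ⟨r, δ, hδ, max P₀ 2, ?_⟩
    intro p hp hpP ι s v hv N M L hN hNA hML hL
    have hp2 : (2 : ℝ) ≤ p := (le_max_right _ _).trans hpP
    have hp0 : (0 : ℝ) < p := by linarith
    have hmono : (p : ℝ) ^ A ≤ (p : ℝ) ^ (2 * A + 3) := Real.rpow_le_rpow_of_exponent_le (by linarith) (by linarith)
    have hbig : (N : ℝ) ^ 2 + 2 * N + 3 ≤ (p : ℝ) ^ (2 * A + 3) := by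
      have e : (p : ℝ) ^ (2 * A + 3) = ((p : ℝ) ^ A * (p : ℝ) ^ A) * (p : ℝ) ^ (3 : ℝ) := by
        rw [← Real.rpow_add hp0, ← Real.rpow_add hp0]
        congr 1
        ring
      have e3 : (p : ℝ) ^ (3 : ℝ) = (p : ℝ) ^ 3 := by
        rw [← Real.rpow_natCast]
        norm_num
      have h8 : (8 : ℝ) ≤ (p : ℝ) ^ 3 := by
        calc (8 : ℝ) = 2 ^ 3 := by norm_num
          _ ≤ _ := pow_le_pow_left₀ (by norm_num) hp2 3
      have h1 : (1 : ℝ) ≤ (p : ℝ) ^ A := Real.one_le_rpow (by linarith) (by linarith)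
      have hN0 : (0 : ℝ) ≤ N := Nat.cast_nonneg N
      have h2 : (N : ℝ) ^ 2 + 2 * N + 3 ≤ ((p : ℝ) ^ A * (p : ℝ) ^ A) * 8 := by nlinarith
      rw [e, e3]
      exact h2.trans (mul_le_mul_of_nonneg_left h8 (by positivity))
    obtain ⟨h1, h2⟩ := H p ((le_max_left _ _).trans hpP) 4 (FS N) (FS_d N) (FS_deg6 N) (FS_adm N hN)
      (fun j i => (FS_coeff N j i).trans hbig) ι s v hv M L (hML.trans hmono) hL
    rw [FS_V] at h1 h2
    constructor
    · rw [number_eq p s v M L _ (fun x => ∀ j, Alm r ((p : ℝ) ^ δ) ((FS N j).eval (x.2 : ℤ)).natAbs)]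
      · exact h1
      · intro x
        exact FS_all N _ x.2
    · rw [number_eq p s v M L _ (fun x => ∀ j, ((FS N j).eval (x.2 : ℤ)).natAbs.Prime)]
      · exact h2
      · intro x
        exact FS_all N _ x.2

end Pool.Agent.Run7.h90.AU
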