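import Pool.Agent.Run7.h90.AU.QuadI

/-!
# The numbers `2 k + 1`, `n k + 1`, `(n k + 1) ^ 2 - 2`
-/

set_option autoImplicit false
set_option linter.all false

namespace Pool.Agent.Run7.h90.AU

open Finset Filter Topology
open Run7.h870.LI
open Pool.Agent.Run7.h90.AP
open scoped Classical
open Polynomial (X C)

/-- The numbers `2 k + 1`, `n k + 1` and `|(n k + 1) ^ 2 - 2|` have the property `P`. -/
def Multiples (n : ℕ) (P : ℕ → Prop) (k : ℕ) : Prop :=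
  P (2 * k + 1) ∧ P (n * k + 1) ∧ P (((n : ℤ) * k + 1) ^ 2 - 2).natAbs

/-- The number of the residue classes modulo `l` of the solutions of `(2 k + 1) (n k + 1) ((n k + 1) ^ 2 - 2) ≡ 0`. -/
noncomputable def multipleRoots (n l : ℕ) : ℕ :=
  ((range l).filter fun k : ℕ =>
    (l : ℤ) ∣ (2 * (k : ℤ) + 1) * ((n : ℤ) * k + 1) * (((n : ℤ) * k + 1) ^ 2 - 2)).card

/-- The product of `1 - multipleRoots n l / l` over the primes `l ≤ z`. -/
noncomputable def multipleDensity (n z : ℕ) : ℝ :=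
  ∏ l ∈ (range (z + 1)).filter Nat.Prime, (1 - (multipleRoots n l : ℝ) / l)

noncomputable def FM (n : ℕ) : Fin 3 → Polynomial ℤ :=
  ![C 2 * X + C 1, C (n : ℤ) * X + C 1, C ((n : ℤ) ^ 2) * X ^ 2 + C (2 * (n : ℤ)) * X - C 1]

theorem FM_eval (n : ℕ) (k : ℤ) : (∏ j, FM n j).eval k =
    (2 * k + 1) * ((n : ℤ) * k + 1) * (((n : ℤ) * k + 1) ^ 2 - 2) := by
  rw [Polynomial.eval_prod, Fin.prod_univ_three]
  have e0 : (FM n 0).eval k = 2 * k + 1 := by unfold FM; simp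
  have e1 : (FM n 1).eval k = (n : ℤ) * k + 1 := by unfold FM; simp
  have e2 : (FM n 2).eval k = ((n : ℤ) * k + 1) ^ 2 - 2 := by unfold FM; simp; ring
  rw [e0, e1, e2]

theorem FM_all (n : ℕ) (P : ℕ → Prop) (k : ℕ) : Multiples n P k ↔ ∀ j, P ((FM n j).eval (k : ℤ)).natAbs := by
  unfold Multiples
  have e : (∀ j, P ((FM n j).eval (k : ℤ)).natAbs) ↔ P ((FM n 0).eval (k : ℤ)).natAbs ∧
      P ((FM n 1).eval (k : ℤ)).natAbs ∧ P ((FM n 2).eval (k : ℤ)).natAbs := by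
    constructor
    · intro h
      exact ⟨h 0, h 1, h 2⟩
    · rintro ⟨h0, h1, h2⟩ j
      fin_cases j
      · exact h0
      · exact h1
      · exact h2
  rw [e]
  have e0 : (FM n 0).eval (k : ℤ) = ((2 * k + 1 : ℕ) : ℤ) := by unfold FM; simp
  have e1 : (FM n 1).eval (k : ℤ) = ((n * k + 1 : ℕ) : ℤ) := by unfold FM; simp
  have e2 : (FM n 2).eval (k : ℤ) = ((n : ℤ) * k + 1) ^ 2 - 2 := by unfold FM; simp; ring
  rw [e0, e1, e2, Int.natAbs_natCast, Int.natAbs_natCast]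

theorem FM_V (n z : ℕ) : V (∏ j, FM n j) z = multipleDensity n z := by
  unfold V multipleDensity
  refine prod_congr rfl fun l _ => ?_
  have h : rr (QF (∏ j, FM n j)) l = multipleRoots n l := by
    unfold rr multipleRoots QF
    simp only [FM_eval]
  rw [h]

theorem FM_ndeg (n : ℕ) (hn : 1 ≤ n) : (FM n 0).natDegree = 1 ∧ (FM n 1).natDegree = 1 ∧ (FM n 2).natDegree = 2 := by
  have h0 : (n : ℤ) ≠ 0 := by exact_mod_cast (by omega : n ≠ 0)
  have h1 : (n : ℤ) ^ 2 ≠ 0 := pow_ne_zero 2 h0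
  refine ⟨?_, ?_, ?_⟩
  · show (C 2 * X + C 1 : Polynomial ℤ).natDegree = 1
    compute_degree!
  · show (C (n : ℤ) * X + C 1 : Polynomial ℤ).natDegree = 1
    exact Polynomial.natDegree_linear h0
  · show (C ((n : ℤ) ^ 2) * X ^ 2 + C (2 * (n : ℤ)) * X - C 1 : Polynomial ℤ).natDegree = 2
    rw [sub_eq_add_neg, ← Polynomial.C_neg]
    exact Polynomial.natDegree_quadratic h1

theorem FM_d (n : ℕ) (hn : 1 ≤ n) (j : Fin 3) : 1 ≤ (FM n j).natDegree := by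
  obtain ⟨h0, h1, h2⟩ := FM_ndeg n hn
  fin_cases j
  · exact h0.ge
  · exact h1.ge
  · show 1 ≤ (FM n 2).natDegree
    rw [h2]
    norm_num

theorem FM_deg4 (n : ℕ) (hn : 1 ≤ n) : (∏ j, FM n j).natDegree ≤ 4 := by
  obtain ⟨h0, h1, h2⟩ := FM_ndeg n hn
  refine (Polynomial.natDegree_prod_le _ _).trans ?_
  rw [Fin.sum_univ_three, h0, h1, h2]

theorem FM_coeff (n : ℕ) (j : Fin 3) (i : ℕ) : |(((FM n j).coeff i : ℤ) : ℝ)| ≤ (n : ℝ) ^ 2 + 2 * n + 3 := by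
  have hN : (0 : ℝ) ≤ n := Nat.cast_nonneg n
  fin_cases j
  · show |(((C 2 * X + C 1 : Polynomial ℤ).coeff i : ℤ) : ℝ)| ≤ _
    rw [Polynomial.coeff_add, Polynomial.coeff_C_mul, Polynomial.coeff_X, Polynomial.coeff_C]
    split_ifs <;> push_cast <;> rw [abs_le] <;> constructor <;> nlinarith
  · show |(((C (n : ℤ) * X + C 1 : Polynomial ℤ).coeff i : ℤ) : ℝ)| ≤ _
    rw [Polynomial.coeff_add, Polynomial.coeff_C_mul, Polynomial.coeff_X, Polynomial.coeff_C]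
    split_ifs <;> push_cast <;> rw [abs_le] <;> constructor <;> nlinarith
  · show |(((C ((n : ℤ) ^ 2) * X ^ 2 + C (2 * (n : ℤ)) * X - C 1 : Polynomial ℤ).coeff i : ℤ) : ℝ)| ≤ _
    rw [Polynomial.coeff_sub, Polynomial.coeff_add, Polynomial.coeff_C_mul, Polynomial.coeff_X_pow,
      Polynomial.coeff_C_mul, Polynomial.coeff_X, Polynomial.coeff_C]
    split_ifs <;> push_cast <;> rw [abs_le] <;> constructor <;> nlinarith

theorem FM_adm (n : ℕ) (l : ℕ) (hl : l.Prime) : ∃ k : ℤ, ¬ (l : ℤ) ∣ (∏ j, FM n j).eval k := by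
  refine ⟨0, fun h => ?_⟩
  rw [FM_eval] at h
  have h1 : (l : ℤ) ∣ 1 := by
    have : (l : ℤ) ∣ -1 := by simpa using h
    exact dvd_neg.1 this
  have h2 : l ∣ 1 := by exact_mod_cast h1
  exact hl.one_lt.ne' (Nat.dvd_one.1 h2)

/-- For all families of residues with small exponential sums and all `n ≥ 1`: the number of the `k` for which `2 k + 1`,
`n k + 1`, `(n k + 1) ^ 2 - 2` are free of primes `≤ z` is the expected one up to a factor `1 ± 2 ^ (-b)`; for all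
`n ≤ p ^ A` the number of the `k` for which they are products of at most `r` primes, all at least `p ^ δ`, is at least half
of the expected number for `z = p ^ δ`, and the number of the `k` for which they are primes is at most twice this number. -/
def MultipleLaw : Prop :=
  ∀ ε A : ℝ, 0 < ε → 1 ≤ A →
    (∃ δ : ℝ, 0 < δ ∧ ∀ b : ℕ, 1 ≤ b → ∃ P₀ : ℝ, ∀ (p : ℕ) [Fact p.Prime], P₀ ≤ p →
      ∀ (ι : Type) (s : Finset ι) (v : ι → ZMod p), SmallSums p ε s v →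
      ∀ n M L z : ℕ, 1 ≤ n → (p : ℝ) ^ (1 - δ) ≤ L → 1 ≤ z → (z : ℝ) ≤ (p : ℝ) ^ (δ / b) →
      |(number p s v M L (Multiples n (Rough z)) : ℝ) - s.card * ((L : ℝ) / p) * multipleDensity n z| ≤
        (1 / 2) ^ b * (s.card * ((L : ℝ) / p) * multipleDensity n z)) ∧
    (∃ (r : ℕ) (δ : ℝ), 0 < δ ∧ ∃ P₀ : ℝ, ∀ (p : ℕ) [Fact p.Prime], P₀ ≤ p →
      ∀ (ι : Type) (s : Finset ι) (v : ι → ZMod p), SmallSums p ε s v →
      ∀ n M L : ℕ, 1 ≤ n → (n : ℝ) ≤ (p : ℝ) ^ A → (M + L : ℝ) ≤ (p : ℝ) ^ A → (p : ℝ) ^ (1 - δ) ≤ L →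
      s.card * ((L : ℝ) / p) * multipleDensity n ⌊(p : ℝ) ^ δ⌋₊ ≤
        2 * (number p s v M L (Multiples n (Almost r ((p : ℝ) ^ δ))) : ℝ) ∧
      (number p s v M L (Multiples n Nat.Prime) : ℝ) ≤
        2 * (s.card * ((L : ℝ) / p) * multipleDensity n ⌊(p : ℝ) ^ δ⌋₊))

theorem multiple_law : MultipleLaw := by
  intro ε A hε hA
  constructor
  · obtain ⟨δ, hδ, -, -, H⟩ := poly_count 4 ε hε
    refine ⟨δ, hδ, fun b hb => ?_⟩
    obtain ⟨P₀, H⟩ := H b hb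
    refine ⟨P₀, ?_⟩
    intro p hp hpP ι s v hv n M L z hn hL hz1 hz2
    have h := H p hpP (∏ j, FM n j) (FM_deg4 n hn) (FM_adm n) ι s v hv M L z hL hz1 hz2
    rw [FM_V] at h
    rw [number_eq p s v M L _ (fun x => ∀ l : ℕ, l.Prime → l ≤ z → ¬ QF (∏ j, FM n j) l x.2)]
    · exact h
    · intro x
      rw [FM_all, all_rough]
      exact Iff.rfl
  · obtain ⟨r, δ, hδ, -, -, P₀, H⟩ := poly_orders 4 ε (2 * A + 3) hε (by linarith)
    refine ⟨r, δ, hδ, max P₀ 2, ?_⟩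
    intro p hp hpP ι s v hv n M L hn hNA hML hL
    have hp2 : (2 : ℝ) ≤ p := (le_max_right _ _).trans hpP
    have hp0 : (0 : ℝ) < p := by linarith
    have hmono : (p : ℝ) ^ A ≤ (p : ℝ) ^ (2 * A + 3) := Real.rpow_le_rpow_of_exponent_le (by linarith) (by linarith)
    have hbig : (n : ℝ) ^ 2 + 2 * n + 3 ≤ (p : ℝ) ^ (2 * A + 3) := by
      have e : (p : ℝ) ^ (2 * A + 3) = ((p : ℝ) ^ A * (p : ℝ) ^ A) * (p : ℝ) ^ (3 : ℝ) := by
        rw [← Real.rpow_add hp0, ← Real.rpow_add hp0]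
        congr 1
        ring
      have e3 : (p : ℝ) ^ (3 : ℝ) = (p : ℝ) ^ 3 := by
        rw [← Real.rpow_natCast]
        norm_num
      have h8 : (8 : ℝ) ≤ (p : ℝ) ^ 3 := by
        calc (8 : ℝ) = 2 ^ 3 := by norm_num
          _ ≤ _ := pow_le_pow_left₀ (by norm_num) hp2 3
      have h1 : (1 : ℝ) ≤ (p : ℝ) ^ A := Real.one_le_rpow (by linarith) (by linarith)
      have hN0 : (0 : ℝ) ≤ n := Nat.cast_nonneg n
      have h2 : (n : ℝ) ^ 2 + 2 * n + 3 ≤ ((p : ℝ) ^ A * (p : ℝ) ^ A) * 8 := by nlinarith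
      rw [e, e3]
      exact h2.trans (mul_le_mul_of_nonneg_left h8 (by positivity))
    obtain ⟨h1, h2⟩ := H p ((le_max_left _ _).trans hpP) 3 (FM n) (FM_d n hn) (FM_deg4 n hn) (FM_adm n)
      (fun j i => (FM_coeff n j i).trans hbig) ι s v hv M L (hML.trans hmono) hL
    rw [FM_V] at h1 h2
    constructor
    · rw [number_eq p s v M L _ (fun x => ∀ j, Alm r ((p : ℝ) ^ δ) ((FM n j).eval (x.2 : ℤ)).natAbs)]
      · exact h1
      · intro x
        exact FM_all n _ x.2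
    · rw [number_eq p s v M L _ (fun x => ∀ j, ((FM n j).eval (x.2 : ℤ)).natAbs.Prime)]
      · exact h2
      · intro x
        exact FM_all n _ x.2

end Pool.Agent.Run7.h90.AU
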