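import Pool.Agent.Run7.h90.AU.QuadJ

/-!
# Uniform lower bounds for the densities
-/

set_option autoImplicit false
set_option linter.all false

namespace Pool.Agent.Run7.h90.AU

open Finset Filter Topology
open Run7.h870.LI
open Pool.Agent.Run7.h90.AP
open Pool.Agent.Y781.JR (GG GG_pos GG_mertens)
open scoped Classical
open Polynomial (X C)

/-- the correction factor -/
noncomputable def kap (l : ℕ) : ℝ := if l < 7 then 1 / (l : ℝ) else 1 - 9 / ((l : ℝ) - 3) ^ 2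

theorem tele9 (z : ℕ) : (1 : ℝ) / 20 ≤ ∏ l ∈ Ico 7 (z + 7), (1 - 9 / ((l : ℝ) - 3) ^ 2) := by
  have h : ∀ z : ℕ, ∏ l ∈ Ico 7 (z + 7), (1 - 9 / ((l : ℝ) - 3) ^ 2) =
      ((z : ℝ) + 4) * (z + 5) * (z + 6) / (20 * ((z + 1) * (z + 2) * (z + 3))) := by
    intro z
    induction z with
    | zero => norm_num
    | succ z ih =>
      rw [show z + 1 + 7 = (z + 7) + 1 by ring, prod_Ico_succ_top (by omega), ih]
      push_cast
      have hz : (0 : ℝ) ≤ z := Nat.cast_nonneg z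
      have h1 : (z : ℝ) + 7 - 3 ≠ 0 := by linarith
      have h2 : (z : ℝ) + 1 ≠ 0 := by linarith
      have h3 : (z : ℝ) + 2 ≠ 0 := by linarith
      have h4 : (z : ℝ) + 3 ≠ 0 := by linarith
      have h5 : (z : ℝ) + 1 + 1 ≠ 0 := by linarith
      have h6 : (z : ℝ) + 1 + 2 ≠ 0 := by linarith
      have h7 : (z : ℝ) + 1 + 3 ≠ 0 := by linarith
      field_simp
      ring
  rw [h]
  have hz : (0 : ℝ) ≤ z := Nat.cast_nonneg z
  rw [div_le_div_iff₀ (by norm_num) (by positivity)]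
  nlinarith [mul_nonneg hz hz, mul_nonneg (mul_nonneg hz hz) hz]

theorem kap_pos {l : ℕ} (hl : l.Prime) : 0 ≤ kap l := by
  unfold kap
  split_ifs with h
  · positivity
  · have h7 : (7 : ℝ) ≤ l := by exact_mod_cast (by omega : 7 ≤ l)
    have h1 : (16 : ℝ) ≤ ((l : ℝ) - 3) ^ 2 := by nlinarith
    have h2 : 9 / ((l : ℝ) - 3) ^ 2 ≤ 1 := by
      rw [div_le_one (by linarith)]
      linarith
    linarith

theorem prod_kap (z : ℕ) : (1 : ℝ) / 600 ≤ ∏ l ∈ (range (z + 1)).filter Nat.Prime, kap l := by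
  have hsplit : ∏ l ∈ (range (z + 1)).filter Nat.Prime, kap l =
      (∏ l ∈ ((range (z + 1)).filter Nat.Prime).filter (fun l => l < 7), kap l) *
      ∏ l ∈ ((range (z + 1)).filter Nat.Prime).filter (fun l => ¬ l < 7), kap l :=
    (prod_filter_mul_prod_filter_not _ _ _).symm
  rw [hsplit]
  have h1 : (1 : ℝ) / 30 ≤ ∏ l ∈ ((range (z + 1)).filter Nat.Prime).filter (fun l => l < 7), kap l := by
    have e : ((1 : ℝ) / 30) = ∏ l ∈ ({2, 3, 5} : Finset ℕ), (1 / (l : ℝ)) := by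
      rw [prod_insert (by decide), prod_insert (by decide), prod_singleton]
      norm_num
    rw [e]
    calc ∏ l ∈ ({2, 3, 5} : Finset ℕ), (1 / (l : ℝ)) ≤
        ∏ l ∈ ((range (z + 1)).filter Nat.Prime).filter (fun l => l < 7), (1 / (l : ℝ)) := by
          refine prod_le_prod_of_subset_of_le_one ?_ (fun l hl => by positivity) (fun l hl _ => ?_)
          · intro l hl
            rw [mem_filter, mem_filter] at hl
            obtain ⟨⟨-, h1⟩, h2⟩ := hl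
            interval_cases l <;> first | (exfalso; revert h1; decide) | decide
          · have h2 : (1 : ℝ) ≤ l := by
              simp only [mem_insert, mem_singleton] at hl
              rcases hl with rfl | rfl | rfl <;> norm_num
            rw [div_le_one (by linarith)]
            exact h2
      _ = _ := by
          refine prod_congr rfl fun l hl => ?_
          unfold kap
          rw [if_pos (mem_filter.1 hl).2]
  have h2 : (1 : ℝ) / 20 ≤ ∏ l ∈ ((range (z + 1)).filter Nat.Prime).filter (fun l => ¬ l < 7), kap l := by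
    have e : ∏ l ∈ ((range (z + 1)).filter Nat.Prime).filter (fun l => ¬ l < 7), kap l =
        ∏ l ∈ ((range (z + 1)).filter Nat.Prime).filter (fun l => ¬ l < 7), (1 - 9 / ((l : ℝ) - 3) ^ 2) := by
      refine prod_congr rfl fun l hl => ?_
      unfold kap
      rw [if_neg (mem_filter.1 hl).2]
    rw [e]
    refine (tele9 z).trans ?_
    have hb : ∀ l : ℕ, 7 ≤ l → 0 ≤ 1 - 9 / ((l : ℝ) - 3) ^ 2 ∧ 1 - 9 / ((l : ℝ) - 3) ^ 2 ≤ 1 := by
      intro l hl
      have h7 : (7 : ℝ) ≤ l := by exact_mod_cast hl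
      have h1 : (16 : ℝ) ≤ ((l : ℝ) - 3) ^ 2 := by nlinarith
      have h2 : 9 / ((l : ℝ) - 3) ^ 2 ≤ 1 := by
        rw [div_le_one (by linarith)]
        linarith
      have h3 : 0 ≤ 9 / ((l : ℝ) - 3) ^ 2 := by positivity
      exact ⟨by linarith, by linarith⟩
    refine prod_le_prod_of_subset_of_le_one ?_ (fun l hl => ?_) (fun l hl _ => ?_)
    · intro l hl
      rw [mem_filter, mem_filter, mem_range] at hl
      rw [mem_Ico]
      omega
    · exact (hb l (mem_Ico.1 hl).1).1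
    · exact (hb l (mem_Ico.1 hl).1).2
  calc (1 : ℝ) / 600 = 1 / 30 * (1 / 20) := by norm_num
    _ ≤ _ := mul_le_mul h1 h2 (by norm_num) (by linarith)

theorem low_of_lim {f : ℕ → ℝ} {m : ℕ} {L : ℝ} (hL : 0 < L) (hf : ∀ z, 0 < f z)
    (h : Tendsto (fun z : ℕ => f z * Real.log z ^ m) atTop (𝓝 L)) :
    ∃ c : ℝ, 0 < c ∧ ∀ z : ℕ, 2 ≤ z → c / Real.log z ^ m ≤ f z := by
  obtain ⟨Z, hZ⟩ := eventually_atTop.1 (h.eventually (lt_mem_nhds (show L / 2 < L by linarith)))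
  have hlog : ∀ z : ℕ, 2 ≤ z → 0 < Real.log z ^ m := fun z hz =>
    pow_pos (Real.log_pos (by exact_mod_cast hz)) m
  obtain ⟨z₁, hz₁, hmin⟩ := Finset.exists_min_image (Ico 2 (Z + 3)) (fun z : ℕ => f z * Real.log z ^ m)
    ⟨2, mem_Ico.2 ⟨le_rfl, by omega⟩⟩
  have hpos : 0 < f z₁ * Real.log z₁ ^ m := mul_pos (hf z₁) (hlog z₁ (mem_Ico.1 hz₁).1)
  refine ⟨min (L / 2) (f z₁ * Real.log z₁ ^ m), lt_min (by positivity) hpos, fun z hz => ?_⟩
  rw [div_le_iff₀ (hlog z hz)]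
  by_cases hzZ : z < Z + 3
  · exact (min_le_right _ _).trans (hmin z (mem_Ico.2 ⟨hz, hzZ⟩))
  · exact (min_le_left _ _).trans (hZ z (by omega)).le

theorem V_P_pos (z : ℕ) : 0 < V (∏ j, FP j) z := V_pos FP_adm z

/-- the factors of `V` of the pair -/
noncomputable def hh (l : ℕ) : ℝ := 1 - (rr (QF (∏ j, FP j)) l : ℝ) / l

theorem hh_bounds {l : ℕ} (hl : l.Prime) : 0 < hh l ∧ hh l ≤ 1 := by
  unfold hh
  have h1 := rr_lt (F := ∏ j, FP j) hl (FP_adm l hl)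
  have h2 : (0 : ℝ) < l := by exact_mod_cast hl.pos
  have h3 : (rr (QF (∏ j, FP j)) l : ℝ) < l := by exact_mod_cast h1
  have h4 : (rr (QF (∏ j, FP j)) l : ℝ) / l < 1 := by rwa [div_lt_one h2]
  have h5 : 0 ≤ (rr (QF (∏ j, FP j)) l : ℝ) / l := by positivity
  exact ⟨by linarith, by linarith⟩

theorem low2 : ∃ c : ℝ, 0 < c ∧ ∀ z : ℕ, 2 ≤ z → c / Real.log z ^ 4 ≤ V (∏ j, FP j) z ^ 2 := by
  obtain ⟨D, hD, -, h⟩ := limP
  refine low_of_lim (L := (Real.exp (-(((2 : ℕ) : ℝ) * Real.eulerMascheroniConstant)) * D) ^ 2) (by positivity)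
    (fun z => pow_pos (V_P_pos z) 2) ?_
  refine (h.pow 2).congr (fun z => ?_)
  ring

theorem low1 : ∃ c : ℝ, 0 < c ∧ ∀ z : ℕ, 2 ≤ z → c / Real.log z ^ 3 ≤ GG (z + 1) * V (∏ j, FP j) z := by
  obtain ⟨D, hD, -, h⟩ := limP
  refine low_of_lim (L := Real.exp (-Real.eulerMascheroniConstant) *
      (Real.exp (-(((2 : ℕ) : ℝ) * Real.eulerMascheroniConstant)) * D)) (by positivity)
    (fun z => mul_pos (GG_pos _) (V_P_pos z)) ?_
  refine (GG_mertens.mul h).congr (fun z => ?_)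
  ring

theorem rrP_eq {l : ℕ} (hl : l.Prime) (h2 : l ≠ 2) :
    ((((range l).filter fun x : ℕ => (l : ℤ) ∣ (x : ℤ) * ((x : ℤ) ^ 2 - 2)).card : ℕ) : ℝ) =
      2 + (jacobiSym 2 l : ℝ) ∧ (rr (QF (∏ j, FP j)) l : ℝ) = 2 + (jacobiSym 2 l : ℝ) := by
  have h := rr_pair hl
  rw [if_neg h2] at h
  refine ⟨?_, h⟩
  rw [← h]
  unfold rr QF
  simp only [FP_eval]

theorem inj_card {l : ℕ} (hl : l.Prime) (g : ℤ → ℤ) (hg : ∀ x y : ℤ, (l : ℤ) ∣ g x - g y → (l : ℤ) ∣ x - y) :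
    ((range l).filter fun x : ℕ => (l : ℤ) ∣ g x * (g x ^ 2 - 2)).card ≤
      ((range l).filter fun x : ℕ => (l : ℤ) ∣ (x : ℤ) * ((x : ℤ) ^ 2 - 2)).card := by
  have hl0 : (0 : ℤ) < l := by exact_mod_cast hl.pos
  have hm : ∀ x : ℤ, (((g x % l).toNat : ℕ) : ℤ) = g x % l := fun x =>
    Int.toNat_of_nonneg (Int.emod_nonneg _ hl0.ne')
  have hd : ∀ x : ℤ, (l : ℤ) ∣ g x - g x % l := fun x => by
    have := Int.emod_add_mul_ediv (g x) l
    exact ⟨g x / l, by linarith⟩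
  apply card_le_card_of_injOn (fun x : ℕ => (g x % l).toNat)
  · intro x hx
    rw [mem_coe, mem_filter, mem_range] at hx ⊢
    constructor
    · have h1 := Int.emod_lt_of_pos (g x) hl0
      have h2 := hm x
      show (g (x : ℤ) % l).toNat < l
      omega
    · rw [hm]
      have h3 : g x % l ≡ g x [ZMOD l] := Int.mod_modEq _ _
      have h4 := (h3.mul ((h3.pow 2).sub_right 2))
      exact (Int.modEq_zero_iff_dvd).1 (h4.trans (Int.modEq_zero_iff_dvd.2 hx.2))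
  · intro x hx y hy hxy
    rw [mem_coe, mem_filter, mem_range] at hx hy
    have h1 : g x % l = g y % l := by
      have h2 : ((((g x % l).toNat : ℕ)) : ℤ) = (((g y % l).toNat : ℕ) : ℤ) := by exact_mod_cast hxy
      rwa [hm, hm] at h2
    have h3 : (l : ℤ) ∣ g x - g y := by
      have h4 := (hd x).sub (hd y)
      rw [h1] at h4
      have e : g x - g y % l - (g y - g y % l) = g x - g y := by ring
      rwa [e] at h4
    have h5 := hg x y h3
    have h6 : (x : ℤ) ≡ y [ZMOD l] := ((Int.modEq_iff_dvd).2 (by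
      have := (dvd_neg.2 h5)
      rwa [neg_sub] at this))
    have h7 := Int.natCast_modEq_iff.1 h6
    unfold Nat.ModEq at h7
    rwa [Nat.mod_eq_of_lt hx.1, Nat.mod_eq_of_lt hy.1] at h7

theorem sumRoots_le {l : ℕ} (hl : l.Prime) (h2 : l ≠ 2) (N : ℕ) :
    (sumRoots N l : ℝ) ≤ 2 * (2 + (jacobiSym 2 l : ℝ)) := by
  have h1 := inj_card hl (fun x => (N : ℤ) - x) (fun x y h => by
    have e : (N : ℤ) - x - (N - y) = -(x - y) := by ring
    rw [e] at h
    exact dvd_neg.1 h)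
  have h3 : sumRoots N l ≤ ((range l).filter fun x : ℕ => (l : ℤ) ∣ (x : ℤ) * ((x : ℤ) ^ 2 - 2)).card +
      ((range l).filter fun x : ℕ => (l : ℤ) ∣ ((N : ℤ) - x) * (((N : ℤ) - x) ^ 2 - 2)).card := by
    unfold sumRoots
    refine le_trans (card_le_card ?_) (card_union_le _ _)
    intro x hx
    rw [mem_filter] at hx
    rw [mem_union, mem_filter, mem_filter]
    have e : (x : ℤ) * ((x : ℤ) ^ 2 - 2) * ((N : ℤ) - x) * (((N : ℤ) - x) ^ 2 - 2) =
        ((x : ℤ) * ((x : ℤ) ^ 2 - 2)) * (((N : ℤ) - x) * (((N : ℤ) - x) ^ 2 - 2)) := by ring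
    have h4 := hx.2
    rw [e] at h4
    rcases (Nat.prime_iff_prime_int.1 hl).dvd_or_dvd h4 with h | h
    · exact Or.inl ⟨hx.1, h⟩
    · exact Or.inr ⟨hx.1, h⟩
  have h4 := (rrP_eq hl h2).1
  have h5 : (sumRoots N l : ℝ) ≤ (((range l).filter fun x : ℕ => (l : ℤ) ∣ (x : ℤ) * ((x : ℤ) ^ 2 - 2)).card : ℝ) +
      (((range l).filter fun x : ℕ => (l : ℤ) ∣ (x : ℤ) * ((x : ℤ) ^ 2 - 2)).card : ℝ) := by
    exact_mod_cast h3.trans (Nat.add_le_add_left h1 _)
  rw [h4] at h5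
  linarith

theorem multipleRoots_le {l : ℕ} (hl : l.Prime) (h2 : l ≠ 2) (n : ℕ) :
    (multipleRoots n l : ℝ) ≤ 1 + (2 + (jacobiSym 2 l : ℝ)) := by
  have h4 := (rrP_eq hl h2).1
  have h5 : ((range l).filter fun k : ℕ => (l : ℤ) ∣ ((n : ℤ) * k + 1) * (((n : ℤ) * k + 1) ^ 2 - 2)).card ≤
      ((range l).filter fun x : ℕ => (l : ℤ) ∣ (x : ℤ) * ((x : ℤ) ^ 2 - 2)).card := by
    by_cases hn : (l : ℤ) ∣ n
    · have he : ((range l).filter fun k : ℕ => (l : ℤ) ∣ ((n : ℤ) * k + 1) * (((n : ℤ) * k + 1) ^ 2 - 2)) = ∅ := by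
        rw [filter_eq_empty_iff]
        intro k _ hk
        obtain ⟨m, hm⟩ := hn
        rw [hm] at hk
        have h6 : (l : ℤ) ∣ 1 := by
          have e : (1 : ℤ) = l * (m * k * (((l : ℤ) * m * k + 1) ^ 2 - 2) + (m * k * (l * m * k + 2))) -
            ((l : ℤ) * m * k + 1) * (((l : ℤ) * m * k + 1) ^ 2 - 2) := by ring
          rw [e]
          exact dvd_sub (dvd_mul_right _ _) hk
        have h7 : l ∣ 1 := by exact_mod_cast h6
        exact hl.one_lt.ne' (Nat.dvd_one.1 h7)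
      rw [he, card_empty]
      exact Nat.zero_le _
    · exact inj_card hl (fun k => (n : ℤ) * k + 1) (fun x y h => by
        have e : (n : ℤ) * x + 1 - (n * y + 1) = n * (x - y) := by ring
        rw [e] at h
        rcases (Nat.prime_iff_prime_int.1 hl).dvd_or_dvd h with h6 | h6
        · exact absurd h6 hn
        · exact h6)
  have h6 : ((range l).filter fun k : ℕ => (l : ℤ) ∣ 2 * (k : ℤ) + 1).card ≤ 1 := by
    rw [card_le_one]
    intro x hx y hy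
    rw [mem_filter, mem_range] at hx hy
    have h7 : (l : ℤ) ∣ 2 * ((x : ℤ) - y) := by
      have := dvd_sub hx.2 hy.2
      have e : 2 * (x : ℤ) + 1 - (2 * y + 1) = 2 * (x - y) := by ring
      rwa [e] at this
    rcases (Nat.prime_iff_prime_int.1 hl).dvd_or_dvd h7 with h8 | h8
    · have h9 : l ∣ 2 := by exact_mod_cast h8
      exact absurd ((Nat.prime_dvd_prime_iff_eq hl Nat.prime_two).1 h9) h2
    · have h9 : (x : ℤ) ≡ y [ZMOD l] := ((Int.modEq_iff_dvd).2 (by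
        have := (dvd_neg.2 h8)
        rwa [neg_sub] at this))
      have h10 := Int.natCast_modEq_iff.1 h9
      unfold Nat.ModEq at h10
      rwa [Nat.mod_eq_of_lt hx.1, Nat.mod_eq_of_lt hy.1] at h10
  have h3 : multipleRoots n l ≤ ((range l).filter fun k : ℕ => (l : ℤ) ∣ 2 * (k : ℤ) + 1).card +
      ((range l).filter fun k : ℕ => (l : ℤ) ∣ ((n : ℤ) * k + 1) * (((n : ℤ) * k + 1) ^ 2 - 2)).card := by
    unfold multipleRoots
    refine le_trans (card_le_card ?_) (card_union_le _ _)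
    intro x hx
    rw [mem_filter] at hx
    rw [mem_union, mem_filter, mem_filter]
    have h4 := hx.2
    rw [mul_assoc] at h4
    rcases (Nat.prime_iff_prime_int.1 hl).dvd_or_dvd h4 with h | h
    · exact Or.inl ⟨hx.1, h⟩
    · exact Or.inr ⟨hx.1, h⟩
  have h7 : (multipleRoots n l : ℝ) ≤ 1 + (((range l).filter fun x : ℕ => (l : ℤ) ∣ (x : ℤ) * ((x : ℤ) ^ 2 - 2)).card : ℝ) := by
    exact_mod_cast h3.trans (Nat.add_le_add h6 h5)
  rw [h4] at h7
  exact h7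

theorem jac_cases (l : ℕ) : (jacobiSym 2 l : ℝ) = 0 ∨ (jacobiSym 2 l : ℝ) = 1 ∨ (jacobiSym 2 l : ℝ) = -1 := by
  rcases jacobiSym.trichotomy 2 l with h | h | h <;> rw [h] <;> norm_num

theorem fac_sum {l : ℕ} (hl : l.Prime) (N : ℕ) (hN : 2 ∣ N) : kap l * hh l ^ 2 ≤ 1 - (sumRoots N l : ℝ) / l := by
  have hl0 : (0 : ℝ) < l := by exact_mod_cast hl.pos
  have hrr : rr (QF (∏ j, FS N j)) l = sumRoots N l := by
    unfold rr sumRoots QF
    simp only [FS_eval]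
  unfold kap
  split_ifs with h
  · have h1 := rr_lt (F := ∏ j, FS N j) hl (FS_adm N hN l hl)
    rw [hrr] at h1
    have h2 : (sumRoots N l : ℝ) + 1 ≤ l := by exact_mod_cast h1
    have h3 : (1 : ℝ) / l ≤ 1 - (sumRoots N l : ℝ) / l := by
      rw [div_le_iff₀ hl0, sub_mul, div_mul_cancel₀ _ hl0.ne']
      linarith
    have h4 : hh l ^ 2 ≤ 1 := pow_le_one₀ (hh_bounds hl).1.le (hh_bounds hl).2
    calc 1 / (l : ℝ) * hh l ^ 2 ≤ 1 / (l : ℝ) * 1 := mul_le_mul_of_nonneg_left h4 (by positivity)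
      _ ≤ _ := by rw [mul_one]; exact h3
  · have h7 : (7 : ℝ) ≤ l := by exact_mod_cast (by omega : 7 ≤ l)
    have h2 : l ≠ 2 := by omega
    have h3 := sumRoots_le hl h2 N
    have h4 := (rrP_eq hl h2).2
    unfold hh
    rw [h4]
    obtain ⟨t, ht⟩ : ∃ t : ℝ, t = (jacobiSym 2 l : ℝ) := ⟨_, rfl⟩
    have htc := jac_cases l
    rw [← ht] at h3 htc ⊢
    have h5 : 1 - 2 * (2 + t) / l ≤ 1 - (sumRoots N l : ℝ) / l := by
      have := div_le_div_of_nonneg_right h3 hl0.le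
      linarith
    refine le_trans ?_ h5
    have h16 : (0 : ℝ) < ((l : ℝ) - 3) ^ 2 := by nlinarith
    have hne : (l : ℝ) - 3 ≠ 0 := by linarith
    have key : (1 - 2 * (2 + t) / l) - (1 - 9 / ((l : ℝ) - 3) ^ 2) * (1 - (2 + t) / l) ^ 2 =
        (9 * ((l : ℝ) - (2 + t)) ^ 2 - (2 + t) ^ 2 * ((l : ℝ) - 3) ^ 2) / (((l : ℝ) - 3) ^ 2 * (l : ℝ) ^ 2) := by
      field_simp
      ring
    have h8 : 0 ≤ (9 * ((l : ℝ) - (2 + t)) ^ 2 - (2 + t) ^ 2 * ((l : ℝ) - 3) ^ 2) := by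
      rcases htc with h | h | h <;> rw [h] <;> nlinarith
    have h9 : 0 ≤ (9 * ((l : ℝ) - (2 + t)) ^ 2 - (2 + t) ^ 2 * ((l : ℝ) - 3) ^ 2) / (((l : ℝ) - 3) ^ 2 * (l : ℝ) ^ 2) :=
      div_nonneg h8 (by positivity)
    linarith

theorem fac_mult {l : ℕ} (hl : l.Prime) (n : ℕ) :
    kap l * ((1 - 1 / (l : ℝ)) * hh l) ≤ 1 - (multipleRoots n l : ℝ) / l := by
  have hl0 : (0 : ℝ) < l := by exact_mod_cast hl.pos
  have hl2 : (2 : ℝ) ≤ l := by exact_mod_cast hl.two_le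
  have hrr : rr (QF (∏ j, FM n j)) l = multipleRoots n l := by
    unfold rr multipleRoots QF
    simp only [FM_eval]
  unfold kap
  split_ifs with h
  · have h1 := rr_lt (F := ∏ j, FM n j) hl (FM_adm n l hl)
    rw [hrr] at h1
    have h2 : (multipleRoots n l : ℝ) + 1 ≤ l := by exact_mod_cast h1
    have h3 : (1 : ℝ) / l ≤ 1 - (multipleRoots n l : ℝ) / l := by
      rw [div_le_iff₀ hl0, sub_mul, div_mul_cancel₀ _ hl0.ne']
      linarith
    have h5 : 0 ≤ 1 - 1 / (l : ℝ) ∧ 1 - 1 / (l : ℝ) ≤ 1 := by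
      have h6 : 1 / (l : ℝ) ≤ 1 := by rw [div_le_one hl0]; linarith
      have h7 : 0 ≤ 1 / (l : ℝ) := by positivity
      exact ⟨by linarith, by linarith⟩
    have h4 : (1 - 1 / (l : ℝ)) * hh l ≤ 1 := by
      calc (1 - 1 / (l : ℝ)) * hh l ≤ 1 * 1 := mul_le_mul h5.2 (hh_bounds hl).2 (hh_bounds hl).1.le (by norm_num)
        _ = 1 := by ring
    calc 1 / (l : ℝ) * ((1 - 1 / (l : ℝ)) * hh l) ≤ 1 / (l : ℝ) * 1 := mul_le_mul_of_nonneg_left h4 (by positivity)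
      _ ≤ _ := by rw [mul_one]; exact h3
  · have h7 : (7 : ℝ) ≤ l := by exact_mod_cast (by omega : 7 ≤ l)
    have h2 : l ≠ 2 := by omega
    have h3 := multipleRoots_le hl h2 n
    have h4 := (rrP_eq hl h2).2
    unfold hh
    rw [h4]
    obtain ⟨t, ht⟩ : ∃ t : ℝ, t = (jacobiSym 2 l : ℝ) := ⟨_, rfl⟩
    have htc := jac_cases l
    rw [← ht] at h3 htc ⊢
    have h5 : 1 - (1 + (2 + t)) / l ≤ 1 - (multipleRoots n l : ℝ) / l := by
      have := div_le_div_of_nonneg_right h3 hl0.le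
      linarith
    refine le_trans ?_ h5
    have h16 : (0 : ℝ) < ((l : ℝ) - 3) ^ 2 := by nlinarith
    have hne : (l : ℝ) - 3 ≠ 0 := by linarith
    have key : (1 - (1 + (2 + t)) / l) - (1 - 9 / ((l : ℝ) - 3) ^ 2) * ((1 - 1 / (l : ℝ)) * (1 - (2 + t) / l)) =
        (9 * ((l : ℝ) - 1) * ((l : ℝ) - (2 + t)) - (2 + t) * ((l : ℝ) - 3) ^ 2) / (((l : ℝ) - 3) ^ 2 * (l : ℝ) ^ 2) := by
      field_simp
      ring
    have h8 : 0 ≤ (9 * ((l : ℝ) - 1) * ((l : ℝ) - (2 + t)) - (2 + t) * ((l : ℝ) - 3) ^ 2) := by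
      rcases htc with h | h | h <;> rw [h] <;> nlinarith
    have h9 : 0 ≤ (9 * ((l : ℝ) - 1) * ((l : ℝ) - (2 + t)) - (2 + t) * ((l : ℝ) - 3) ^ 2) / (((l : ℝ) - 3) ^ 2 * (l : ℝ) ^ 2) :=
      div_nonneg h8 (by positivity)
    linarith

/-- **The density of the sums**, uniformly in `N`. -/
theorem sumDensity_low : ∃ c : ℝ, 0 < c ∧ ∀ N z : ℕ, 2 ∣ N → 2 ≤ z → c / Real.log z ^ 4 ≤ sumDensity N z := by
  obtain ⟨c, hc, h⟩ := low2
  refine ⟨c / 600, by positivity, fun N z hN hz => ?_⟩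
  have h1 := h z hz
  have h2 := prod_kap z
  have h3 : (∏ l ∈ (range (z + 1)).filter Nat.Prime, kap l) * V (∏ j, FP j) z ^ 2 ≤ sumDensity N z := by
    unfold V sumDensity
    rw [← prod_pow, ← prod_mul_distrib]
    refine prod_le_prod (fun l hl => ?_) (fun l hl => ?_)
    · exact mul_nonneg (kap_pos (mem_filter.1 hl).2) (sq_nonneg _)
    · exact fac_sum (mem_filter.1 hl).2 N hN
  calc c / 600 / Real.log z ^ 4 = 1 / 600 * (c / Real.log z ^ 4) := by ring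
    _ ≤ 1 / 600 * V (∏ j, FP j) z ^ 2 := mul_le_mul_of_nonneg_left h1 (by norm_num)
    _ ≤ (∏ l ∈ (range (z + 1)).filter Nat.Prime, kap l) * V (∏ j, FP j) z ^ 2 :=
        mul_le_mul_of_nonneg_right h2 (sq_nonneg _)
    _ ≤ _ := h3

/-- **The density of the multiples**, uniformly in `n`. -/
theorem multipleDensity_low : ∃ c : ℝ, 0 < c ∧ ∀ n z : ℕ, 2 ≤ z → c / Real.log z ^ 3 ≤ multipleDensity n z := by
  obtain ⟨c, hc, h⟩ := low1
  refine ⟨c / 600, by positivity, fun n z hz => ?_⟩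
  have h1 := h z hz
  have h2 := prod_kap z
  have h3 : (∏ l ∈ (range (z + 1)).filter Nat.Prime, kap l) * (GG (z + 1) * V (∏ j, FP j) z) ≤ multipleDensity n z := by
    unfold V multipleDensity GG
    rw [← prod_mul_distrib, ← prod_mul_distrib]
    refine prod_le_prod (fun l hl => ?_) (fun l hl => ?_)
    · have hlp := (mem_filter.1 hl).2
      have hl2 : (2 : ℝ) ≤ l := by exact_mod_cast hlp.two_le
      have h5 : 0 ≤ 1 - 1 / (l : ℝ) := by
        have h6 : 1 / (l : ℝ) ≤ 1 := by rw [div_le_one (by linarith)]; linarith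
        linarith
      exact mul_nonneg (kap_pos hlp) (mul_nonneg h5 (hh_bounds hlp).1.le)
    · exact fac_mult (mem_filter.1 hl).2 n
  have h4 : 0 ≤ GG (z + 1) * V (∏ j, FP j) z := (mul_pos (GG_pos _) (V_P_pos z)).le
  calc c / 600 / Real.log z ^ 3 = 1 / 600 * (c / Real.log z ^ 3) := by ring
    _ ≤ 1 / 600 * (GG (z + 1) * V (∏ j, FP j) z) := mul_le_mul_of_nonneg_left h1 (by norm_num)
    _ ≤ (∏ l ∈ (range (z + 1)).filter Nat.Prime, kap l) * (GG (z + 1) * V (∏ j, FP j) z) :=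
        mul_le_mul_of_nonneg_right h2 h4
    _ ≤ _ := h3

end Pool.Agent.Run7.h90.AU
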