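import Pool.Agent.Run7.h90.AU.QuadI

/-!
# The numbers `n - m ^ 2`, `n - 2 m ^ 2`, `n - m ^ 3` at the members of thin families of residues, uniformly in `n`
-/

set_option autoImplicit false
set_option linter.all false

namespace Pool.Agent.Run7.h90.AU

open Finset Filter Topology
open Run7.h870.LI
open Pool.Agent.Run7.h90.AP
open Pool.Agent.Y781.JR (GG GG_pos GG_mertens RR)
open scoped Classical
open Polynomial (X C)

/-- For all families of residues `(v i)`, `i ∈ s`, with small exponential sums modulo a large prime `p` and all `n` with the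
property `adm`: the number of the pairs `(i, m)`, `m ≡ v i`, `M < m ≤ M + L`, for which `|n - g m|` is free of primes `≤ z`
is `|s| (L / p) W n z` up to a factor `1 ± 2 ^ (-b)`; if `n ≤ p ^ A`, the number of the pairs for which `|n - g m|` is a product
of at most `r` primes, all at least `p ^ δ`, is at least `|s| (L / p) W n z / 2` for `z = p ^ δ`, and the number of the pairs for
which it is a prime is at most `2 |s| (L / p) W n z`. -/
def MinusLaw (g : ℕ → ℕ) (adm : ℕ → Prop) (W : ℕ → ℕ → ℝ) : Prop :=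
  ∀ ε A : ℝ, 0 < ε → 1 ≤ A →
    (∃ δ : ℝ, 0 < δ ∧ ∀ b : ℕ, 1 ≤ b → ∃ P₀ : ℝ, ∀ (p : ℕ) [Fact p.Prime], P₀ ≤ p →
      ∀ (ι : Type) (s : Finset ι) (v : ι → ZMod p), SmallSums p ε s v →
      ∀ n M L z : ℕ, adm n → (p : ℝ) ^ (1 - δ) ≤ L → 2 ≤ z → (z : ℝ) ≤ (p : ℝ) ^ (δ / b) →
      |(number p s v M L (fun m => Rough z ((n : ℤ) - g m).natAbs) : ℝ) - s.card * ((L : ℝ) / p) * W n z| ≤
        (1 / 2) ^ b * (s.card * ((L : ℝ) / p) * W n z)) ∧
    (∃ (r : ℕ) (δ : ℝ), 0 < δ ∧ ∃ P₀ : ℝ, ∀ (p : ℕ) [Fact p.Prime], P₀ ≤ p →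
      ∀ (ι : Type) (s : Finset ι) (v : ι → ZMod p), SmallSums p ε s v →
      ∀ n M L : ℕ, adm n → (n : ℝ) ≤ (p : ℝ) ^ A → (M + L : ℝ) ≤ (p : ℝ) ^ A → (p : ℝ) ^ (1 - δ) ≤ L →
      s.card * ((L : ℝ) / p) * W n ⌊(p : ℝ) ^ δ⌋₊ ≤
        2 * (number p s v M L (fun m => Almost r ((p : ℝ) ^ δ) ((n : ℤ) - g m).natAbs) : ℝ) ∧
      (number p s v M L (fun m => ((n : ℤ) - g m).natAbs.Prime) : ℝ) ≤
        2 * (s.card * ((L : ℝ) / p) * W n ⌊(p : ℝ) ^ δ⌋₊))

theorem minus_law {G : Polynomial ℤ} (g : ℕ → ℕ) (hg : ∀ m : ℕ, G.eval (m : ℤ) = g m) (h1 : 1 ≤ G.natDegree)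
    (h3 : G.natDegree ≤ 3) (hB : ∀ i, |((G.coeff i : ℤ) : ℝ)| ≤ 2) (adm : ℕ → Prop)
    (hadm : ∀ n : ℕ, adm n → ∀ l : ℕ, l.Prime → ∃ m : ℤ, ¬ (l : ℤ) ∣ (C (n : ℤ) - G).eval m)
    (W : ℕ → ℕ → ℝ) (hW : ∀ n z : ℕ, adm n → 2 ≤ z → V (C (n : ℤ) - G) z = W n z) : MinusLaw g adm W := by
  have hdeg : ∀ n : ℕ, (C (n : ℤ) - G).natDegree = G.natDegree := by
    intro n
    rw [Polynomial.natDegree_sub_eq_right_of_natDegree_lt]
    rw [Polynomial.natDegree_C]
    omega
  have hev : ∀ (n : ℕ) (m : ℕ), (C (n : ℤ) - G).eval (m : ℤ) = (n : ℤ) - g m := by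
    intro n m
    rw [Polynomial.eval_sub, Polynomial.eval_C, hg]
  intro ε A hε hA
  constructor
  · obtain ⟨δ, hδ, -, -, H⟩ := poly_count 3 ε hε
    refine ⟨δ, hδ, fun b hb => ?_⟩
    obtain ⟨P₀, H⟩ := H b hb
    refine ⟨P₀, ?_⟩
    intro p hp hpP ι s v hv n M L z hn hL hz1 hz2
    have h := H p hpP (C (n : ℤ) - G) (by rw [hdeg]; exact h3) (hadm n hn) ι s v hv M L z hL (by omega) hz2
    rw [hW n z hn hz1] at h
    rw [number_eq p s v M L _ (fun x => ∀ l : ℕ, l.Prime → l ≤ z → ¬ QF (C (n : ℤ) - G) l x.2)]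
    · exact h
    · intro x
      rw [rough_natAbs]
      unfold QF
      rw [hev]
  · obtain ⟨r, δ, hδ, -, -, P₀, H⟩ := poly_orders 3 ε (A + 2) hε (by linarith)
    obtain ⟨P₂, hP₂⟩ := eventually_atTop.1 ((tendsto_rpow_atTop hδ).eventually_ge_atTop 2)
    refine ⟨r, δ, hδ, max P₀ (max P₂ 2), ?_⟩
    intro p hp hpP ι s v hv n M L hn hnA hML hL
    have hp2 : (2 : ℝ) ≤ p := (le_max_right _ _).trans ((le_max_right _ _).trans hpP)
    have hp0 : (0 : ℝ) < p := by linarith
    have hpδ := hP₂ p ((le_max_left _ _).trans ((le_max_right _ _).trans hpP))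
    have hmono : (p : ℝ) ^ A ≤ (p : ℝ) ^ (A + 2) := Real.rpow_le_rpow_of_exponent_le (by linarith) (by linarith)
    have hbig : (n : ℝ) + 2 ≤ (p : ℝ) ^ (A + 2) := by
      have e : (p : ℝ) ^ (A + 2) = (p : ℝ) ^ A * (p : ℝ) ^ (2 : ℕ) := by
        rw [Real.rpow_add hp0, ← Real.rpow_natCast]
        norm_num
      have h1 : (1 : ℝ) ≤ (p : ℝ) ^ A := Real.one_le_rpow (by linarith) (by linarith)
      have h4 : (4 : ℝ) ≤ (p : ℝ) ^ 2 := by nlinarith
      rw [e]
      nlinarith
    have hz : 2 ≤ ⌊(p : ℝ) ^ δ⌋₊ := by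
      apply Nat.le_floor
      exact_mod_cast hpδ
    obtain ⟨h1, h2⟩ := H p ((le_max_left _ _).trans hpP) 1 (fun _ => C (n : ℤ) - G) (fun _ => by rw [hdeg]; exact h1)
      (by simp only [univ_unique, prod_singleton]; rw [hdeg]; exact h3)
      (by simp only [univ_unique, prod_singleton]; exact hadm n hn)
      (fun _ i => by
        refine le_trans ?_ hbig
        rw [Polynomial.coeff_sub, Polynomial.coeff_C]
        have h5 := hB i
        have hn0 : (0 : ℝ) ≤ n := Nat.cast_nonneg n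
        push_cast
        split_ifs
        · calc |((n : ℤ) : ℝ) - ((G.coeff i : ℤ) : ℝ)| ≤ |((n : ℤ) : ℝ)| + |((G.coeff i : ℤ) : ℝ)| := abs_sub _ _
            _ ≤ n + 2 := by
                have : |((n : ℤ) : ℝ)| = n := by
                  rw [Int.cast_natCast, abs_of_nonneg hn0]
                linarith
        · rw [zero_sub, abs_neg]
          linarith) ι s v hv M L (hML.trans hmono) hL
    simp only [univ_unique, prod_singleton, forall_const] at h1 h2
    rw [hW n _ hn hz] at h1 h2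
    constructor
    · rw [number_eq p s v M L _ (fun x => Alm r ((p : ℝ) ^ δ) ((C (n : ℤ) - G).eval (x.2 : ℤ)).natAbs)]
      · exact h1
      · intro x
        rw [hev]
        exact Iff.rfl
    · rw [number_eq p s v M L _ (fun x => ((C (n : ℤ) - G).eval (x.2 : ℤ)).natAbs.Prime)]
      · exact h2
      · intro x
        rw [hev]

/-- The product of `1 - 1 / l` over the primes `l ≤ z`. -/
noncomputable def mertensProduct (z : ℕ) : ℝ := ∏ l ∈ (range (z + 1)).filter Nat.Prime, (1 - 1 / (l : ℝ))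

/-- The product of `1 - (a / l) / (l - 1)` over the odd primes `l ≤ z`, where `(a / l)` is the Legendre symbol. -/
noncomputable def legendreProduct (a : ℤ) (z : ℕ) : ℝ :=
  ∏ l ∈ (range (z + 1)).filter (fun l : ℕ => l.Prime ∧ l ≠ 2), (1 - (jacobiSym a l : ℝ) / ((l : ℝ) - 1))

/-- The number of the solutions modulo `l` of `m ^ 3 ≡ n`. -/
noncomputable def cubeRoots (n l : ℕ) : ℕ := ((range l).filter fun m : ℕ => (l : ℤ) ∣ (n : ℤ) - (m : ℤ) ^ 3).card

/-- The product of `1 - cubeRoots n l / l` over the primes `l ≤ z`. -/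
noncomputable def cubeDensity (n z : ℕ) : ℝ := ∏ l ∈ (range (z + 1)).filter Nat.Prime, (1 - (cubeRoots n l : ℝ) / l)

theorem dens_legendre (a : ℤ) (z : ℕ) : Pool.Agent.Y882.JR.dens (-a) ((z + 1 : ℕ) : ℝ) =
    mertensProduct z * legendreProduct a z := by
  rw [Pool.Agent.Y781.JR.dens_eq, Nat.ceil_natCast]
  unfold GG RR mertensProduct legendreProduct
  rw [neg_neg]

theorem squares_law : MinusLaw (fun m => m ^ 2) (fun _ => True) (fun n z => mertensProduct z * legendreProduct n z) := by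
  refine minus_law (G := X ^ 2) _ (fun m => by simp) (by rw [Polynomial.natDegree_X_pow]; norm_num)
    (by rw [Polynomial.natDegree_X_pow]; norm_num) (fun i => ?_) _ (fun n _ l hl => ?_) _ (fun n z _ hz => ?_)
  · rw [Polynomial.coeff_X_pow]
    split_ifs <;> norm_num
  · by_contra hcon
    push Not at hcon
    have h0 := hcon 0
    have h1 := hcon 1
    simp at h0 h1
    have h2 : (l : ℤ) ∣ 1 := by
      have := dvd_sub h0 h1
      simpa using this
    have h3 : l ∣ 1 := by exact_mod_cast h2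
    exact hl.one_lt.ne' (Nat.dvd_one.1 h3)
  · rw [← dens_legendre]
    unfold V Pool.Agent.Y882.JR.dens
    rw [Nat.ceil_natCast]
    refine prod_congr rfl fun l _ => ?_
    have h : rr (QF (C (n : ℤ) - X ^ 2)) l = ((range l).filter fun m : ℕ => (l : ℤ) ∣ (m : ℤ) ^ 2 + (-(n : ℤ))).card := by
      have e : ∀ m : ℕ, ((l : ℤ) ∣ (C (n : ℤ) - X ^ 2).eval (m : ℤ)) ↔ (l : ℤ) ∣ (m : ℤ) ^ 2 + (-(n : ℤ)) := by
        intro m
        simp only [Polynomial.eval_sub, Polynomial.eval_C, Polynomial.eval_pow, Polynomial.eval_X]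
        have e : (m : ℤ) ^ 2 + (-(n : ℤ)) = -((n : ℤ) - (m : ℤ) ^ 2) := by ring
        rw [e, dvd_neg]
      unfold rr QF
      simp only [e]
    rw [h]

theorem twice_squares_law : MinusLaw (fun m => 2 * m ^ 2) (fun n => n % 2 = 1)
    (fun n z => 2 * (mertensProduct z * legendreProduct (2 * n) z)) := by
  have hGd : (C 2 * X ^ 2 : Polynomial ℤ).natDegree = 2 := by compute_degree!
  refine minus_law (G := C 2 * X ^ 2) _ (fun m => by simp) (by rw [hGd]; norm_num)
    (by rw [hGd]; norm_num) (fun i => ?_) _ (fun n hn l hl => ?_) _ (fun n z hn hz => ?_)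
  · rw [Polynomial.coeff_C_mul, Polynomial.coeff_X_pow]
    split_ifs <;> norm_num
  · by_contra hcon
    push Not at hcon
    have h0 := hcon 0
    have h1 := hcon 1
    simp at h0 h1
    have h2 : (l : ℤ) ∣ 2 := by
      have := dvd_sub h0 h1
      simpa using this
    have h3 : l ∣ 2 := by exact_mod_cast h2
    have h4 := (Nat.prime_dvd_prime_iff_eq hl Nat.prime_two).1 h3
    rw [h4] at h0
    have h5 : (2 : ℤ) ∣ (n : ℤ) := by exact_mod_cast h0
    omega
  · have h := V_quad (F := C (n : ℤ) - C 2 * X ^ 2) (k := 2) (a := -(2 * (n : ℤ)))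
      (fun l hl h => (Nat.coprime_primes Nat.prime_two hl).2 (Ne.symm h))
      (fun m hm => by
        simp only [Polynomial.eval_sub, Polynomial.eval_C, Polynomial.eval_mul, Polynomial.eval_pow,
          Polynomial.eval_X] at hm
        omega) (by
        have e : ((range 2).filter fun m : ℕ => ((2 : ℕ) : ℤ) ∣ (m : ℤ) ^ 2 + (-(2 * (n : ℤ)))) = {0} := by
          ext m
          simp only [mem_filter, mem_range, mem_singleton]
          constructor
          · rintro ⟨h1, h2⟩
            interval_cases m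
            · rfl
            · exfalso
              push_cast at h2
              omega
          · rintro rfl
            refine ⟨by norm_num, ?_⟩
            push_cast
            omega
        rw [e, card_singleton]) (fun l hl h m => by
        simp only [Polynomial.eval_sub, Polynomial.eval_C, Polynomial.eval_mul, Polynomial.eval_pow,
          Polynomial.eval_X]
        have e : (((2 : ℕ) : ℤ) * m) ^ 2 + (-(2 * (n : ℤ))) = (-2) * ((n : ℤ) - 2 * m ^ 2) := by push_cast; ring
        rw [e]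
        have hc : IsCoprime (l : ℤ) (-2) := by
          have h1 : Nat.Coprime l 2 := (Nat.coprime_primes hl Nat.prime_two).2 h
          have h2 : IsCoprime (l : ℤ) 2 := by exact_mod_cast (Nat.isCoprime_iff_coprime.2 h1)
          exact h2.neg_right
        exact ⟨fun h => Dvd.dvd.mul_left h _, fun h => hc.dvd_of_dvd_mul_left h⟩) hz
    rw [h, dens_legendre]

theorem cubes_law : MinusLaw (fun m => m ^ 3) (fun _ => True) cubeDensity := by
  refine minus_law (G := X ^ 3) _ (fun m => by simp) (by rw [Polynomial.natDegree_X_pow]; norm_num)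
    (by rw [Polynomial.natDegree_X_pow]) (fun i => ?_) _ (fun n _ l hl => ?_) _ (fun n z _ hz => ?_)
  · rw [Polynomial.coeff_X_pow]
    split_ifs <;> norm_num
  · by_contra hcon
    push Not at hcon
    have h0 := hcon 0
    have h1 := hcon 1
    simp at h0 h1
    have h2 : (l : ℤ) ∣ 1 := by
      have := dvd_sub h0 h1
      simpa using this
    have h3 : l ∣ 1 := by exact_mod_cast h2
    exact hl.one_lt.ne' (Nat.dvd_one.1 h3)
  · unfold V cubeDensity
    refine prod_congr rfl fun l _ => ?_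
    have h : rr (QF (C (n : ℤ) - X ^ 3)) l = cubeRoots n l := by
      unfold rr QF cubeRoots
      simp only [Polynomial.eval_sub, Polynomial.eval_C, Polynomial.eval_pow, Polynomial.eval_X]
    rw [h]

end Pool.Agent.Run7.h90.AU
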