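import Pool.Agent.Run7.h90.AU.QuadK

/-!
# The numbers `k`, `n - k` and `q(n, k) = (n + k - 1) / 2`
-/

set_option autoImplicit false
set_option linter.all false

namespace Pool.Agent.Run7.h90.AU

open Finset Filter Topology
open Run7.h870.LI
open Pool.Agent.Run7.h90.AP
open Pool.Agent.Y781.JR (GG GG_pos GG_mertens)
open scoped Classical
open Polynomial (X C)

/-- The numbers `k = 2 t + 1`, `|n - k|` and `h + t` have the property `P`, where `n = 2 h`. -/
def TotientPattern (h : ℕ) (P : ℕ → Prop) (t : ℕ) : Prop :=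
  P (2 * t + 1) ∧ P (2 * (h : ℤ) - (2 * t + 1)).natAbs ∧ P (h + t)

/-- The number of the residue classes modulo `l` of the solutions of `(2 t + 1) (2 h - 2 t - 1) (h + t) ≡ 0`. -/
noncomputable def totientRoots (h l : ℕ) : ℕ :=
  ((range l).filter fun t : ℕ =>
    (l : ℤ) ∣ (2 * (t : ℤ) + 1) * (2 * (h : ℤ) - (2 * t + 1)) * ((h : ℤ) + t)).card

/-- The product of `1 - totientRoots h l / l` over the primes `l ≤ z`. -/
noncomputable def totientDensity (h z : ℕ) : ℝ :=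
  ∏ l ∈ (range (z + 1)).filter Nat.Prime, (1 - (totientRoots h l : ℝ) / l)

theorem totient_value {h t : ℕ} (ht : 2 * t + 1 < 2 * h) (h1 : (2 * t + 1).Prime) (h2 : (2 * h - (2 * t + 1)).Prime) :
    (2 * t + 1).totient + (2 * h - (2 * t + 1)).totient / 2 + 1 = h + t := by
  rw [Nat.totient_prime h1, Nat.totient_prime h2]
  omega

noncomputable def FT (h : ℕ) : Fin 3 → Polynomial ℤ :=
  ![C 2 * X + C 1, C (2 * (h : ℤ) - 1) - C 2 * X, X + C (h : ℤ)]

theorem FT_eval (h : ℕ) (t : ℤ) : (∏ j, FT h j).eval t =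
    (2 * t + 1) * (2 * (h : ℤ) - (2 * t + 1)) * ((h : ℤ) + t) := by
  rw [Polynomial.eval_prod, Fin.prod_univ_three]
  have e0 : (FT h 0).eval t = 2 * t + 1 := by unfold FT; simp
  have e1 : (FT h 1).eval t = 2 * (h : ℤ) - (2 * t + 1) := by unfold FT; simp; ring
  have e2 : (FT h 2).eval t = (h : ℤ) + t := by unfold FT; simp; ring
  rw [e0, e1, e2]

theorem FT_all (h : ℕ) (P : ℕ → Prop) (t : ℕ) : TotientPattern h P t ↔ ∀ j, P ((FT h j).eval (t : ℤ)).natAbs := by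
  unfold TotientPattern
  have e : (∀ j, P ((FT h j).eval (t : ℤ)).natAbs) ↔ P ((FT h 0).eval (t : ℤ)).natAbs ∧
      P ((FT h 1).eval (t : ℤ)).natAbs ∧ P ((FT h 2).eval (t : ℤ)).natAbs := by
    constructor
    · intro h
      exact ⟨h 0, h 1, h 2⟩
    · rintro ⟨h0, h1, h2⟩ j
      fin_cases j
      · exact h0
      · exact h1
      · exact h2
  rw [e]
  have e0 : (FT h 0).eval (t : ℤ) = ((2 * t + 1 : ℕ) : ℤ) := by unfold FT; simp
  have e1 : (FT h 1).eval (t : ℤ) = 2 * (h : ℤ) - (2 * t + 1) := by unfold FT; simp; ring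
  have e2 : (FT h 2).eval (t : ℤ) = ((h + t : ℕ) : ℤ) := by unfold FT; simp; ring
  rw [e0, e1, e2, Int.natAbs_natCast, Int.natAbs_natCast]

theorem FT_V (h z : ℕ) : V (∏ j, FT h j) z = totientDensity h z := by
  unfold V totientDensity
  refine prod_congr rfl fun l _ => ?_
  have h : rr (QF (∏ j, FT h j)) l = totientRoots h l := by
    unfold rr totientRoots QF
    simp only [FT_eval]
  rw [h]

theorem FT_ndeg (h : ℕ) : (FT h 0).natDegree = 1 ∧ (FT h 1).natDegree = 1 ∧ (FT h 2).natDegree = 1 := by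
  refine ⟨?_, ?_, ?_⟩
  · show (C 2 * X + C 1 : Polynomial ℤ).natDegree = 1
    compute_degree!
  · show (C (2 * (h : ℤ) - 1) - C 2 * X : Polynomial ℤ).natDegree = 1
    compute_degree!
  · show (X + C (h : ℤ) : Polynomial ℤ).natDegree = 1
    compute_degree!

theorem FT_d (h : ℕ) (j : Fin 3) : 1 ≤ (FT h j).natDegree := by
  obtain ⟨h0, h1, h2⟩ := FT_ndeg h
  fin_cases j
  · exact h0.ge
  · exact h1.ge
  · exact h2.ge

theorem FT_deg3 (h : ℕ) : (∏ j, FT h j).natDegree ≤ 3 := by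
  obtain ⟨h0, h1, h2⟩ := FT_ndeg h
  refine (Polynomial.natDegree_prod_le _ _).trans ?_
  rw [Fin.sum_univ_three, h0, h1, h2]

theorem FT_coeff (h : ℕ) (j : Fin 3) (i : ℕ) : |(((FT h j).coeff i : ℤ) : ℝ)| ≤ 2 * h + 3 := by
  have hN : (0 : ℝ) ≤ h := Nat.cast_nonneg h
  fin_cases j
  · show |(((C 2 * X + C 1 : Polynomial ℤ).coeff i : ℤ) : ℝ)| ≤ _
    rw [Polynomial.coeff_add, Polynomial.coeff_C_mul, Polynomial.coeff_X, Polynomial.coeff_C]
    split_ifs <;> push_cast <;> rw [abs_le] <;> constructor <;> linarith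
  · show |(((C (2 * (h : ℤ) - 1) - C 2 * X : Polynomial ℤ).coeff i : ℤ) : ℝ)| ≤ _
    rw [Polynomial.coeff_sub, Polynomial.coeff_C_mul, Polynomial.coeff_X, Polynomial.coeff_C]
    split_ifs <;> push_cast <;> rw [abs_le] <;> constructor <;> linarith
  · show |(((X + C (h : ℤ) : Polynomial ℤ).coeff i : ℤ) : ℝ)| ≤ _
    rw [Polynomial.coeff_add, Polynomial.coeff_X, Polynomial.coeff_C]
    split_ifs <;> push_cast <;> rw [abs_le] <;> constructor <;> linarith

theorem dec2T : ∀ h : ZMod 2, ∃ t : ZMod 2, (2 * t + 1) * (2 * h - (2 * t + 1)) * (h + t) ≠ 0 := by decide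

theorem dec3T : ∀ h : ZMod 3, ∃ t : ZMod 3, (2 * t + 1) * (2 * h - (2 * t + 1)) * (h + t) ≠ 0 := by decide

theorem of_zmodT {l : ℕ} [NeZero l] (h : ℕ)
    (hh : ∃ t : ZMod l, (2 * t + 1) * (2 * (h : ZMod l) - (2 * t + 1)) * ((h : ZMod l) + t) ≠ 0) :
    ∃ n : ℤ, ¬ (l : ℤ) ∣ (∏ j, FT h j).eval n := by
  obtain ⟨n, hn⟩ := hh
  refine ⟨(n.val : ℤ), fun hd => hn ?_⟩
  rw [FT_eval] at hd
  have h1 := (ZMod.intCast_zmod_eq_zero_iff_dvd _ l).2 hd
  push_cast at h1
  rw [ZMod.natCast_zmod_val] at h1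
  exact h1

theorem FT_adm (h : ℕ) (l : ℕ) (hl : l.Prime) : ∃ n : ℤ, ¬ (l : ℤ) ∣ (∏ j, FT h j).eval n := by
  by_cases h2 : l = 2
  · subst h2
    exact of_zmodT h (dec2T _)
  by_cases h3 : l = 3
  · subst h3
    exact of_zmodT h (dec3T _)
  have hl5 : 5 ≤ l := by
    have h1 := hl.two_le
    by_contra hcon
    have : l = 4 := by omega
    subst this
    norm_num at hl
  haveI : Fact l.Prime := ⟨hl⟩
  by_contra hcon
  push Not at hcon
  have hz : (∏ j, FT h j).map (Int.castRingHom (ZMod l)) = 0 := by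
    apply Polynomial.eq_zero_of_natDegree_lt_card_of_eval_eq_zero' _ (univ : Finset (ZMod l))
    · intro x _
      have h1 := hcon (x.val : ℤ)
      have h2 := (ZMod.intCast_zmod_eq_zero_iff_dvd _ l).2 h1
      have h4 : ((∏ j, FT h j).map (Int.castRingHom (ZMod l))).eval x =
          (((∏ j, FT h j).eval (x.val : ℤ) : ℤ) : ZMod l) := by
        have h6 := Polynomial.eval_intCast_map (Int.castRingHom (ZMod l)) (∏ j, FT h j) (x.val : ℤ)
        have h7 : (((x.val : ℤ)) : ZMod l) = x := by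
          push_cast
          exact ZMod.natCast_zmod_val x
        rw [h7] at h6
        rw [h6]
        simp
      rw [h4, h2]
    · rw [card_univ, ZMod.card]
      exact lt_of_le_of_lt (Polynomial.natDegree_map_le) (lt_of_le_of_lt (FT_deg3 h) (by omega))
  rw [Polynomial.map_prod, prod_eq_zero_iff] at hz
  obtain ⟨j, -, hj⟩ := hz
  have htwo : (2 : ZMod l) ≠ 0 := by
    intro h0
    have h1 : ((2 : ℕ) : ZMod l) = 0 := by exact_mod_cast h0
    rw [ZMod.natCast_eq_zero_iff] at h1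
    exact h2 ((Nat.prime_dvd_prime_iff_eq hl Nat.prime_two).1 h1)
  have hc : ∀ (F : Polynomial ℤ) (i : ℕ) (u : ℤ), F.coeff i = u → ((u : ℤ) : ZMod l) ≠ 0 →
      F.map (Int.castRingHom (ZMod l)) ≠ 0 := by
    intro F i u h1 h2 h0
    have h4 := congrArg (fun P => Polynomial.coeff P i) h0
    simp only [Polynomial.coeff_map, Polynomial.coeff_zero, h1] at h4
    exact h2 (by simpa using h4)
  fin_cases j
  · exact hc (C 2 * X + C 1 : Polynomial ℤ) 1 2 (by
      rw [Polynomial.coeff_add, Polynomial.coeff_C_mul, Polynomial.coeff_X, Polynomial.coeff_C]; simp)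
      (by push_cast; exact htwo) hj
  · exact hc (C (2 * (h : ℤ) - 1) - C 2 * X : Polynomial ℤ) 1 (-2) (by
      rw [Polynomial.coeff_sub, Polynomial.coeff_C_mul, Polynomial.coeff_X, Polynomial.coeff_C]; simp)
      (by push_cast; exact neg_ne_zero.2 htwo) hj
  · exact hc (X + C (h : ℤ) : Polynomial ℤ) 1 1 (by
      rw [Polynomial.coeff_add, Polynomial.coeff_X, Polynomial.coeff_C]; simp) (by simp) hj

/-- For all families of residues with small exponential sums and all `n = 2 h`: the number of the `t` for which `k = 2 t + 1`,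
`n - k` and `h + t` are free of primes `≤ z` is the expected one up to a factor `1 ± 2 ^ (-b)`; for all
`h ≤ p ^ A` the number of the `t` for which they are products of at most `r` primes, all at least `p ^ δ`, is at least half
of the expected number for `z = p ^ δ`, and the number of the `t` for which they are primes is at most twice this number. -/
def TotientLaw : Prop :=
  ∀ ε A : ℝ, 0 < ε → 1 ≤ A →
    (∃ δ : ℝ, 0 < δ ∧ ∀ b : ℕ, 1 ≤ b → ∃ P₀ : ℝ, ∀ (p : ℕ) [Fact p.Prime], P₀ ≤ p →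
      ∀ (ι : Type) (s : Finset ι) (v : ι → ZMod p), SmallSums p ε s v →
      ∀ h M L z : ℕ, (p : ℝ) ^ (1 - δ) ≤ L → 1 ≤ z → (z : ℝ) ≤ (p : ℝ) ^ (δ / b) →
      |(number p s v M L (TotientPattern h (Rough z)) : ℝ) - s.card * ((L : ℝ) / p) * totientDensity h z| ≤
        (1 / 2) ^ b * (s.card * ((L : ℝ) / p) * totientDensity h z)) ∧
    (∃ (r : ℕ) (δ : ℝ), 0 < δ ∧ ∃ P₀ : ℝ, ∀ (p : ℕ) [Fact p.Prime], P₀ ≤ p →
      ∀ (ι : Type) (s : Finset ι) (v : ι → ZMod p), SmallSums p ε s v →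
      ∀ h M L : ℕ, (h : ℝ) ≤ (p : ℝ) ^ A → (M + L : ℝ) ≤ (p : ℝ) ^ A → (p : ℝ) ^ (1 - δ) ≤ L →
      s.card * ((L : ℝ) / p) * totientDensity h ⌊(p : ℝ) ^ δ⌋₊ ≤
        2 * (number p s v M L (TotientPattern h (Almost r ((p : ℝ) ^ δ))) : ℝ) ∧
      (number p s v M L (TotientPattern h Nat.Prime) : ℝ) ≤
        2 * (s.card * ((L : ℝ) / p) * totientDensity h ⌊(p : ℝ) ^ δ⌋₊))

theorem totient_law : TotientLaw := by
  intro ε A hε hA
  constructor
  · obtain ⟨δ, hδ, -, -, H⟩ := poly_count 3 ε hε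
    refine ⟨δ, hδ, fun b hb => ?_⟩
    obtain ⟨P₀, H⟩ := H b hb
    refine ⟨P₀, ?_⟩
    intro p hp hpP ι s v hv h M L z hL hz1 hz2
    have h1 := H p hpP (∏ j, FT h j) (FT_deg3 h) (FT_adm h) ι s v hv M L z hL hz1 hz2
    rw [FT_V] at h1
    rw [number_eq p s v M L _ (fun x => ∀ l : ℕ, l.Prime → l ≤ z → ¬ QF (∏ j, FT h j) l x.2)]
    · exact h1
    · intro x
      rw [FT_all, all_rough]
      exact Iff.rfl
  · obtain ⟨r, δ, hδ, -, -, P₀, H⟩ := poly_orders 3 ε (A + 3) hε (by linarith)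
    refine ⟨r, δ, hδ, max P₀ 2, ?_⟩
    intro p hp hpP ι s v hv h M L hNA hML hL
    have hp2 : (2 : ℝ) ≤ p := (le_max_right _ _).trans hpP
    have hp0 : (0 : ℝ) < p := by linarith
    have hmono : (p : ℝ) ^ A ≤ (p : ℝ) ^ (A + 3) := Real.rpow_le_rpow_of_exponent_le (by linarith) (by linarith)
    have hbig : 2 * (h : ℝ) + 3 ≤ (p : ℝ) ^ (A + 3) := by
      have e : (p : ℝ) ^ (A + 3) = (p : ℝ) ^ A * (p : ℝ) ^ (3 : ℕ) := by
        rw [Real.rpow_add hp0, ← Real.rpow_natCast]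
        norm_num
      have h8 : (8 : ℝ) ≤ (p : ℝ) ^ 3 := by
        calc (8 : ℝ) = 2 ^ 3 := by norm_num
          _ ≤ _ := pow_le_pow_left₀ (by norm_num) hp2 3
      have h1 : (1 : ℝ) ≤ (p : ℝ) ^ A := Real.one_le_rpow (by linarith) (by linarith)
      rw [e]
      nlinarith
    obtain ⟨h1, h2⟩ := H p ((le_max_left _ _).trans hpP) 3 (FT h) (FT_d h) (FT_deg3 h) (FT_adm h)
      (fun j i => (FT_coeff h j i).trans hbig) ι s v hv M L (hML.trans hmono) hL
    rw [FT_V] at h1 h2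
    constructor
    · rw [number_eq p s v M L _ (fun x => ∀ j, Alm r ((p : ℝ) ^ δ) ((FT h j).eval (x.2 : ℤ)).natAbs)]
      · exact h1
      · intro x
        exact FT_all h _ x.2
    · rw [number_eq p s v M L _ (fun x => ∀ j, ((FT h j).eval (x.2 : ℤ)).natAbs.Prime)]
      · exact h2
      · intro x
        exact FT_all h _ x.2

theorem low3 : ∃ c : ℝ, 0 < c ∧ ∀ z : ℕ, 2 ≤ z → c / Real.log z ^ 3 ≤ GG (z + 1) ^ 3 := by
  refine low_of_lim (L := Real.exp (-Real.eulerMascheroniConstant) ^ 3) (by positivity)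
    (fun z => pow_pos (GG_pos _) 3) ?_
  refine (GG_mertens.pow 3).congr (fun z => ?_)
  ring

theorem fac_tot {l : ℕ} (hl : l.Prime) (h : ℕ) :
    kap l * (1 - 1 / (l : ℝ)) ^ 3 ≤ 1 - (totientRoots h l : ℝ) / l := by
  have hl0 : (0 : ℝ) < l := by exact_mod_cast hl.pos
  have hl2 : (2 : ℝ) ≤ l := by exact_mod_cast hl.two_le
  have hrr : rr (QF (∏ j, FT h j)) l = totientRoots h l := by
    unfold rr totientRoots QF
    simp only [FT_eval]
  unfold kap
  split_ifs with h7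
  · have h1 := rr_lt (F := ∏ j, FT h j) hl (FT_adm h l hl)
    rw [hrr] at h1
    have h2 : (totientRoots h l : ℝ) + 1 ≤ l := by exact_mod_cast h1
    have h3 : (1 : ℝ) / l ≤ 1 - (totientRoots h l : ℝ) / l := by
      rw [div_le_iff₀ hl0, sub_mul, div_mul_cancel₀ _ hl0.ne']
      linarith
    have h5 : 0 ≤ 1 - 1 / (l : ℝ) ∧ 1 - 1 / (l : ℝ) ≤ 1 := by
      have h6 : 1 / (l : ℝ) ≤ 1 := by rw [div_le_one hl0]; linarith
      have h7 : 0 ≤ 1 / (l : ℝ) := by positivity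
      exact ⟨by linarith, by linarith⟩
    have h4 : (1 - 1 / (l : ℝ)) ^ 3 ≤ 1 := pow_le_one₀ h5.1 h5.2
    calc 1 / (l : ℝ) * (1 - 1 / (l : ℝ)) ^ 3 ≤ 1 / (l : ℝ) * 1 := mul_le_mul_of_nonneg_left h4 (by positivity)
      _ ≤ _ := by rw [mul_one]; exact h3
  · have h7r : (7 : ℝ) ≤ l := by exact_mod_cast (by omega : 7 ≤ l)
    have h1 := rr_deg (F := ∏ j, FT h j) hl (FT_adm h l hl)
    rw [hrr] at h1
    have h3 : (totientRoots h l : ℝ) ≤ 3 := by exact_mod_cast h1.trans (FT_deg3 h)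
    have h5 : 1 - 3 / (l : ℝ) ≤ 1 - (totientRoots h l : ℝ) / l := by
      have := div_le_div_of_nonneg_right h3 hl0.le
      linarith
    refine le_trans ?_ h5
    have hne : (l : ℝ) - 3 ≠ 0 := by linarith
    have key : (1 - 3 / (l : ℝ)) - (1 - 9 / ((l : ℝ) - 3) ^ 2) * (1 - 1 / (l : ℝ)) ^ 3 =
        (6 * (l : ℝ) ^ 2 - 8 * l - 6) / ((l : ℝ) ^ 2 * ((l : ℝ) - 3) ^ 2) := by
      field_simp
      ring
    have h9 : 0 ≤ (6 * (l : ℝ) ^ 2 - 8 * l - 6) / ((l : ℝ) ^ 2 * ((l : ℝ) - 3) ^ 2) :=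
      div_nonneg (by nlinarith) (by positivity)
    linarith

theorem totientDensity_low : ∃ c : ℝ, 0 < c ∧ ∀ h z : ℕ, 2 ≤ z → c / Real.log z ^ 3 ≤ totientDensity h z := by
  obtain ⟨c, hc, H⟩ := low3
  refine ⟨c / 600, by positivity, fun h z hz => ?_⟩
  have h1 := H z hz
  have h2 := prod_kap z
  have h3 : (∏ l ∈ (range (z + 1)).filter Nat.Prime, kap l) * GG (z + 1) ^ 3 ≤ totientDensity h z := by
    unfold totientDensity GG
    rw [← prod_pow, ← prod_mul_distrib]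
    refine prod_le_prod (fun l hl => ?_) (fun l hl => ?_)
    · have hlp := (mem_filter.1 hl).2
      have hl2 : (2 : ℝ) ≤ l := by exact_mod_cast hlp.two_le
      have h5 : 0 ≤ 1 - 1 / (l : ℝ) := by
        have h6 : 1 / (l : ℝ) ≤ 1 := by rw [div_le_one (by linarith)]; linarith
        linarith
      exact mul_nonneg (kap_pos hlp) (pow_nonneg h5 3)
    · exact fac_tot (mem_filter.1 hl).2 h
  have h4 : 0 ≤ GG (z + 1) ^ 3 := (pow_pos (GG_pos _) 3).le
  calc c / 600 / Real.log z ^ 3 = 1 / 600 * (c / Real.log z ^ 3) := by ring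
    _ ≤ 1 / 600 * GG (z + 1) ^ 3 := mul_le_mul_of_nonneg_left h1 (by norm_num)
    _ ≤ (∏ l ∈ (range (z + 1)).filter Nat.Prime, kap l) * GG (z + 1) ^ 3 :=
        mul_le_mul_of_nonneg_right h2 h4
    _ ≤ _ := h3

end Pool.Agent.Run7.h90.AU
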