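import Pool.Agent.Run7.h90.AU.QuadF

/-!
# The sieve products of `8 X ^ 2 + 1` and `64 X ^ 2 + 9`
-/

set_option autoImplicit false
set_option linter.all false

namespace Pool.Agent.Run7.h90.AU

open Finset Filter Topology
open Run7.h870.LI
open Pool.Agent.Run7.h90.AP
open scoped Classical
open Polynomial (X C)

/-- Twice the product of the factors `1 - (-a / q) / (q - 1)` over the odd primes `q ≤ z`, where `(-a / q)` is the
Legendre symbol. -/
noncomputable def quadSeries (a : ℤ) (z : ℕ) : ℝ :=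
  2 * ∏ q ∈ (range (z + 1)).filter (fun q : ℕ => q.Prime ∧ q ≠ 2), (1 - (jacobiSym (-a) q : ℝ) / ((q : ℝ) - 1))

theorem card_scale (l : ℕ) (hl : l.Prime) (k : ℕ) (hk : Nat.Coprime k l) (a : ℤ) :
    ((range l).filter fun n : ℕ => (l : ℤ) ∣ ((k : ℤ) * n) ^ 2 + a).card =
      ((range l).filter fun m : ℕ => (l : ℤ) ∣ (m : ℤ) ^ 2 + a).card := by
  obtain ⟨k', hk'⟩ : ∃ m, k * m % l = 1 := by
    obtain ⟨m, hm⟩ := Nat.exists_mul_mod_eq_one_of_coprime hk hl.one_lt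
    exact ⟨m, hm.2⟩
  have hkk : k * k' ≡ 1 [MOD l] := by
    unfold Nat.ModEq
    rw [hk', Nat.mod_eq_of_lt hl.one_lt]
  have key : ∀ x y : ℕ, x ≡ y [MOD l] → (l : ℤ) ∣ (x : ℤ) ^ 2 + a → (l : ℤ) ∣ (y : ℤ) ^ 2 + a := by
    intro x y hxy h
    have h1 : (x : ℤ) ≡ (y : ℤ) [ZMOD l] := Int.natCast_modEq_iff.2 hxy
    have h2 := (h1.symm.pow 2).add_right a
    exact Int.modEq_zero_iff_dvd.1 (h2.trans (Int.modEq_zero_iff_dvd.2 h))
  refine card_bij' (fun n _ => (k * n) % l) (fun m _ => (k' * m) % l) (fun n hn => ?_) (fun m hm => ?_)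
    (fun n hn => ?_) (fun m hm => ?_)
  · rw [mem_filter, mem_range] at hn ⊢
    refine ⟨Nat.mod_lt _ hl.pos, key (k * n) _ (Nat.mod_modEq _ _).symm ?_⟩
    push_cast
    exact hn.2
  · rw [mem_filter, mem_range] at hm ⊢
    refine ⟨Nat.mod_lt _ hl.pos, ?_⟩
    have h1 : k * ((k' * m) % l) ≡ m [MOD l] := by
      calc k * ((k' * m) % l) ≡ k * (k' * m) [MOD l] := (Nat.mod_modEq _ _).mul_left k
        _ = k * k' * m := by ring
        _ ≡ 1 * m [MOD l] := hkk.mul_right m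
        _ = m := one_mul m
    have h2 := key m _ h1.symm hm.2
    push_cast at h2 ⊢
    exact h2
  · rw [mem_filter, mem_range] at hn
    have h1 : k' * ((k * n) % l) ≡ n [MOD l] := by
      calc k' * ((k * n) % l) ≡ k' * (k * n) [MOD l] := (Nat.mod_modEq _ _).mul_left k'
        _ = k * k' * n := by ring
        _ ≡ 1 * n [MOD l] := hkk.mul_right n
        _ = n := one_mul n
    have h2 : k' * ((k * n) % l) % l = n % l := h1
    rw [Nat.mod_eq_of_lt hn.1] at h2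
    exact h2
  · rw [mem_filter, mem_range] at hm
    have h1 : k * ((k' * m) % l) ≡ m [MOD l] := by
      calc k * ((k' * m) % l) ≡ k * (k' * m) [MOD l] := (Nat.mod_modEq _ _).mul_left k
        _ = k * k' * m := by ring
        _ ≡ 1 * m [MOD l] := hkk.mul_right m
        _ = m := one_mul m
    have h2 : k * ((k' * m) % l) % l = m % l := h1
    rw [Nat.mod_eq_of_lt hm.1] at h2
    exact h2

theorem V_quad {F : Polynomial ℤ} {k : ℕ} {a : ℤ} (hk : ∀ l : ℕ, l.Prime → l ≠ 2 → Nat.Coprime k l)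
    (h2 : ∀ n : ℤ, ¬ (2 : ℤ) ∣ F.eval n)
    (ha : ((range 2).filter fun m : ℕ => ((2 : ℕ) : ℤ) ∣ (m : ℤ) ^ 2 + a).card = 1)
    (ho : ∀ l : ℕ, l.Prime → l ≠ 2 → ∀ n : ℤ, (l : ℤ) ∣ F.eval n ↔ (l : ℤ) ∣ ((k : ℤ) * n) ^ 2 + a)
    {z : ℕ} (hz : 2 ≤ z) : V F z = 2 * Pool.Agent.Y882.JR.dens a ((z + 1 : ℕ) : ℝ) := by
  unfold V Pool.Agent.Y882.JR.dens
  rw [Nat.ceil_natCast]
  have h1 : ∀ l ∈ (range (z + 1)).filter Nat.Prime, (1 - (rr (QF F) l : ℝ) / l) =
      (if l = 2 then (2 : ℝ) else 1) *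
      (1 - (((Finset.range l).filter (fun m : ℕ => (l : ℤ) ∣ (m : ℤ) ^ 2 + a)).card : ℝ) / l) := by
    intro l hl
    have hlp := (mem_filter.1 hl).2
    by_cases h : l = 2
    · subst h
      rw [if_pos rfl]
      have e1 : rr (QF F) 2 = 0 := by
        unfold rr
        rw [card_eq_zero, filter_eq_empty_iff]
        intro n _ hn
        exact h2 n hn
      have e2 : ((Finset.range 2).filter (fun m : ℕ => ((2 : ℕ) : ℤ) ∣ (m : ℤ) ^ 2 + a)).card = 1 := by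
        rw [← ha]
      rw [e1, e2]
      norm_num
    · rw [if_neg h, one_mul]
      have e1 : rr (QF F) l = ((range l).filter fun m : ℕ => (l : ℤ) ∣ (m : ℤ) ^ 2 + a).card := by
        rw [← card_scale l hlp k (hk l hlp h) a]
        unfold rr
        congr 1
        apply filter_congr
        intro n _
        exact ho l hlp h n
      rw [e1]
  rw [prod_congr rfl h1, prod_mul_distrib, prod_ite_eq', if_pos]
  rw [mem_filter, mem_range]
  exact ⟨by omega, Nat.prime_two⟩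

theorem quad_lim {F : Polynomial ℤ} {k : ℕ} {a : ℤ} (hk : ∀ l : ℕ, l.Prime → l ≠ 2 → Nat.Coprime k l)
    (h2 : ∀ n : ℤ, ¬ (2 : ℤ) ∣ F.eval n)
    (ha : ((range 2).filter fun m : ℕ => ((2 : ℕ) : ℤ) ∣ (m : ℤ) ^ 2 + a).card = 1)
    (ho : ∀ l : ℕ, l.Prime → l ≠ 2 → ∀ n : ℤ, (l : ℤ) ∣ F.eval n ↔ (l : ℤ) ∣ ((k : ℤ) * n) ^ 2 + a)
    (hs : ¬ IsSquare (-a)) : ∃ D : ℝ, 0 < D ∧ Tendsto (quadSeries a) atTop (𝓝 D) ∧
      Tendsto (fun z : ℕ => V F z * Real.log z) atTop (𝓝 (Real.exp (-Real.eulerMascheroniConstant) * D)) := by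
  obtain ⟨c, hc, hR⟩ := Pool.Agent.Y781.JR.RR_conv a hs
  have hR' := hR.comp (tendsto_add_atTop_nat 1)
  have hq : Tendsto (quadSeries a) atTop (𝓝 (2 * c)) := by
    refine (hR'.const_mul 2).congr (fun z => ?_)
    simp only [Function.comp]
    unfold quadSeries Pool.Agent.Y781.JR.RR
    rfl
  refine ⟨2 * c, by positivity, hq, ?_⟩
  have h := Pool.Agent.Y781.JR.GG_mertens.mul hq
  refine h.congr' ?_
  filter_upwards [eventually_ge_atTop 2] with z hz
  rw [V_quad hk h2 ha ho hz, Pool.Agent.Y781.JR.dens_eq, Nat.ceil_natCast]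
  unfold quadSeries Pool.Agent.Y781.JR.RR
  ring

noncomputable def FA : Polynomial ℤ := C 8 * X ^ 2 + C 1

noncomputable def FB : Polynomial ℤ := C 64 * X ^ 2 + C 9

theorem FA_eval (n : ℤ) : FA.eval n = 8 * n ^ 2 + 1 := by
  unfold FA; simp

theorem FB_eval (n : ℤ) : FB.eval n = 64 * n ^ 2 + 9 := by
  unfold FB; simp

theorem cop4 (l : ℕ) (hl : l.Prime) (h : l ≠ 2) : Nat.Coprime 4 l := by
  have : Nat.Coprime 2 l := (Nat.coprime_primes Nat.prime_two hl).2 (Ne.symm h)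
  exact Nat.Coprime.pow_left 2 this

theorem cop8 (l : ℕ) (hl : l.Prime) (h : l ≠ 2) : Nat.Coprime 8 l := by
  have : Nat.Coprime 2 l := (Nat.coprime_primes Nat.prime_two hl).2 (Ne.symm h)
  exact Nat.Coprime.pow_left 3 this

theorem nsq2 : ¬ IsSquare (-(2 : ℤ)) := by
  rintro ⟨r, hr⟩
  nlinarith [mul_self_nonneg r]

theorem nsq9 : ¬ IsSquare (-(9 : ℤ)) := by
  rintro ⟨r, hr⟩
  nlinarith [mul_self_nonneg r]

theorem limA : ∃ D : ℝ, 0 < D ∧ Tendsto (quadSeries 2) atTop (𝓝 D) ∧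
    Tendsto (fun z : ℕ => V FA z * Real.log z) atTop (𝓝 (Real.exp (-Real.eulerMascheroniConstant) * D)) := by
  refine quad_lim (k := 4) cop4 (fun n hn => ?_) ?_ (fun l hl h n => ?_) nsq2
  · rw [FA_eval] at hn
    omega
  · have : ((range 2).filter fun m : ℕ => ((2 : ℕ) : ℤ) ∣ (m : ℤ) ^ 2 + 2) = {0} := by
      ext m
      simp only [mem_filter, mem_range, mem_singleton]
      constructor
      · rintro ⟨h1, h2⟩
        interval_cases m
        · rfl
        · norm_num at h2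
      · rintro rfl
        norm_num
    rw [this, card_singleton]
  · rw [FA_eval]
    have e : (((4 : ℕ) : ℤ) * n) ^ 2 + 2 = 2 * (8 * n ^ 2 + 1) := by push_cast; ring
    rw [e]
    have hc : IsCoprime (l : ℤ) 2 := by
      have : Nat.Coprime l 2 := (Nat.coprime_primes hl Nat.prime_two).2 h
      exact_mod_cast (Nat.isCoprime_iff_coprime.2 this)
    exact ⟨fun h => Dvd.dvd.mul_left h 2, fun h => hc.dvd_of_dvd_mul_left h⟩

theorem limB : ∃ D : ℝ, 0 < D ∧ Tendsto (quadSeries 9) atTop (𝓝 D) ∧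
    Tendsto (fun z : ℕ => V FB z * Real.log z) atTop (𝓝 (Real.exp (-Real.eulerMascheroniConstant) * D)) := by
  refine quad_lim (k := 8) cop8 (fun n hn => ?_) ?_ (fun l hl h n => ?_) nsq9
  · rw [FB_eval] at hn
    omega
  · have : ((range 2).filter fun m : ℕ => ((2 : ℕ) : ℤ) ∣ (m : ℤ) ^ 2 + 9) = {1} := by
      ext m
      simp only [mem_filter, mem_range, mem_singleton]
      constructor
      · rintro ⟨h1, h2⟩
        interval_cases m
        · norm_num at h2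
        · rfl
      · rintro rfl
        norm_num
    rw [this, card_singleton]
  · rw [FB_eval]
    have e : (((8 : ℕ) : ℤ) * n) ^ 2 + 9 = 64 * n ^ 2 + 9 := by push_cast; ring
    rw [e]

theorem FA_deg : FA.natDegree = 2 := by
  unfold FA
  compute_degree!

theorem FB_deg : FB.natDegree = 2 := by
  unfold FB
  compute_degree!

theorem FA_adm (l : ℕ) (hl : l.Prime) : ∃ n : ℤ, ¬ (l : ℤ) ∣ FA.eval n := by
  refine ⟨0, fun h => ?_⟩
  rw [FA_eval] at h
  have h1 : (l : ℤ) ∣ 1 := by simpa using h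
  have h2 : l ∣ 1 := by exact_mod_cast h1
  exact hl.one_lt.ne' (Nat.dvd_one.1 h2)

theorem FB_adm (l : ℕ) (hl : l.Prime) : ∃ n : ℤ, ¬ (l : ℤ) ∣ FB.eval n := by
  by_cases h3 : l = 3
  · refine ⟨1, fun h => ?_⟩
    rw [FB_eval, h3] at h
    norm_num at h
  · refine ⟨0, fun h => ?_⟩
    rw [FB_eval] at h
    have h1 : (l : ℤ) ∣ 9 := by simpa using h
    have h2 : l ∣ 3 ^ 2 := by exact_mod_cast h1
    exact h3 ((Nat.prime_dvd_prime_iff_eq hl Nat.prime_three).1 (hl.dvd_of_dvd_pow h2))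

theorem FA_coeff (i : ℕ) : |((FA.coeff i : ℤ) : ℝ)| ≤ 73 := by
  unfold FA
  rw [Polynomial.coeff_add, Polynomial.coeff_C_mul, Polynomial.coeff_X_pow, Polynomial.coeff_C]
  split_ifs <;> norm_num

theorem FB_coeff (i : ℕ) : |((FB.coeff i : ℤ) : ℝ)| ≤ 73 := by
  unfold FB
  rw [Polynomial.coeff_add, Polynomial.coeff_C_mul, Polynomial.coeff_X_pow, Polynomial.coeff_C]
  split_ifs <;> norm_num

/-- Both conclusions for `8 n ^ 2 + 1`. -/
theorem quadA : ∃ D : ℝ, 0 < D ∧ Tendsto (quadSeries 2) atTop (𝓝 D) ∧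
    Formula 1 (fun P n => P (8 * n ^ 2 + 1)) D ∧ Orders 1 (fun P n => P (8 * n ^ 2 + 1)) := by
  obtain ⟨D, hD, h1, h2⟩ := limA
  have hG : ∀ n : ℕ, FA.eval (n : ℤ) = ((8 * n ^ 2 + 1 : ℕ) : ℤ) := fun n => by
    rw [FA_eval]; push_cast; ring
  exact ⟨D, hD, h1, quad_formula FA_deg.le FA_adm hD h2 (fun n => 8 * n ^ 2 + 1) hG,
    quad_orders FA_deg.le (by rw [FA_deg]; norm_num) FA_adm hD h2 (fun n => 8 * n ^ 2 + 1) hG 73 FA_coeff⟩

/-- Both conclusions for `64 n ^ 2 + 9`. -/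
theorem quadB : ∃ D : ℝ, 0 < D ∧ Tendsto (quadSeries 9) atTop (𝓝 D) ∧
    Formula 1 (fun P n => P (64 * n ^ 2 + 9)) D ∧ Orders 1 (fun P n => P (64 * n ^ 2 + 9)) := by
  obtain ⟨D, hD, h1, h2⟩ := limB
  have hG : ∀ n : ℕ, FB.eval (n : ℤ) = ((64 * n ^ 2 + 9 : ℕ) : ℤ) := fun n => by
    rw [FB_eval]; push_cast; ring
  exact ⟨D, hD, h1, quad_formula FB_deg.le FB_adm hD h2 (fun n => 64 * n ^ 2 + 9) hG,
    quad_orders FB_deg.le (by rw [FB_deg]; norm_num) FB_adm hD h2 (fun n => 64 * n ^ 2 + 9) hG 73 FB_coeff⟩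

end Pool.Agent.Run7.h90.AU
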