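import Pool.Agent.Run7.h90.AU.ExactB

/-!
# Sets of shifts, uniformly in the shifts
-/

set_option autoImplicit false
set_option linter.all false

namespace Pool.Agent.Run7.h90.AU

open Finset Filter Topology
open scoped Classical

theorem adm_of_om_lt {m : ℕ} (a d : Fin m → ℤ) (l : ℕ) (h : om a d l < l) :
    ∃ n : ℤ, ¬ (l : ℤ) ∣ ∏ j, (a j + d j * n) := by
  by_contra hcon
  push Not at hcon
  have : om a d l = l := by
    unfold om
    rw [filter_true_of_mem (fun (n : ℕ) _ => hcon (n : ℤ)), card_range]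
  omega

theorem om_lt_of_adm {m : ℕ} (a d : Fin m → ℤ) (l : ℕ) (hl : 0 < l)
    (h : ∃ n : ℤ, ¬ (l : ℤ) ∣ ∏ j, (a j + d j * n)) : om a d l < l := by
  obtain ⟨n, hn⟩ := h
  unfold om
  rw [← card_range l]
  apply card_lt_card
  rw [card_range]
  refine (filter_ssubset).2 ⟨(n % l).toNat, ?_, ?_⟩
  · rw [mem_range]
    have h1 : 0 ≤ n % l := Int.emod_nonneg _ (by positivity)
    have h2 : n % l < l := Int.emod_lt_of_pos _ (by exact_mod_cast hl)
    omega
  · intro h3
    apply hn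
    have h1 : 0 ≤ n % l := Int.emod_nonneg _ (by positivity)
    have h4 : (((n % l).toNat : ℕ) : ℤ) = n % l := Int.toNat_of_nonneg h1
    rw [h4] at h3
    have h5 : (∏ j, (a j + d j * n)) ≡ (∏ j, (a j + d j * (n % l))) [ZMOD l] := by
      apply Int.ModEq.prod
      intro j _
      exact (Int.ModEq.refl _).add ((Int.ModEq.refl _).mul (Int.mod_modEq n l).symm)
    exact (Int.ModEq.dvd_iff h5).2 h3

/-- an enumeration of a finite set -/
noncomputable def enum (m : ℕ) (E : Finset ℕ) : Fin m → ℕ :=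
  if h : E.card = m then fun j => E.orderEmbOfFin h j else fun _ => 0

theorem enum_inj {m : ℕ} {E : Finset ℕ} (h : E.card = m) : Function.Injective (enum m E) := by
  unfold enum
  rw [dif_pos h]
  exact (E.orderEmbOfFin h).injective

theorem enum_image {m : ℕ} {E : Finset ℕ} (h : E.card = m) : univ.image (enum m E) = E := by
  ext x
  unfold enum
  rw [dif_pos h, mem_image]
  constructor
  · rintro ⟨j, -, rfl⟩
    exact E.orderEmbOfFin_mem h j
  · intro hx
    have : x ∈ Set.range (E.orderEmbOfFin h) := by rw [Finset.range_orderEmbOfFin]; exact hx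
    obtain ⟨j, hj⟩ := this
    exact ⟨j, mem_univ _, hj⟩

theorem enum_mem {m : ℕ} {E : Finset ℕ} (h : E.card = m) (j : Fin m) : enum m E j ∈ E := by
  have h1 : enum m E j ∈ univ.image (enum m E) := mem_image_of_mem _ (mem_univ j)
  rwa [enum_image h] at h1

theorem enum_all {m : ℕ} {E : Finset ℕ} (h : E.card = m) (P : ℕ → Prop) :
    (∀ j, P (enum m E j)) ↔ ∀ e ∈ E, P e := by
  constructor
  · intro h1 e he
    rw [← enum_image h, mem_image] at he
    obtain ⟨j, -, rfl⟩ := he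
    exact h1 j
  · intro h1 j
    exact h1 _ (enum_mem h j)

/-- The number of the residue classes modulo `q` that contain an element of `E`. -/
def classes (E : Finset ℕ) (q : ℕ) : ℕ := (E.image fun e => e % q).card

/-- The partial products, over the primes `q ≤ z`, of the singular series of a set of `m` shifts. -/
noncomputable def singularSeries (m : ℕ) (E : Finset ℕ) (z : ℕ) : ℝ :=
  ∏ q ∈ (range (z + 1)).filter Nat.Prime, ((1 - (classes E q : ℝ) / q) / (1 - 1 / (q : ℝ)) ^ m)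

/-- All the numbers `n + e`, `e ∈ E`, have the property `P`. -/
def Shifts (E : Finset ℕ) (P : ℕ → Prop) (n : ℕ) : Prop := ∀ e ∈ E, P (n + e)

/-- `E` has `m` elements and does not meet all the residue classes modulo any prime. -/
def Admissible (m : ℕ) (E : Finset ℕ) : Prop := E.card = m ∧ ∀ q : ℕ, q.Prime → classes E q < q

/-- One more than the largest element of `E`. -/
noncomputable def height (E : Finset ℕ) : ℝ := (E.sup id : ℕ) + 1

theorem om_shift {m : ℕ} {E : Finset ℕ} (h : E.card = m) (q : ℕ) (hq : q.Prime) :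
    om (fun j => ((enum m E j : ℕ) : ℤ)) (fun _ => 1) q = classes E q := by
  have : Fact q.Prime := ⟨hq⟩
  have e1 : om (fun j => ((enum m E j : ℕ) : ℤ)) (fun _ => 1) q = (E.image fun e => ((e : ℕ) : ZMod q)).card := by
    refine om_eq_image _ _ q (fun x => -x) (Equiv.neg (ZMod q)).bijective _ ?_
    intro n
    rw [dvd_prod_iff, mem_image]
    constructor
    · rintro ⟨j, hj⟩
      refine ⟨enum m E j, enum_mem h j, ?_⟩
      push_cast at hj
      rw [one_mul] at hj
      exact eq_neg_of_add_eq_zero_left hj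
    · rintro ⟨e, he, hen⟩
      rw [← enum_image h, mem_image] at he
      obtain ⟨j, -, rfl⟩ := he
      refine ⟨j, ?_⟩
      push_cast
      rw [hen]
      ring
  rw [e1]
  unfold classes
  have e2 : (E.image fun e => ((e : ℕ) : ZMod q)) = (E.image fun e => e % q).image (fun x : ℕ => (x : ZMod q)) := by
    rw [image_image]
    refine image_congr ?_
    intro e _
    simp only [Function.comp]
    exact (ZMod.natCast_mod e q).symm
  rw [e2, card_image_of_injOn]
  intro x hx y hy hxy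
  rw [mem_coe, mem_image] at hx hy
  obtain ⟨a, -, rfl⟩ := hx
  obtain ⟨b, -, rfl⟩ := hy
  simp only at hxy
  rw [ZMod.natCast_eq_natCast_iff', Nat.mod_mod, Nat.mod_mod] at hxy
  exact hxy

theorem shiftPat (m : ℕ) : Pat m Shifts (singularSeries m) height (Admissible m)
    (fun E j => ((enum m E j : ℕ) : ℤ)) (fun _ _ => 1) where
  nd := by
    intro E hE
    refine ⟨fun _ => one_ne_zero, fun i j hij h => ?_, fun l hl => ?_⟩
    · simp only [mul_one] at h
      exact hij (enum_inj hE.1 (by exact_mod_cast h))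
    · apply adm_of_om_lt
      rw [om_shift hE.1 l hl]
      exact hE.2 l hl
  sa := by
    intro E hE j
    have h1 : enum m E j ≤ E.sup id := Finset.le_sup (f := id) (enum_mem hE.1 j)
    have h2 : ((enum m E j : ℕ) : ℝ) ≤ ((E.sup id : ℕ) : ℝ) := by exact_mod_cast h1
    unfold height
    simp only [Int.cast_natCast]
    rw [abs_of_nonneg (by positivity)]
    linarith
  sd := by
    intro E hE j
    unfold height
    simp only [Int.cast_one, abs_one]
    have : (0 : ℝ) ≤ ((E.sup id : ℕ) : ℝ) := by positivity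
    linarith
  pat := by
    intro E hE P n hn
    unfold Shifts
    have key : ∀ e : ℕ, (((e : ℕ) : ℤ) + 1 * (n : ℤ)).natAbs = n + e := by intro e; omega
    simp only [key]
    exact enum_all hE.1 (fun e => P (n + e))
  con := by
    intro E hE
    refine Eventually.of_forall fun z => ?_
    unfold singularSeries psing
    refine prod_congr rfl fun q hq => ?_
    rw [mem_filter] at hq
    rw [om_shift hE.1 q hq.2]

theorem UniformFormula.comap {Θ Θ' : Type} {m : ℕ} {Q : Θ → (ℕ → Prop) → ℕ → Prop} {C : Θ → ℕ → ℝ}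
    {size : Θ → ℝ} {ok : Θ → Prop} (h : UniformFormula m Q C size ok) (f : Θ' → Θ)
    {Q' : Θ' → (ℕ → Prop) → ℕ → Prop} {C' : Θ' → ℕ → ℝ} {size' : Θ' → ℝ} {ok' : Θ' → Prop}
    (h1 : ∀ θ, ok' θ → ok (f θ)) (h2 : ∀ θ, ok' θ → size (f θ) ≤ size' θ)
    (h3 : ∀ θ, ok' θ → ∀ (P : ℕ → Prop) (n : ℕ), 1 ≤ n → (Q (f θ) P n ↔ Q' θ P n))
    (h4 : ∀ θ, ok' θ → C (f θ) =ᶠ[atTop] C' θ) : UniformFormula m Q' C' size' ok' := by
  intro ε A hε hA
  obtain ⟨δ, hδ, H⟩ := h ε A hε hA
  refine ⟨δ, hδ, fun b hb => ?_⟩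
  obtain ⟨P₀, H⟩ := H b hb
  refine ⟨P₀, ?_⟩
  intro p hp hpP ι s v hv θ hθ hs
  obtain ⟨D, hD, hl, H⟩ := H p hpP ι s v hv (f θ) (h1 θ hθ) ((h2 θ hθ).trans hs)
  refine ⟨D, hD, hl.congr' (h4 θ hθ), ?_⟩
  intro M L z hL hz1 hz2
  have h5 := H M L z hL hz1 hz2
  rw [number_congr p s v M L _ (Q' θ (Rough z)) (fun n hn => h3 θ hθ (Rough z) n (by omega))] at h5
  exact h5

theorem UniformOrders.comap {Θ Θ' : Type} {m : ℕ} {Q : Θ → (ℕ → Prop) → ℕ → Prop} {C : Θ → ℕ → ℝ}
    {size : Θ → ℝ} {ok : Θ → Prop} (h : UniformOrders m Q C size ok) (f : Θ' → Θ)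
    {Q' : Θ' → (ℕ → Prop) → ℕ → Prop} {C' : Θ' → ℕ → ℝ} {size' : Θ' → ℝ} {ok' : Θ' → Prop}
    (h1 : ∀ θ, ok' θ → ok (f θ)) (h2 : ∀ θ, ok' θ → size (f θ) ≤ size' θ)
    (h3 : ∀ θ, ok' θ → ∀ (P : ℕ → Prop) (n : ℕ), 1 ≤ n → (Q (f θ) P n ↔ Q' θ P n))
    (h4 : ∀ θ, ok' θ → C (f θ) =ᶠ[atTop] C' θ) : UniformOrders m Q' C' size' ok' := by
  intro ε A hε hA
  obtain ⟨r, δ, K, hδ, hK, P₀, H⟩ := h ε A hε hA
  refine ⟨r, δ, K, hδ, hK, P₀, ?_⟩
  intro p hp hpP ι s v hv θ hθ hs
  obtain ⟨D, hD, hl, H⟩ := H p hpP ι s v hv (f θ) (h1 θ hθ) ((h2 θ hθ).trans hs)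
  refine ⟨D, hD, hl.congr' (h4 θ hθ), ?_⟩
  intro M L hM hL
  obtain ⟨h5, h6⟩ := H M L hM hL
  rw [number_congr p s v M L _ (Q' θ (Almost r ((p : ℝ) ^ δ))) (fun n hn => h3 θ hθ _ n (by omega))] at h5
  rw [number_congr p s v M L _ (Q' θ Nat.Prime) (fun n hn => h3 θ hθ _ n (by omega))] at h6
  exact ⟨h5, h6⟩

end Pool.Agent.Run7.h90.AU
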