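import Pool.Agent.Run7.h90.AU.ShiftB

/-!
# Sets of shifts with gaps: exact patterns
-/

set_option autoImplicit false
set_option linter.all false

namespace Pool.Agent.Run7.h90.AU

open Finset Filter Topology
open scoped Classical

theorem shifts_all {m : ℕ} {E : Finset ℕ} (hE : Admissible m E) : ∃ D : ℝ, 0 < D ∧
    Tendsto (singularSeries m E) atTop (𝓝 D) ∧ Formula m (Shifts E) D ∧ Orders m (Shifts E) := by
  have hN := (shiftPat m).nd E hE
  obtain ⟨D, hD, hl⟩ := lim_of hN
  exact ⟨D, hD, hl.congr' ((shiftPat m).con E hE).symm, formula_of hN ((shiftPat m).pat E hE) hD hl,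
    orders_of hN ((shiftPat m).pat E hE) hD hl⟩

theorem upper_zero {m : ℕ} {Q : (ℕ → Prop) → ℕ → Prop} (z₀ : ℕ)
    (h : ∀ z : ℕ, z₀ ≤ z → ∀ n : ℕ, 1 ≤ n → ¬ Q (Rough z) n) : Upper m Q := by
  intro ε hε
  refine ⟨1, 1, one_pos, one_pos, Real.exp z₀, ?_⟩
  intro p hp hpP ι s v hv M L z hL hz1 hz2
  have hz : z₀ ≤ z := by
    have h2 : (z₀ : ℝ) ≤ Real.log p := by
      rw [← Real.log_exp (z₀ : ℝ)]
      exact Real.log_le_log (Real.exp_pos _) hpP
    exact_mod_cast h2.trans hz1
  have h1 : number p s v M L (Q (Rough z)) = 0 := by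
    unfold number
    rw [card_eq_zero, filter_eq_empty_iff]
    intro x hx
    rw [mem_product, mem_Ioc] at hx
    rintro ⟨-, h2⟩
    exact h z hz x.2 (by omega) h2
  rw [h1]
  have : (0 : ℝ) ≤ Real.log z := Real.log_natCast_nonneg z
  push_cast
  positivity

theorem upper_shifts {m : ℕ} {E : Finset ℕ} (hE : E.card = m) : Upper m (Shifts E) := by
  by_cases h : ∀ q : ℕ, q.Prime → classes E q < q
  · obtain ⟨D, hD, -, F, -⟩ := shifts_all (⟨hE, h⟩ : Admissible m E)
    exact formula_upper hD F
  · push Not at h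
    obtain ⟨q, hq, h⟩ := h
    refine upper_zero q (fun z hz n hn hS => ?_)
    have h1 : (E.image fun e => e % q) = range q := by
      apply eq_of_subset_of_card_le
      · intro x hx
        rw [mem_image] at hx
        obtain ⟨e, -, rfl⟩ := hx
        exact mem_range.2 (Nat.mod_lt _ hq.pos)
      · rw [card_range]
        exact h
    have h2 : (q - n % q) % q ∈ E.image fun e => e % q := by
      rw [h1, mem_range]
      exact Nat.mod_lt _ hq.pos
    rw [mem_image] at h2
    obtain ⟨e, he, h3⟩ := h2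
    have h4 := hS e he q hq hz
    apply h4
    apply Nat.dvd_of_mod_eq_zero
    rw [Nat.add_mod, h3, ← Nat.add_mod_mod, ← Nat.add_mod]
    have h5 : n % q < q := Nat.mod_lt _ hq.pos
    have h6 : n % q + (q - n % q) = q := by omega
    have h7 : (n % q % q + (q - n % q) % q) % q = 0 := by
      rw [← Nat.add_mod, h6, Nat.mod_self]
    simpa [Nat.mod_mod, Nat.add_mod] using h7

/-- The numbers `n + e`, `e ∈ E`, have the property `P` and the numbers `n + f`, `f ∈ F`, do not have it. -/
def ExactShifts (E F : Finset ℕ) (P : ℕ → Prop) (n : ℕ) : Prop := Shifts E P n ∧ ∀ f ∈ F, ¬ P (n + f)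

theorem upper_insert {m : ℕ} {E : Finset ℕ} (hE : E.card = m) (F : Finset ℕ) (hF : Disjoint E F) :
    Upper (m + 1) (fun P n => ∃ f ∈ F, Shifts (insert f E) P n) := by
  induction F using Finset.induction_on with
  | empty =>
    refine upper_zero 0 (fun z _ n _ h => ?_)
    obtain ⟨f, hf, -⟩ := h
    simp at hf
  | insert f F hf ih =>
    rw [disjoint_insert_right] at hF
    have h1 := upper_or (upper_shifts (show (insert f E).card = m + 1 by
      rw [card_insert_of_notMem hF.1, hE])) (ih hF.2)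
    have e : (fun P n => ∃ f' ∈ insert f F, Shifts (insert f' E) P n) =
        (fun P n => Shifts (insert f E) P n ∨ ∃ f' ∈ F, Shifts (insert f' E) P n) := by
      funext P n
      rw [exists_mem_insert]
    rw [e]
    exact h1

theorem exact_shifts {m : ℕ} {E : Finset ℕ} (hE : Admissible m E) (F : Finset ℕ) (hF : Disjoint E F) :
    ∃ D : ℝ, 0 < D ∧ Tendsto (singularSeries m E) atTop (𝓝 D) ∧ Formula m (ExactShifts E F) D ∧
      Orders m (ExactShifts E F) := by
  obtain ⟨D, hD, hl, FO, OR⟩ := shifts_all hE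
  have U := upper_insert hE.1 F hF
  refine ⟨D, hD, hl, ?_, ?_⟩
  · refine formula_except hD FO U 0 (fun z _ n _ => ⟨fun h => h.1, fun h => ?_⟩)
    by_cases h1 : ∃ f ∈ F, Rough z (n + f)
    · obtain ⟨f, hf, h2⟩ := h1
      refine Or.inr ⟨f, hf, ?_⟩
      unfold Shifts
      rw [forall_mem_insert]
      exact ⟨h2, h⟩
    · push Not at h1
      exact Or.inl ⟨h, h1⟩
  · refine orders_except OR U (fun r y y' z hy hz n _ h => ?_) (fun n _ h => h.1)
    have h0 : Shifts E (Almost r y') n := fun e he => almost_mono le_rfl hy (h e he)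
    by_cases h1 : ∃ f ∈ F, Almost r y' (n + f)
    · obtain ⟨f, hf, h2⟩ := h1
      refine Or.inr ⟨f, hf, ?_⟩
      unfold Shifts
      rw [forall_mem_insert]
      exact ⟨almost_rough hz h2, fun e he => almost_rough hz (h0 e he)⟩
    · push Not at h1
      exact Or.inl ⟨h0, h1⟩

end Pool.Agent.Run7.h90.AU
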