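import Pool.Agent.Run7.h90.AU.ShiftC

/-!
# Explicit constants of some sets of shifts; intervals between powers
-/

set_option autoImplicit false
set_option linter.all false

namespace Pool.Agent.Run7.h90.AU

open Finset Filter Topology
open scoped Classical

theorem classes_pair (d q : ℕ) : classes {0, d} q = if q ∣ d then 1 else 2 := by
  unfold classes
  rw [image_insert, image_singleton, Nat.zero_mod]
  split_ifs with h
  · rw [Nat.mod_eq_zero_of_dvd h]
    simp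
  · rw [card_insert_of_notMem, card_singleton]
    rw [mem_singleton]
    intro h1
    exact h (Nat.dvd_of_mod_eq_zero h1.symm)

theorem adm_pair {d : ℕ} (h1 : 0 < d) (h2 : 2 ∣ d) : Admissible 2 {0, d} := by
  refine ⟨?_, fun q hq => ?_⟩
  · rw [card_insert_of_notMem, card_singleton]
    rw [mem_singleton]
    omega
  · rw [classes_pair d q]
    have := hq.two_le
    split_ifs with h
    · omega
    · rcases Nat.lt_or_ge 2 q with h3 | h3
      · exact h3
      · exfalso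
        apply h
        have : q = 2 := by omega
        rw [this]
        exact h2

/-- The partial products of the singular series `𝔖(d)`, `d` even: `2 ∏ (1 - 1 / (q - 1) ^ 2)` over the primes
`3 ≤ q ≤ z`, multiplied by `∏ (q - 1) / (q - 2)` over the odd prime divisors `q` of `d`. -/
noncomputable def pairSeries (d z : ℕ) : ℝ :=
  2 * (∏ q ∈ (Icc 3 z).filter Nat.Prime, (1 - 1 / ((q : ℝ) - 1) ^ 2)) *
    ∏ q ∈ d.primeFactors.filter (fun q => 3 ≤ q), (((q : ℝ) - 1) / ((q : ℝ) - 2))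

theorem pairSeries_eq {d : ℕ} (h1 : 0 < d) (h2 : 2 ∣ d) : singularSeries 2 {0, d} =ᶠ[atTop] pairSeries d := by
  filter_upwards [eventually_ge_atTop (d + 2)] with z hz
  unfold singularSeries pairSeries
  have e : (range (z + 1)).filter Nat.Prime = insert 2 ((Icc 3 z).filter Nat.Prime) := by
    ext l
    simp only [mem_filter, mem_range, mem_insert, mem_Icc]
    constructor
    · rintro ⟨h3, h4⟩
      have := h4.two_le
      rcases Nat.lt_or_ge 2 l with h5 | h5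
      · exact Or.inr ⟨⟨by omega, by omega⟩, h4⟩
      · exact Or.inl (by omega)
    · rintro (rfl | ⟨⟨h3, h4⟩, h5⟩)
      · exact ⟨by omega, Nat.prime_two⟩
      · exact ⟨by omega, h5⟩
  have hset : d.primeFactors.filter (fun q => 3 ≤ q) = ((Icc 3 z).filter Nat.Prime).filter (fun q => q ∣ d) := by
    ext l
    simp only [mem_filter, Nat.mem_primeFactors, mem_Icc]
    constructor
    · rintro ⟨⟨h3, h4, h5⟩, h6⟩
      have := Nat.le_of_dvd h1 h4
      exact ⟨⟨⟨h6, by omega⟩, h3⟩, h4⟩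
    · rintro ⟨⟨⟨h3, h4⟩, h5⟩, h6⟩
      exact ⟨⟨h5, h6, by omega⟩, h3⟩
  rw [e, prod_insert (by simp), classes_pair d 2, if_pos h2, hset,
    prod_filter (fun q => q ∣ d), mul_assoc, ← prod_mul_distrib]
  congr 1
  · norm_num
  · refine prod_congr rfl fun q hq => ?_
    rw [mem_filter, mem_Icc] at hq
    rw [classes_pair d q]
    have h3 : (3 : ℝ) ≤ q := by exact_mod_cast hq.1.1
    have h4 : (q : ℝ) ≠ 0 := by linarith
    have h5 : (q : ℝ) - 1 ≠ 0 := by linarith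
    have h6 : (q : ℝ) - 2 ≠ 0 := by linarith
    have e1 : (1 : ℝ) - 1 / q = (q - 1) / q := by field_simp
    have e2 : (1 : ℝ) - 1 / ((q : ℝ) - 1) ^ 2 = q * (q - 2) / ((q : ℝ) - 1) ^ 2 := by
      field_simp
      ring
    rw [e2, e1]
    split_ifs with h7
    · push_cast
      rw [e1]
      field_simp
    · push_cast
      field_simp

/-- The number of the pairs `(i, q)` with `q ≡ v i` modulo `p`, the pattern `Q` for the property `P` at `q`, and
`N ^ c < q`, `q + h < (N + 1) ^ c`. -/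
noncomputable def between (c h N : ℕ) (p : ℕ) {ι : Type} (s : Finset ι) (v : ι → ZMod p) (Q : (ℕ → Prop) → ℕ → Prop)
    (P : ℕ → Prop) : ℕ :=
  ((s ×ˢ Ioo (N ^ c) ((N + 1) ^ c)).filter fun x => x.2 + h < (N + 1) ^ c ∧ ((x.2 : ℕ) : ZMod p) = v x.1 ∧ Q P x.2).card

theorem between_eq (c h N : ℕ) (p : ℕ) {ι : Type} (s : Finset ι) (v : ι → ZMod p) (Q : (ℕ → Prop) → ℕ → Prop)
    (P : ℕ → Prop) : between c h N p s v Q P = number p s v (N ^ c) ((N + 1) ^ c - N ^ c - h - 1) (Q P) := by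
  unfold between number
  congr 1
  ext x
  simp only [mem_filter, mem_product, mem_Ioo, mem_Ioc]
  constructor
  · rintro ⟨⟨h1, h2, h3⟩, h4, h5, h6⟩
    exact ⟨⟨h1, h2, by omega⟩, h5, h6⟩
  · rintro ⟨⟨h1, h2, h3⟩, h5, h6⟩
    exact ⟨⟨h1, h2, by omega⟩, by omega, h5, h6⟩

/-- The pattern between consecutive `c`-th powers: for all `N` with `(N + 1) ^ c - N ^ c - h - 1 ≥ p ^ (1 - δ)` and
`log p ≤ z ≤ p ^ (δ / b)`, the number of the `q` congruent to a member of the family (counted with multiplicity) with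
`N ^ c < q`, `q + h < (N + 1) ^ c` and the pattern for the numbers without prime factors `≤ z` is
`e ^ (- m γ) D |s| (((N + 1) ^ c - N ^ c - h - 1) / p) / (log z) ^ m` up to a factor `1 ± 2 ^ (-b)`. -/
def FormulaBetween (c h m : ℕ) (Q : (ℕ → Prop) → ℕ → Prop) (D : ℝ) : Prop :=
  ∀ ε : ℝ, 0 < ε → ∃ δ : ℝ, 0 < δ ∧ ∀ b : ℕ, 1 ≤ b → ∃ P₀ : ℝ, ∀ (p : ℕ) [Fact p.Prime], P₀ ≤ p →
    ∀ (ι : Type) (s : Finset ι) (v : ι → ZMod p), SmallSums p ε s v →
    ∀ N z : ℕ, (p : ℝ) ^ (1 - δ) ≤ (((N + 1) ^ c - N ^ c - h - 1 : ℕ) : ℝ) → Real.log p ≤ z →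
    (z : ℝ) ≤ (p : ℝ) ^ (δ / b) →
    |(between c h N p s v Q (Rough z) : ℝ) -
      Real.exp (-(m * Real.eulerMascheroniConstant)) *
        (D * (s.card * ((((N + 1) ^ c - N ^ c - h - 1 : ℕ) : ℝ) / p)) / Real.log z ^ m)| ≤
    (1 / 2) ^ b * (Real.exp (-(m * Real.eulerMascheroniConstant)) *
      (D * (s.card * ((((N + 1) ^ c - N ^ c - h - 1 : ℕ) : ℝ) / p)) / Real.log z ^ m))

/-- If moreover `(N + 1) ^ c ≤ p ^ A`, the number for the products of at most `r` primes, all at least `p ^ δ`, is at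
least, and the number for the primes is at most, the expected order of magnitude. -/
def OrdersBetween (c h m : ℕ) (Q : (ℕ → Prop) → ℕ → Prop) : Prop :=
  ∀ ε A : ℝ, 0 < ε → 1 ≤ A → ∃ (r : ℕ) (δ K : ℝ), 0 < δ ∧ 0 < K ∧ ∃ P₀ : ℝ,
    ∀ (p : ℕ) [Fact p.Prime], P₀ ≤ p →
    ∀ (ι : Type) (s : Finset ι) (v : ι → ZMod p), SmallSums p ε s v →
    ∀ N : ℕ, (((N + 1) ^ c : ℕ) : ℝ) ≤ (p : ℝ) ^ A →
    (p : ℝ) ^ (1 - δ) ≤ (((N + 1) ^ c - N ^ c - h - 1 : ℕ) : ℝ) →
    s.card * ((((N + 1) ^ c - N ^ c - h - 1 : ℕ) : ℝ) / p) / Real.log p ^ m ≤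
      K * (between c h N p s v Q (Almost r ((p : ℝ) ^ δ)) : ℝ) ∧
    (between c h N p s v Q Nat.Prime : ℝ) ≤
      K * (s.card * ((((N + 1) ^ c - N ^ c - h - 1 : ℕ) : ℝ) / p) / Real.log p ^ m)

theorem Formula.between {m : ℕ} {Q : (ℕ → Prop) → ℕ → Prop} {D : ℝ} (hF : Formula m Q D) (c h : ℕ) :
    FormulaBetween c h m Q D := by
  intro ε hε
  obtain ⟨δ, hδ, H⟩ := hF ε hε
  refine ⟨δ, hδ, fun b hb => ?_⟩
  obtain ⟨P₀, H⟩ := H b hb
  refine ⟨P₀, ?_⟩
  intro p hp hpP ι s v hv N z hL hz1 hz2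
  rw [between_eq]
  exact H p hpP ι s v hv _ _ z hL hz1 hz2

theorem Orders.between {m : ℕ} {Q : (ℕ → Prop) → ℕ → Prop} (hF : Orders m Q) (c h : ℕ) :
    OrdersBetween c h m Q := by
  intro ε A hε hA
  obtain ⟨r, δ, K, hδ, hK, P₀, H⟩ := hF ε A hε hA
  refine ⟨r, δ, K, hδ, hK, max P₀ 1, ?_⟩
  intro p hp hpP ι s v hv N hM hL
  rw [between_eq, between_eq]
  refine H p ((le_max_left _ _).trans hpP) ι s v hv _ _ ?_ hL
  have hp1 : (1 : ℝ) ≤ p := (le_max_right _ _).trans hpP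
  have hpos : (0 : ℝ) < (p : ℝ) ^ (1 - δ) := by positivity
  have h0 : 0 < (N + 1) ^ c - N ^ c - h - 1 := by
    have : (0 : ℝ) < (((N + 1) ^ c - N ^ c - h - 1 : ℕ) : ℝ) := lt_of_lt_of_le hpos hL
    exact_mod_cast this
  refine le_trans ?_ hM
  have h1 : N ^ c + ((N + 1) ^ c - N ^ c - h - 1) ≤ (N + 1) ^ c := by omega
  exact_mod_cast h1

end Pool.Agent.Run7.h90.AU
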