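import Pool.Agent.Run7.h90.AU.Final

/-!
# A uniform lower bound for the singular series
-/

set_option autoImplicit false
set_option linter.all false

namespace Pool.Agent.Run7.h90.AU

open Finset Filter Topology
open Run7.h870.LI
open Pool.Agent.Run7.h90.AP
open scoped Classical

theorem S_low (k : ℕ) : ∃ c : ℝ, 0 < c ∧ ∀ (F : Polynomial ℤ) (E : ℕ), Hyp k F E → ∀ S : ℝ,
    Tendsto (PS k F) atTop (𝓝 S) → c ≤ S := by
  obtain ⟨z, hz⟩ : ∃ z, z = k ^ 2 + 2 * k + 3 := ⟨_, rfl⟩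
  have hz0 : (0 : ℝ) < z := by
    have : 0 < z := by omega
    exact_mod_cast this
  have hα : 0 < 1 - (k : ℝ) ^ 2 / z := by
    rw [sub_pos, div_lt_one hz0]
    have : k ^ 2 < z := by omega
    exact_mod_cast this
  refine ⟨(∏ l ∈ (range (z + 1)).filter Nat.Prime, (1 / (l : ℝ))) * (1 - (k : ℝ) ^ 2 / z),
    mul_pos (prod_pos fun l hl => ?_) hα, ?_⟩
  · have : (0 : ℝ) < l := by exact_mod_cast (mem_filter.1 hl).2.pos
    positivity
  intro F E h S hS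
  have h1 : ∏ l ∈ (range (z + 1)).filter Nat.Prime, (1 / (l : ℝ)) ≤ PS k F z := by
    unfold PS fct
    refine prod_le_prod (fun l hl => by positivity) fun l hl => ?_
    have hlp := (mem_filter.1 hl).2
    have hl0 : (0 : ℝ) < l := by exact_mod_cast hlp.pos
    have h2 : rr (QF F) l + 1 ≤ l := rr_lt hlp (h.2.1 l hlp)
    have h3 : (rr (QF F) l : ℝ) + 1 ≤ l := by exact_mod_cast h2
    obtain ⟨f1, f2⟩ := Pool.Agent.Y781.JR.fac_pos l hlp
    have h4 : 1 / (l : ℝ) ≤ 1 - (rr (QF F) l : ℝ) / l := by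
      have e : 1 - (rr (QF F) l : ℝ) / l = ((l : ℝ) - rr (QF F) l) / l := by field_simp
      rw [e]
      exact div_le_div_of_nonneg_right (by linarith) hl0.le
    rw [le_div_iff₀ (pow_pos f1 k)]
    have h5 : (1 - 1 / (l : ℝ)) ^ k ≤ 1 := pow_le_one₀ f1.le f2
    have h6 : 0 ≤ 1 / (l : ℝ) := by positivity
    calc 1 / (l : ℝ) * (1 - 1 / (l : ℝ)) ^ k ≤ 1 / (l : ℝ) * 1 := mul_le_mul_of_nonneg_left h5 h6
      _ ≤ _ := by rw [mul_one]; exact h4
  have h2 : PS k F z * (1 - (k : ℝ) ^ 2 / z) ≤ S := by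
    apply ge_of_tendsto hS
    filter_upwards [eventually_ge_atTop z] with w hw
    refine le_trans ?_ (PS_low h (z := z) (w := w) (by omega) hw)
    apply mul_le_mul_of_nonneg_left _ (PS_pos h.2.1 z).le
    have : 0 ≤ (k : ℝ) ^ 2 / (w : ℝ) := by positivity
    linarith
  exact (mul_le_mul_of_nonneg_right h1 hα.le).trans h2

theorem psing_low (m : ℕ) : ∃ c : ℝ, 0 < c ∧ ∀ (Q : ℝ) (a d : Fin m → ℤ), TS Q a d → ∀ S : ℝ,
    Tendsto (psing a d) atTop (𝓝 S) → c ≤ S := by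
  obtain ⟨c, hc, h⟩ := S_low m
  refine ⟨c, hc, fun Q a d hT S hS => ?_⟩
  rw [psing_eq] at hS
  exact h _ _ (Hyp_lf hT.1 hT.2.1 (fun l hl => by
    obtain ⟨n, hn⟩ := hT.2.2.1 l hl
    exact ⟨n, by rwa [prod_lf_eval]⟩)) S hS

end Pool.Agent.Run7.h90.AU
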