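import Pool.Agent.Run7.h90.AU.ShiftD

set_option autoImplicit false

namespace Pool.Agent.Run7.h90.AU

theorem sm2 {l N : ℕ} (hl : l.Prime) (h : l ∣ N) (i : ℕ) (hN : N = 2 ^ i) : l ≤ 2 := by
  rw [hN] at h
  exact Nat.le_of_dvd (by norm_num) (hl.dvd_of_dvd_pow h)

end Pool.Agent.Run7.h90.AU
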