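import Pool.Agent.Run7.h90.AU.Poly

/-!
# Tuples of linear forms: the sieve product and the singular series, uniformly
-/

set_option autoImplicit false
set_option linter.all false

namespace Pool.Agent.Run7.h90.AU

open Finset Filter Topology
open Run7.h870.LI
open Pool.Agent.Run7.h90.AP
open Pool.Agent.Y781.JR (GG GG_pos GG_mertens)
open scoped Classical
open Polynomial (X C)

/-- the linear forms -/
noncomputable def lf {k : ℕ} (a d : Fin k → ℤ) (j : Fin k) : Polynomial ℤ := C (a j) + C (d j) * X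

theorem lf_eval {k : ℕ} (a d : Fin k → ℤ) (j : Fin k) (n : ℤ) : (lf a d j).eval n = a j + d j * n := by
  unfold lf
  simp

theorem lf_deg {k : ℕ} (a d : Fin k → ℤ) (j : Fin k) (hd : d j ≠ 0) : (lf a d j).natDegree = 1 := by
  unfold lf
  rw [add_comm]
  exact Polynomial.natDegree_linear hd

theorem lf_coeff {k : ℕ} (a d : Fin k → ℤ) (j : Fin k) (Q : ℝ) (hQ : 0 ≤ Q) (ha : |(a j : ℝ)| ≤ Q)
    (hd : |(d j : ℝ)| ≤ Q) (i : ℕ) : |((lf a d j).coeff i : ℝ)| ≤ Q := by
  unfold lf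
  rw [Polynomial.coeff_add, Polynomial.coeff_C, Polynomial.coeff_C_mul, Polynomial.coeff_X]
  rcases i with _ | _ | i
  · simpa using ha
  · simpa using hd
  · simpa using hQ

/-- the product of the leading coefficients and the resultants -/
def Res {k : ℕ} (a d : Fin k → ℤ) : ℤ :=
  (∏ j, d j) * ∏ x ∈ (univ : Finset (Fin k × Fin k)).filter (fun x => x.1 < x.2),
    (a x.1 * d x.2 - a x.2 * d x.1)

theorem rr_full {k : ℕ} {a d : Fin k → ℤ} (hd : ∀ j, d j ≠ 0)
    (hadm : ∀ l : ℕ, l.Prime → ∃ n : ℤ, ¬ (l : ℤ) ∣ (∏ j, lf a d j).eval n) {l : ℕ} (hl : l.Prime)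
    (hE : ¬ (l : ℤ) ∣ Res a d) : rr (QF (∏ j, lf a d j)) l = k := by
  have hfact : Fact l.Prime := ⟨hl⟩
  have hdeg : (∏ j, lf a d j).natDegree = k := by
    have hne : ∀ j, lf a d j ≠ 0 := by
      intro j h0
      have := lf_deg a d j (hd j)
      rw [h0, Polynomial.natDegree_zero] at this
      omega
    rw [Polynomial.natDegree_prod _ _ (fun j _ => hne j)]
    rw [sum_congr rfl (fun j _ => lf_deg a d j (hd j))]
    simp
  apply le_antisymm
  · exact (rr_deg hl (hadm l hl)).trans hdeg.le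
  · have hd0 : ∀ j, (d j : ZMod l) ≠ 0 := by
      intro j h0
      apply hE
      unfold Res
      refine Dvd.dvd.mul_right ?_ _
      exact ((ZMod.intCast_zmod_eq_zero_iff_dvd _ _).1 h0).trans (dvd_prod_of_mem d (mem_univ j))
    have hre : ∀ i j : Fin k, i < j → ((a i : ZMod l) * d j - a j * d i) ≠ 0 := by
      intro i j hij h0
      apply hE
      unfold Res
      refine Dvd.dvd.mul_left ?_ _
      have h1 : (l : ℤ) ∣ a i * d j - a j * d i := by
        rw [← ZMod.intCast_zmod_eq_zero_iff_dvd]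
        push_cast
        exact h0
      exact h1.trans (dvd_prod_of_mem (fun x : Fin k × Fin k => a x.1 * d x.2 - a x.2 * d x.1)
        (mem_filter.2 ⟨mem_univ (i, j), hij⟩))
    obtain ⟨ρ, hρ⟩ : ∃ ρ : Fin k → ZMod l, ρ = fun j => -(a j : ZMod l) / d j := ⟨_, rfl⟩
    have hρ1 : ∀ j, (a j : ZMod l) + d j * ρ j = 0 := by
      intro j
      rw [hρ]
      have := hd0 j
      field_simp
      ring
    have hinj : Function.Injective ρ := by
      intro i j hij
      by_contra hne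
      have key : ∀ i j : Fin k, i < j → ρ i = ρ j → False := by
        intro i j hlt h
        apply hre i j hlt
        have h1 := hρ1 i
        have h2 := hρ1 j
        rw [← h] at h2
        linear_combination (d j : ZMod l) * h1 - (d i : ZMod l) * h2
      rcases lt_or_gt_of_ne hne with h | h
      · exact key i j h hij
      · exact key j i h hij.symm
    unfold rr
    calc k = (univ : Finset (Fin k)).card := by simp
      _ ≤ _ := by
        apply card_le_card_of_injOn (fun j => (ρ j).val)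
        · intro j _
          rw [mem_coe, mem_filter, mem_range]
          refine ⟨ZMod.val_lt _, ?_⟩
          unfold QF
          rw [Polynomial.eval_prod]
          refine Dvd.dvd.trans ?_ (dvd_prod_of_mem (fun i => (lf a d i).eval (((ρ j).val : ℕ) : ℤ))
            (mem_univ j))
          rw [lf_eval, ← ZMod.intCast_zmod_eq_zero_iff_dvd]
          push_cast
          rw [ZMod.natCast_zmod_val]
          exact hρ1 j
        · intro i _ j _ h
          exact hinj (ZMod.val_injective l h)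

/-- the factor of the singular series -/
noncomputable def fct (k : ℕ) (F : Polynomial ℤ) (l : ℕ) : ℝ :=
  (1 - (rr (QF F) l : ℝ) / l) / (1 - 1 / (l : ℝ)) ^ k

/-- the partial products of the singular series -/
noncomputable def PS (k : ℕ) (F : Polynomial ℤ) (z : ℕ) : ℝ :=
  ∏ l ∈ (range (z + 1)).filter Nat.Prime, fct k F l

theorem V_PS (k : ℕ) (F : Polynomial ℤ) (z : ℕ) : V F z = PS k F z * GG (z + 1) ^ k := by
  unfold V PS GG fct
  rw [← prod_pow, ← prod_mul_distrib]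
  refine prod_congr rfl fun l hl => ?_
  have h := (Pool.Agent.Y781.JR.fac_pos l (mem_filter.1 hl).2).1
  rw [div_mul_cancel₀]
  exact (pow_pos h k).ne'

theorem fct_pos {k : ℕ} {F : Polynomial ℤ} (hF : ∀ l : ℕ, l.Prime → ∃ n : ℤ, ¬ (l : ℤ) ∣ F.eval n)
    {l : ℕ} (hl : l.Prime) : 0 < fct k F l := by
  unfold fct
  have h := (Pool.Agent.Y781.JR.fac_pos l hl).1
  have h1 := rr_lt hl (hF l hl)
  have hl0 : (0 : ℝ) < l := by exact_mod_cast hl.pos
  refine div_pos ?_ (pow_pos h k)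
  rw [sub_pos, div_lt_one hl0]
  exact_mod_cast h1

theorem PS_pos {k : ℕ} {F : Polynomial ℤ} (hF : ∀ l : ℕ, l.Prime → ∃ n : ℤ, ¬ (l : ℤ) ∣ F.eval n)
    (z : ℕ) : 0 < PS k F z := prod_pos fun l hl => fct_pos hF (mem_filter.1 hl).2

theorem PS_step (k : ℕ) (F : Polynomial ℤ) (z : ℕ) :
    PS k F (z + 1) = PS k F z * (if (z + 1).Prime then fct k F (z + 1) else 1) := by
  unfold PS
  rw [range_add_one (n := z + 1), filter_insert]
  split_ifs with h
  · rw [prod_insert (by simp), mul_comm]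
  · rw [mul_one]

/-- lower bound for the factors -/
theorem fct_low {k : ℕ} {F : Polynomial ℤ} {l : ℕ} (hl : l.Prime) (hlk : 2 * k + 2 ≤ l)
    (hr : rr (QF F) l ≤ k) : 1 - (k : ℝ) ^ 2 / (l : ℝ) ^ 2 ≤ fct k F l := by
  have hl0 : (0 : ℝ) < l := by exact_mod_cast hl.pos
  have hk0 : (0 : ℝ) ≤ k := Nat.cast_nonneg k
  have hlk' : 2 * (k : ℝ) + 2 ≤ l := by exact_mod_cast hlk
  obtain ⟨x, hx⟩ : ∃ x : ℝ, x = 1 / (l : ℝ) := ⟨_, rfl⟩
  have hx0 : 0 < x := by rw [hx]; positivity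
  have hx1 : k * x ≤ 1 / 2 := by
    rw [hx, mul_one_div, div_le_div_iff₀ hl0 (by norm_num)]
    linarith
  have hx2 : x ≤ 1 / 2 := by
    rw [hx, div_le_div_iff₀ hl0 (by norm_num)]
    linarith
  -- Bonferroni
  have hbon : ∀ m : ℕ, (1 - x) ^ m ≤ 1 - m * x + (m : ℝ) ^ 2 * x ^ 2 / 2 := by
    intro m
    induction m with
    | zero => simp
    | succ m ih =>
      rw [pow_succ]
      have h1 : (0 : ℝ) ≤ 1 - x := by linarith
      have h2 := mul_le_mul_of_nonneg_right ih h1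
      refine h2.trans ?_
      push_cast
      have hm : (0 : ℝ) ≤ m := Nat.cast_nonneg m
      have h3 : 0 ≤ (m : ℝ) ^ 2 * x ^ 3 := by positivity
      nlinarith [mul_nonneg hm (sq_nonneg x), sq_nonneg x]
  have hb := hbon k
  have h1 : (0 : ℝ) < (1 - x) ^ k := pow_pos (by linarith) k
  have hk2 : k * x ≤ 1 / 2 := hx1
  have e1 : (k : ℝ) ^ 2 / (l : ℝ) ^ 2 = (k * x) ^ 2 := by
    rw [hx]
    field_simp
  have e2 : (rr (QF F) l : ℝ) / l ≤ k * x := by
    rw [hx, mul_one_div]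
    exact div_le_div_of_nonneg_right (by exact_mod_cast hr) hl0.le
  unfold fct
  rw [← hx, e1, le_div_iff₀ h1]
  obtain ⟨y, hy⟩ : ∃ y : ℝ, y = k * x := ⟨_, rfl⟩
  have hy0 : 0 ≤ y := by rw [hy]; positivity
  have e3 : (k : ℝ) ^ 2 * x ^ 2 / 2 = y ^ 2 / 2 := by rw [hy]; ring
  rw [e3, ← hy] at hb
  rw [← hy] at e2 hk2 ⊢
  have h4 : 0 ≤ 1 - y ^ 2 := by nlinarith
  calc (1 - y ^ 2) * (1 - x) ^ k ≤ (1 - y ^ 2) * (1 - y + y ^ 2 / 2) :=
        mul_le_mul_of_nonneg_left hb h4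
    _ ≤ 1 - y := by nlinarith [mul_nonneg hy0 (sq_nonneg y), sq_nonneg (y ^ 2)]
    _ ≤ _ := by linarith

/-- upper bounds for the factors -/
theorem fct_up {k : ℕ} {F : Polynomial ℤ} {l : ℕ} (hl : l.Prime) :
    fct k F l ≤ Real.exp (2 * k / l) := by
  have hl2 : (2 : ℝ) ≤ l := by exact_mod_cast hl.two_le
  have hl0 : (0 : ℝ) < l := by linarith
  have h := (Pool.Agent.Y781.JR.fac_pos l hl).1
  have h1 : Real.exp (-(2 / (l : ℝ))) ≤ 1 - 1 / (l : ℝ) := by
    -- `1 - y ≥ exp (-2 y)` for `0 ≤ y ≤ 1 / 2`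
    obtain ⟨y, hy⟩ : ∃ y : ℝ, y = 1 / (l : ℝ) := ⟨_, rfl⟩
    have hy0 : 0 < y := by rw [hy]; positivity
    have hy1 : y ≤ 1 / 2 := by
      rw [hy, div_le_div_iff₀ hl0 (by norm_num)]
      linarith
    have e : (2 : ℝ) / l = 2 * y := by rw [hy]; ring
    rw [e, ← hy, Real.exp_neg]
    have h2 : (1 - y)⁻¹ ≤ Real.exp (2 * y) := by
      have h3 : 1 + 2 * y ≤ Real.exp (2 * y) := by linarith [Real.add_one_le_exp (2 * y)]
      refine le_trans ?_ h3
      rw [inv_le_comm₀ (by linarith) (by linarith)]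
      have h4 : (1 + 2 * y)⁻¹ = 1 / (1 + 2 * y) := by rw [one_div]
      rw [h4, div_le_iff₀ (by linarith)]
      nlinarith
    rw [inv_le_comm₀ (Real.exp_pos _) (by linarith)]
    exact h2
  unfold fct
  rw [div_le_iff₀ (pow_pos h k)]
  have h5 : 1 - (rr (QF F) l : ℝ) / l ≤ 1 := by
    have : 0 ≤ (rr (QF F) l : ℝ) / l := by positivity
    linarith
  refine h5.trans ?_
  have h6 : Real.exp (-(2 / (l : ℝ))) ^ k ≤ (1 - 1 / (l : ℝ)) ^ k :=
    pow_le_pow_left₀ (Real.exp_pos _).le h1 k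
  calc (1 : ℝ) = Real.exp (2 * k / l) * Real.exp (-(2 / (l : ℝ))) ^ k := by
        rw [← Real.exp_nat_mul, ← Real.exp_add, ← Real.exp_zero]
        congr 1
        ring
    _ ≤ _ := mul_le_mul_of_nonneg_left h6 (Real.exp_pos _).le

theorem fct_le_one {k : ℕ} {F : Polynomial ℤ} {l : ℕ} (hl : l.Prime) (hr : rr (QF F) l = k) :
    fct k F l ≤ 1 := by
  have hl2 : (2 : ℝ) ≤ l := by exact_mod_cast hl.two_le
  have hl0 : (0 : ℝ) < l := by linarith
  have h := (Pool.Agent.Y781.JR.fac_pos l hl).1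
  unfold fct
  rw [div_le_one (pow_pos h k), hr]
  have hy1 : -2 ≤ -(1 / (l : ℝ)) := by
    have : 1 / (l : ℝ) ≤ 1 := by rw [div_le_one hl0]; linarith
    linarith
  have := one_add_mul_le_pow hy1 k
  have e1 : 1 + (k : ℝ) * -(1 / (l : ℝ)) = 1 - (k : ℝ) / l := by ring
  have e2 : (1 : ℝ) + -(1 / (l : ℝ)) = 1 - 1 / l := by ring
  rwa [e1, e2] at this

end Pool.Agent.Run7.h90.AU
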