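import Pool.Agent.Run7.h90.AU.Tuple

/-!
# Tuples of linear forms: uniform asymptotics
-/

set_option autoImplicit false
set_option linter.all false

namespace Pool.Agent.Run7.h90.AU

open Finset Filter Topology
open Run7.h870.LI
open Pool.Agent.Run7.h90.AP
open Pool.Agent.Y781.JR (GG GG_pos GG_mertens)
open scoped Classical
open Polynomial (X C)

/-- the polynomial has `k` roots modulo all primes outside the divisors of `E` -/
def Hyp (k : ℕ) (F : Polynomial ℤ) (E : ℕ) : Prop :=
  E ≠ 0 ∧ (∀ l : ℕ, l.Prime → ∃ n : ℤ, ¬ (l : ℤ) ∣ F.eval n) ∧ (∀ l : ℕ, l.Prime → rr (QF F) l ≤ k) ∧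
    ∀ l : ℕ, l.Prime → ¬ l ∣ E → rr (QF F) l = k

theorem PS_low {k : ℕ} {F : Polynomial ℤ} {E : ℕ} (h : Hyp k F E) {z w : ℕ}
    (hz : k ^ 2 + 2 * k + 2 ≤ z) (hzw : z ≤ w) :
    PS k F z * (1 - (k : ℝ) ^ 2 / z + (k : ℝ) ^ 2 / w) ≤ PS k F w := by
  have hz0 : (0 : ℝ) < z := by
    have : 0 < z := by omega
    exact_mod_cast this
  have hα : (k : ℝ) ^ 2 / z ≤ 1 := by
    rw [div_le_one hz0]
    have : k ^ 2 ≤ z := by omega
    exact_mod_cast this
  induction w, hzw using Nat.le_induction with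
  | base =>
    have : 1 - (k : ℝ) ^ 2 / z + (k : ℝ) ^ 2 / z = 1 := by ring
    rw [this, mul_one]
  | succ w hw ih =>
    rw [PS_step]
    have hP := PS_pos (k := k) h.2.1 z
    have hw0 : (0 : ℝ) < w := lt_of_lt_of_le hz0 (by exact_mod_cast hw)
    have hk2 : (0 : ℝ) ≤ (k : ℝ) ^ 2 := by positivity
    have h1 : (k : ℝ) ^ 2 / w ≤ (k : ℝ) ^ 2 / z :=
      div_le_div_of_nonneg_left hk2 hz0 (by exact_mod_cast hw)
    have h2 : 0 ≤ (k : ℝ) ^ 2 / w := by positivity
    have hfac : 1 - (k : ℝ) ^ 2 / ((w : ℝ) + 1) ^ 2 ≤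
        (if (w + 1).Prime then fct k F (w + 1) else 1) := by
      split_ifs with hp
      · have := fct_low (k := k) (F := F) hp (by nlinarith) (h.2.2.1 _ hp)
        push_cast at this
        exact this
      · have : 0 ≤ (k : ℝ) ^ 2 / ((w : ℝ) + 1) ^ 2 := by positivity
        linarith
    have hfac0 : 0 ≤ 1 - (k : ℝ) ^ 2 / ((w : ℝ) + 1) ^ 2 := by
      rw [sub_nonneg, div_le_one (by positivity)]
      have h3 : (k : ℝ) ^ 2 ≤ w := by
        have : k ^ 2 ≤ w := by omega
        exact_mod_cast this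
      nlinarith
    have h5 : 1 - (k : ℝ) ^ 2 / z + (k : ℝ) ^ 2 / ((w + 1 : ℕ) : ℝ) ≤
        (1 - (k : ℝ) ^ 2 / z + (k : ℝ) ^ 2 / w) * (1 - (k : ℝ) ^ 2 / ((w : ℝ) + 1) ^ 2) := by
      push_cast
      have e1 : (k : ℝ) ^ 2 / w - (k : ℝ) ^ 2 / ((w : ℝ) + 1) = (k : ℝ) ^ 2 / (w * ((w : ℝ) + 1)) := by
        field_simp
        ring
      have e2 : (k : ℝ) ^ 2 / ((w : ℝ) + 1) ^ 2 ≤ (k : ℝ) ^ 2 / (w * ((w : ℝ) + 1)) := by
        apply div_le_div_of_nonneg_left hk2 (by positivity)
        nlinarith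
      have h6 : (1 - (k : ℝ) ^ 2 / z + (k : ℝ) ^ 2 / w) * ((k : ℝ) ^ 2 / ((w : ℝ) + 1) ^ 2) ≤
          1 * ((k : ℝ) ^ 2 / ((w : ℝ) + 1) ^ 2) :=
        mul_le_mul_of_nonneg_right (by linarith) (by positivity)
      nlinarith
    calc PS k F z * (1 - (k : ℝ) ^ 2 / z + (k : ℝ) ^ 2 / ((w + 1 : ℕ) : ℝ)) ≤
        PS k F z * ((1 - (k : ℝ) ^ 2 / z + (k : ℝ) ^ 2 / w) * (1 - (k : ℝ) ^ 2 / ((w : ℝ) + 1) ^ 2)) :=
          mul_le_mul_of_nonneg_left h5 hP.le
      _ = (PS k F z * (1 - (k : ℝ) ^ 2 / z + (k : ℝ) ^ 2 / w)) *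
          (1 - (k : ℝ) ^ 2 / ((w : ℝ) + 1) ^ 2) := by ring
      _ ≤ PS k F w * (1 - (k : ℝ) ^ 2 / ((w : ℝ) + 1) ^ 2) := mul_le_mul_of_nonneg_right ih hfac0
      _ ≤ _ := mul_le_mul_of_nonneg_left hfac (PS_pos h.2.1 w).le

theorem PS_up {k : ℕ} {F : Polynomial ℤ} {E : ℕ} (h : Hyp k F E) {z w : ℕ} (hz : 2 ≤ z)
    (hzw : z ≤ w) : PS k F w ≤ PS k F z * Real.exp (2 * k * Real.log E / (z * Real.log z)) := by
  have hz2 : (2 : ℝ) ≤ z := by exact_mod_cast hz
  have hlz : 0 < Real.log z := Real.log_pos (by linarith)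
  obtain ⟨ν, hν⟩ : ∃ ν : ℕ → ℕ, ν = fun w => (E.primeFactors.filter fun l => z < l ∧ l ≤ w).card :=
    ⟨_, rfl⟩
  have h1 : ∀ w, z ≤ w → PS k F w ≤ PS k F z * Real.exp (2 * k / z) ^ ν w := by
    intro w hw
    induction w, hw using Nat.le_induction with
    | base =>
      have : ν z = 0 := by
        rw [hν]
        simp only
        rw [card_eq_zero, filter_eq_empty_iff]
        intro l _
        omega
      rw [this, pow_zero, mul_one]
    | succ w hw ih =>
      rw [PS_step]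
      have hP := PS_pos (k := k) h.2.1 z
      have hPw := PS_pos (k := k) h.2.1 w
      have hmono : ν w ≤ ν (w + 1) := by
        rw [hν]
        simp only
        apply card_le_card
        intro l hl
        rw [mem_filter] at hl ⊢
        exact ⟨hl.1, hl.2.1, by omega⟩
      have he1 : 1 ≤ Real.exp (2 * k / z) := by
        rw [← Real.exp_zero]
        exact Real.exp_le_exp.2 (by positivity)
      have hle : PS k F w ≤ PS k F z * Real.exp (2 * k / z) ^ ν (w + 1) :=
        ih.trans (mul_le_mul_of_nonneg_left (pow_le_pow_right₀ he1 hmono) hP.le)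
      split_ifs with hp
      · by_cases hE : (w + 1) ∣ E
        · have hν1 : ν (w + 1) = ν w + 1 := by
            rw [hν]
            simp only
            have : (E.primeFactors.filter fun l => z < l ∧ l ≤ w + 1) =
                insert (w + 1) (E.primeFactors.filter fun l => z < l ∧ l ≤ w) := by
              ext l
              rw [mem_insert, mem_filter, mem_filter]
              constructor
              · rintro ⟨h2, h3, h4⟩
                rcases eq_or_ne l (w + 1) with h5 | h5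
                · exact Or.inl h5
                · exact Or.inr ⟨h2, h3, by omega⟩
              · rintro (h2 | ⟨h2, h3, h4⟩)
                · rw [h2]
                  exact ⟨Nat.mem_primeFactors.2 ⟨hp, hE, h.1⟩, by omega, le_rfl⟩
                · exact ⟨h2, h3, by omega⟩
            rw [this, card_insert_of_notMem]
            rw [mem_filter]
            omega
          have hf : fct k F (w + 1) ≤ Real.exp (2 * k / z) := by
            refine (fct_up hp).trans ?_
            apply Real.exp_le_exp.2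
            apply div_le_div_of_nonneg_left (by positivity) (by linarith)
            push_cast
            have : (z : ℝ) ≤ w := by exact_mod_cast hw
            linarith
          rw [hν1, pow_succ, ← mul_assoc]
          exact mul_le_mul ih hf (fct_pos h.2.1 hp).le (by positivity)
        · have hf := fct_le_one hp (h.2.2.2 _ hp hE)
          exact (mul_le_of_le_one_right hPw.le hf).trans hle
      · rw [mul_one]
        exact hle
  refine (h1 w hzw).trans ?_
  apply mul_le_mul_of_nonneg_left _ (PS_pos h.2.1 z).le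
  rw [← Real.exp_nat_mul]
  apply Real.exp_le_exp.2
  have h4 : (ν w : ℝ) * Real.log z ≤ Real.log E := by
    have h5 : z ^ ν w ≤ E := by
      rw [hν]
      simp only
      calc z ^ (E.primeFactors.filter fun l => z < l ∧ l ≤ w).card =
          ∏ _l ∈ E.primeFactors.filter (fun l => z < l ∧ l ≤ w), z := by rw [prod_const]
        _ ≤ ∏ l ∈ E.primeFactors.filter (fun l => z < l ∧ l ≤ w), l :=
            prod_le_prod' fun l hl => (mem_filter.1 hl).2.1.le
        _ ≤ ∏ l ∈ E.primeFactors, l := by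
            apply prod_le_prod_of_subset_of_one_le' (filter_subset _ _)
            intro l hl _
            exact (Nat.prime_of_mem_primeFactors hl).one_le
        _ ≤ E := Nat.le_of_dvd (Nat.pos_of_ne_zero h.1) (Nat.prod_primeFactors_dvd E)
    have h6 : Real.log ((z : ℝ) ^ ν w) ≤ Real.log E := by
      apply Real.log_le_log (by positivity)
      exact_mod_cast h5
    rwa [Real.log_pow] at h6
  have hk0 : (0 : ℝ) ≤ k := Nat.cast_nonneg k
  rw [le_div_iff₀ (by positivity)]
  calc (ν w : ℝ) * (2 * k / z) * (z * Real.log z) = 2 * k * (ν w * Real.log z) := by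
        field_simp
    _ ≤ 2 * k * Real.log E := mul_le_mul_of_nonneg_left h4 (by positivity)

/-- the singular series converges -/
theorem PS_lim {k : ℕ} {F : Polynomial ℤ} {E : ℕ} (h : Hyp k F E) :
    ∃ S : ℝ, 0 < S ∧ Tendsto (PS k F) atTop (𝓝 S) := by
  obtain ⟨w₀, hw₀⟩ : ∃ w₀, w₀ = E + (k ^ 2 + 2 * k + 2) := ⟨_, rfl⟩
  have hanti : Antitone fun n : ℕ => PS k F (n + w₀) := by
    apply antitone_nat_of_succ_le
    intro n
    have e : n + 1 + w₀ = (n + w₀) + 1 := by ring
    rw [e, PS_step]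
    apply mul_le_of_le_one_right (PS_pos h.2.1 _).le
    split_ifs with hp
    · apply fct_le_one hp
      apply h.2.2.2 _ hp
      intro hE
      have := Nat.le_of_dvd (Nat.pos_of_ne_zero h.1) hE
      omega
    · exact le_rfl
  have hw0 : (0 : ℝ) < w₀ := by
    have : 0 < w₀ := by omega
    exact_mod_cast this
  have hlow : ∀ n : ℕ, PS k F w₀ * (1 - (k : ℝ) ^ 2 / w₀) ≤ PS k F (n + w₀) := by
    intro n
    refine le_trans ?_ (PS_low h (z := w₀) (w := n + w₀) (by omega) (by omega))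
    apply mul_le_mul_of_nonneg_left _ (PS_pos h.2.1 _).le
    have : 0 ≤ (k : ℝ) ^ 2 / ((n + w₀ : ℕ) : ℝ) := by positivity
    linarith
  have hpos : 0 < PS k F w₀ * (1 - (k : ℝ) ^ 2 / w₀) := by
    apply mul_pos (PS_pos h.2.1 _)
    rw [sub_pos, div_lt_one hw0]
    have : k ^ 2 < w₀ := by omega
    exact_mod_cast this
  have ht := tendsto_atTop_ciInf hanti ⟨_, by rintro _ ⟨n, rfl⟩; exact hlow n⟩
  refine ⟨_, lt_of_lt_of_le hpos (ge_of_tendsto' ht hlow), ?_⟩
  exact (tendsto_add_atTop_iff_nat w₀).1 ht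

/-- **Uniform asymptotics** of the sieve product -/
theorem V_tuple (k : ℕ) (A τ : ℝ) (hA : 0 ≤ A) (hτ : 0 < τ) : ∃ Z₀ : ℕ, 3 ≤ Z₀ ∧ ∀ z : ℕ, Z₀ ≤ z →
    ∀ (F : Polynomial ℤ) (E : ℕ), Hyp k F E → Real.log E ≤ A * z →
    ∀ S : ℝ, 0 < S → Tendsto (PS k F) atTop (𝓝 S) →
    |V F z - Real.exp (-(k * Real.eulerMascheroniConstant)) * S / Real.log z ^ k| ≤
      τ * (Real.exp (-(k * Real.eulerMascheroniConstant)) * S / Real.log z ^ k) := by
  obtain ⟨g, hg⟩ : ∃ g : ℝ, g = Real.exp (-(k * Real.eulerMascheroniConstant)) := ⟨_, rfl⟩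
  have hg0 : 0 < g := by rw [hg]; exact Real.exp_pos _
  have hGlim : Tendsto (fun z : ℕ => (GG (z + 1) * Real.log z) ^ k) atTop (𝓝 g) := by
    have h1 := GG_mertens.pow k
    have e : Real.exp (-Real.eulerMascheroniConstant) ^ k = g := by
      rw [hg, ← Real.exp_nat_mul]
      congr 1
      ring
    rwa [e] at h1
  have hlog : Tendsto (fun z : ℕ => Real.exp (-(2 * k * A / Real.log z))) atTop (𝓝 1) := by
    have h1 : Tendsto (fun z : ℕ => 2 * k * A / Real.log z) atTop (𝓝 0) :=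
      (Real.tendsto_log_atTop.comp tendsto_natCast_atTop_atTop).const_div_atTop _
    have h2 := (Real.continuous_exp.tendsto _).comp h1.neg
    rwa [neg_zero, Real.exp_zero] at h2
  have hdiv : Tendsto (fun z : ℕ => 1 - (k : ℝ) ^ 2 / z) atTop (𝓝 1) := by
    have h1 : Tendsto (fun z : ℕ => (k : ℝ) ^ 2 / (z : ℝ)) atTop (𝓝 0) :=
      tendsto_natCast_atTop_atTop.const_div_atTop _
    have h2 := h1.const_sub 1
    rwa [sub_zero] at h2
  have hlow := hGlim.mul hlog
  rw [mul_one] at hlow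
  have hup := hGlim.div hdiv one_ne_zero
  rw [div_one] at hup
  have e1 : ∀ᶠ z : ℕ in atTop, (GG (z + 1) * Real.log z) ^ k / (1 - (k : ℝ) ^ 2 / z) ≤ (1 + τ) * g :=
    (hup.eventually (gt_mem_nhds (show g < (1 + τ) * g by nlinarith))).mono fun z hz => le_of_lt hz
  have e2 : ∀ᶠ z : ℕ in atTop, (1 - τ) * g ≤
      (GG (z + 1) * Real.log z) ^ k * Real.exp (-(2 * k * A / Real.log z)) :=
    (hlow.eventually (lt_mem_nhds (show (1 - τ) * g < g by nlinarith))).mono fun z hz => le_of_lt hz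
  obtain ⟨Z₀, hZ₀⟩ := eventually_atTop.1 (e1.and e2)
  refine ⟨max Z₀ (k ^ 2 + 2 * k + 3), by
    have : 3 ≤ k ^ 2 + 2 * k + 3 := by omega
    exact this.trans (le_max_right _ _), ?_⟩
  intro z hz F E h hEA S hS0 hS
  obtain ⟨h1, h2⟩ := hZ₀ z ((le_max_left _ _).trans hz)
  have hzk : k ^ 2 + 2 * k + 3 ≤ z := (le_max_right _ _).trans hz
  have hz3 : (3 : ℝ) ≤ z := by
    have : 3 ≤ z := by omega
    exact_mod_cast this
  have hlz : 0 < Real.log z := Real.log_pos (by linarith)
  have hk0 : (0 : ℝ) ≤ k := Nat.cast_nonneg k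
  have hP := PS_pos (k := k) h.2.1 z
  have hα : 0 < 1 - (k : ℝ) ^ 2 / z := by
    rw [sub_pos, div_lt_one (by linarith)]
    have : k ^ 2 < z := by omega
    exact_mod_cast this
  -- the limit compared with the partial product
  have u1 : PS k F z * (1 - (k : ℝ) ^ 2 / z) ≤ S := by
    apply ge_of_tendsto hS
    filter_upwards [eventually_ge_atTop z] with w hw
    refine le_trans ?_ (PS_low h (z := z) (w := w) (by omega) hw)
    apply mul_le_mul_of_nonneg_left _ hP.le
    have : 0 ≤ (k : ℝ) ^ 2 / (w : ℝ) := by positivity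
    linarith
  have u2 : S ≤ PS k F z * Real.exp (2 * k * A / Real.log z) := by
    apply le_of_tendsto hS
    filter_upwards [eventually_ge_atTop z] with w hw
    refine (PS_up h (by omega) hw).trans ?_
    apply mul_le_mul_of_nonneg_left _ hP.le
    apply Real.exp_le_exp.2
    rw [div_le_div_iff₀ (by positivity) hlz]
    have := mul_le_mul_of_nonneg_right (mul_le_mul_of_nonneg_left hEA
      (show (0 : ℝ) ≤ 2 * k by positivity)) hlz.le
    linarith
  have u3 : PS k F z ≤ S / (1 - (k : ℝ) ^ 2 / z) := by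
    rw [le_div_iff₀ hα]
    exact u1
  have u4 : S * Real.exp (-(2 * k * A / Real.log z)) ≤ PS k F z := by
    rw [Real.exp_neg, ← div_eq_mul_inv, div_le_iff₀ (Real.exp_pos _)]
    exact u2
  have hV := V_PS k F z
  have hVz : V F z * Real.log z ^ k = PS k F z * (GG (z + 1) * Real.log z) ^ k := by
    rw [hV, mul_pow]
    ring
  rw [← hg]
  have hlk : 0 < Real.log z ^ k := by positivity
  have hGk : 0 < (GG (z + 1) * Real.log z) ^ k := by
    have := GG_pos (z + 1)
    positivity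
  obtain ⟨H, hH⟩ : ∃ H : ℝ, H = g * S / Real.log z ^ k := ⟨_, rfl⟩
  rw [← hH]
  have hHz : H * Real.log z ^ k = g * S := by
    rw [hH]
    field_simp
  have w1 : V F z ≤ (1 + τ) * H := by
    refine le_of_mul_le_mul_right ?_ hlk
    calc V F z * Real.log z ^ k = PS k F z * (GG (z + 1) * Real.log z) ^ k := hVz
      _ ≤ S / (1 - (k : ℝ) ^ 2 / z) * (GG (z + 1) * Real.log z) ^ k :=
          mul_le_mul_of_nonneg_right u3 hGk.le
      _ = S * ((GG (z + 1) * Real.log z) ^ k / (1 - (k : ℝ) ^ 2 / z)) := by ring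
      _ ≤ S * ((1 + τ) * g) := mul_le_mul_of_nonneg_left h1 hS0.le
      _ = (1 + τ) * (H * Real.log z ^ k) := by rw [hHz]; ring
      _ = _ := by ring
  have w2 : (1 - τ) * H ≤ V F z := by
    refine le_of_mul_le_mul_right ?_ hlk
    calc (1 - τ) * H * Real.log z ^ k = (1 - τ) * (H * Real.log z ^ k) := by ring
      _ = S * ((1 - τ) * g) := by rw [hHz]; ring
      _ ≤ S * ((GG (z + 1) * Real.log z) ^ k * Real.exp (-(2 * k * A / Real.log z))) :=
          mul_le_mul_of_nonneg_left h2 hS0.le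
      _ = (S * Real.exp (-(2 * k * A / Real.log z))) * (GG (z + 1) * Real.log z) ^ k := by ring
      _ ≤ PS k F z * (GG (z + 1) * Real.log z) ^ k := mul_le_mul_of_nonneg_right u4 hGk.le
      _ = _ := hVz.symm
  rw [abs_le]
  constructor <;> linarith

end Pool.Agent.Run7.h90.AU
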