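import Pool.Agent.Run7.h90.AU.TupleB

/-!
# Tuples of linear forms: counts and orders of magnitude
-/

set_option autoImplicit false
set_option linter.all false

namespace Pool.Agent.Run7.h90.AU

open Finset Filter Topology
open Run7.h870.LI
open Pool.Agent.Run7.h90.AP
open Pool.Agent.Y781.JR (GG GG_pos GG_mertens)
open scoped Classical
open Polynomial (X C)

/-- the main term -/
noncomputable def Xk (k p : ℕ) (S K : ℝ) (L : ℕ) (y : ℝ) : ℝ := S * (K * ((L : ℝ) / p)) / y ^ k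

theorem tuple_count (k : ℕ) (ε A : ℝ) (hε : 0 < ε) (hA : 0 ≤ A) : ∃ δ : ℝ, 0 < δ ∧ δ ≤ ε / 8 ∧
    δ ≤ 1 / 8 ∧ ∀ b : ℕ, 1 ≤ b → ∃ P₀ : ℝ, ∀ (p : ℕ) [Fact p.Prime], P₀ ≤ p →
      ∀ (F : Polynomial ℤ) (E : ℕ), Hyp k F E → F.natDegree ≤ k → (E : ℝ) ≤ (p : ℝ) ^ A →
      ∀ S : ℝ, 0 < S → Tendsto (PS k F) atTop (𝓝 S) →
      ∀ (ι : Type) (s : Finset ι) (v : ι → ZMod p), Small p ε s v →
      ∀ M L z : ℕ, (p : ℝ) ^ (1 - δ) ≤ L → Real.log p ≤ z → (z : ℝ) ≤ (p : ℝ) ^ (δ / b) →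
      |((((prs p s v M L).filter fun x => ∀ l : ℕ, l.Prime → l ≤ z → ¬ QF F l x.2).card : ℕ) : ℝ) -
        Real.exp (-(k * Real.eulerMascheroniConstant)) * Xk k p S s.card L (Real.log z)| ≤
      (1 / 2) ^ b * (Real.exp (-(k * Real.eulerMascheroniConstant)) * Xk k p S s.card L (Real.log z)) := by
  obtain ⟨δ₀, hδ₀, hδ₀ε, hδ₀8, H⟩ := poly_count k ε hε
  refine ⟨δ₀ / 3, by positivity, by linarith, by linarith, ?_⟩
  intro b hb
  obtain ⟨x, hx⟩ : ∃ x : ℝ, x = (1 / 2) ^ (b + 2) := ⟨_, rfl⟩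
  have hx0 : 0 < x := by rw [hx]; positivity
  have hx1 : x ≤ 1 := by rw [hx]; exact pow_le_one₀ (by norm_num) (by norm_num)
  have hx2 : (1 / 2 : ℝ) ^ b = 4 * x := by rw [hx, pow_add]; ring
  obtain ⟨P₁, H⟩ := H (b + 2) (by omega)
  obtain ⟨Z₀, hZ3, hZ⟩ := V_tuple k A x hA hx0
  refine ⟨max P₁ (Real.exp Z₀), ?_⟩
  intro p hp hpP F E hHyp hdeg hEA S hS0 hS ι s v hv M L z hL1 hz1 hz2
  have hpp : p.Prime := Fact.out
  have hp0 : (0 : ℝ) < p := by exact_mod_cast hpp.pos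
  have hp1 : (1 : ℝ) ≤ p := by exact_mod_cast hpp.one_le
  have hzZ : Z₀ ≤ z := by
    have h1 : (Z₀ : ℝ) ≤ Real.log p := by
      rw [← Real.log_exp (Z₀ : ℝ)]
      exact Real.log_le_log (Real.exp_pos _) ((le_max_right _ _).trans hpP)
    exact_mod_cast h1.trans hz1
  have hb1 : (1 : ℝ) ≤ b := by exact_mod_cast hb
  have hElog : Real.log E ≤ A * z := by
    have hE1 : (0 : ℝ) < E := by
      have : 0 < E := Nat.pos_of_ne_zero hHyp.1
      exact_mod_cast this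
    calc Real.log E ≤ Real.log ((p : ℝ) ^ A) := Real.log_le_log hE1 hEA
      _ = A * Real.log p := Real.log_rpow hp0 _
      _ ≤ _ := mul_le_mul_of_nonneg_left hz1 hA
  have h1 := H p ((le_max_left _ _).trans hpP) F hdeg hHyp.2.1 ι s v hv M L z
    ((Real.rpow_le_rpow_of_exponent_le hp1 (by linarith)).trans hL1) (by omega)
    (hz2.trans (Real.rpow_le_rpow_of_exponent_le hp1 (by
      push_cast
      rw [div_div, div_le_div_iff₀ (by positivity) (by positivity)]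
      nlinarith)))
  have h2 := hZ z hzZ F E hHyp hElog S hS0 hS
  have hz3 : (3 : ℝ) ≤ z := by exact_mod_cast hZ3.trans hzZ
  have hlz : 0 < Real.log z := Real.log_pos (by linarith)
  rw [← hx] at h1
  rw [hx2]
  obtain ⟨Y, hY⟩ : ∃ Y : ℝ, Y = s.card * ((L : ℝ) / p) := ⟨_, rfl⟩
  have hY0 : 0 ≤ Y := by rw [hY]; positivity
  obtain ⟨G, hG⟩ : ∃ G : ℝ, G = Real.exp (-(k * Real.eulerMascheroniConstant)) * S /
    Real.log z ^ k := ⟨_, rfl⟩
  have hG0 : 0 ≤ G := by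
    rw [hG]
    positivity
  have hX : Real.exp (-(k * Real.eulerMascheroniConstant)) * Xk k p S s.card L (Real.log z) = Y * G := by
    unfold Xk
    rw [hY, hG]
    ring
  rw [hX]
  rw [← hY] at h1
  rw [← hG] at h2
  rw [abs_le] at h1 h2 ⊢
  have hYG : 0 ≤ Y * G := mul_nonneg hY0 hG0
  have a1 : Y * V F z ≤ Y * (G + x * G) := mul_le_mul_of_nonneg_left (by linarith [h2.2]) hY0
  have a2 : Y * (G - x * G) ≤ Y * V F z := mul_le_mul_of_nonneg_left (by linarith [h2.1]) hY0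
  have a3 : x * (Y * V F z) ≤ x * (Y * (G + x * G)) := mul_le_mul_of_nonneg_left a1 hx0.le
  have a4 : x * (x * (Y * G)) ≤ 1 * (x * (Y * G)) := mul_le_mul_of_nonneg_right hx1 (by positivity)
  constructor
  · nlinarith [h1.1]
  · nlinarith [h1.2]

theorem lf_prod_deg {k : ℕ} {a d : Fin k → ℤ} (hd : ∀ j, d j ≠ 0) :
    (∏ j, lf a d j).natDegree = k := by
  have hne : ∀ j, lf a d j ≠ 0 := by
    intro j h0
    have := lf_deg a d j (hd j)
    rw [h0, Polynomial.natDegree_zero] at this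
    omega
  rw [Polynomial.natDegree_prod _ _ (fun j _ => hne j), sum_congr rfl (fun j _ => lf_deg a d j (hd j))]
  simp

theorem Res_ne {k : ℕ} {a d : Fin k → ℤ} (hd : ∀ j, d j ≠ 0)
    (had : ∀ i j, i ≠ j → a i * d j ≠ a j * d i) : Res a d ≠ 0 := by
  unfold Res
  refine mul_ne_zero (prod_ne_zero_iff.2 fun j _ => hd j) (prod_ne_zero_iff.2 fun x hx => ?_)
  exact sub_ne_zero.2 (had x.1 x.2 (mem_filter.1 hx).2.ne)

theorem Hyp_lf {k : ℕ} {a d : Fin k → ℤ} (hd : ∀ j, d j ≠ 0)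
    (had : ∀ i j, i ≠ j → a i * d j ≠ a j * d i)
    (hadm : ∀ l : ℕ, l.Prime → ∃ n : ℤ, ¬ (l : ℤ) ∣ (∏ j, lf a d j).eval n) :
    Hyp k (∏ j, lf a d j) (Res a d).natAbs := by
  refine ⟨Int.natAbs_ne_zero.2 (Res_ne hd had), hadm, ?_, ?_⟩
  · intro l hl
    exact (rr_deg hl (hadm l hl)).trans (lf_prod_deg hd).le
  · intro l hl hE
    exact rr_full hd hadm hl (fun h => hE (Int.natCast_dvd.1 h))

theorem Res_le {k : ℕ} {a d : Fin k → ℤ} {Q : ℝ} (hQ : 2 ≤ Q) (ha : ∀ j, |(a j : ℝ)| ≤ Q)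
    (hd : ∀ j, |(d j : ℝ)| ≤ Q) : (((Res a d).natAbs : ℕ) : ℝ) ≤ Q ^ (k + 3 * k ^ 2) := by
  rw [Nat.cast_natAbs]
  unfold Res
  push_cast
  rw [abs_mul, abs_prod, abs_prod, pow_add]
  have hQ0 : (0 : ℝ) ≤ Q := by linarith
  apply mul_le_mul _ _ (prod_nonneg fun _ _ => abs_nonneg _) (by positivity)
  · calc ∏ j, |(d j : ℝ)| ≤ ∏ _j : Fin k, Q := prod_le_prod (fun _ _ => abs_nonneg _) fun j _ => hd j
      _ = Q ^ k := by simp
  · calc ∏ x ∈ (univ : Finset (Fin k × Fin k)).filter (fun x => x.1 < x.2),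
        |(a x.1 : ℝ) * d x.2 - a x.2 * d x.1| ≤
        ∏ _x ∈ (univ : Finset (Fin k × Fin k)).filter (fun x => x.1 < x.2), Q ^ 3 := by
          refine prod_le_prod (fun _ _ => abs_nonneg _) fun x _ => ?_
          refine (abs_sub _ _).trans ?_
          rw [abs_mul, abs_mul]
          have h1 := mul_le_mul (ha x.1) (hd x.2) (abs_nonneg _) hQ0
          have h2 := mul_le_mul (ha x.2) (hd x.1) (abs_nonneg _) hQ0
          have h3 : 2 * (Q * Q) ≤ Q * (Q * Q) := mul_le_mul_of_nonneg_right hQ (by positivity)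
          nlinarith
      _ = (Q ^ 3) ^ ((univ : Finset (Fin k × Fin k)).filter (fun x => x.1 < x.2)).card := by
          rw [prod_const]
      _ ≤ (Q ^ 3) ^ (k ^ 2) := by
          apply pow_le_pow_right₀ (one_le_pow₀ (by linarith))
          refine (card_filter_le _ _).trans ?_
          rw [card_univ, Fintype.card_prod, Fintype.card_fin, sq]
      _ = _ := by rw [← pow_mul]

theorem tuple_orders (k : ℕ) (ε A : ℝ) (hε : 0 < ε) (hA : 1 ≤ A) : ∃ (r : ℕ) (δ K : ℝ), 0 < δ ∧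
    0 < K ∧ ∃ P₀ : ℝ, ∀ (p : ℕ) [Fact p.Prime], P₀ ≤ p → ∀ a d : Fin k → ℤ, (∀ j, d j ≠ 0) →
      (∀ i j, i ≠ j → a i * d j ≠ a j * d i) →
      (∀ l : ℕ, l.Prime → ∃ n : ℤ, ¬ (l : ℤ) ∣ (∏ j, lf a d j).eval n) →
      (∀ j, |(a j : ℝ)| ≤ (p : ℝ) ^ A) → (∀ j, |(d j : ℝ)| ≤ (p : ℝ) ^ A) →
      ∀ S : ℝ, 0 < S → Tendsto (PS k (∏ j, lf a d j)) atTop (𝓝 S) →
      ∀ (ι : Type) (s : Finset ι) (v : ι → ZMod p), Small p ε s v →
      ∀ M L : ℕ, (M + L : ℝ) ≤ (p : ℝ) ^ A → (p : ℝ) ^ (1 - δ) ≤ L →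
      Xk k p S s.card L (Real.log p) ≤ K * (((prs p s v M L).filter fun x =>
          ∀ j, Alm r ((p : ℝ) ^ δ) ((lf a d j).eval (x.2 : ℤ)).natAbs).card : ℝ) ∧
      (((prs p s v M L).filter fun x => ∀ j, ((lf a d j).eval (x.2 : ℤ)).natAbs.Prime).card : ℝ) ≤
        K * Xk k p S s.card L (Real.log p) := by
  obtain ⟨r, δ, hδ, -, -, P₁, H⟩ := poly_orders k ε A hε hA
  obtain ⟨A', hA'⟩ : ∃ A' : ℝ, A' = A * ((k + 3 * k ^ 2 : ℕ) : ℝ) := ⟨_, rfl⟩
  have hA'0 : 0 ≤ A' := by rw [hA']; positivity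
  obtain ⟨Z₀, hZ3, hZ⟩ := V_tuple k A' (1 / 2) hA'0 (by norm_num)
  obtain ⟨g, hg⟩ : ∃ g : ℝ, g = Real.exp (-(k * Real.eulerMascheroniConstant)) := ⟨_, rfl⟩
  have hg0 : 0 < g := by rw [hg]; exact Real.exp_pos _
  obtain ⟨K, hK⟩ : ∃ K : ℝ, K = max (4 * δ ^ k / g) (3 * g * (2 / δ) ^ k) := ⟨_, rfl⟩
  have hK1 : 4 * δ ^ k / g ≤ K := by rw [hK]; exact le_max_left _ _
  have hK2 : 3 * g * (2 / δ) ^ k ≤ K := by rw [hK]; exact le_max_right _ _
  have hK0 : 0 < K := lt_of_lt_of_le (by positivity) hK1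
  refine ⟨r, δ, K, hδ, hK0, ?_⟩
  have ev : ∀ᶠ p : ℝ in atTop, P₁ ≤ p ∧ 10 ≤ p ∧ (Z₀ : ℝ) + 2 ≤ p ^ δ ∧ 2 ≤ (p : ℝ) ^ (δ / 2) ∧
      3 + Real.log p ≤ p ^ δ / 2 := by
    refine (eventually_ge_atTop P₁).and ((eventually_ge_atTop 10).and
      (((tendsto_rpow_atTop hδ).eventually_ge_atTop _).and
      (((tendsto_rpow_atTop (show 0 < δ / 2 by positivity)).eventually_ge_atTop _).and ?_)))
    filter_upwards [ev_log 2 δ hδ] with x hx
    linarith
  obtain ⟨P₀, hP₀⟩ := eventually_atTop.1 ev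
  refine ⟨P₀, ?_⟩
  intro p hp hpP a d hd had hadm haA hdA S hS0 hS ι s v hv M L hML hL
  have hpp : p.Prime := Fact.out
  obtain ⟨hpP1, hp10, hpZ, hp2, hplog⟩ := hP₀ p hpP
  have hp0 : (0 : ℝ) < p := by linarith
  have hp1 : (1 : ℝ) < p := by linarith
  have hlogp : 0 < Real.log p := Real.log_pos hp1
  have hpA : (p : ℝ) ≤ (p : ℝ) ^ A := by
    calc (p : ℝ) = (p : ℝ) ^ (1 : ℝ) := (Real.rpow_one _).symm
      _ ≤ _ := Real.rpow_le_rpow_of_exponent_le hp1.le hA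
  obtain ⟨z, hz⟩ : ∃ z, z = ⌊(p : ℝ) ^ δ⌋₊ := ⟨_, rfl⟩
  have hz1 : (z : ℝ) ≤ (p : ℝ) ^ δ := by rw [hz]; exact Nat.floor_le (by positivity)
  have hz2 : (p : ℝ) ^ δ ≤ z + 1 := by rw [hz]; exact (Nat.lt_floor_add_one _).le
  have hzZ : Z₀ ≤ z := by
    have : (Z₀ : ℝ) ≤ z := by linarith
    exact_mod_cast this
  have hzlog : Real.log p ≤ z := by linarith
  have hzr : (2 : ℝ) ≤ z := by
    have : (0 : ℝ) ≤ Z₀ := Nat.cast_nonneg _
    have h3 : (3 : ℝ) ≤ Z₀ := by exact_mod_cast hZ3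
    linarith
  have hlz1 : Real.log z ≤ δ * Real.log p := by
    rw [← Real.log_rpow (by linarith)]
    exact Real.log_le_log (by linarith) hz1
  have hlz2 : δ / 2 * Real.log p ≤ Real.log z := by
    rw [← Real.log_rpow (by linarith)]
    apply Real.log_le_log (by positivity)
    have e : (p : ℝ) ^ δ = (p : ℝ) ^ (δ / 2) * (p : ℝ) ^ (δ / 2) := by
      rw [← Real.rpow_add (by linarith)]; congr 1; ring
    nlinarith
  have hlz0 : 0 < Real.log z := lt_of_lt_of_le (by positivity) hlz2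
  have hE := Hyp_lf hd had hadm
  have hElog : Real.log (Res a d).natAbs ≤ A' * z := by
    have hE1 : (0 : ℝ) < ((Res a d).natAbs : ℕ) := by
      have : 0 < (Res a d).natAbs := Nat.pos_of_ne_zero hE.1
      exact_mod_cast this
    have h1 := Res_le (Q := (p : ℝ) ^ A) (by linarith) haA hdA
    calc Real.log ((Res a d).natAbs : ℕ) ≤ Real.log (((p : ℝ) ^ A) ^ (k + 3 * k ^ 2)) :=
          Real.log_le_log hE1 h1
      _ = A' * Real.log p := by
          rw [Real.log_pow, Real.log_rpow hp0, hA']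
          ring
      _ ≤ _ := mul_le_mul_of_nonneg_left hzlog hA'0
  have hV := hZ z hzZ _ _ hE hElog S hS0 hS
  rw [← hg, abs_le] at hV
  obtain ⟨h1, h2⟩ := H p hpP1 k (lf a d) (fun j => (lf_deg a d j (hd j)).ge) (lf_prod_deg hd).le hadm
    (fun j i => lf_coeff a d j _ (by positivity) (haA j) (hdA j) i) ι s v hv M L hML hL
  rw [← hz] at h1 h2
  obtain ⟨Y, hY⟩ : ∃ Y : ℝ, Y = s.card * ((L : ℝ) / p) := ⟨_, rfl⟩
  have hY0 : 0 ≤ Y := by rw [hY]; positivity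
  have hX : Xk k p S s.card L (Real.log p) = S * Y / Real.log p ^ k := by
    unfold Xk
    rw [hY]
  rw [hX]
  rw [← hY] at h1 h2
  have hlow : g * S / (δ * Real.log p) ^ k ≤ g * S / Real.log z ^ k :=
    div_le_div_of_nonneg_left (by positivity) (by positivity) (pow_le_pow_left₀ hlz0.le hlz1 k)
  have hup : g * S / Real.log z ^ k ≤ g * S / (δ / 2 * Real.log p) ^ k :=
    div_le_div_of_nonneg_left (by positivity) (by positivity)
      (pow_le_pow_left₀ (by positivity) hlz2 k)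
  have hlk : 0 < Real.log p ^ k := by positivity
  constructor
  · obtain ⟨c, hc⟩ : ∃ c : ℝ, c = (((prs p s v M L).filter fun x =>
          ∀ j, Alm r ((p : ℝ) ^ δ) ((lf a d j).eval (x.2 : ℤ)).natAbs).card : ℝ) := ⟨_, rfl⟩
    have hc0 : 0 ≤ c := by rw [hc]; exact Nat.cast_nonneg _
    rw [← hc] at h1 ⊢
    have h3 : 1 / 2 * (g * S / (δ * Real.log p) ^ k) ≤ V (∏ j, lf a d j) z := by linarith [hV.1]
    have h4 : Y * (1 / 2 * (g * S / (δ * Real.log p) ^ k)) ≤ 2 * c :=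
      (mul_le_mul_of_nonneg_left h3 hY0).trans h1
    calc S * Y / Real.log p ^ k = (2 * δ ^ k / g) * (Y * (1 / 2 * (g * S / (δ * Real.log p) ^ k))) := by
          rw [mul_pow]
          field_simp
      _ ≤ (2 * δ ^ k / g) * (2 * c) := mul_le_mul_of_nonneg_left h4 (by positivity)
      _ = (4 * δ ^ k / g) * c := by ring
      _ ≤ K * c := mul_le_mul_of_nonneg_right hK1 hc0
  · have h3 : V (∏ j, lf a d j) z ≤ 3 / 2 * (g * S / (δ / 2 * Real.log p) ^ k) := by linarith [hV.2]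
    calc (((prs p s v M L).filter fun x => ∀ j, ((lf a d j).eval (x.2 : ℤ)).natAbs.Prime).card : ℝ) ≤
        2 * (Y * V (∏ j, lf a d j) z) := h2
      _ ≤ 2 * (Y * (3 / 2 * (g * S / (δ / 2 * Real.log p) ^ k))) := by gcongr
      _ = (3 * g * (2 / δ) ^ k) * (S * Y / Real.log p ^ k) := by
          rw [mul_pow, div_pow, div_pow]
          field_simp
      _ ≤ K * (S * Y / Real.log p ^ k) := mul_le_mul_of_nonneg_right hK2 (by positivity)

end Pool.Agent.Run7.h90.AU
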