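import Pool.Agent.Run7.h90.AU.Fund
import Pool.Agent.Y781.JR.Dens
import Pool.Agent.H560R3.GB.Defs

/-!
# Polynomials with two roots modulo almost all primes: the sieve product and the singular series
-/

set_option autoImplicit false
set_option linter.all false

namespace Pool.Agent.Run7.h90.AU

open Finset Filter Topology
open Run7.h870.LI
open Pool.Agent.Run7.h90.AP
open Pool.Agent.Y781.JR (GG GG_pos GG_mertens)
open Pool.Agent.H560R3.GB (C₂ sing)
open scoped Classical

/-- the partial products of the twin prime constant -/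
noncomputable def Ct (z : ℕ) : ℝ := ∏ p ∈ (Icc 3 z).filter Nat.Prime, (1 - 1 / ((p : ℝ) - 1) ^ 2)

theorem fac01 {l : ℕ} (hl : 3 ≤ l) : 0 < 1 - 1 / ((l : ℝ) - 1) ^ 2 ∧ 1 - 1 / ((l : ℝ) - 1) ^ 2 ≤ 1 := by
  have h3 : (3 : ℝ) ≤ l := by exact_mod_cast hl
  have h1 : (1 : ℝ) < ((l : ℝ) - 1) ^ 2 := by nlinarith
  constructor
  · rw [sub_pos, div_lt_one (by linarith)]
    exact h1
  · have : 0 ≤ 1 / ((l : ℝ) - 1) ^ 2 := by positivity
    linarith

theorem Ct_nonneg (z : ℕ) : 0 ≤ Ct z := by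
  unfold Ct
  exact prod_nonneg fun l hl => (fac01 (mem_Icc.1 (mem_filter.1 hl).1).1).1.le

theorem Ct_lim : Tendsto Ct atTop (𝓝 C₂) := by
  have hanti : Antitone Ct := by
    intro z w h
    unfold Ct
    refine prod_le_prod_of_subset_of_le_one ?_ (fun l hl => ?_) (fun l hl _ => ?_)
    · exact filter_subset_filter _ (Icc_subset_Icc_right h)
    · exact (fac01 (mem_Icc.1 (mem_filter.1 hl).1).1).1.le
    · exact (fac01 (mem_Icc.1 (mem_filter.1 hl).1).1).2
  exact tendsto_atTop_ciInf hanti ⟨0, by rintro _ ⟨z, rfl⟩; exact Ct_nonneg z⟩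

theorem prod_low (z : ℕ) : (1 : ℝ) / 2 ≤ Ct z := by
  have h1 : ∀ z : ℕ, (1 : ℝ) / 2 * (1 + 1 / (z + 2)) ≤
      ∏ l ∈ Icc 3 (z + 3), (1 - 1 / ((l : ℝ) - 1) ^ 2) := by
    intro z
    induction z with
    | zero => norm_num
    | succ z ih =>
      have hIcc : Icc 3 (z + 1 + 3) = insert (z + 3 + 1) (Icc 3 (z + 3)) := by
        ext l
        rw [mem_insert, mem_Icc, mem_Icc]
        omega
      rw [hIcc, prod_insert (by simp)]
      have hz : (0 : ℝ) ≤ z := Nat.cast_nonneg z
      have h2 := (fac01 (l := z + 3 + 1) (by omega)).1.le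
      refine le_trans ?_ (mul_le_mul_of_nonneg_left ih h2)
      push_cast
      rw [show (z : ℝ) + 3 + 1 - 1 = z + 3 by ring]
      have e : (1 - 1 / ((z : ℝ) + 3) ^ 2) * (1 / 2 * (1 + 1 / (z + 2))) =
          1 / 2 * (1 + 1 / (z + 1 + 2)) := by
        field_simp
        ring
      exact e.ge
  unfold Ct
  have h3 : ∏ l ∈ Icc 3 (z + 3), (1 - 1 / ((l : ℝ) - 1) ^ 2) ≤
      ∏ p ∈ (Icc 3 z).filter Nat.Prime, (1 - 1 / ((p : ℝ) - 1) ^ 2) := by
    refine prod_le_prod_of_subset_of_le_one ?_ (fun l hl => ?_) (fun l hl _ => ?_)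
    · exact (filter_subset _ _).trans (Icc_subset_Icc_right (by omega))
    · exact (fac01 (mem_Icc.1 hl).1).1.le
    · exact (fac01 (mem_Icc.1 hl).1).2
  refine le_trans ?_ h3
  refine le_trans ?_ (h1 z)
  have : 0 ≤ 1 / ((z : ℝ) + 2) := by positivity
  linarith

theorem C₂_pos : 0 < C₂ := lt_of_lt_of_le (by norm_num : (0 : ℝ) < 1 / 2)
  (ge_of_tendsto' Ct_lim prod_low)

/-- the partial singular series -/
noncomputable def Sz (E z : ℕ) : ℝ :=
  ∏ l ∈ (Icc 3 z).filter Nat.Prime, (if l ∣ E then ((l : ℝ) - 1) / ((l : ℝ) - 2) else 1)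

theorem V_two {F : Polynomial ℤ} {E : ℕ} (hE : 2 ∣ E)
    (hF : ∀ l : ℕ, l.Prime → rr (QF F) l = if l ∣ E then 1 else 2) (z : ℕ) (hz : 2 ≤ z) :
    V F z = 2 * GG (z + 1) ^ 2 * Ct z * Sz E z := by
  have hset : (range (z + 1)).filter Nat.Prime = insert 2 ((Icc 3 z).filter Nat.Prime) := by
    ext l
    rw [mem_insert, mem_filter, mem_filter, mem_range, mem_Icc]
    constructor
    · rintro ⟨h1, h2⟩
      rcases eq_or_ne l 2 with h | h
      · exact Or.inl h
      · have := h2.two_le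
        exact Or.inr ⟨⟨by omega, by omega⟩, h2⟩
    · rintro (h | ⟨⟨h1, h2⟩, h3⟩)
      · rw [h]
        exact ⟨by omega, Nat.prime_two⟩
      · exact ⟨by omega, h3⟩
  have hni : 2 ∉ (Icc 3 z).filter Nat.Prime := by
    rw [mem_filter, mem_Icc]
    omega
  unfold V GG Ct Sz
  rw [hset, prod_insert hni, prod_insert hni, hF 2 Nat.prime_two, if_pos hE, mul_pow, ← prod_pow,
    mul_assoc, mul_assoc, mul_assoc, ← prod_mul_distrib, ← prod_mul_distrib]
  have e : ∏ l ∈ (Icc 3 z).filter Nat.Prime, (1 - (rr (QF F) l : ℝ) / l) =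
      ∏ l ∈ (Icc 3 z).filter Nat.Prime, ((1 - 1 / (l : ℝ)) ^ 2 * ((1 - 1 / ((l : ℝ) - 1) ^ 2) *
        (if l ∣ E then ((l : ℝ) - 1) / ((l : ℝ) - 2) else 1))) := by
    refine prod_congr rfl fun l hl => ?_
    have hlp := (mem_filter.1 hl).2
    have h3 : (3 : ℝ) ≤ l := by exact_mod_cast (mem_Icc.1 (mem_filter.1 hl).1).1
    have a1 : (l : ℝ) - 1 ≠ 0 := by linarith
    have a2 : (l : ℝ) - 2 ≠ 0 := by linarith
    have a3 : (l : ℝ) ≠ 0 := by linarith
    rw [hF l hlp]
    split_ifs with h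
    · push_cast
      field_simp
      ring
    · push_cast
      field_simp
      ring
  rw [e]
  push_cast
  ring

theorem Sz_le {E : ℕ} (hE : E ≠ 0) (z : ℕ) : 1 ≤ Sz E z ∧ 2 * C₂ * Sz E z ≤ sing E := by
  have hfac : ∀ l : ℕ, 3 ≤ l → 1 ≤ ((l : ℝ) - 1) / ((l : ℝ) - 2) := by
    intro l hl
    have h3 : (3 : ℝ) ≤ l := by exact_mod_cast hl
    rw [le_div_iff₀ (by linarith)]
    linarith
  constructor
  · unfold Sz
    apply one_le_prod
    intro l hl
    split_ifs
    · exact hfac l (mem_Icc.1 (mem_filter.1 hl).1).1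
    · exact le_rfl
  · unfold Sz sing
    apply mul_le_mul_of_nonneg_left _ (by have := C₂_pos; positivity)
    rw [← prod_filter]
    apply prod_le_prod_of_subset_of_one_le
    · intro l hl
      rw [mem_filter, mem_filter, mem_Icc] at hl
      rw [mem_filter, Nat.mem_primeFactors]
      exact ⟨⟨hl.1.2, hl.2, hE⟩, by omega⟩
    · intro l hl
      rw [mem_filter] at hl
      have := hfac l (mem_Icc.1 (mem_filter.1 hl.1).1).1
      linarith
    · intro l hl _
      rw [mem_filter] at hl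
      exact hfac l (by omega)

/-- the tail of the singular series -/
theorem sing_le {E z : ℕ} (hE : E ≠ 0) (hz : 3 ≤ z) :
    sing E ≤ 2 * C₂ * Sz E z * Real.exp (Real.log E / (Real.log z * ((z : ℝ) - 2))) := by
  have hC := C₂_pos
  have hz3 : (3 : ℝ) ≤ z := by exact_mod_cast hz
  have hlz : 0 < Real.log z := Real.log_pos (by linarith)
  unfold sing Sz
  rw [← prod_filter]
  have hsplit : E.primeFactors.filter (fun p => 2 < p) =
      ((Icc 3 z).filter Nat.Prime).filter (fun l => l ∣ E) ∪ E.primeFactors.filter (fun p => z < p) := by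
    ext l
    simp only [mem_filter, mem_union, mem_Icc, Nat.mem_primeFactors]
    constructor
    · rintro ⟨⟨h1, h2, h3⟩, h4⟩
      by_cases h : l ≤ z
      · exact Or.inl ⟨⟨⟨by omega, h⟩, h1⟩, h2⟩
      · exact Or.inr ⟨⟨h1, h2, h3⟩, by omega⟩
    · rintro (⟨⟨⟨h1, h2⟩, h3⟩, h4⟩ | ⟨⟨h1, h2, h3⟩, h4⟩)
      · exact ⟨⟨h3, h4, hE⟩, by omega⟩
      · exact ⟨⟨h1, h2, h3⟩, by omega⟩
  have hdisj : Disjoint (((Icc 3 z).filter Nat.Prime).filter (fun l => l ∣ E))
      (E.primeFactors.filter (fun p => z < p)) := by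
    rw [disjoint_left]
    intro l h1 h2
    rw [mem_filter, mem_filter, mem_Icc] at h1
    rw [mem_filter] at h2
    omega
  rw [hsplit, prod_union hdisj, mul_assoc (2 * C₂)]
  apply mul_le_mul_of_nonneg_left _ (by positivity)
  have hT : ∏ l ∈ E.primeFactors.filter (fun p => z < p), ((l : ℝ) - 1) / ((l : ℝ) - 2) ≤
      Real.exp (Real.log E / (Real.log z * ((z : ℝ) - 2))) := by
    have h1 : ∀ l ∈ E.primeFactors.filter (fun p => z < p), ((l : ℝ) - 1) / ((l : ℝ) - 2) ≤
        Real.exp (1 / ((z : ℝ) - 2)) := by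
      intro l hl
      have h2 : (z : ℝ) < l := by exact_mod_cast (mem_filter.1 hl).2
      have h3 : ((l : ℝ) - 1) / ((l : ℝ) - 2) = 1 / ((l : ℝ) - 2) + 1 := by
        have : (l : ℝ) - 2 ≠ 0 := by linarith
        field_simp
        ring
      rw [h3]
      refine le_trans ?_ (Real.add_one_le_exp _)
      have : 1 / ((l : ℝ) - 2) ≤ 1 / ((z : ℝ) - 2) :=
        one_div_le_one_div_of_le (by linarith) (by linarith)
      linarith
    have h4 : (E.primeFactors.filter (fun p => z < p)).card * Real.log z ≤ Real.log E := by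
      have h5 : z ^ (E.primeFactors.filter (fun p => z < p)).card ≤ E := by
        calc z ^ (E.primeFactors.filter (fun p => z < p)).card =
            ∏ _l ∈ E.primeFactors.filter (fun p => z < p), z := by rw [prod_const]
          _ ≤ ∏ l ∈ E.primeFactors.filter (fun p => z < p), l :=
              prod_le_prod' fun l hl => (mem_filter.1 hl).2.le
          _ ≤ ∏ l ∈ E.primeFactors, l := by
              apply prod_le_prod_of_subset_of_one_le' (filter_subset _ _)
              intro l hl _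
              exact (Nat.prime_of_mem_primeFactors hl).one_le
          _ ≤ E := Nat.le_of_dvd (Nat.pos_of_ne_zero hE) (Nat.prod_primeFactors_dvd E)
      have h6 : Real.log ((z : ℝ) ^ (E.primeFactors.filter (fun p => z < p)).card) ≤ Real.log E := by
        apply Real.log_le_log (by positivity)
        exact_mod_cast h5
      rwa [Real.log_pow] at h6
    calc ∏ l ∈ E.primeFactors.filter (fun p => z < p), ((l : ℝ) - 1) / ((l : ℝ) - 2) ≤
        ∏ _l ∈ E.primeFactors.filter (fun p => z < p), Real.exp (1 / ((z : ℝ) - 2)) := by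
          refine prod_le_prod (fun l hl => ?_) h1
          have h2 : (z : ℝ) < l := by exact_mod_cast (mem_filter.1 hl).2
          exact div_nonneg (by linarith) (by linarith)
      _ = Real.exp ((E.primeFactors.filter (fun p => z < p)).card * (1 / ((z : ℝ) - 2))) := by
          rw [prod_const, ← Real.exp_nat_mul]
      _ ≤ _ := by
          apply Real.exp_le_exp.2
          have hz2 : (0 : ℝ) < (z : ℝ) - 2 := by linarith
          rw [mul_one_div, div_le_div_iff₀ hz2 (by positivity)]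
          have := mul_le_mul_of_nonneg_right h4 hz2.le
          linarith
  have h0 : 0 ≤ ∏ l ∈ ((Icc 3 z).filter Nat.Prime).filter (fun l => l ∣ E), ((l : ℝ) - 1) / ((l : ℝ) - 2) := by
    apply prod_nonneg
    intro l hl
    rw [mem_filter, mem_filter, mem_Icc] at hl
    have h3 : (3 : ℝ) ≤ l := by exact_mod_cast hl.1.1.1
    exact div_nonneg (by linarith) (by linarith)
  exact mul_le_mul_of_nonneg_left hT h0

end Pool.Agent.Run7.h90.AU
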