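import Pool.Agent.Run7.h90.AU.Alt

/-!
# Patterns depending on parameters, uniformly in the parameters
-/

set_option autoImplicit false
set_option linter.all false

namespace Pool.Agent.Run7.h90.AU

open Finset Filter Topology
open scoped Classical

/-- A pattern `Q θ` with parameters `θ` assigns to a property `P` of natural numbers a property of `n`; `C θ z` are the
partial products of its constant, `size θ` bounds its parameters, `ok θ` are its conditions. `UniformFormula`: for all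
families `(v i)`, `i ∈ s`, of residues modulo a large prime `p` with exponential sums at most `p ^ (-ε) |s|`, and all
parameters with `ok θ` and `size θ ≤ p ^ A`, the products `C θ z` have a positive limit `D`, and for all intervals
`(M, M + L]` with `L ≥ p ^ (1 - δ)` and `log p ≤ z ≤ p ^ (δ / b)` the number of the pairs `(i, n)`, `n ≡ v i`,
`M < n ≤ M + L`, with the pattern `Q θ` for the numbers without prime factors `≤ z` is
`e ^ (- m γ) D |s| (L / p) / (log z) ^ m` up to a factor `1 ± 2 ^ (-b)`; here `δ` depends on `ε` and `A`. -/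
def UniformFormula {Θ : Type} (m : ℕ) (Q : Θ → (ℕ → Prop) → ℕ → Prop) (C : Θ → ℕ → ℝ) (size : Θ → ℝ)
    (ok : Θ → Prop) : Prop :=
  ∀ ε A : ℝ, 0 < ε → 1 ≤ A → ∃ δ : ℝ, 0 < δ ∧ ∀ b : ℕ, 1 ≤ b → ∃ P₀ : ℝ, ∀ (p : ℕ) [Fact p.Prime], P₀ ≤ p →
    ∀ (ι : Type) (s : Finset ι) (v : ι → ZMod p), SmallSums p ε s v →
    ∀ θ : Θ, ok θ → size θ ≤ (p : ℝ) ^ A → ∃ D : ℝ, 0 < D ∧ Tendsto (C θ) atTop (𝓝 D) ∧
    ∀ M L z : ℕ, (p : ℝ) ^ (1 - δ) ≤ L → Real.log p ≤ z → (z : ℝ) ≤ (p : ℝ) ^ (δ / b) →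
    |(number p s v M L (Q θ (Rough z)) : ℝ) -
      Real.exp (-(m * Real.eulerMascheroniConstant)) * (D * (s.card * ((L : ℝ) / p)) / Real.log z ^ m)| ≤
    (1 / 2) ^ b * (Real.exp (-(m * Real.eulerMascheroniConstant)) *
      (D * (s.card * ((L : ℝ) / p)) / Real.log z ^ m))

/-- `UniformOrders`: for the same families and parameters and intervals contained in `[0, p ^ A]`, the number of the pairs
with the pattern `Q θ` for the products of at most `r` primes, all at least `p ^ δ`, is at least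
`D |s| (L / p) / (K (log p) ^ m)`, and the number of the pairs with the pattern `Q θ` for primes is at most
`K D |s| (L / p) / (log p) ^ m`; `r`, `δ`, `K` depend on `ε` and `A` only. -/
def UniformOrders {Θ : Type} (m : ℕ) (Q : Θ → (ℕ → Prop) → ℕ → Prop) (C : Θ → ℕ → ℝ) (size : Θ → ℝ)
    (ok : Θ → Prop) : Prop :=
  ∀ ε A : ℝ, 0 < ε → 1 ≤ A → ∃ (r : ℕ) (δ K : ℝ), 0 < δ ∧ 0 < K ∧ ∃ P₀ : ℝ,
    ∀ (p : ℕ) [Fact p.Prime], P₀ ≤ p →
    ∀ (ι : Type) (s : Finset ι) (v : ι → ZMod p), SmallSums p ε s v →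
    ∀ θ : Θ, ok θ → size θ ≤ (p : ℝ) ^ A → ∃ D : ℝ, 0 < D ∧ Tendsto (C θ) atTop (𝓝 D) ∧
    ∀ M L : ℕ, (M + L : ℝ) ≤ (p : ℝ) ^ A → (p : ℝ) ^ (1 - δ) ≤ L →
    D * (s.card * ((L : ℝ) / p)) / Real.log p ^ m ≤
      K * (number p s v M L (Q θ (Almost r ((p : ℝ) ^ δ))) : ℝ) ∧
    (number p s v M L (Q θ Nat.Prime) : ℝ) ≤ K * (D * (s.card * ((L : ℝ) / p)) / Real.log p ^ m)

/-- the data of a pattern with parameters -/
structure Pat {Θ : Type} (m : ℕ) (Q : Θ → (ℕ → Prop) → ℕ → Prop) (C : Θ → ℕ → ℝ) (size : Θ → ℝ)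
    (ok : Θ → Prop) (a d : Θ → Fin m → ℤ) : Prop where
  nd : ∀ θ, ok θ → ND (a θ) (d θ)
  sa : ∀ θ, ok θ → ∀ j, |(a θ j : ℝ)| ≤ size θ
  sd : ∀ θ, ok θ → ∀ j, |(d θ j : ℝ)| ≤ size θ
  pat : ∀ θ, ok θ → ∀ (P : ℕ → Prop) (n : ℕ), 1 ≤ n → ((∀ j, P (a θ j + d θ j * (n : ℤ)).natAbs) ↔ Q θ P n)
  con : ∀ θ, ok θ → C θ =ᶠ[atTop] psing (a θ) (d θ)

theorem Pat.ts {Θ : Type} {m : ℕ} {Q : Θ → (ℕ → Prop) → ℕ → Prop} {C : Θ → ℕ → ℝ} {size : Θ → ℝ}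
    {ok : Θ → Prop} {a d : Θ → Fin m → ℤ} (h : Pat m Q C size ok a d) {θ : Θ} (hθ : ok θ) {B : ℝ} (hB : size θ ≤ B) :
    TS B (a θ) (d θ) :=
  ⟨(h.nd θ hθ).1, (h.nd θ hθ).2.1, (h.nd θ hθ).2.2, fun j => (h.sa θ hθ j).trans hB,
    fun j => (h.sd θ hθ j).trans hB⟩

theorem Pat.formula {Θ : Type} {m : ℕ} {Q : Θ → (ℕ → Prop) → ℕ → Prop} {C : Θ → ℕ → ℝ} {size : Θ → ℝ}
    {ok : Θ → Prop} {a d : Θ → Fin m → ℤ} (h : Pat m Q C size ok a d) : UniformFormula m Q C size ok := by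
  intro ε A hε hA
  obtain ⟨δ, hδ, H⟩ := cls_count m ε A hε hA
  refine ⟨δ, hδ, fun b hb => ?_⟩
  obtain ⟨P₀, H⟩ := H b hb
  refine ⟨P₀, ?_⟩
  intro p hp hpP ι s v hv θ hθ hs
  have hT := h.ts hθ hs
  obtain ⟨D, hD, hl⟩ := psing_lim hT
  refine ⟨D, hD, hl.congr' (h.con θ hθ).symm, ?_⟩
  intro M L z hL hz1 hz2
  have h1 := H p hpP ι s v hv (a θ) (d θ) hT D hD hl M L z hL hz1 hz2
  rw [number_congr p s v M L _ (Q θ (Rough z)) (fun n hn => by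
    rw [← h.pat θ hθ (Rough z) n (by omega)]
    exact free_prod z (a θ) (d θ) n)] at h1
  exact h1

theorem Pat.orders {Θ : Type} {m : ℕ} {Q : Θ → (ℕ → Prop) → ℕ → Prop} {C : Θ → ℕ → ℝ} {size : Θ → ℝ}
    {ok : Θ → Prop} {a d : Θ → Fin m → ℤ} (h : Pat m Q C size ok a d) : UniformOrders m Q C size ok := by
  intro ε A hε hA
  obtain ⟨r, δ, K, hδ, hK, P₀, H⟩ := cls_orders m ε A hε hA
  refine ⟨r, δ, K, hδ, hK, P₀, ?_⟩
  intro p hp hpP ι s v hv θ hθ hs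
  have hT := h.ts hθ hs
  obtain ⟨D, hD, hl⟩ := psing_lim hT
  refine ⟨D, hD, hl.congr' (h.con θ hθ).symm, ?_⟩
  intro M L hM hL
  obtain ⟨h1, h2⟩ := H p hpP ι s v hv (a θ) (d θ) hT D hD hl M L hM hL
  rw [number_congr p s v M L _ (Q θ (Almost r ((p : ℝ) ^ δ))) (fun n hn => h.pat θ hθ _ n (by omega))] at h1
  rw [number_congr p s v M L _ (Q θ Nat.Prime) (fun n hn => h.pat θ hθ _ n (by omega))] at h2
  exact ⟨h1, h2⟩

theorem small_affine {p : ℕ} [Fact p.Prime] {ε : ℝ} {ι : Type} {s : Finset ι} {v : ι → ZMod p}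
    (h : SmallSums p ε s v) {c : ZMod p} (hc : c ≠ 0) (e : ZMod p) : SmallSums p ε s (fun i => c * v i + e) := by
  intro ξ hξ
  have h1 := h (ξ * c) (mul_ne_zero hξ hc)
  have h2 : ∑ i ∈ s, (ZMod.stdAddChar (ξ * (c * v i + e)) : ℂ) =
      ZMod.stdAddChar (ξ * e) * ∑ i ∈ s, (ZMod.stdAddChar (ξ * c * v i) : ℂ) := by
    rw [mul_sum]
    refine sum_congr rfl fun i _ => ?_
    rw [← AddChar.map_add_eq_mul]
    congr 1
    ring
  have h3 : ‖(ZMod.stdAddChar (ξ * e) : ℂ)‖ = 1 := AddChar.norm_apply _ _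
  rw [h2, norm_mul, h3, one_mul]
  exact h1

end Pool.Agent.Run7.h90.AU
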